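import Mathlib
import Pool.Agent.MP_fed7c7_lc.H34.Seven

set_option autoImplicit false

/-!
Six unknowns: the definitions and the rows.
-/

namespace Pool.Agent.MP_fed7c7_lc.S6

open PowerSeries Finset Pool.Agent.MP_fed7c7_lc.H56 Pool.Agent.MP_fed7c7_lc.H21
  Pool.Agent.MP_fed7c7_lc.H93

/-- The part of `n` prime to `3`, modulo `3`. -/
def un (n : ℕ) : ZMod 3 := ((n / 3 ^ padicValNat 3 n : ℕ) : ZMod 3)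

/-- The unit part of the factorial. -/
def sg (m : ℕ) : ZMod 3 := un m.factorial

/-- The valuation of the central binomial coefficient. -/
def vb (n : ℕ) : ℕ := padicValNat 3 n.centralBinom

open Classical in
/-- Sets read with the weight `sg` by a nice series. -/
def WG (T : ℕ → Prop) : Prop := ∃ g, Nice g ∧
  (∀ m, ((coeff m g : ℤ) : ZMod 3) = if T m then sg m else 0) ∧ (¬T 0 → X ∣ g)

/-- The linear block: `2`, digits in `L`, `e2`, `e1` (from the top). -/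
def V1 (B e1 e2 : ℕ) (L : ℕ → Prop) : ℕ → Prop :=
  Nx B (Nx B (Nx B (Z0 B (· = 0)) (· = 2) L) (· = e2) fun _ => False) (· = e1) fun _ => False

/-- The square block: `1`, digits in `L`, `e3` (from the top). -/
def V2 (B e3 : ℕ) (L : ℕ → Prop) : ℕ → Prop :=
  Nx B (Nx B (Z0 B (· = 0)) (· = 1) L) (· = e3) fun _ => False

/-- The whole test: `1`, `L2`, `e3`, zeros, `2`, `L1`, `e2`, `e1`, zeros, `1` (from the top). -/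
def TT (B e1 e2 e3 : ℕ) (L1 L2 : ℕ → Prop) : ℕ → Prop :=
  Nx B (Nx B (Nx B (Nx B (Nx B (Nx B (Z0 B (· = 0)) (· = 1) L2) (· = e3) (· = 0)) (· = 2) L1)
    (· = e2) fun _ => False) (· = e1) (· = 0)) (· = 1) fun _ => False

/-- ROW UN. -/
def SUN : Prop := (∀ a b, a ≠ 0 → b ≠ 0 → un (a * b) = un a * un b) ∧
  (∀ a, a ≠ 0 → un a * un a = 1) ∧ (∀ a, ¬3 ∣ a → un a = a) ∧ (∀ k, un (3 ^ k) = 1) ∧
  (∀ w q r, r < 9 ^ w → sg (9 ^ w * q + r) = sg q * sg r) ∧ sg 0 = 1 ∧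
  ∀ n, un n.centralBinom = sg (2 * n)

/-- ROW WS: the weighted step (port of `Good.zero`, `Good.or`, `Good.step`). -/
def SWS : Prop := WG (· = 0) ∧
  (∀ T U, WG T → WG U → (∀ m, ¬(T m ∧ U m)) → WG fun m => T m ∨ U m) ∧
  ∀ (w : ℕ) (U T E L : ℕ → Prop), 1 ≤ w → WG U → ¬T 0 →
    (∀ m, T m ↔ L (m % 9 ^ w) ∧ T (m / 9 ^ w) ∨ E (m % 9 ^ w) ∧ U (m / 9 ^ w)) →
    (∀ m, ¬((L (m % 9 ^ w) ∧ T (m / 9 ^ w)) ∧ E (m % 9 ^ w) ∧ U (m / 9 ^ w))) → WG T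

/-- ROW WT: the test is weighted good (port of `ch_zero`, `Ch.next`). -/
def SWT : Prop := ∀ (w e1 e2 e3 : ℕ) (L1 L2 : ℕ → Prop), 1 ≤ w → ¬L1 e2 → ¬L2 e3 →
  WG (TT (9 ^ w) e1 e2 e3 L1 L2)

/-- ROW WU: the unit part of `m - 1`. -/
def SWU : Prop := ∃ g, Nice g ∧ ∀ m, 1 < m → 9 ∣ m - 1 →
  ((coeff m g : ℤ) : ZMod 3) = sg m * un (m - 1)

/-- ROW NB. -/
def SNB : Prop := ∃ b, Nice b ∧ ∀ n, coeff (2 * n + 1) b = n.centralBinom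

/-- ROW ND. -/
def SND : Prop := ∀ g, Nice g → Nice (mk fun i => (i : ℤ) * coeff i g)

/-- ROW KEY: the test and the valuation in one coefficient. -/
def SKEY : Prop := ∀ (T : ℕ → Prop) (f : ℕ), WG T → (∀ m, T m → un (m - 1) = 2) →
  ∃ c, Nice c ∧ ∀ n, 1 ≤ n → 9 ∣ 2 * n - 1 →
    ((3 : ℤ) ^ (f + 3 * padicValNat 3 (2 * n - 1) + 1) ∣ coeff (2 * n + 1) c ↔
      T (2 * n) ∧ vb n = f + 3 * padicValNat 3 (2 * n - 1))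

/-- ROW RD: reading with a window. -/
def SRD : Prop := ∀ c, Nice c → ∃ (p : MvPolynomial (Fin 4) ℤ) (N : ℕ) (K : ℤ), 1 ≤ K ∧
  ∀ (A κ i : ℤ), 1 ≤ κ → i ≠ 0 → (K * κ) ^ i.natAbs ≤ A → ∃ L : ℤ,
    (0 < i → 2 * A ∣ L - coeff i.toNat c) ∧
    (∀ l, 0 < MvPolynomial.eval ![A, ps A i, l, κ] p → κ * (l - (A - 1) * L) ^ 2 ≤ A - 1) ∧
    ((N : ℤ) ≤ i → ∀ μ, |μ| ≤ i → 0 < MvPolynomial.eval ![A, ps A i, (A - 1) * L + μ, κ] p)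

/-- The two valuation conditions in one number (`A = 3 * A3`). -/
def T0 (A A3 Q P φ : ℤ) : ℤ :=
  (A ^ 12 * (A ^ 2 * Q ^ 2 - P)) ^ 2 + (A3 * ((φ * (P - 4 * A ^ 2) ^ 3) ^ 2 - A ^ 14)) ^ 2

/-- ROW AD: the valuation gadget. -/
def SAD : Prop := (∀ A i : ℤ, Odd i → A ^ 4 ∣ pl A (ps A i) - i ^ 2 * A ^ 2) ∧
  ∀ (A A3 Q P i c ω δ α : ℤ) (V ν f τ : ℕ), A = 3 * A3 → A = 3 ^ V * α → ¬3 ∣ α →
    A ^ 4 ∣ P - i ^ 2 * A ^ 2 → ¬3 ∣ ω → A ∣ Q ^ 2 - i ^ 2 - 3 ^ ν * c * ω →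
    i ^ 2 - 4 = 3 ^ τ * δ → ¬3 ∣ δ →
    ((3 : ℤ) ^ (30 * V) ∣ T0 A A3 Q P (3 ^ (f + ν + 1)) ↔
      f + 3 * τ + ν + 1 = V ∧ (3 : ℤ) ^ (f + 3 * τ + 1) ∣ c)

/-- Two squares and three divisibilities as one equation. -/
def E5 (P₁ P D G S x M T z : ℤ) : ℤ :=
  cmb ((G ^ 2 - 1) * D ^ 2 * x * M * z - ((S ^ 2 - 1) * x * M + (G ^ 2 - 1) * D ^ 2 * S * M +
    (G ^ 2 - 1) * D ^ 2 * x * T)) ((G ^ 2 - 1) * D ^ 2 * x * M) P₁ (P * ((G ^ 2 - 1) * (S ^ 2 - 1)))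

def E4 (P₁ P D R m G F S T s z : ℤ) : ℤ :=
  E5 P₁ (4 * P) D G S (4 + F * (160 * D * (R - 1) + m * F) + 8 * F * m * s) (P ^ 15)
    (T * (3 * s + 1) ^ 15) z

def E3 (P₁ P D R m c S T s z : ℤ) : ℤ :=
  E4 P₁ P D R m (c * m - 1) (c * (c * m - 1 - 1) * D * P) S T s z

/-- The sign certificate, the link and the valuation condition; `4 * P` is the Pell square. -/
def E2 (P₁ P D R G S T s z : ℤ) : ℤ :=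
  E3 P₁ P D R (H34.mM G (4 * P) D R) ((G + 1) * (2 * H34.mM G (4 * P) D R - 1)) S T s z

/-- ROW SS: soundness of `E2` (port of `H34.e2_sound`). -/
def SSS : Prop := ∀ P₁ P D R G₀ S T s z : ℤ, Even G₀ → Odd D → Odd P → IsCoprime P D →
  IsCoprime P (G₀ ^ 2 - 1) → E2 P₁ P D R G₀ S T s z = 0 → IsSquare P₁ ∧
    (2 ≤ G₀ → 0 < P → IsCoprime (4 * P) (S ^ 2 - 1) → 0 < R ∧ IsSquare (4 * P) ∧
      (∃ S₀ w, 4 * P ∣ S₀ - S ∧ S₀ ^ 2 - 1 = (G₀ ^ 2 - 1) * D ^ 2 * w ^ 2) ∧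
      P ^ 15 ∣ T * (3 * s + 1) ^ 15)

/-- ROW SC: completeness of `E2` (port of `H34.e2_complete`, `exists_dvd`, `exists_prime`). -/
def SSC : Prop := ∀ (P₁ P D R G₀ T X e : ℤ) (V : ℕ), Even G₀ → Odd D → Odd P → 2 ≤ G₀ → 0 < P →
  0 < R → 2 ≤ V → P = 3 ^ V * e → ¬3 ∣ e → 3 ^ (15 * V) ∣ T → Odd X → 3 ∣ X → IsSquare P₁ →
  IsSquare (4 * P) → D ∣ ps G₀ X → ∃ S s z, 4 * P ∣ S - ch G₀ X ∧ E2 P₁ P D R G₀ S T s z = 0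

/-- The tested index minus one. -/
def qm (β ν μ : ℤ) : ℤ := 1 + 2 * (ν * (2 * μ + 1)) + β * (ν * (2 * μ + 1)) ^ 2

/-- ROW CORE: the equation in six unknowns and the parameter `x 0`. -/
def SCORE : Prop := ∀ (c : ℤ⟦X⟧) (ν f : ℕ), Nice c → 2 ≤ ν → ∃ (E : ℤ → (Fin 6 → ℤ) → ℤ) (N : ℕ),
  (PF fun v : Fin (6 + 2) → ℤ => E (v 0) fun i => v i.succ.succ) ∧ ∀ β : ℕ, Odd β →
    (∀ x, E β x = 0 → ∃ (μ : ℤ) (n : ℕ), (2 * n : ℤ) = qm β (3 ^ ν) μ ∧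
      (3 : ℤ) ^ (f + 3 * padicValNat 3 (2 * n - 1) + 1) ∣ coeff (2 * n + 1) c) ∧
    ∀ μ n : ℕ, N ≤ n → (2 * n : ℤ) = qm β (3 ^ ν) μ →
      (3 : ℤ) ^ (f + 3 * padicValNat 3 (2 * n - 1) + 1) ∣ coeff (2 * n + 1) c → ∃ x, E β x = 0

/-- ROW VL: every digit is seen by the valuation. -/
def SVL : Prop := ∀ w s n p : ℕ, 1 ≤ s → s ≤ 2 * w → 1 ≤ p → dig (9 ^ w) (2 * n) 0 = 1 →
  2 * n / (9 ^ w) ^ p = 1 →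
  (∀ k, 0 < k → k < p → Even (dig (9 ^ w) (2 * n) k) ∧ dig (9 ^ w) (2 * n) k < 3 ^ (s - 1)) →
  2 * w * p ≤ vb n + 2 * s * p

/-- ROW VS: inserting one zero digit. -/
def SVS : Prop := ∀ w Y Z p n n' : ℕ, Odd Y → Odd Z → Y < (9 ^ w) ^ p →
  2 * n = Y + (9 ^ w) ^ p * Z → 2 * n' = Y + (9 ^ w) ^ (p + 1) * Z → vb n' = vb n + 2 * w

/-- The digit sets are small, even and disjoint. -/
structure Dg (w s e1 e2 e3 : ℕ) (L1 L2 : ℕ → Prop) : Prop where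
  s1 : 2 ≤ s
  sw : 10 * s ≤ w
  a1 : e1 % 6 = 2 ∧ e1 < 3 ^ (s - 1)
  a2 : Even e2 ∧ e2 < 3 ^ (s - 1)
  a3 : Even e3 ∧ e3 < 3 ^ (s - 1)
  b1 : ∀ d, L1 d → Even d ∧ d < 3 ^ (s - 1)
  b2 : ∀ d, L2 d → Even d ∧ d < 3 ^ (s - 1)
  c1 : ¬L1 e2
  c2 : ¬L1 e3 ∧ ¬L2 e3 ∧ e3 ≠ 0 ∧ e3 ≠ 2 ∧ e3 ≠ e2

/-- ROW PS: a short accepted number splits into the two blocks. -/
def SPS : Prop := ∀ (w s e1 e2 e3 β n f : ℕ) (L1 L2 : ℕ → Prop) (μ : ℤ), Dg w s e1 e2 e3 L1 L2 →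
  1 ≤ β → (∀ x, 2 * x % 9 ^ w = e1 → β * x ^ 2 % 9 ^ w = e3) → f < 2 * w →
  (2 * n : ℤ) = qm β (3 ^ (40 * w)) μ → TT (9 ^ w) e1 e2 e3 L1 L2 (2 * n) →
  vb n = f + 3 * padicValNat 3 (2 * n - 1) →
  ∃ x, V1 (9 ^ w) e1 e2 L1 (2 * x) ∧ V2 (9 ^ w) e3 L2 (β * x ^ 2)

/-- ROW PC: the two blocks are joined at the right distance. -/
def SPC : Prop := ∀ (w s e1 e2 e3 : ℕ) (L1 L2 : ℕ → Prop), Dg w s e1 e2 e3 L1 L2 →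
  (∀ m, TT (9 ^ w) e1 e2 e3 L1 L2 m → un (m - 1) = 2) ∧ ∀ β x : ℕ, Odd β → Odd x →
  (9 ^ w) ^ 40 ≤ x → V1 (9 ^ w) e1 e2 L1 (2 * x) → V2 (9 ^ w) e3 L2 (β * x ^ 2) →
  ∃ μ n f : ℕ, x ≤ n ∧ f < 2 * w ∧ (2 * n : ℤ) = qm β (3 ^ (40 * w)) μ ∧
    TT (9 ^ w) e1 e2 e3 L1 L2 (2 * n) ∧ vb n = f + 3 * padicValNat 3 (2 * n - 1)

/-- A system of labels. -/
structure Sy where
  R : ℕ
  fst : ℕ
  nx : ℕ → ℕ → Prop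
  fin : ℕ → Prop
  st : ℕ → Prop
  mark : ℕ → Prop
  seen : ℕ → Prop
  ck : ℕ → ℕ → Prop
  h1 : fst < R
  h2 : ∀ a b, nx a b → b ≠ fst
  h3 : ¬st fst
  h4 : ∀ a, st a → seen a
  h5 : ∀ a b, nx a b → seen a → seen b ∧ ¬st b
  h6 : ∀ a b, ck a b → ck b a

/-- Chains of labels. -/
def Sy.Run (S : Sy) (a : ℕ) : Prop := ∃ (N : ℕ) (g : ℕ → ℕ), g 0 = S.fst ∧ (∀ i ≤ N, g i < S.R) ∧
  (∀ i < N, S.nx (g i) (g (i + 1)) ∧ ¬S.fin (g i)) ∧ S.fin (g N) ∧ a + 1 ≤ N ∧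
  S.mark (g (a + 1)) ∧ ∀ k i, k ≤ i → i ≤ N → S.st (g k) → S.ck (g i) (g (i - k))

/-- ROW LAB. -/
def SLAB : Prop := ∀ (r f c e : ℕ) (W : ℕ → ℕ → ℕ → ℕ → Prop), f < r → c < r → e < r →
  ∃ S : Sy, ∀ a, Tab r f c e W a ↔ S.Run a

/-- The digit of the label `j`: origin `0`, pointer `1`, last pointer `2`, clocks `j + 3`. -/
def dv (j : ℕ) : ℕ := 16 ^ 3 ^ j

/-- The pair of labels `a`, `b` occurs in `c`. -/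
def Ev (c a b : ℕ) : Prop := dig 16 c (3 ^ a + 3 ^ b) ≠ 0

/-- The label `a` is on the diagonal of `c`. -/
def Di (c a : ℕ) : Prop := Odd (dig 16 c (2 * 3 ^ a))

/-- The bound of the convolution digits. -/
def Sy.ll (S : Sy) : ℕ := 16 ^ (2 * 3 ^ (S.R + 3))

/-- Digits of the linear block. -/
def Sy.L1 (S : Sy) (d : ℕ) : Prop :=
  d = 0 ∨ d = 2 * dv 1 ∨ d = 2 * dv 2 ∨ ∃ j < S.R, j ≠ S.fst ∧ d = 2 * dv (j + 3)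

/-- The rules. -/
structure Sy.Rul (S : Sy) (c c' : ℕ) : Prop where
  r0 : ¬Ev c 0 0
  r1 : ∀ a < S.R, Ev c 0 (a + 3) → a = S.fst ∨ ∃ b < S.R, Di c (b + 3) ∧ S.nx b a ∧ ¬S.fin b
  r2 : ∀ b < S.R, Di c (b + 3) → ¬S.fin b → ∃ a < S.R, Ev c 0 (a + 3)
  r3 : ∀ a < S.R, Ev c (S.fst + 3) (a + 3) → S.st a → Ev c 0 1 ∨ Ev c 0 2
  r4 : Ev c 0 1 ∨ Ev c 0 2 → (Di c 1 ∨ ∃ a < S.R, S.st a ∧ Ev c (S.fst + 3) (a + 3)) ∧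
    ∃ a < S.R, ∃ b < S.R, Ev c (a + 3) (b + 3) ∧ S.ck a b ∧ (Ev c 0 2 → S.fin a ∨ S.fin b)
  r5 : Di c 1 → Ev c 0 1 ∨ Ev c 0 2
  r6 : Ev c' 0 0 → ∃ a < S.R, S.mark a ∧ Ev c 0 (a + 3)

/-- Digits of the square block. -/
def Sy.L2 (S : Sy) (y : ℕ) : Prop := Even y ∧ y < S.ll ^ 2 ∧ S.Rul (y / S.ll) (y % S.ll)

/-- The digit function has labels: `t p = 0` blank, `t p = 1` top, `t p = j + 2` label `j`. -/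
def val (t : ℕ) : ℕ := if t = 0 then 0 else if t = 1 then 1 else dv (t - 2)

/-- The convolution digit. -/
def cv (t : ℕ → ℕ) (n : ℕ) : ℕ := ∑ a ∈ range (n + 1), val (t a) * val (t (n - a))

/-- ROW CV: reading a convolution digit with few terms. -/
def SCV : Prop := ∀ (t : ℕ → ℕ) (n R : ℕ), (∀ a ≤ n, t a < R + 5) →
  ((range (n + 1)).filter fun a => t a ≠ 0 ∧ t (n - a) ≠ 0).card ≤ 15 →
  cv t n < 16 ^ (2 * 3 ^ (R + 3)) ∧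
  (∀ i j, Ev (cv t n) i j ↔ ∃ a ≤ n, t a = i + 2 ∧ t (n - a) = j + 2) ∧
  (∀ i, Di (cv t n) i ↔ ∃ a, n = 2 * a ∧ t a = i + 2) ∧
  (Odd (cv t n) → ∃ a ≤ n, t a = 1 ∧ t (n - a) = 1)

/-- ROW DS: digits of the square block from the convolution digits. -/
def SDS : Prop := ∀ (B l d x n : ℕ) (t : ℕ → ℕ), l ^ 2 ≤ B → 2 ≤ l → 1 ≤ d →
  (∀ p, dig B x p = val (t p)) → (∀ k ≤ n, cv t k < l) →
  dig B ((l + B ^ d) * x ^ 2) n = l * cv t n + if d ≤ n then cv t (n - d) else 0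

/-- ROW GS. -/
def SGS : Prop := ∀ (S : Sy) (B a x : ℕ), S.ll ^ 2 ≤ B → Odd B →
  V1 B (2 * dv 0) (2 * dv (S.fst + 3)) S.L1 (2 * x) →
  V2 B (S.ll * dv 0 ^ 2) S.L2 ((S.ll + B ^ 2 ^ (a + 1)) * x ^ 2) → S.Run a

/-- ROW GC. -/
def SGC : Prop := ∀ (S : Sy) (B a M : ℕ), S.ll ^ 2 ≤ B → Odd B → S.Run a → ∃ x, M ≤ x ∧ Odd x ∧
  V1 B (2 * dv 0) (2 * dv (S.fst + 3)) S.L1 (2 * x) ∧
  V2 B (S.ll * dv 0 ^ 2) S.L2 ((S.ll + B ^ 2 ^ (a + 1)) * x ^ 2)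

end Pool.Agent.MP_fed7c7_lc.S6
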