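import Mathlib
import Pool.Agent.MP_fed7c7_lc.S6.Spec

set_option autoImplicit false

/-!
Six unknowns: the rows give the reduction.
-/

namespace Pool.Agent.MP_fed7c7_lc.S6

open PowerSeries Finset Pool.Agent.MP_fed7c7_lc.H56 Pool.Agent.MP_fed7c7_lc.H93

namespace Finx

theorem pf_prod {σ : Type} (F : ℕ → (σ → ℤ) → ℤ) (h : ∀ f, PF (F f)) (n : ℕ) :
    PF fun v => ∏ f ∈ range n, F f v := by
  induction n with
  | zero => simpa using PF.const 1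
  | succ n ih => simpa [prod_range_succ] using ih.mul (h n)

theorem dv_inj {a b : ℕ} (h : dv a = dv b) : a = b :=
  Nat.pow_right_injective (by norm_num : 2 ≤ 3) (Nat.pow_right_injective (by norm_num : 2 ≤ 16) h)

theorem dv_even (a : ℕ) : Even (2 * dv a) := even_two_mul _

theorem dv_pos (a : ℕ) : 0 < dv a := by unfold dv; positivity

theorem dv_lt (S : Sy) {j : ℕ} (h : j ≤ S.R + 2) : 256 * dv j ≤ S.ll := by
  have h1 : 3 ^ j ≤ 3 ^ (S.R + 3) := Nat.pow_le_pow_right (by omega) (by omega)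
  have h2 : 3 ^ 1 ≤ 3 ^ (S.R + 3) := Nat.pow_le_pow_right (by omega) (by omega)
  rw [dv, Sy.ll, show 256 = 16 ^ 2 by norm_num, ← pow_add]
  exact Nat.pow_le_pow_right (by omega) (by omega)

theorem ll_even (S : Sy) : Even S.ll := by
  rw [Sy.ll, Nat.even_pow]
  exact ⟨by decide, by positivity⟩

theorem dg (S : Sy) : Dg (10 * (S.ll ^ 2 + 2)) (S.ll ^ 2 + 2) (2 * S6.dv 0) (2 * S6.dv (S.fst + 3))
    (S.ll * S6.dv 0 ^ 2) S.L1 S.L2 := by
  have d0 : S6.dv 0 = 16 := by simp [S6.dv]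
  have l0 := dv_lt S (j := 0) (by omega)
  have lf := dv_lt S (j := S.fst + 3) (by have := S.h1; omega)
  have pf := dv_pos (S.fst + 3)
  have b : S.ll ^ 2 < 3 ^ (S.ll ^ 2 + 2 - 1) :=
    (Nat.lt_pow_self (by omega)).trans_le (Nat.pow_le_pow_right (by omega) (by omega))
  have l1 : ∀ d, S.L1 d → Even d ∧ d < S.ll := by
    rintro d (rfl | rfl | rfl | ⟨j, hj, -, rfl⟩)
    · exact ⟨Even.zero, by omega⟩
    · exact ⟨dv_even _, by have := dv_lt S (j := 1) (by omega); have := dv_pos 1; omega⟩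
    · exact ⟨dv_even _, by have := dv_lt S (j := 2) (by omega); have := dv_pos 2; omega⟩
    · exact ⟨dv_even _, by
        have := dv_lt S (j := j + 3) (by omega); have := dv_pos (j + 3); omega⟩
  have l2 : S.ll * 257 ≤ S.ll ^ 2 := by rw [sq]; exact Nat.mul_le_mul_left _ (by omega)
  have l3 : ¬S.L1 (2 * S6.dv (S.fst + 3)) := by
    rintro (h | h | h | ⟨j, -, hj, h⟩)
    · omega
    · have := dv_inj (Nat.eq_of_mul_eq_mul_left two_pos h); omega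
    · have := dv_inj (Nat.eq_of_mul_eq_mul_left two_pos h); omega
    · have := dv_inj (Nat.eq_of_mul_eq_mul_left two_pos h); omega
  have l4 : ¬S.L2 (S.ll * 16 ^ 2) := fun h => h.2.2.r0 (by
    rw [Nat.mul_div_cancel_left _ (by omega)]
    simp [Ev, dig])
  rw [d0] at *
  exact ⟨by omega, le_rfl, ⟨by norm_num, by omega⟩, ⟨dv_even _, by omega⟩,
    ⟨(ll_even S).mul_right _, by omega⟩, fun d h => ⟨(l1 d h).1, by have := (l1 d h).2; omega⟩,
    fun d h => ⟨h.1, h.2.1.trans b⟩, l3, fun h => by have := (l1 _ h).2; omega, l4, by omega,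
    by omega, by omega⟩

theorem low {β n ν : ℕ} {μ : ℤ} (hν : 2 ≤ ν) (h : (2 * n : ℤ) = qm β (3 ^ ν) μ) :
    1 ≤ n ∧ 9 ∣ 2 * n - 1 := by
  obtain ⟨k, rfl⟩ := Nat.exists_eq_add_of_le hν
  have d : (9 : ℤ) ∣ 2 * n - 1 := ⟨3 ^ k * (2 * μ + 1) * (2 + β * (3 ^ (2 + k) * (2 * μ + 1))), by
    rw [h, qm]; ring⟩
  omega

end Finx

open Finx in
theorem red (hT : SWT) (hK : SKEY) (hC : SCORE) (hS : SPS) (hP : SPC) (hL : SLAB) (hGS : SGS)
    (hGC : SGC) : ∃ (U : ℕ → Prop) (c : ℕ → List (ℤ × (Fin 6 → ℕ))), ¬ComputablePred U ∧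
      Primrec c ∧ ∀ a, U a ↔ ∃ x : Fin 6 → ℤ, ev (c a) x = 0 := by
  obtain ⟨U, r, f, c, e, W, hU, hf, hc, he, h⟩ := H19.tab
  obtain ⟨S, hR⟩ := hL r f c e W hf hc he
  have D := Finx.dg S
  have d0 : S6.dv 0 = 16 := by simp [S6.dv]
  have l0 := dv_lt S (j := 0) (by omega)
  have lB : S.ll ^ 2 ≤ 9 ^ (10 * (S.ll ^ 2 + 2)) :=
    (Nat.lt_pow_self (by omega)).le.trans (Nat.pow_le_pow_right (by omega) (by omega))
  have w1 : 1 ≤ 10 * (S.ll ^ 2 + 2) := by omega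
  generalize 10 * (S.ll ^ 2 + 2) = w at D lB w1
  have oB : Odd (9 ^ w) := Odd.pow (by decide)
  obtain ⟨p1, p2⟩ := hP _ _ _ _ _ _ _ D
  choose g g1 g2 using fun f => hK _ f (hT w _ _ _ _ _ w1 D.c1 D.c2.2.1) p1
  choose E N e1 e2 using fun f => hC (g f) (40 * w) f (g1 f) (by omega)
  have hb : Primrec fun a : ℕ => S.ll + (9 ^ w) ^ 2 ^ (a + 1) :=
    Primrec.nat_add.comp (Primrec.const _) (primrec_pow.comp (Primrec.const _)
      (primrec_pow.comp (Primrec.const 2) Primrec.succ))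
  obtain ⟨k, k1, k2⟩ := exists_code' (F := fun u _ (x : Fin 6 → ℤ) => ∏ f ∈ range (2 * w), E f u x)
    (pf_prod (fun f v => E f (v 0) fun i => v i.succ.succ) e1 _) hb hb
  refine ⟨U, k, hU, k1, fun a => ?_⟩
  have ob : Odd (S.ll + (9 ^ w) ^ 2 ^ (a + 1)) := (ll_even S).add_odd oB.pow
  simp only [← k2]
  rw [h a, hR a]
  constructor
  · intro run
    obtain ⟨x, x1, x2, x3, x4⟩ := hGC S _ a ((9 ^ w) ^ 40 + ∑ f ∈ range (2 * w), N f) lB oB run
    obtain ⟨μ, n, f, n1, f1, n2, n3, n4⟩ := p2 _ x ob x2 (by omega) x3 x4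
    obtain ⟨m1, m2⟩ := low (by omega) n2
    have : N f ≤ ∑ f ∈ range (2 * w), N f :=
      single_le_sum (f := N) (fun _ _ => Nat.zero_le _) (mem_range.2 f1)
    obtain ⟨y, hy⟩ := (e2 f _ ob).2 μ n (by omega) n2 ((g2 f n m1 m2).2 ⟨n3, n4⟩)
    exact ⟨y, prod_eq_zero (mem_range.2 f1) hy⟩
  · rintro ⟨y, hy⟩
    obtain ⟨f, f1, hy⟩ := prod_eq_zero_iff.1 hy
    obtain ⟨μ, n, n1, n2⟩ := (e2 f _ ob).1 y hy
    obtain ⟨m1, m2⟩ := low (by omega) n1
    obtain ⟨n3, n4⟩ := (g2 f n m1 m2).1 n2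
    have hm : ∀ x, 2 * x % 9 ^ w = 2 * dv 0 →
        (S.ll + (9 ^ w) ^ 2 ^ (a + 1)) * x ^ 2 % 9 ^ w = S.ll * dv 0 ^ 2 := by
      intro x hx
      have l2 : S.ll * 257 ≤ S.ll ^ 2 := by rw [sq]; exact Nat.mul_le_mul_left _ (by omega)
      rw [d0] at hx ⊢
      have c1 : 2 * x ≡ 2 * 16 [MOD 9 ^ w] := by
        rw [Nat.ModEq, hx, Nat.mod_eq_of_lt (by omega)]
      have c2 : x ≡ 16 [MOD 9 ^ w] :=
        Nat.ModEq.cancel_left_of_coprime (Nat.coprime_two_right.2 oB) c1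
      have c3 : S.ll + (9 ^ w) ^ 2 ^ (a + 1) ≡ S.ll + 0 [MOD 9 ^ w] :=
        Nat.ModEq.add_left _ (Nat.modEq_zero_iff_dvd.2 (dvd_pow_self _ (by positivity)))
      have c4 := c3.mul (c2.pow 2)
      rw [Nat.ModEq, add_zero] at c4
      rw [c4, Nat.mod_eq_of_lt (by omega)]
    obtain ⟨x, x1, x2⟩ := hS w _ _ _ _ _ n f _ _ μ D ob.pos hm (mem_range.1 f1) n1 n3 n4
    exact hGS S _ a x lB oB x1 x2

end Pool.Agent.MP_fed7c7_lc.S6
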