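import Pool.Agent.MP_fed7c7_lc.S6.Spec

set_option autoImplicit false

/-!
The equation in six unknowns.
-/

namespace Pool.Agent.MP_fed7c7_lc.S6.H33

open PowerSeries Pool.Agent.MP_fed7c7_lc.H56 Pool.Agent.MP_fed7c7_lc.H21
  Pool.Agent.MP_fed7c7_lc.H93

theorem de {a b c : ℤ} (h : a ∣ b) (e : c = b) : a ∣ c := e ▸ h

noncomputable def F3 (p : MvPolynomial (Fin 4) ℤ) (φ κ a A A3 Q P D P₁ l y s z : ℤ) : ℤ :=
  E2 P₁ P D (MvPolynomial.eval ![A, D, l, κ] p) (gL a A D) (sL A D y) (T0 A A3 Q (pl A D) φ) s z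

noncomputable def F2 (p : MvPolynomial (Fin 4) ℤ) (φ κ a A A1 A3 Q D1 P₁ l y s z : ℤ) : ℤ :=
  F3 p φ κ a A A3 Q (A1 ^ 2 * (2 * D1 + 1) ^ 2 - D1 ^ 2 - D1) (2 * D1 + 1) P₁ l y s z

noncomputable def F1 (p : MvPolynomial (Fin 4) ℤ) (φ κ b u Q P₁ g l y s z : ℤ) : ℤ :=
  F2 p φ κ (6 * b) (6 * b * u) (3 * b * u) (2 * b * u) Q
    (Q * (3 * b * u) + 3 * b * u - 1 + (6 * b * u - 1) * g) P₁ l y s z

noncomputable def F0 (p : MvPolynomial (Fin 4) ℤ) (φ κ b Q v g l y s z : ℤ) : ℤ :=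
  F1 p φ κ b (1 + ((6 * b) ^ 2 - 1) * (2 * v)) Q (qQ (6 * b) (2 * v)) g l y s z

noncomputable def FF (p : MvPolynomial (Fin 4) ℤ) (φ K w β v g l y s z : ℤ) : ℤ :=
  F0 p φ (100 * β * w ^ 2) (2 * K * (100 * β * w ^ 2) + 1) (qm β w l + 1) v g l y s z

theorem pf_eval4 {σ : Type} {P Q S T : (σ → ℤ) → ℤ} (p : MvPolynomial (Fin 4) ℤ) (hP : PF P)
    (hQ : PF Q) (hS : PF S) (hT : PF T) :
    PF fun w => MvPolynomial.eval ![P w, Q w, S w, T w] p := by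
  induction p using MvPolynomial.induction_on with
  | C c => simpa using PF.const c
  | add p q h1 h2 => simpa using h1.add h2
  | mul_X p i h =>
    simp only [map_mul, MvPolynomial.eval_X]
    refine h.mul ?_
    fin_cases i
    exacts [hP, hQ, hS, hT]

theorem pf_FF {σ : Type} (p : MvPolynomial (Fin 4) ℤ) (φ K w : ℤ)
    {β v g l y s z : (σ → ℤ) → ℤ} (hβ : PF β) (hv : PF v) (hg : PF g)
    (hl : PF l) (hy : PF y) (hs : PF s) (hz : PF z) :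
    PF fun x => FF p φ K w (β x) (v x) (g x) (l x) (y x) (s x) (z x) := by
  have h5 : ∀ {P₁ P D G S t M T : (σ → ℤ) → ℤ}, PF P₁ → PF P → PF D → PF G → PF S → PF t →
      PF M → PF T → PF fun x => E5 (P₁ x) (P x) (D x) (G x) (S x) (t x) (M x) (T x) (z x) :=
    fun _ _ _ _ _ _ _ _ => pf_cmb (by fun_prop) (by fun_prop) (by fun_prop) (by fun_prop)
  have h4 : ∀ {P₁ P D R m G F S T : (σ → ℤ) → ℤ}, PF P₁ → PF P → PF D → PF R → PF m → PF G →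
      PF F → PF S → PF T → PF fun x =>
        E4 (P₁ x) (P x) (D x) (R x) (m x) (G x) (F x) (S x) (T x) (s x) (z x) :=
    fun a _ c _ _ e _ f _ => h5 a (by fun_prop) c e f (by fun_prop) (by fun_prop) (by fun_prop)
  have h3 : ∀ {P₁ P D R m c S T : (σ → ℤ) → ℤ}, PF P₁ → PF P → PF D → PF R → PF m → PF c →
      PF S → PF T → PF fun x =>
        E3 (P₁ x) (P x) (D x) (R x) (m x) (c x) (S x) (T x) (s x) (z x) :=
    fun a b c e f _ i j => h4 a b c e f (by fun_prop) (by fun_prop) i j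
  have h2 : ∀ {P₁ P D R G S T : (σ → ℤ) → ℤ}, PF P₁ → PF P → PF D → PF R → PF G →
      PF S → PF T → PF fun x => E2 (P₁ x) (P x) (D x) (R x) (G x) (S x) (T x) (s x) (z x) :=
    fun a b c e _ i j => h3 a b c e (by unfold H34.mM; fun_prop) (by unfold H34.mM; fun_prop) i j
  have g3 : ∀ {κ a A A3 Q P D P₁ : (σ → ℤ) → ℤ}, PF κ → PF a → PF A → PF A3 → PF Q → PF P →
      PF D → PF P₁ → PF fun x => F3 p φ (κ x) (a x) (A x) (A3 x) (Q x) (P x) (D x) (P₁ x)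
        (l x) (y x) (s x) (z x) :=
    fun k _ b _ _ c d e => h2 e c d (pf_eval4 p b d hl k) (by unfold gL pl; fun_prop)
      (by unfold sL pl; fun_prop) (by unfold T0 pl; fun_prop)
  have g2 : ∀ {κ a A A1 A3 Q D P₁ : (σ → ℤ) → ℤ}, PF κ → PF a → PF A → PF A1 → PF A3 → PF Q →
      PF D → PF P₁ → PF fun x => F2 p φ (κ x) (a x) (A x) (A1 x) (A3 x) (Q x) (D x) (P₁ x)
        (l x) (y x) (s x) (z x) :=
    fun k a b _ c d _ e => g3 k a b c d (by fun_prop) (by fun_prop) e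
  have g1 : ∀ {κ b u Q P₁ : (σ → ℤ) → ℤ}, PF κ → PF b → PF u → PF Q → PF P₁ →
      PF fun x => F1 p φ (κ x) (b x) (u x) (Q x) (P₁ x) (g x) (l x) (y x) (s x) (z x) :=
    fun k _ _ d e => g2 k (by fun_prop) (by fun_prop) (by fun_prop) (by fun_prop) d
      (by fun_prop) e
  have g0 : ∀ {κ b Q : (σ → ℤ) → ℤ}, PF κ → PF b → PF Q →
      PF fun x => F0 p φ (κ x) (b x) (Q x) (v x) (g x) (l x) (y x) (s x) (z x) :=
    fun k b d => g1 k b (by fun_prop) d (by unfold qQ; fun_prop)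
  exact g0 (by fun_prop) (by fun_prop) (by unfold qm; fun_prop)

theorem qm_mod (β μ : ℤ) {ν : ℕ} (hν : 2 ≤ ν) : 3 ∣ qm β (3 ^ ν) μ - 1 := by
  obtain ⟨w, hw⟩ : (3 : ℤ) ∣ 3 ^ ν := dvd_pow_self 3 (by omega)
  exact ⟨2 * (w * (2 * μ + 1)) + 3 * β * (w * (2 * μ + 1)) ^ 2, by rw [qm, hw]; ring⟩

/-- The valuation condition in the setting of the system. -/
theorem gad (hAD : SAD) {β μ A A3 α L c : ℤ} {V ν f n : ℕ} (hν : 2 ≤ ν) (h3 : A = 3 * A3)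
    (hV : A = 3 ^ V * α) (hα : ¬3 ∣ α) (hL : 2 * A ∣ L - c)
    (hn : (2 * n : ℤ) = qm β (3 ^ ν) μ) :
    (3 : ℤ) ^ (30 * V) ∣ T0 A A3 (qm β (3 ^ ν) ((A - 1) * L + μ) + 1) (pl A (ps A (2 * n + 1)))
      (3 ^ (f + ν + 1)) ↔ f + 3 * padicValNat 3 (2 * n - 1) + ν + 1 = V ∧
        (3 : ℤ) ^ (f + 3 * padicValNat 3 (2 * n - 1) + 1) ∣ c := by
  have m1 := qm_mod β μ hν
  have m2 := qm_mod β ((A - 1) * L + μ) hν
  have n1 : 1 ≤ n := by omega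
  have : Fact (Nat.Prime 3) := ⟨Nat.prime_three⟩
  obtain ⟨δ, hδ⟩ : 3 ^ padicValNat 3 (2 * n - 1) ∣ 2 * n - 1 := pow_padicValNat_dvd
  have hδ' : ¬3 ∣ δ := fun ⟨t, ht⟩ => pow_succ_padicValNat_not_dvd (p := 3) (n := 2 * n - 1)
    (by omega) ⟨t, by rw [pow_succ, mul_assoc, ← ht]; exact hδ⟩
  generalize padicValNat 3 (2 * n - 1) = τ at *
  have e1 : (2 * n - 1 : ℤ) = 3 ^ τ * δ := by
    have := congrArg (Nat.cast : ℕ → ℤ) hδ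
    rwa [Nat.cast_sub (by omega), Nat.cast_mul, Nat.cast_mul, Nat.cast_pow] at this
  obtain ⟨w, hw⟩ : (3 : ℤ) ∣ 3 ^ ν := dvd_pow_self 3 (by omega)
  obtain ⟨t, ht⟩ := hL
  refine hAD.2 A A3 _ _ (2 * n + 1) c
    (-2 * (2 + β * (3 ^ ν * (2 * ((A - 1) * L + μ) + 1) + 3 ^ ν * (2 * μ + 1))) *
      (qm β (3 ^ ν) ((A - 1) * L + μ) + 1 + (2 * n + 1))) (δ * (2 * n + 3)) α V ν f τ h3 hV hα
    (hAD.1 A _ ⟨n, rfl⟩) (fun g => ?_) ?_ (by linear_combination (2 * n + 3) * e1) fun g => ?_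
  · rcases Int.prime_three.dvd_or_dvd g with g | g
    · rcases Int.prime_three.dvd_or_dvd g with g | g
      · omega
      · rw [hw, show 2 + β * (3 * w * (2 * ((A - 1) * L + μ) + 1) + 3 * w * (2 * μ + 1)) =
          2 + 3 * (β * (w * (2 * ((A - 1) * L + μ) + 1) + w * (2 * μ + 1))) by ring] at g
        omega
    · omega
  · refine ⟨2 * 3 ^ ν * (L - 2 * t) *
      (2 + β * (3 ^ ν * (2 * ((A - 1) * L + μ) + 1) + 3 ^ ν * (2 * μ + 1))) *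
      (qm β (3 ^ ν) ((A - 1) * L + μ) + 1 + (2 * n + 1)), ?_⟩
    rw [hn, show c = L - 2 * A * t by linarith]
    unfold qm
    ring
  · rcases Int.prime_three.dvd_or_dvd g with g | g
    · exact hδ' (by exact_mod_cast g)
    · omega

theorem six_le {a : ℤ} (ha : 6 ≤ a) {j : ℕ} (hj : 1 ≤ j) : 6 * (j : ℤ) ≤ a ^ j := by
  induction j, hj using Nat.le_induction with
  | base => simpa using ha
  | succ j h ih =>
    have : (1 : ℤ) ≤ j := by exact_mod_cast h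
    push_cast
    rw [pow_succ]
    nlinarith

theorem quot {a u j : ℤ} (hAD : SAD) (a0 : a ≠ 0) (hj : Odd j) (h : ch a j = a * u) :
    a ^ 2 ∣ u ^ 2 - j ^ 2 := by
  obtain ⟨t, ht⟩ := hAD.1 a j hj
  rw [pl, ← pell, h] at ht
  exact ⟨t, mul_left_cancel₀ (pow_ne_zero 2 a0) (by linear_combination ht)⟩

theorem lte {a i α : ℤ} (h : ch a i = 3 * α) (hα : ¬3 ∣ α) (e : ℕ) :
    ∃ γ, ch a (i * 3 ^ e) = 3 ^ (e + 1) * γ ∧ ¬3 ∣ γ := by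
  induction e with
  | zero => exact ⟨α, by simpa using h, hα⟩
  | succ e ih =>
    obtain ⟨γ, h1, h2⟩ := ih
    have c3 : ∀ x, ch x 3 = 4 * x ^ 3 - 3 * x := fun x => by
      have : ch x (0 + 1 + 1 + 1) = 4 * x ^ 3 - 3 * x := by
        simp only [ch_succ, ps_succ, H56.ch_zero, ps_zero]
        ring
      simpa using this
    refine ⟨γ * (3 * (4 * (3 ^ e * γ) ^ 2) - 1), ?_, fun g => ?_⟩
    · rw [show i * 3 ^ (e + 1) = 3 * (i * 3 ^ e) by ring, ← ch_comp, c3, h1]; ring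
    · rcases Int.prime_three.dvd_or_dvd g with g | g
      · exact h2 g
      · omega

theorem basic {b u D1 : ℤ} (ob : Odd b) (ou : Odd u) (hu : (6 * b) ^ 2 - 1 ∣ u - 1) :
    4 * ((3 * b * u) ^ 2 * (2 * D1 + 1) ^ 2 - D1 ^ 2 - D1) = pl (6 * b * u) (2 * D1 + 1) ∧
    Even (gL (6 * b) (6 * b * u) (2 * D1 + 1)) ∧
    Odd ((3 * b * u) ^ 2 * (2 * D1 + 1) ^ 2 - D1 ^ 2 - D1) ∧
    IsCoprime ((3 * b * u) ^ 2 * (2 * D1 + 1) ^ 2 - D1 ^ 2 - D1) (2 * D1 + 1) ∧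
    IsCoprime ((3 * b * u) ^ 2 * (2 * D1 + 1) ^ 2 - D1 ^ 2 - D1)
      (gL (6 * b) (6 * b * u) (2 * D1 + 1) ^ 2 - 1) := by
  have e : 4 * ((3 * b * u) ^ 2 * (2 * D1 + 1) ^ 2 - D1 ^ 2 - D1) =
      pl (6 * b * u) (2 * D1 + 1) := by rw [pl]; ring
  have o : Odd ((3 * b * u) ^ 2 * (2 * D1 + 1) ^ 2 - D1 ^ 2 - D1) := by
    rw [sub_sub, show D1 ^ 2 + D1 = D1 * (D1 + 1) by ring]
    exact (((((by decide : Odd (3 : ℤ)).mul ob).mul ou).pow).mul (Odd.pow ⟨D1, rfl⟩)).sub_even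
      (Int.even_mul_succ_self D1)
  refine ⟨e, ⟨3 * b + (3 * b * u - 3 * b) * pl (6 * b * u) (2 * D1 + 1), by rw [gL]; ring⟩, o,
    ⟨4, -(((6 * b * u) ^ 2 - 1) * (2 * D1 + 1)), by rw [e, pl]; ring⟩, ?_⟩
  rw [gL, ← e]
  have e2 := e
  rw [pl] at e2
  generalize (3 * b * u) ^ 2 * (2 * D1 + 1) ^ 2 - D1 ^ 2 - D1 = P at *
  obtain ⟨t, ht⟩ := hu
  have c : IsCoprime P ((6 * b) ^ 2 - 1) :=
    ⟨4, -((1 + (6 * b) ^ 2 * t * (u + 1)) * (2 * D1 + 1) ^ 2), by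
      linear_combination e2 + (6 * b) ^ 2 * (u + 1) * (2 * D1 + 1) ^ 2 * ht⟩
  rw [show (6 * b + (6 * b * u - 6 * b) * (4 * P)) ^ 2 - 1 = (6 * b) ^ 2 - 1 +
    P * (4 * (6 * b * u - 6 * b) * (12 * b + (6 * b * u - 6 * b) * (4 * P))) by ring]
  exact c.add_mul_left_right _

/-- The parameters. -/
structure Par (β κ K b : ℤ) (ν : ℕ) : Prop where
  hν : 2 ≤ ν
  β1 : 1 ≤ β
  oβ : Odd β
  hκ : κ = 100 * β * (3 ^ ν) ^ 2
  κ1 : 1 ≤ κ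
  κK : κ ≤ K * κ
  bK : b = 2 * (K * κ) + 1
  b3 : ¬3 ∣ b

theorem par {β K : ℤ} {ν : ℕ} (hν : 2 ≤ ν) (β1 : 1 ≤ β) (oβ : Odd β) (K1 : 1 ≤ K) :
    Par β (100 * β * (3 ^ ν) ^ 2) K (2 * K * (100 * β * (3 ^ ν) ^ 2) + 1) ν := by
  have w3 : (3 : ℤ) ∣ 3 ^ ν := dvd_pow_self 3 (by omega)
  have κ0 : 0 < 100 * β * (3 ^ ν) ^ 2 := by positivity
  have d : 3 ∣ K * (100 * β * (3 ^ ν) ^ 2) :=
    ((w3.trans (dvd_pow_self _ two_ne_zero)).mul_left _).mul_left _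
  refine ⟨hν, β1, oβ, rfl, κ0, le_mul_of_one_le_left κ0.le K1, by ring, ?_⟩
  rw [mul_assoc]
  omega

theorem Par.big {β κ K b : ℤ} {ν : ℕ} (h : Par β κ K b ν) (i : ℤ) (j : ℕ) (g : i.natAbs ≤ j) :
    (K * κ) ^ i.natAbs ≤ ch (6 * b) j := by
  obtain ⟨-, -, -, -, κ1, κK, bK, -⟩ := h
  exact ((pow_le_pow_left₀ (by omega) (by omega) _).trans
    (pow_le_pow_right₀ (by omega) g)).trans (pow_le_ch (by omega) j)

theorem G3 {a A : ℤ} (D : ℤ) (ha : 2 ≤ a) (g : a ≤ A) : 2 ≤ gL a A D := by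
  have := mul_nonneg (sub_nonneg.2 g) (pl_pos (A := A) (by omega) D).le
  unfold gL; omega

theorem qm_bound {β κ μ w : ℤ} (β1 : 1 ≤ β) (w0 : w ≠ 0) (hκ : κ = 100 * β * w ^ 2) :
    0 ≤ qm β w μ ∧ 10 * (qm β w μ + 1) ≤ 4 * (κ * μ ^ 2) + κ := by
  have z1 : 1 ≤ (w * (2 * μ + 1)) ^ 2 := sq_pos_of_ne_zero (mul_ne_zero w0 (by omega))
  have z2 : (w * (2 * μ + 1)) ^ 2 ≤ w ^ 2 * (8 * μ ^ 2 + 2) := by
    rw [mul_pow]
    exact mul_le_mul_of_nonneg_left (by nlinarith [sq_nonneg (2 * μ - 1)]) (sq_nonneg _)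
  have z3 := mul_le_mul_of_nonneg_left z2 (show (0 : ℤ) ≤ β by omega)
  unfold qm
  rw [hκ]
  generalize w * (2 * μ + 1) = Z at *
  have z4 := mul_le_mul_of_nonneg_right β1 (sq_nonneg Z)
  constructor
  · nlinarith [sq_nonneg (Z + 1)]
  · nlinarith [sq_nonneg (Z - 1)]

/-- The reading property. -/
def Rd (c : ℤ⟦X⟧) (p : MvPolynomial (Fin 4) ℤ) (N : ℕ) (K : ℤ) : Prop :=
  ∀ (A κ i : ℤ), 1 ≤ κ → i ≠ 0 → (K * κ) ^ i.natAbs ≤ A → ∃ L : ℤ,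
    (0 < i → 2 * A ∣ L - coeff i.toNat c) ∧
    (∀ l, 0 < MvPolynomial.eval ![A, ps A i, l, κ] p → κ * (l - (A - 1) * L) ^ 2 ≤ A - 1) ∧
    ((N : ℤ) ≤ i → ∀ μ, |μ| ≤ i → 0 < MvPolynomial.eval ![A, ps A i, (A - 1) * L + μ, κ] p)

theorem sound (hAD : SAD) (hSS : SSS) {c : ℤ⟦X⟧} {p : MvPolynomial (Fin 4) ℤ} {N ν f : ℕ}
    {β κ K b v g l y s z : ℤ} (hp : Rd c p N K) (h : Par β κ K b ν)
    (hx : F0 p (3 ^ (f + ν + 1)) κ b (qm β (3 ^ ν) l + 1) v g l y s z = 0) :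
    ∃ (μ : ℤ) (n : ℕ), (2 * n : ℤ) = qm β (3 ^ ν) μ ∧
      (3 : ℤ) ^ (f + 3 * padicValNat 3 (2 * n - 1) + 1) ∣ coeff (2 * n + 1) c := by
  have big := h.big
  obtain ⟨hν, β1, oβ', hκ, κ1, κK, bK, -⟩ := h
  have ob : Odd b := ⟨_, bK⟩
  have bκ : 2 * κ + 1 ≤ b := by omega
  clear κK bK
  have ow : Odd ((3 : ℤ) ^ ν) := Odd.pow (by decide)
  unfold F0 F1 F2 F3 at hx
  have eA : aA (6 * b) (2 * v) = 6 * b * (1 + ((6 * b) ^ 2 - 1) * (2 * v)) := rfl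
  have o1 : Odd (1 + ((6 * b) ^ 2 - 1) * (2 * v)) := ⟨((6 * b) ^ 2 - 1) * v, by ring⟩
  have o2 : (6 * b) ^ 2 - 1 ∣ 1 + ((6 * b) ^ 2 - 1) * (2 * v) - 1 := ⟨2 * v, by ring⟩
  generalize 1 + ((6 * b) ^ 2 - 1) * (2 * v) = u at hx eA o1 o2
  obtain ⟨D1, hD⟩ : ∃ D1, D1 = (qm β (3 ^ ν) l + 1) * (3 * b * u) + 3 * b * u - 1 +
    (6 * b * u - 1) * g := ⟨_, rfl⟩
  rw [← hD] at hx
  obtain ⟨e4, eG, oP, c1, c2⟩ := basic (D1 := D1) ob o1 o2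
  obtain ⟨s1, s2⟩ := hSS _ _ _ _ _ _ _ _ _ eG ⟨D1, rfl⟩ oP c1 c2 hx
  obtain ⟨j, j1, hj⟩ := aA_index (by omega) s1
  rw [eA] at hj
  have dD : 6 * b * u - 1 ∣ 2 * D1 + 1 - (qm β (3 ^ ν) l + 1) :=
    ⟨qm β (3 ^ ν) l + 2 + 2 * g, by rw [hD]; ring⟩
  have h3 : 6 * b * u = 3 * (2 * b * u) := by ring
  generalize (3 * b * u) ^ 2 * (2 * D1 + 1) ^ 2 - D1 ^ 2 - D1 = P at *
  generalize 2 * b * u = A3 at *
  generalize 6 * b * u = A at *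
  have oD : Odd (2 * D1 + 1) := ⟨D1, rfl⟩
  generalize 2 * D1 + 1 = D at *
  have A1 : (6 * b) ^ j ≤ A := hj ▸ pow_le_ch (by omega) j
  have A2 : 6 * b ≤ A := (le_self_pow₀ (by omega) (by omega)).trans A1
  have A6 := (six_le (a := 6 * b) (by omega) j1).trans A1
  have P0 := pl_pos (A := A) (by omega) D
  obtain ⟨R0, sq4, ⟨S, t, ⟨y', hy⟩, hS⟩, dT⟩ := s2 (G3 _ (by omega) A2) (by omega) (by
    rw [e4, show sL A D y ^ 2 - 1 = A ^ 2 - 1 + pl A D * (y * (A + sL A D y)) by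
      rw [sL]; ring]
    exact IsCoprime.add_mul_left_right ⟨1, -D ^ 2, by rw [pl]; ring⟩ _)
  rw [e4] at sq4 hy
  have eS : S = sL A D (y + y') := by rw [sL] at hy ⊢; linear_combination hy
  rw [eS] at hS
  obtain ⟨i, hi, ij⟩ := link (a := 6 * b) (C := D) (y := y + y') (j := j) (by omega) j1
    (by rintro rfl; exact absurd oD (by decide)) (hj ▸ sq4) (hj ▸ ⟨_, by rw [hS]⟩)
    (hj ▸ ⟨(gL (6 * b) A D ^ 2 - 1) * D * t, by rw [hS]; ring⟩)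
  rw [← hj] at hi
  have i0 : i ≠ 0 := by
    rintro rfl
    rw [ps_zero] at hi
    exact absurd (hi ▸ oD) (by decide)
  obtain ⟨L, l1, l2, -⟩ := hp A κ i κ1 i0 (hj ▸ big i j (by have := abs_le.1 ij; omega))
  have l3 := l2 l (hi ▸ R0)
  obtain ⟨μ, rfl⟩ : ∃ μ, l = (A - 1) * L + μ := ⟨l - (A - 1) * L, by ring⟩
  rw [add_sub_cancel_left] at l3
  have d1 : A - 1 ∣ qm β (3 ^ ν) ((A - 1) * L + μ) - qm β (3 ^ ν) μ :=
    ⟨2 * 3 ^ ν * L * (2 + β * (3 ^ ν * (2 * ((A - 1) * L + μ) + 1) + 3 ^ ν * (2 * μ + 1))),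
      by unfold qm; ring⟩
  have d2 : A - 1 ∣ qm β (3 ^ ν) μ + 1 - i :=
    de (((ps_index A i).sub dD).sub d1) (by rw [hi]; ring)
  obtain ⟨q0, q1⟩ := qm_bound (μ := μ) β1 (by positivity) hκ
  have ei : qm β (3 ^ ν) μ + 1 = i := by
    have := abs_le.1 ij
    exact sub_eq_zero.1 (Int.eq_zero_of_abs_lt_dvd d2 (abs_lt.2 ⟨by omega, by omega⟩))
  have ev : Even (qm β (3 ^ ν) μ) := by
    unfold qm
    rw [add_right_comm]
    exact (odd_one.add_odd (oβ'.mul (ow.mul ⟨μ, rfl⟩).pow)).add (even_two_mul _)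
  obtain ⟨m, hm⟩ := ev
  obtain ⟨n, rfl⟩ := Int.eq_ofNat_of_zero_le (show 0 ≤ m by omega)
  have hn : (2 * n : ℤ) = qm β (3 ^ ν) μ := by omega
  obtain rfl : i = 2 * n + 1 := by omega
  have l4 := l1 (by omega)
  rw [show (2 * n + 1 : ℤ).toNat = 2 * n + 1 by omega] at l4
  obtain ⟨V, α, hα, hV⟩ := WfDvdMonoid.max_power_factor (show A ≠ 0 by omega)
    Int.prime_three.irreducible
  refine ⟨μ, n, hn, ((gad hAD (f := f) hν h3 hV hα l4 hn).1 ?_).2⟩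
  rw [← hi]
  have d3 : A ^ 2 ∣ 4 * P := by
    obtain ⟨r, hr⟩ := hAD.1 A (2 * n + 1) ⟨n, rfl⟩
    exact ⟨(2 * n + 1) ^ 2 + A ^ 2 * r, by rw [e4, hi]; linear_combination hr⟩
  have d4 : (3 : ℤ) ^ (2 * V) ∣ P :=
    (IsCoprime.pow_left (⟨-1, 1, by norm_num⟩ : IsCoprime (3 : ℤ) 4)).dvd_of_dvd_mul_left
      (Dvd.dvd.trans ⟨α ^ 2, by rw [hV]; ring⟩ d3)
  have d5 := (pow_dvd_pow_of_dvd d4 15).trans dT
  rw [← pow_mul, show 2 * V * 15 = 30 * V by ring] at d5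
  exact (IsCoprime.pow (⟨-s, 1, by ring⟩ : IsCoprime 3 (3 * s + 1))).dvd_of_dvd_mul_right d5

theorem complete (hAD : SAD) (hSC : SSC) {c : ℤ⟦X⟧} {p : MvPolynomial (Fin 4) ℤ}
    {N ν f μ n : ℕ} {β κ K b : ℤ} (hp : Rd c p N K) (h : Par β κ K b ν) (hN : N ≤ n)
    (hn : (2 * n : ℤ) = qm β (3 ^ ν) μ)
    (hd : (3 : ℤ) ^ (f + 3 * padicValNat 3 (2 * n - 1) + 1) ∣ coeff (2 * n + 1) c) :
    ∃ v g l y s z, F0 p (3 ^ (f + ν + 1)) κ b (qm β (3 ^ ν) l + 1) v g l y s z = 0 := by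
  have big := h.big
  obtain ⟨hν, β1, oβ', -, κ1, κK, bK, b3⟩ := h
  have ob : Odd b := ⟨_, bK⟩
  have b1 : 1 ≤ b := by omega
  clear κK bK
  have m1 := qm_mod β μ hν
  obtain ⟨e, he⟩ : ∃ e, e = f + 3 * padicValNat 3 (2 * n - 1) + ν := ⟨_, rfl⟩
  have oi : Odd (2 * n + 1 : ℤ) := ⟨n, rfl⟩
  have i3 : ¬(3 : ℤ) ∣ 2 * n + 1 := by omega
  obtain ⟨γ, hγ, γ3⟩ : ∃ γ, ch (6 * b) ((2 * n + 1) * 3 ^ e) = 3 ^ (e + 1) * γ ∧ ¬3 ∣ γ := by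
    obtain ⟨u₀, h₀⟩ := aA_complete (6 * b) n
    have q₀ := quot hAD (a := 6 * b) (by omega) oi h₀.symm
    unfold aA at h₀
    generalize 1 + ((6 * b) ^ 2 - 1) * u₀ = r at q₀ h₀
    refine lte (α := 2 * b * r) (by rw [← h₀]; ring) (fun g => ?_) e
    rcases Int.prime_three.dvd_or_dvd g with g | g
    · omega
    · exact i3 (Int.prime_three.dvd_of_dvd_pow (n := 2) (de ((dvd_pow g two_ne_zero).sub
        (Dvd.dvd.trans ⟨12 * b ^ 2, by ring⟩ q₀)) (by ring)))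
  obtain ⟨n', hn'⟩ : Odd ((2 * n + 1) * 3 ^ e) := Odd.mul ⟨n, rfl⟩ (Odd.pow (by decide))
  have ej : (2 * n + 1 : ℤ) * 3 ^ e = 2 * n' + 1 := by exact_mod_cast hn'
  have nn : n ≤ n' := by
    have : (2 * n + 1) * 1 ≤ (2 * n + 1) * 3 ^ e :=
      Nat.mul_le_mul_left _ (Nat.one_le_pow _ _ (by norm_num))
    omega
  have oj : Odd (2 * n' + 1 : ℤ) := ⟨n', rfl⟩
  have j3 : (3 : ℤ) ∣ 2 * n' + 1 := ej ▸ (dvd_pow_self 3 (by omega)).mul_left _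
  rw [ej] at hγ
  obtain ⟨v, hv⟩ : ∃ v, aA (6 * b) (2 * v) = ch (6 * b) (2 * n' + 1) := by
    obtain ⟨u₀, h₀⟩ := aA_complete (6 * b) n'
    obtain ⟨t, ht⟩ := quot hAD (a := 6 * b) (by omega) oj h₀.symm
    rcases Int.even_or_odd' u₀ with ⟨v, rfl | rfl⟩
    · exact ⟨v, h₀⟩
    · have : 2 * (2 * (((6 * b) ^ 2 - 1) * v + 18 * b ^ 2) ^ 2 - 2 * n' ^ 2 - 2 * n' -
          18 * b ^ 2 * t) = 1 := by linear_combination ht
      omega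
  have s1 : IsSquare (qQ (6 * b) (2 * v)) := by
    refine ⟨ps (6 * b) (2 * n' + 1), mul_left_cancel₀ (a := (6 * b) ^ 2 - 1) (by nlinarith) ?_⟩
    rw [← aA_sq, hv, pell]; ring
  have bg := big (2 * n + 1) (2 * n' + 1) (by omega)
  have A2 : 6 * b ≤ ch (6 * b) (2 * n' + 1 : ℕ) :=
    (le_self_pow₀ (by omega) (by omega)).trans (pow_le_ch (by omega) _)
  push_cast at bg A2
  unfold F0 F1 F2 F3
  have o1 : Odd (1 + ((6 * b) ^ 2 - 1) * (2 * v)) := ⟨((6 * b) ^ 2 - 1) * v, by ring⟩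
  have o2 : (6 * b) ^ 2 - 1 ∣ 1 + ((6 * b) ^ 2 - 1) * (2 * v) - 1 := ⟨2 * v, by ring⟩
  refine ⟨v, ?_⟩
  unfold aA at hv
  generalize 1 + ((6 * b) ^ 2 - 1) * (2 * v) = u at hv o1 o2 ⊢
  rw [← hv] at bg A2 hγ
  obtain ⟨L, l1, -, l3⟩ := hp (6 * b * u) κ (2 * n + 1) κ1 (by omega) bg
  have l4 := l1 (by omega)
  rw [show (2 * n + 1 : ℤ).toNat = 2 * n + 1 by omega] at l4
  have μi : |(μ : ℤ)| ≤ 2 * n + 1 := by
    have w1 : (1 : ℤ) ≤ 3 ^ ν := one_le_pow₀ (by norm_num)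
    have μ0 : (0 : ℤ) ≤ μ := Int.natCast_nonneg μ
    rw [abs_of_nonneg μ0, hn, qm]
    have := mul_nonneg (show 0 ≤ β by omega) (sq_nonneg (3 ^ ν * (2 * (μ : ℤ) + 1)))
    nlinarith
  have R0 := l3 (by omega) μ μi
  have dT := (gad hAD (f := f) hν (show 6 * b * u = 3 * (2 * b * u) by ring) hγ γ3 l4 hn).2
    ⟨by rw [he], hd⟩
  have d1 : 6 * b * u - 1 ∣ qm β (3 ^ ν) ((6 * b * u - 1) * L + μ) - qm β (3 ^ ν) μ :=
    ⟨2 * 3 ^ ν * L * (2 + β * (3 ^ ν * (2 * ((6 * b * u - 1) * L + μ) + 1) +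
      3 ^ ν * (2 * μ + 1))), by unfold qm; ring⟩
  rw [← hn] at d1
  generalize (6 * b * u - 1) * L + μ = l at *
  obtain ⟨D1, hD⟩ := H34.ps_odd (6 * b * u) oi
  obtain ⟨g, hg⟩ : ∃ g, D1 = (qm β (3 ^ ν) l + 1) * (3 * b * u) + 3 * b * u - 1 +
      (6 * b * u - 1) * g := by
    obtain ⟨r, hr⟩ := (ps_index (6 * b * u) (2 * n + 1)).sub d1
    rw [hD] at hr
    generalize qm β (3 ^ ν) l = q at *
    obtain ⟨g, hg⟩ : 2 ∣ r - q := ⟨3 * b * u * r - D1, by linear_combination hr⟩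
    refine ⟨g - 1, mul_left_cancel₀ two_ne_zero ?_⟩
    linear_combination hr + (6 * b * u - 1) * hg
  refine ⟨g, l, ?_⟩
  rw [← hg]
  obtain ⟨e4, eG, oP, -, -⟩ := basic (D1 := D1) ob o1 o2
  obtain ⟨r, hr⟩ := hAD.1 (6 * b * u) (2 * n + 1) oi
  have sq4 : IsSquare (pl (6 * b * u) (ps (6 * b * u) (2 * n + 1))) :=
    ⟨ch (6 * b * u) (2 * n + 1), by rw [pl, ← pell, sq]⟩
  have dD := ps_dvd_mul (6 * b * u) (2 * n + 1) (3 ^ e)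
  rw [ej] at dD
  rw [hD] at R0 dT hr sq4 dD
  generalize (3 * b * u) ^ 2 * (2 * D1 + 1) ^ 2 - D1 ^ 2 - D1 = P at *
  have oD : Odd (2 * D1 + 1) := ⟨D1, rfl⟩
  generalize 2 * D1 + 1 = D at *
  generalize 2 * b * u = A3 at *
  generalize 6 * b * u = A at *
  have P0 := pl_pos (A := A) (by omega) D
  have e5 : 4 * P = 3 ^ (2 * (e + 1)) * (γ ^ 2 * ((2 * n + 1) ^ 2 + A ^ 2 * r)) := by
    have : (3 : ℤ) ^ (2 * (e + 1)) * γ ^ 2 = A ^ 2 := by rw [hγ]; ring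
    linear_combination e4 + hr - ((2 * n + 1) ^ 2 + A ^ 2 * r) * this
  obtain ⟨w, hw⟩ : (3 : ℤ) ^ (2 * (e + 1)) ∣ P :=
    (IsCoprime.pow_left (⟨-1, 1, by norm_num⟩ : IsCoprime (3 : ℤ) 4)).dvd_of_dvd_mul_left
      ⟨_, e5⟩
  have w3 : ¬3 ∣ w := fun g => by
    have e6 : γ ^ 2 * ((2 * n + 1) ^ 2 + A ^ 2 * r) = 4 * w :=
      mul_left_cancel₀ (a := (3 : ℤ) ^ (2 * (e + 1))) (by positivity)
        (by rw [← e5, hw]; ring)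
    rcases Int.prime_three.dvd_or_dvd (e6 ▸ g.mul_left 4) with g | g
    · exact γ3 (Int.prime_three.dvd_of_dvd_pow g)
    · have A3' : 3 ∣ A := hγ ▸ (dvd_pow_self 3 (by omega)).mul_right _
      exact i3 (Int.prime_three.dvd_of_dvd_pow (n := 2)
        (de (g.sub ((dvd_pow A3' two_ne_zero).mul_right r)) (by ring)))
  have dA : D ∣ gL (6 * b) A D - A := ⟨(A - 6 * b) * (A ^ 2 - 1) * D, by rw [gL, pl]; ring⟩
  rw [show 30 * (e + 1) = 15 * (2 * (e + 1)) by ring] at dT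
  obtain ⟨S, s, z, d2, e1⟩ := hSC _ P D _ _ _ (2 * n' + 1) w (2 * (e + 1)) eG oD oP
    (G3 D (by omega) A2) (by omega) R0 (by omega) hw w3 dT oj j3 s1 (e4 ▸ sq4)
    (de ((dA.trans (ps_dvd_sub _ _ (2 * n' + 1))).add dD) (by ring))
  rw [e4] at d2
  obtain ⟨y, hy⟩ : pl A D ∣ S - A :=
    de (d2.add (Dvd.dvd.trans ⟨A - 6 * b, by rw [gL]; ring⟩
      (ch_dvd_sub (6 * b) (gL (6 * b) A D) (2 * n' + 1)))) (by rw [← hv]; ring)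
  refine ⟨y, s, z, ?_⟩
  rwa [show S = sL A D y by rw [sL]; linarith] at e1

theorem sCORE (hRD : SRD) (hAD : SAD) (hSS : SSS) (hSC : SSC) : SCORE := by
  intro c ν f hc hν
  obtain ⟨p, N, K, K1, hp⟩ := hRD c hc
  have hp' : Rd c p N K := hp
  obtain ⟨E, hE⟩ : ∃ E : ℤ → (Fin 6 → ℤ) → ℤ, ∀ β x, E β x =
      FF p (3 ^ (f + ν + 1)) K (3 ^ ν) β (x 0) (x 1) (x 2) (x 3) (x 4) (x 5) :=
    ⟨_, fun _ _ => rfl⟩
  refine ⟨E, N, ?_, fun β oβ => ?_⟩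
  · simp only [hE]
    exact pf_FF p _ K _ (PF.proj _) (PF.proj _) (PF.proj _) (PF.proj _) (PF.proj _) (PF.proj _)
      (PF.proj _)
  have h := par (β := β) hν (by exact_mod_cast oβ.pos) (by exact_mod_cast oβ) K1
  refine ⟨fun x hx => ?_, fun μ n hN hn hd => ?_⟩
  · rw [hE, FF] at hx
    exact sound hAD hSS hp' h hx
  · obtain ⟨v, g, l, y, s, z, e⟩ := complete hAD hSC hp' h hN hn hd
    refine ⟨![v, g, l, y, s, z], ?_⟩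
    rw [hE, FF, ← e]
    rfl

end Pool.Agent.MP_fed7c7_lc.S6.H33
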