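import Pool.Agent.MP_fed7c7_lc.S6.Spec

set_option autoImplicit false

namespace Pool.Agent.MP_fed7c7_lc.S6.H52LAB

open Pool.Agent.MP_fed7c7_lc.H93

/-- The code of a label. -/
def enc (x z fl co ph : ℕ) : ℕ := Nat.pair x (Nat.pair z (Nat.pair fl (Nat.pair co ph)))

def dx (a : ℕ) : ℕ := a.unpair.1
def dz (a : ℕ) : ℕ := a.unpair.2.unpair.1
def df (a : ℕ) : ℕ := a.unpair.2.unpair.2.unpair.1
def dc (a : ℕ) : ℕ := a.unpair.2.unpair.2.unpair.2.unpair.1
def dp (a : ℕ) : ℕ := a.unpair.2.unpair.2.unpair.2.unpair.2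

theorem dx_enc (x z fl co ph : ℕ) : dx (enc x z fl co ph) = x := by simp [dx, enc]
theorem dz_enc (x z fl co ph : ℕ) : dz (enc x z fl co ph) = z := by simp [dz, enc]
theorem df_enc (x z fl co ph : ℕ) : df (enc x z fl co ph) = fl := by simp [df, enc]
theorem dc_enc (x z fl co ph : ℕ) : dc (enc x z fl co ph) = co := by simp [dc, enc]
theorem dp_enc (x z fl co ph : ℕ) : dp (enc x z fl co ph) = ph := by simp [dp, enc]

theorem pl {x y M Y : ℕ} (h1 : x < M) (h2 : y < Y) : Nat.pair x y < Nat.pair M Y :=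
  (Nat.pair_lt_pair_left y h1).trans (Nat.pair_lt_pair_right M h2)

theorem enc_lt {x z fl co ph M : ℕ} (h1 : x < M) (h2 : z < M) (h3 : fl < 2) (h4 : co < 5)
    (h5 : ph < 3) : enc x z fl co ph < enc M M 2 5 3 := pl h1 (pl h2 (pl h3 (pl h4 h5)))

/-- The next colour. -/
def sc (n : ℕ) : ℕ := if n = 4 then 2 else n + 1

theorem sc0 (n : ℕ) : sc n ≠ 0 := by unfold sc; split_ifs <;> omega

theorem sc1 {n : ℕ} (h : sc n = 1) : n = 0 := by unfold sc at h; split_ifs at h <;> omega

theorem sc2 (n : ℕ) : sc (sc n) ≠ n := by unfold sc; split_ifs <;> omega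

/-- The colour of a row. -/
def cl : ℕ → ℕ
  | 0 => 0
  | j + 1 => sc (cl j)

theorem cl_lt (j : ℕ) : cl j < 5 := by
  induction j with
  | zero => decide
  | succ j ih => unfold cl sc; split_ifs <;> omega

theorem cl0 {j : ℕ} (h : cl j = 0) : j = 0 := by
  rcases j with _ | j
  · rfl
  · exact absurd h (sc0 _)

theorem cl1 {j : ℕ} (h : cl j = 1) : j = 1 := by
  rcases j with _ | j
  · exact absurd h (by decide)
  · rw [cl0 (sc1 h)]

/-- The successor relation. -/
structure Nxt (r c e : ℕ) (W : ℕ → ℕ → ℕ → ℕ → Prop) (a b : ℕ) : Prop where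
  z : dz b = dx a
  col : dc b = if df b = 1 then sc (dc a) else dc a
  w : dc b = 0 → W (dx b) 0 (dz b) 0
  x : dx b = 1 ∨ ∃ γ < r, dx b = 2 * γ + 2
  ph : (dp a = 0 ∧ dp b = 0 ∧ dx b = 2 * c + 2) ∨ (dp a = 0 ∧ dp b = 1 ∧ dx b = 2 * e + 2) ∨
    (dp a ≠ 0 ∧ dp b = 2)

/-- The system. -/
def sy (r f c e : ℕ) (W : ℕ → ℕ → ℕ → ℕ → Prop) (hf : f < r) : Sy where
  R := enc (2 * r + 2) (2 * r + 2) 2 5 3
  fst := enc (2 * f + 2) 0 1 0 0
  nx := Nxt r c e W
  fin a := dx a = 1
  st a := df a = 1 ∧ dc a = 1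
  mark a := dp a = 1
  seen a := dc a ≠ 0
  ck a b := df a = df b ∧ ((dc a = sc (dc b) ∧ W (dx a) (dx b) (dz a) (dz b)) ∨
    (dc b = sc (dc a) ∧ W (dx b) (dx a) (dz b) (dz a)))
  h1 := enc_lt (by omega) (by omega) (by omega) (by omega) (by omega)
  h2 a b h e := by
    have := h.col
    rw [e, dc_enc, df_enc, if_pos rfl] at this
    exact sc0 _ this.symm
  h3 h := by
    have := h.2
    rw [dc_enc] at this
    omega
  h4 a h := by have := h.2; omega
  h5 a b h s := by
    have := h.col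
    refine ⟨?_, fun t => ?_⟩
    · split_ifs at this
      · rw [this]; exact sc0 _
      · rwa [this]
    · rw [if_pos t.1, t.2] at this
      exact s (sc1 this.symm)
  h6 a b h := ⟨h.1.symm, h.2.symm⟩

theorem sound {r f c e a N : ℕ} {W : ℕ → ℕ → ℕ → ℕ → Prop} {g : ℕ → ℕ} (hf : f < r)
    (h0 : g 0 = enc (2 * f + 2) 0 1 0 0)
    (hn : ∀ i < N, Nxt r c e W (g i) (g (i + 1)) ∧ ¬dx (g i) = 1) (hN : dx (g N) = 1)
    (ha : a + 1 ≤ N) (hm : dp (g (a + 1)) = 1)
    (hc : ∀ k i, k ≤ i → i ≤ N → df (g k) = 1 ∧ dc (g k) = 1 → df (g i) = df (g (i - k)) ∧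
      ((dc (g i) = sc (dc (g (i - k))) ∧
        W (dx (g i)) (dx (g (i - k))) (dz (g i)) (dz (g (i - k)))) ∨
      (dc (g (i - k)) = sc (dc (g i)) ∧
        W (dx (g (i - k))) (dx (g i)) (dz (g (i - k))) (dz (g i))))) : Tab r f c e W a := by
  classical
  have x0 : dx (g 0) = 2 * f + 2 := by rw [h0, dx_enc]
  have c0 : dc (g 0) = 0 := by rw [h0, dc_enc]
  have hx : ∀ i < N, ∃ γ < r, dx (g i) = 2 * γ + 2 := by
    intro i hi
    rcases i with _ | i
    · exact ⟨f, hf, x0⟩
    · exact (hn i (by omega)).1.x.resolve_left (hn _ hi).2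
  let G : ℕ → ℕ := fun i => (dx (g i) - 2) / 2
  have hG : ∀ i γ, dx (g i) = 2 * γ + 2 → G i = γ := fun i γ h => by
    show (dx (g i) - 2) / 2 = γ
    omega
  have hF : ∀ i ≤ N, lt N G i = dx (g i) := by
    intro i hi
    unfold lt
    split_ifs with h1 h2
    · obtain ⟨γ, -, h⟩ := hx i h1
      rw [hG i γ h, h]
    · rw [h2, hN]
    · omega
  have hZ : ∀ i ≤ N, sh 1 (lt N G) i = dz (g i) := by
    intro i hi
    rcases i with _ | i
    · rw [h0, dz_enc]; rfl
    · rw [sh, if_pos (by omega), Nat.add_sub_cancel, hF i (by omega), (hn i hi).1.z]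
  have p1 := (hn a ha).1.ph
  have p0 : ∀ j, j ≤ a → dp (g (a - j)) = 0 := by
    intro j
    induction j with
    | zero => intro _; rw [Nat.sub_zero]; omega
    | succ j ih =>
      intro hj
      have h1 := (hn (a - (j + 1)) (by omega)).1.ph
      rw [show a - (j + 1) + 1 = a - j by omega] at h1
      have := ih (by omega)
      omega
  have ex : ∃ k, N + 1 ≤ k ∨ (df (g k) = 1 ∧ dc (g k) = 1) := ⟨N + 1, Or.inl le_rfl⟩
  have hk := Nat.find_spec ex
  have hmin := fun i => Nat.find_min ex (m := i)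
  generalize Nat.find ex = k at hk hmin
  have low : ∀ i < k, dc (g i) = 0 := by
    intro i
    induction i with
    | zero => exact fun _ => c0
    | succ i ih =>
      intro hi
      have h1 := not_or.1 (hmin _ hi)
      have h2 := (hn i (by omega)).1.col
      rw [ih (by omega)] at h2
      split_ifs at h2 with h3
      · exact absurd ⟨h3, h2⟩ h1.2
      · exact h2
  have ori : ∀ j, k + j ≤ N → dc (g (k + j)) = sc (dc (g j)) := by
    intro j
    induction j with
    | zero => intro h; rw [c0]; exact (hk.resolve_left (by omega)).2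
    | succ j ih =>
      intro h
      have h1 := (hc k (k + (j + 1)) (by omega) h (hk.resolve_left (by omega))).1
      rw [Nat.add_sub_cancel_left] at h1
      have h2 := (hn (k + j) h).1.col
      have h3 := (hn j (by omega)).1.col
      rw [add_assoc, h1, ih (by omega)] at h2
      rw [h2, h3]
      split_ifs <;> rfl
  refine ⟨k, N, G, ?_, ?_, hG _ _ x0, fun i h1 h2 => hG _ _ ?_, hG _ _ (by omega),
    fun i hi => ?_, fun i h1 h2 => ?_⟩
  · rcases k with _ | k
    · omega
    · omega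
  · rcases ha.eq_or_lt with h | h
    · rw [← h] at hN; omega
    · omega
  · obtain ⟨i, rfl⟩ : ∃ j, i = j + 1 := ⟨i - 1, by omega⟩
    have h3 := p0 (a - (i + 1)) (by omega)
    rw [show a - (a - (i + 1)) = i + 1 by omega] at h3
    have := (hn i (by omega)).1.ph
    omega
  · obtain ⟨γ, h1, h⟩ := hx i hi
    rwa [hG i γ h]
  · rw [hF i h2, hZ i h2]
    by_cases h3 : k ≤ i
    · have e1 : sh k (lt N G) i = dx (g (i - k)) := by rw [sh, if_pos h3, hF _ (by omega)]
      have e2 : sh (k + 1) (lt N G) i = dz (g (i - k)) := by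
        rw [← hZ _ (by omega)]
        unfold sh
        split_ifs
        · rw [Nat.sub_sub]
        · omega
        · omega
        · rfl
      rw [e1, e2]
      have o := ori (i - k) (by omega)
      rw [show k + (i - k) = i by omega] at o
      rcases (hc k i h3 h2 (hk.resolve_left (by omega))).2 with h | h
      · exact h.2
      · rw [o] at h
        exact absurd h.1.symm (sc2 _)
    · obtain ⟨i, rfl⟩ : ∃ j, i = j + 1 := ⟨i - 1, by omega⟩
      rw [sh, sh, if_neg h3, if_neg (by omega)]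
      exact (hn i h2).1.w (low _ (by omega))

theorem complete {r f c e a : ℕ} {W : ℕ → ℕ → ℕ → ℕ → Prop} (hf : f < r)
    (h : Tab r f c e W a) : (sy r f c e W hf).Run a := by
  obtain ⟨k, N, G, hk, ha, h0, h1, h2, h3, h4⟩ := h
  have hF : ∀ i, lt N G i < 2 * r + 2 := fun i => by
    unfold lt
    split_ifs with h
    · have := h3 i h; omega
    · omega
    · omega
  have hL : ∀ i < N, lt N G i = 2 * G i + 2 := fun i hi => if_pos hi
  have hN : lt N G N = 1 := by simp [lt]
  refine ⟨N, fun i => enc (lt N G i) (sh 1 (lt N G) i) (if k ∣ i then 1 else 0) (cl (i / k))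
    (if i ≤ a then 0 else if i = a + 1 then 1 else 2), ?_, fun i _ => ?_,
    fun i hi => ⟨⟨?_, ?_, ?_, ?_, ?_⟩, ?_⟩, ?_, by omega, ?_, fun j i hj hi s => ?_⟩
  · show enc _ _ _ _ _ = enc _ _ _ _ _
    rw [hL 0 (by omega), h0]
    simp [sh, cl]
  · refine enc_lt (hF i) ?_ (by split_ifs <;> omega) (cl_lt _) (by split_ifs <;> omega)
    unfold sh
    split_ifs
    · exact hF _
    · omega
  · rw [dz_enc, dx_enc, sh, if_pos (by omega), Nat.add_sub_cancel]
  · rw [dc_enc, dc_enc, df_enc, Nat.succ_div]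
    by_cases d : k ∣ i + 1
    · simp [d, cl]
    · simp [d]
  · rw [dc_enc, dx_enc, dz_enc]
    intro z
    have l : i + 1 < k := by
      have := (Nat.div_eq_zero_iff.1 (cl0 z)).resolve_left (by omega)
      exact this
    have := h4 (i + 1) (by omega) hi
    rwa [show sh k (lt N G) (i + 1) = 0 from if_neg (by omega),
      show sh (k + 1) (lt N G) (i + 1) = 0 from if_neg (by omega)] at this
  · rw [dx_enc]
    rcases (Nat.succ_le_of_lt hi).eq_or_lt with e | l
    · exact Or.inl (by rw [show i + 1 = N from e, hN])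
    · exact Or.inr ⟨_, h3 _ l, hL _ l⟩
  · rw [dp_enc, dp_enc, dx_enc]
    rcases lt_trichotomy i a with l | rfl | l
    · refine Or.inl ⟨if_pos l.le, if_pos l, ?_⟩
      rw [hL _ (by omega), h1 _ (by omega) l]
    · refine Or.inr (Or.inl ⟨if_pos le_rfl, by simp, ?_⟩)
      rw [hL _ (by omega), h2]
    · exact Or.inr (Or.inr ⟨by split_ifs <;> omega, by split_ifs <;> omega⟩)
  · show ¬dx _ = 1
    rw [dx_enc, hL i hi]; omega
  · show dx _ = 1
    rw [dx_enc, hN]
  · show dp _ = 1
    rw [dp_enc]; simp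
  · obtain ⟨s1, s2⟩ := s
    rw [df_enc] at s1
    rw [dc_enc] at s2
    have d : k ∣ j := by
      by_contra d
      rw [if_neg d] at s1
      omega
    have e : j = k := by rw [← Nat.div_mul_cancel d, cl1 s2, one_mul]
    subst e
    refine ⟨?_, Or.inl ⟨?_, ?_⟩⟩
    · rw [df_enc, df_enc]
      simp only [Nat.dvd_sub_iff_left hj (dvd_refl j)]
    · rw [dc_enc, dc_enc, Nat.div_eq_sub_div hk hj]; rfl
    · rw [dx_enc, dx_enc, dz_enc, dz_enc]
      have := h4 i (by omega) hi
      have e2 : sh (j + 1) (lt N G) i = sh 1 (lt N G) (i - j) := by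
        unfold sh
        split_ifs
        · rw [Nat.sub_sub]
        · omega
        · omega
        · rfl
      rwa [e2, show sh j (lt N G) i = lt N G (i - j) from if_pos hj] at this

theorem sLAB : SLAB := fun r f c e W hf _ _ =>
  ⟨sy r f c e W hf, fun _ => ⟨complete hf, fun ⟨_, _, h0, _, hn, hN, ha, hm, hc⟩ =>
    sound hf h0 hn hN ha hm hc⟩⟩

end Pool.Agent.MP_fed7c7_lc.S6.H52LAB
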