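import Pool.Agent.MP_fed7c7_lc.S6.Spec
import Pool.Agent.MP_fed7c7_lc.H33.Prime6

set_option autoImplicit false

/-!
Completeness of the merged equation.
-/

namespace Pool.Agent.MP_fed7c7_lc.S6.H86SC

open Pool.Agent.MP_fed7c7_lc.H56 Pool.Agent.MP_fed7c7_lc.H21 Pool.Agent.MP_fed7c7_lc.H93
  Pool.Agent.MP_fed7c7_lc.H34

theorem de {a b c : ℤ} (h : a ∣ b) (e : c = b) : a ∣ c := e ▸ h

theorem sSC : SSC := by
  intro P₁ P D R G₀ T X e V ev oD oP g2 P0 R0 V2 hP e3 hT oX X3 s1 s2 dD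
  unfold S6.E2 S6.E3 S6.E4 S6.E5
  obtain ⟨eG, oF, m4, dG, -, hm, h8, G2⟩ :=
    facts (P := 4 * P) (R := R) ev oD rfl rfl rfl rfl rfl
  have D0 : D ≠ 0 := by rintro rfl; exact absurd oD (by decide)
  have m0 : 0 < mM G₀ (4 * P) D R := by
    have : 0 ≤ R - 1 := by omega
    unfold mM; positivity
  generalize mM G₀ (4 * P) D R = m at *
  generalize (G₀ + 1) * (2 * m - 1) = c at *
  obtain ⟨G, hG⟩ : ∃ G, G = c * m - 1 := ⟨_, rfl⟩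
  rw [← hG] at eG oF dG hm h8 G2 ⊢
  obtain ⟨F, eF⟩ : ∃ F, F = c * (G - 1) * D := ⟨_, rfl⟩
  rw [← eF] at oF hm h8 ⊢
  obtain ⟨y, hy⟩ : ∃ y, y = 4 + F * P * (160 * D * (R - 1) + m * (F * P)) := ⟨_, rfl⟩
  rw [← hy]
  have ex : y = x0 F (4 * P) D R m + m * (F ^ 2 * (P ^ 2 - 1)) := by
    rw [hy, x0]; ring
  have yF : F * P ∣ y - 4 := ⟨160 * D * (R - 1) + m * (F * P), by rw [hy]; ring⟩
  generalize x0 F (4 * P) D R m = x at *
  have ym : m ∣ y + 1 := de (hm.add (dvd_mul_right m (F ^ 2 * (P ^ 2 - 1)))) (by rw [ex]; ring)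
  have y8 : y % 8 = 5 := by
    obtain ⟨f, hf⟩ := oP
    obtain ⟨j, hj⟩ := Int.even_mul_succ_self f
    have : y = x + 8 * (m * F ^ 2 * j) := by
      rw [ex, hf]; linear_combination 4 * m * F ^ 2 * hj
    omega
  have P9 : 9 ∣ P := hP ▸ (de (pow_dvd_pow (3 : ℤ) V2) rfl).mul_right e
  obtain ⟨α, β, h1⟩ := (Int.prime_three.coprime_iff_not_dvd).2 e3
  obtain ⟨s, k, ⟨t, es⟩, ⟨q, hq⟩, d1, d2⟩ := H33.exists_dvd6 (c := c) (F := F * P) (x := y)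
    (M := 4 * P * D) (E := e) (G2 g2) eG (by rw [hG]; ring) (oF.mul oP) (P9.mul_left F)
    ⟨(G - 1) * D * P, by rw [eF]; ring⟩ ⟨c * D * P, by rw [eF]; ring⟩ yF ym y8 m0 m4 oX X3
    (mul_ne_zero (by omega) D0) ⟨F * 3 ^ V, by rw [hP]; ring⟩ (-α)
  obtain ⟨u, hu⟩ : P ^ 15 ∣ T * (3 * s + 1) ^ 15 := by
    have d : e ∣ 3 * s + 1 := ⟨3 * t + β, by linear_combination 3 * es - h1⟩
    rw [hP, mul_pow, ← pow_mul, mul_comm V]
    exact mul_dvd_mul hT (pow_dvd_pow_of_dvd d 15)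
  obtain ⟨w, hw⟩ : D ∣ ps G k := de ((((dvd_mul_left D (4 * P)).trans d2).add
    ((Dvd.dvd.trans ⟨4 * P * D, by ring⟩ dG).trans (ps_dvd_sub G₀ G X))).add dD) (by ring)
  have p1 := pell G k
  rw [hw] at p1
  obtain ⟨a, rfl⟩ := s1
  obtain ⟨b, hb⟩ := s2
  refine ⟨ch G k, s, w ^ 2 + q + u + (a + (1 + (a * a) ^ 2) * (b * (G ^ 2 - 1) * D * w)),
    de (((dvd_mul_right (4 * P) D).trans d1).add
      (((dvd_mul_right _ _).trans dG).trans (ch_dvd_sub G₀ G X))) (by ring), ?_⟩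
  rw [hu]
  generalize y + 8 * (F * P) * m * s = v at *
  generalize P ^ 15 = M at *
  rw [← cmb_complete ((G ^ 2 - 1) * D ^ 2 * v * M) a (b * (G ^ 2 - 1) * D * w)]
  congr 1
  · linear_combination -v * M * p1 - (G ^ 2 - 1) * D ^ 2 * M * hq
  · rw [hb]; linear_combination b * b * (G ^ 2 - 1) * p1

end Pool.Agent.MP_fed7c7_lc.S6.H86SC
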