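import Mathlib
import Pool.Agent.MP_fed7c7_lc.S6.Spec

set_option autoImplicit false

/-!
The valuation gadget.
-/

namespace Pool.Agent.MP_fed7c7_lc.S6

open Pool.Agent.MP_fed7c7_lc.H56 Pool.Agent.MP_fed7c7_lc.H21

namespace ADx

theorem odd_form (A : ℤ) (k : ℕ) : ∃ ε u w : ℤ, ε ^ 2 = 1 ∧
    ch A (2 * k + 1) = ε * (2 * k + 1) * A + A ^ 3 * u ∧ ps A (2 * k + 1) = ε + A ^ 2 * w := by
  induction k with
  | zero => exact ⟨1, 0, 0, by norm_num, by simp [ch], by simp [ps_one]⟩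
  | succ k ih =>
    obtain ⟨ε, u, w, h1, h2, h3⟩ := ih
    refine ⟨-ε, 2 * ε * (2 * k + 1) + (2 * A ^ 2 - 1) * u + 2 * ε + 2 * (A ^ 2 - 1) * w,
      2 * ε * (2 * k + 1) + 2 * A ^ 2 * u + 2 * ε + (2 * A ^ 2 - 1) * w,
      by rw [neg_sq, h1], ?_, ?_⟩
    · rw [show (2 * ((k + 1 : ℕ) : ℤ) + 1) = 2 * k + 1 + 1 + 1 by push_cast; ring,
        ch_succ A (2 * k + 1 + 1), ch_succ A (2 * k + 1), ps_succ A (2 * k + 1), h2, h3]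
      ring
    · rw [show (2 * ((k + 1 : ℕ) : ℤ) + 1) = 2 * k + 1 + 1 + 1 by push_cast; ring,
        ps_succ A (2 * k + 1 + 1), ch_succ A (2 * k + 1), ps_succ A (2 * k + 1), h2, h3]
      ring

theorem part1 (A i : ℤ) (hi : Odd i) : A ^ 4 ∣ pl A (ps A i) - i ^ 2 * A ^ 2 := by
  obtain ⟨k, hk⟩ := Int.natAbs_odd.2 hi
  have e : |i| = 2 * k + 1 := by rw [Int.abs_eq_natAbs, hk]; push_cast; ring
  obtain ⟨ε, u, w, h1, h2, -⟩ := odd_form A k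
  rw [pl, ← pell, ← ch_abs, ← sq_abs i, e, h2]
  exact ⟨2 * ε * (2 * k + 1) * u + A ^ 2 * u ^ 2, by
    linear_combination (2 * k + 1) ^ 2 * A ^ 2 * h1⟩

theorem p3 : Prime (3 : ℤ) := Int.prime_three

theorem sq_one {u : ℤ} (h : ¬3 ∣ u) : 3 ∣ u ^ 2 - 1 := by
  obtain ⟨q, hq | hq⟩ : ∃ q, u = 3 * q + 1 ∨ u = 3 * q - 1 := ⟨(u + 1) / 3, by omega⟩
  · exact ⟨3 * q ^ 2 + 2 * q, by rw [hq]; ring⟩
  · exact ⟨3 * q ^ 2 - 2 * q, by rw [hq]; ring⟩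

theorem aniso1 {x y : ℤ} (h : 3 ∣ x ^ 2 + y ^ 2) : 3 ∣ x ∧ 3 ∣ y := by
  by_cases hx : 3 ∣ x
  · have h1 : 3 ∣ x ^ 2 := hx.pow two_ne_zero
    exact ⟨hx, p3.dvd_of_dvd_pow ((dvd_add_right h1).1 h)⟩
  · have h1 := sq_one hx
    by_cases hy : 3 ∣ y
    · have h2 : 3 ∣ y ^ 2 := hy.pow two_ne_zero
      omega
    · have h2 := sq_one hy
      omega

theorem aniso (k : ℕ) : ∀ x y : ℤ, 3 ^ (2 * k) ∣ x ^ 2 + y ^ 2 ↔ 3 ^ k ∣ x ∧ 3 ^ k ∣ y := by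
  intro x y
  refine ⟨?_, fun ⟨⟨a, ha⟩, b, hb⟩ => ⟨a ^ 2 + b ^ 2, by rw [ha, hb]; ring⟩⟩
  induction k generalizing x y with
  | zero => simp
  | succ k ih =>
    intro h
    obtain ⟨⟨a, rfl⟩, b, rfl⟩ := aniso1 ((dvd_pow_self 3 (by omega)).trans h)
    rw [show (3 * a) ^ 2 + (3 * b) ^ 2 = 9 * (a ^ 2 + b ^ 2) by ring,
      show (3 : ℤ) ^ (2 * (k + 1)) = 9 * 3 ^ (2 * k) by ring,
      mul_dvd_mul_iff_left (by norm_num)] at h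
    obtain ⟨h1, h2⟩ := ih a b h
    rw [pow_succ']
    exact ⟨mul_dvd_mul_left 3 h1, mul_dvd_mul_left 3 h2⟩

/-- Cancelling a power and a unit. -/
theorem cancel (m n : ℕ) {u : ℤ} (hu : ¬3 ∣ u) (x : ℤ) :
    (3 : ℤ) ^ (m + n) ∣ 3 ^ m * u * x ↔ 3 ^ n ∣ x := by
  rw [pow_add, mul_assoc, mul_dvd_mul_iff_left (by positivity)]
  exact ⟨fun h => (IsCoprime.pow_left (p3.coprime_iff_not_dvd.2 hu)).dvd_of_dvd_mul_left h,
    fun h => h.mul_left u⟩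

theorem unit_pow {u : ℤ} (hu : ¬3 ∣ u) (n : ℕ) : ¬3 ∣ u ^ n := fun h => hu (p3.dvd_of_dvd_pow h)

theorem big {g V : ℕ} {u α : ℤ} (hα : ¬3 ∣ α) (h : V < g) :
    ¬(3 : ℤ) ^ (2 * V + 1) ∣ (3 ^ g * u) ^ 2 - (3 ^ V * α) ^ 2 := by
  obtain ⟨r, rfl⟩ := Nat.exists_eq_add_of_lt h
  intro h1
  rw [show ((3 : ℤ) ^ (V + r + 1) * u) ^ 2 - (3 ^ V * α) ^ 2 =
    3 ^ (2 * V) * 1 * (3 * (3 * (3 ^ r * u) ^ 2) - α ^ 2) by ring, cancel _ _ (by decide),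
    pow_one] at h1
  exact unit_pow hα 2 (H56.dv ((dvd_mul_right 3 (3 * (3 ^ r * u) ^ 2)).sub h1) (by ring))

theorem exact {g V : ℕ} {u α : ℤ} (hu : ¬3 ∣ u) (hα : ¬3 ∣ α) :
    (3 : ℤ) ^ (2 * V + 1) ∣ (3 ^ g * u) ^ 2 - (3 ^ V * α) ^ 2 ↔ g = V := by
  refine ⟨fun h => ?_, fun h => ?_⟩
  · rcases lt_trichotomy g V with c | c | c
    · refine absurd ?_ (big (u := α) hu c)
      exact H56.dv ((pow_dvd_pow 3 (by omega)).trans h).neg_right (by ring)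
    · exact c
    · exact absurd h (big hα c)
  · rw [h, show ((3 : ℤ) ^ V * u) ^ 2 - (3 ^ V * α) ^ 2 = 3 ^ (2 * V) * 1 * (u ^ 2 - α ^ 2) by ring,
      cancel _ _ (by decide), pow_one]
    exact H56.dv ((sq_one hu).sub (sq_one hα)) (by ring)

end ADx

open ADx in
theorem sAD : SAD := by
  refine ⟨part1, ?_⟩
  intro A A3 Q P i c ω δ α V ν f τ h3 hA hα ⟨k, hk⟩ hω ⟨j, hj⟩ hi hδ
  obtain ⟨U, rfl⟩ : ∃ U, V = U + 1 := by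
    rcases V with _ | U
    · exact absurd ⟨A3, by rw [← h3, hA]; ring⟩ hα
    · exact ⟨U, rfl⟩
  have e3 : A3 = 3 ^ U * α := by
    have : 3 * A3 = 3 * (3 ^ U * α) := by rw [← h3, hA]; ring
    omega
  set V := U + 1 with hV
  have a1 : (3 : ℤ) ^ (15 * V) ∣ A ^ 12 * (A ^ 2 * Q ^ 2 - P) ↔ (3 : ℤ) ^ V ∣ 3 ^ ν * c := by
    rw [show A ^ 12 * (A ^ 2 * Q ^ 2 - P) = 3 ^ (14 * V) * α ^ 14 * (ω * (3 ^ ν * c) +
      3 ^ V * (α * (j - A * k))) by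
        rw [show A ^ 2 * Q ^ 2 - P = A ^ 2 * (ω * (3 ^ ν * c) + A * (j - A * k)) by
          linear_combination A ^ 2 * hj - hk]
        generalize j - A * k = t
        rw [hA]; ring,
      show 15 * V = 14 * V + V by ring, cancel _ _ (unit_pow hα 14),
      dvd_add_left (dvd_mul_right _ _)]
    simpa using cancel 0 V hω (3 ^ ν * c)
  have a2 : (3 : ℤ) ^ (15 * V) ∣ A3 * ((3 ^ (f + ν + 1) * (P - 4 * A ^ 2) ^ 3) ^ 2 - A ^ 14) ↔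
      f + 3 * τ + ν + 1 = V := by
    rw [show A3 * ((3 ^ (f + ν + 1) * (P - 4 * A ^ 2) ^ 3) ^ 2 - A ^ 14) =
      3 ^ (U + 12 * V) * α ^ 13 * ((3 ^ (f + ν + 1) *
        (3 ^ τ * δ + 3 ^ (2 * V) * (α ^ 2 * k)) ^ 3) ^ 2 - (3 ^ V * α) ^ 2) by
        rw [show P - 4 * A ^ 2 = A ^ 2 * (3 ^ τ * δ + A ^ 2 * k) by
          linear_combination hk + A ^ 2 * hi, e3, hA]
        ring,
      show 15 * V = U + 12 * V + (2 * V + 1) by omega, cancel _ _ (unit_pow hα 13)]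
    rcases lt_or_ge τ (2 * V) with c | c
    · obtain ⟨r, hr⟩ := Nat.exists_eq_add_of_lt c
      have u1 : ¬3 ∣ δ + 3 * (3 ^ r * (α ^ 2 * k)) := fun h =>
        hδ ((dvd_add_left (dvd_mul_right _ _)).1 h)
      rw [show (3 : ℤ) ^ (f + ν + 1) * (3 ^ τ * δ + 3 ^ (2 * V) * (α ^ 2 * k)) ^ 3 =
        3 ^ (f + 3 * τ + ν + 1) * (δ + 3 * (3 ^ r * (α ^ 2 * k))) ^ 3 by rw [hr]; ring]
      exact exact (unit_pow u1 3) hα
    · obtain ⟨r, rfl⟩ := Nat.exists_eq_add_of_le c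
      rw [show (3 : ℤ) ^ (f + ν + 1) * (3 ^ (2 * V + r) * δ + 3 ^ (2 * V) * (α ^ 2 * k)) ^ 3 =
        3 ^ (f + ν + 1 + 6 * V) * (3 ^ r * δ + α ^ 2 * k) ^ 3 by ring]
      exact iff_of_false (big hα (by omega)) (by omega)
  rw [T0, show 30 * V = 2 * (15 * V) by ring, aniso, a1, a2, and_comm]
  refine and_congr_right fun h => ?_
  rw [← h, show f + 3 * τ + ν + 1 = ν + (f + 3 * τ + 1) by ring]
  simpa using cancel ν (f + 3 * τ + 1) (u := 1) (by decide) c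

end Pool.Agent.MP_fed7c7_lc.S6
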