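import Pool.Agent.MP_fed7c7_lc.S6.Spec

set_option autoImplicit false

/-!
Six unknowns: reading a convolution digit with few terms.
-/

namespace Pool.Agent.MP_fed7c7_lc.S6

open Finset Pool.Agent.MP_fed7c7_lc.H93

namespace CVx

theorem low (s : Finset ℕ) (f : ℕ → ℕ) (e : ℕ) (hs : s.card ≤ 15) (hf : ∀ a ∈ s, f a < e) :
    ∑ a ∈ s, 16 ^ f a < 16 ^ e := by
  have h1 : ∑ a ∈ s, 16 * 16 ^ f a ≤ s.card • 16 ^ e :=
    sum_le_card_nsmul _ _ _ fun a ha => by
      rw [← pow_succ']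
      exact Nat.pow_le_pow_right (by norm_num) (hf a ha)
  rw [← mul_sum, smul_eq_mul] at h1
  have h2 : s.card * 16 ^ e ≤ 15 * 16 ^ e := Nat.mul_le_mul_right _ hs
  have h3 : 0 < 16 ^ e := by positivity
  omega

theorem dig_sum (s : Finset ℕ) (f : ℕ → ℕ) (e : ℕ) (hs : s.card ≤ 15) :
    dig 16 (∑ a ∈ s, 16 ^ f a) e = (s.filter fun a => f a = e).card := by
  have h1 := low (s.filter fun a => f a < e) f e ((card_filter_le _ _).trans hs)
    fun a ha => (mem_filter.1 ha).2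
  obtain ⟨k, hk⟩ : 16 ^ (e + 1) ∣ ∑ a ∈ s.filter fun a => e < f a, 16 ^ f a :=
    dvd_sum fun a ha => pow_dvd_pow _ (mem_filter.1 ha).2
  have h2 : ∑ a ∈ s.filter fun a => f a = e, 16 ^ f a =
      (s.filter fun a => f a = e).card * 16 ^ e := by
    rw [sum_congr rfl fun a ha => by rw [(mem_filter.1 ha).2], sum_const, smul_eq_mul]
  have h3 : ∑ a ∈ s, 16 ^ f a = ∑ a ∈ s.filter fun a => f a < e, 16 ^ f a +
      ∑ a ∈ s.filter fun a => f a = e, 16 ^ f a + ∑ a ∈ s.filter fun a => e < f a, 16 ^ f a := by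
    simp only [sum_filter, ← sum_add_distrib]
    refine sum_congr rfl fun a _ => ?_
    split_ifs <;> omega
  have h4 : (s.filter fun a => f a = e).card ≤ 15 := (card_filter_le _ _).trans hs
  rw [h3, h2, hk, dig]
  generalize (s.filter fun a => f a = e).card = c at h4
  generalize ∑ a ∈ s.filter fun a => f a < e, 16 ^ f a = l at h1
  have e1 : l + c * 16 ^ e + 16 ^ (e + 1) * k = l + 16 ^ e * (c + 16 * k) := by ring
  rw [e1, Nat.add_mul_div_left _ _ (by positivity), Nat.div_eq_of_lt h1]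
  omega

/-- the exponent of a digit. -/
def hh (t : ℕ) : ℕ := if t = 1 then 0 else 3 ^ (t - 2)

theorem val_eq {t : ℕ} (h : t ≠ 0) : val t = 16 ^ hh t := by
  unfold val hh dv
  split_ifs <;> simp_all

theorem top_eq {a b i j : ℕ} (h1 : a ≤ b) (h : 3 ^ a + 3 ^ b = 3 ^ i + 3 ^ j) : j ≤ b := by
  by_contra hn
  have h2 : 3 ^ a ≤ 3 ^ b := Nat.pow_le_pow_right (by norm_num) h1
  have h3 : 3 ^ (b + 1) ≤ 3 ^ j := Nat.pow_le_pow_right (by norm_num) (by omega)
  have h4 : 0 < 3 ^ b := by positivity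
  rw [pow_succ] at h3
  have h5 : 0 < 3 ^ i := by positivity
  omega

theorem pair_le {a b i j : ℕ} (h1 : a ≤ b) (h2 : i ≤ j) (h : 3 ^ a + 3 ^ b = 3 ^ i + 3 ^ j) :
    a = i ∧ b = j := by
  have e : b = j := le_antisymm (top_eq h2 h.symm) (top_eq h1 h)
  subst e
  exact ⟨Nat.pow_right_injective (by norm_num : 2 ≤ 3) (Nat.add_right_cancel h), rfl⟩

theorem pair {a b i j : ℕ} (h : 3 ^ a + 3 ^ b = 3 ^ i + 3 ^ j) :
    a = i ∧ b = j ∨ a = j ∧ b = i := by
  rcases le_total a b with h1 | h1 <;> rcases le_total i j with h2 | h2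
  · exact Or.inl (pair_le h1 h2 h)
  · exact Or.inr (pair_le h1 h2 (by omega))
  · exact Or.inr (pair_le h1 h2 (by omega)).symm
  · exact Or.inl (pair_le h1 h2 (by omega)).symm

theorem hh_pair {x y i j : ℕ} (hx : x ≠ 0) (hy : y ≠ 0) (h : hh x + hh y = 3 ^ i + 3 ^ j) :
    x = i + 2 ∧ y = j + 2 ∨ x = j + 2 ∧ y = i + 2 := by
  have o : ∀ k, 3 ^ k % 2 = 1 := fun k => Nat.odd_iff.1 (Odd.pow (by decide))
  have o1 := o i
  have o2 := o j
  have o3 := o (x - 2)
  have o4 := o (y - 2)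
  by_cases h1 : x = 1 <;> by_cases h2 : y = 1
  · rw [hh, hh, if_pos h1, if_pos h2] at h
    generalize 3 ^ i = p at *
    generalize 3 ^ j = q at *
    omega
  · rw [hh, hh, if_pos h1, if_neg h2] at h
    omega
  · rw [hh, hh, if_neg h1, if_pos h2] at h
    omega
  · rw [hh, hh, if_neg h1, if_neg h2] at h
    have := pair h
    omega

theorem hh_add (i : ℕ) : hh (i + 2) = 3 ^ i := by simp [hh]

theorem even_inv (G : Finset ℕ) (n : ℕ) (h : ∀ a ∈ G, a ≤ n ∧ n - a ∈ G ∧ n ≠ 2 * a) :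
    Even G.card := by
  have h1 : ∑ _a ∈ G, (1 : ZMod 2) = 0 :=
    sum_involution (fun a _ => n - a) (fun _ _ => by decide)
      (fun a ha _ => by have := h a ha; omega) (fun a ha => (h a ha).2.1)
      fun a ha => by have := h a ha; omega
  rw [sum_const, nsmul_one] at h1
  exact (ZMod.natCast_eq_zero_iff_even).1 h1

theorem odd_inv (G : Finset ℕ) (n : ℕ) (h : ∀ a ∈ G, a ≤ n ∧ n - a ∈ G) :
    Odd G.card ↔ ∃ a ∈ G, n = 2 * a := by
  constructor
  · intro ho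
    by_contra hn
    exact Nat.not_even_iff_odd.2 ho (even_inv G n fun a ha =>
      ⟨(h a ha).1, (h a ha).2, fun e => hn ⟨a, ha, e⟩⟩)
  · rintro ⟨a, ha, e⟩
    rw [← card_erase_add_one ha]
    refine (even_inv _ n fun b hb => ?_).add_one
    obtain ⟨b1, b2⟩ := mem_erase.1 hb
    have := h b b2
    exact ⟨this.1, mem_erase.2 ⟨by omega, this.2⟩, by omega⟩

end CVx

open CVx in
theorem sCV : SCV := by
  intro t n R ht hc
  obtain ⟨F, hF⟩ : ∃ F, F = (range (n + 1)).filter fun a => t a ≠ 0 ∧ t (n - a) ≠ 0 := ⟨_, rfl⟩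
  have mF : ∀ a, a ∈ F ↔ a ≤ n ∧ t a ≠ 0 ∧ t (n - a) ≠ 0 := fun a => by
    rw [hF, mem_filter, mem_range, Nat.lt_succ_iff]
  have e : cv t n = ∑ a ∈ F, 16 ^ (hh (t a) + hh (t (n - a))) := by
    rw [hF, sum_filter, cv]
    refine sum_congr rfl fun a _ => ?_
    split_ifs with h
    · rw [val_eq h.1, val_eq h.2, pow_add]
    · rcases not_and_or.1 h with h | h <;> simp [val, not_not.1 h]
  rw [← hF] at hc
  have hd := fun k => dig_sum F (fun a => hh (t a) + hh (t (n - a))) k hc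
  rw [← e] at hd
  have hb : ∀ x, x < R + 5 → hh x ≤ 3 ^ (R + 2) := fun x hx => by
    unfold hh
    split_ifs
    · positivity
    · exact Nat.pow_le_pow_right (by norm_num) (by omega)
  refine ⟨?_, fun i j => ?_, fun i => ?_, fun ho => ?_⟩
  · rw [e]
    refine low F _ _ hc fun a ha => ?_
    have h1 := hb _ (ht a ((mF a).1 ha).1)
    have h2 := hb _ (ht (n - a) (Nat.sub_le _ _))
    have h3 : 0 < 3 ^ (R + 2) := by positivity
    have h4 : 3 ^ (R + 3) = 3 ^ (R + 2) * 3 := pow_succ _ _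
    omega
  · rw [Ev, hd, Ne, card_eq_zero, ← Ne, ← nonempty_iff_ne_empty]
    constructor
    · rintro ⟨a, ha⟩
      obtain ⟨h1, h2⟩ := mem_filter.1 ha
      obtain ⟨h3, h4, h5⟩ := (mF a).1 h1
      rcases hh_pair h4 h5 h2 with h | h
      · exact ⟨a, h3, h⟩
      · exact ⟨n - a, Nat.sub_le _ _, h.2, by rw [Nat.sub_sub_self h3]; exact h.1⟩
    · rintro ⟨a, h1, h2, h3⟩
      exact ⟨a, mem_filter.2 ⟨(mF a).2 ⟨h1, by omega, by omega⟩, by rw [h2, h3, hh_add, hh_add]⟩⟩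
  · rw [Di, hd, odd_inv _ n fun a ha => ?_]
    · constructor
      · rintro ⟨a, ha, h0⟩
        obtain ⟨h1, h2⟩ := mem_filter.1 ha
        obtain ⟨h3, h4, h5⟩ := (mF a).1 h1
        rw [two_mul] at h2
        have := hh_pair h4 h5 h2
        exact ⟨a, h0, by omega⟩
      · rintro ⟨a, h1, h2⟩
        have h3 : n - a = a := by omega
        refine ⟨a, mem_filter.2 ⟨(mF a).2 ⟨by omega, by omega, by rw [h3]; omega⟩, ?_⟩, h1⟩
        rw [h3, h2, hh_add, two_mul]
    · obtain ⟨h1, h2⟩ := mem_filter.1 ha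
      obtain ⟨h3, h4, h5⟩ := (mF a).1 h1
      refine ⟨h3, mem_filter.2 ⟨(mF _).2 ⟨Nat.sub_le _ _, h5, ?_⟩, ?_⟩⟩
      · rwa [Nat.sub_sub_self h3]
      · rw [Nat.sub_sub_self h3, add_comm]
        exact h2
  · have h0 : dig 16 (cv t n) 0 ≠ 0 := by
      rw [dig_zero]
      have := Nat.odd_iff.1 ho
      omega
    rw [hd, Ne, card_eq_zero, ← Ne, ← nonempty_iff_ne_empty] at h0
    obtain ⟨a, ha⟩ := h0
    obtain ⟨h1, h2⟩ := mem_filter.1 ha
    have z : ∀ x, hh x = 0 → x = 1 := fun x hx => by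
      unfold hh at hx
      split_ifs at hx with h
      · exact h
      · exact absurd hx (by positivity)
    exact ⟨a, ((mF a).1 h1).1, z _ (by omega), z _ (by omega)⟩

end Pool.Agent.MP_fed7c7_lc.S6
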