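import Mathlib
import Pool.Agent.MP_fed7c7_lc.S6.Spec
import Pool.Agent.MP_fed7c7_lc.H90.One

set_option autoImplicit false

/-!
Six unknowns: digits of the square block.
-/

namespace Pool.Agent.MP_fed7c7_lc.S6

open Finset Pool.Agent.MP_fed7c7_lc.H56 Pool.Agent.MP_fed7c7_lc.H21
  Pool.Agent.MP_fed7c7_lc.H93

namespace DSx

theorem expand (B x : ℕ) : ∀ m : ℕ,
    x = ∑ p ∈ range m, dig B x p * B ^ p + x / B ^ m * B ^ m := by
  intro m
  induction m with
  | zero => simp
  | succ m ih =>
    rw [sum_range_succ]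
    have h1 : x / B ^ m = dig B x m + B * (x / B ^ (m + 1)) := by
      unfold dig
      rw [pow_succ, ← Nat.div_div_eq_div_mul]
      exact (Nat.mod_add_div _ _).symm
    have h2 : x / B ^ m * B ^ m = dig B x m * B ^ m + x / B ^ (m + 1) * B ^ (m + 1) := by
      conv_lhs => rw [h1]
      ring
    omega

theorem split (B m : ℕ) (Q : Polynomial ℕ) :
    ∃ v, Q.eval B = ∑ k ∈ range m, Q.coeff k * B ^ k + v * B ^ m := by
  refine ⟨∑ i ∈ range (Q.natDegree + 1), Q.coeff (m + i) * B ^ i, ?_⟩
  rw [Polynomial.eval_eq_sum_range' (n := m + (Q.natDegree + 1)) (by omega), sum_range_add,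
    sum_mul]
  congr 1
  exact sum_congr rfl fun i _ => by ring

theorem poly (B x m : ℕ) : ∃ P : Polynomial ℕ, P.eval B = x ∧ ∀ p < m, P.coeff p = dig B x p := by
  refine ⟨∑ p ∈ range m, Polynomial.monomial p (dig B x p) + Polynomial.monomial m (x / B ^ m),
    ?_, ?_⟩
  · rw [Polynomial.eval_add, Polynomial.eval_finsetSum]
    simp only [Polynomial.eval_monomial]
    exact (expand B x m).symm
  · intro p hp
    rw [Polynomial.coeff_add, Polynomial.finsetSum_coeff, Polynomial.coeff_monomial,
      if_neg (by omega), add_zero, sum_eq_single p]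
    · rw [Polynomial.coeff_monomial, if_pos rfl]
    · intro b _ hb
      rw [Polynomial.coeff_monomial, if_neg hb]
    · intro h
      exact absurd (mem_range.2 hp) h

end DSx

theorem sDS : SDS := by
  intro B l d x n t hl h2 hd ht hc
  obtain ⟨P, hP, hco⟩ := DSx.poly B x (n + 1)
  have h1 : ∀ k ≤ n, (P * P).coeff k = cv t k := by
    intro k hk
    rw [Polynomial.coeff_mul,
      Finset.Nat.sum_antidiagonal_eq_sum_range_succ (fun a b => P.coeff a * P.coeff b) k]
    unfold cv
    refine sum_congr rfl fun a ha => ?_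
    have := mem_range.1 ha
    rw [hco a (by omega), hco (k - a) (by omega), ht, ht]
  set Q : Polynomial ℕ := Polynomial.C l * (P * P) + Polynomial.X ^ d * (P * P) with hQ
  have h3 : ∀ k ≤ n, Q.coeff k = l * cv t k + if d ≤ k then cv t (k - d) else 0 := by
    intro k hk
    rw [hQ, Polynomial.coeff_add, Polynomial.coeff_C_mul, Polynomial.coeff_X_pow_mul', h1 k hk]
    congr 1
    split_ifs with h
    · exact h1 _ (by omega)
    · rfl
  have h4 : Q.eval B = (l + B ^ d) * x ^ 2 := by
    rw [hQ]
    simp only [Polynomial.eval_add, Polynomial.eval_mul, Polynomial.eval_C, Polynomial.eval_pow,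
      Polynomial.eval_X, hP]
    ring
  obtain ⟨v, hv⟩ := DSx.split B (n + 1) Q
  have hB : 0 < B := lt_of_lt_of_le (by positivity) hl
  have h5 : ∀ k < n + 1, Q.coeff k < B := by
    intro k hk
    rw [h3 k (by omega)]
    have a1 := hc k (by omega)
    have a2 : (if d ≤ k then cv t (k - d) else 0) < l := by
      split_ifs
      · exact hc _ (by omega)
      · omega
    have a3 : l * (cv t k + 1) ≤ l * l := Nat.mul_le_mul_left l a1
    rw [pow_two] at hl
    rw [mul_add, mul_one] at a3
    omega
  rw [← h4, hv, H90.dig_sum hB h5 v n (by omega), h3 n le_rfl]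

end Pool.Agent.MP_fed7c7_lc.S6
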