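import Pool.Agent.MP_fed7c7_lc.S6.Spec

set_option autoImplicit false

namespace Pool.Agent.MP_fed7c7_lc.S6

open Finset Pool.Agent.MP_fed7c7_lc.H56 Pool.Agent.MP_fed7c7_lc.H21 Pool.Agent.MP_fed7c7_lc.H93

namespace GCx

theorem dig_sum {B : ℕ} (hB : 0 < B) (n : ℕ) : ∀ (f : ℕ → ℕ), (∀ p, f p < B) → ∀ p,
    dig B (∑ i ∈ range n, f i * B ^ i) p = if p < n then f p else 0 := by
  induction n with
  | zero => intro f _ p; simp [dig]
  | succ n ih =>
    intro f hf p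
    have e : ∑ i ∈ range (n + 1), f i * B ^ i =
        f 0 + B * ∑ i ∈ range n, f (i + 1) * B ^ i := by
      rw [sum_range_succ', mul_sum, pow_zero, mul_one, add_comm]
      exact congrArg _ (sum_congr rfl fun i _ => by ring)
    rw [e]
    rcases p with _ | p
    · rw [dig_zero, Nat.add_mul_mod_self_left, Nat.mod_eq_of_lt (hf 0), if_pos (by omega)]
    · rw [dig_succ, Nat.add_mul_div_left _ _ hB, Nat.div_eq_of_lt (hf 0), zero_add,
        ih (fun i => f (i + 1)) (fun i => hf _)]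
      simp

theorem two_lt {i k : ℕ} (h1 : 1 ≤ k) (h2 : k ≤ i) : 2 ^ i + 2 ^ (i - k) < 2 ^ (i + 1) := by
  have : 2 ^ (i - k) < 2 ^ i := Nat.pow_lt_pow_right (by norm_num) (by omega)
  rw [pow_succ]; omega

theorem two_ne {i k j : ℕ} (h1 : 1 ≤ k) (h2 : k ≤ i) : 2 ^ i + 2 ^ (i - k) ≠ 2 ^ j := by
  intro h
  have a := two_lt h1 h2
  have b : 2 ^ i < 2 ^ j := by have := Nat.two_pow_pos (i - k); omega
  rw [h] at a
  have := (Nat.pow_lt_pow_iff_right (by norm_num : 1 < 2)).1 a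
  have := (Nat.pow_lt_pow_iff_right (by norm_num : 1 < 2)).1 b
  omega

/-- The labels of the honest number. -/
structure Lab (S : Sy) (N : ℕ) (g : ℕ → ℕ) (lam : ℕ) (t : ℕ → ℕ) : Prop where
  all : ∀ p, (p = 0 ∧ t p = 2) ∨ (p = lam ∧ t p = 1) ∨ (∃ i ≤ N, p = 2 ^ i ∧ t p = g i + 5) ∨
    (∃ k ≤ N, S.st (g k) ∧ p = 2 ^ N + 2 ^ (N - k) ∧ t p = 4) ∨
    (∃ k i, k ≤ i ∧ i < N ∧ S.st (g k) ∧ p = 2 ^ i + 2 ^ (i - k) ∧ t p = 3) ∨ t p = 0
  t0 : t 0 = 2
  t1 : t lam = 1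
  t5 : ∀ i ≤ N, t (2 ^ i) = g i + 5
  t4 : ∀ k ≤ N, S.st (g k) → t (2 ^ N + 2 ^ (N - k)) = 4
  t3 : ∀ k i, k ≤ i → i < N → S.st (g k) → t (2 ^ i + 2 ^ (i - k)) = 3

theorem exists_lab (S : Sy) (N : ℕ) (g : ℕ → ℕ) (lam : ℕ) (h0 : g 0 = S.fst)
    (hl : 2 ^ (N + 1) < lam) : ∃ t, Lab S N g lam t := by
  classical
  have k1 : ∀ k, S.st (g k) → 1 ≤ k := fun k hk => by
    rcases k with _ | k
    · exact absurd (h0 ▸ hk) S.h3
    · omega
  have mono : ∀ i ≤ N, 2 ^ (i + 1) ≤ 2 ^ (N + 1) := fun i hi =>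
    Nat.pow_le_pow_right (by norm_num) (by omega)
  refine ⟨fun p => if p = 0 then 2 else if p = lam then 1 else
    if ∃ i ≤ N, p = 2 ^ i then g (Nat.log 2 p) + 5 else
    if ∃ k ≤ N, S.st (g k) ∧ p = 2 ^ N + 2 ^ (N - k) then 4 else
    if ∃ k i, k ≤ i ∧ i < N ∧ S.st (g k) ∧ p = 2 ^ i + 2 ^ (i - k) then 3 else 0,
    fun p => ?_, by simp, ?_, fun i hi => ?_, fun k hk hs => ?_, fun k i hk hi hs => ?_⟩
  · split_ifs with a b c d e
    · exact Or.inl ⟨a, rfl⟩
    · exact Or.inr (Or.inl ⟨b, rfl⟩)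
    · obtain ⟨i, hi, rfl⟩ := c
      exact Or.inr (Or.inr (Or.inl ⟨i, hi, rfl, by rw [Nat.log_pow (by norm_num)]⟩))
    · obtain ⟨k, hk, h1, h2⟩ := d
      exact Or.inr (Or.inr (Or.inr (Or.inl ⟨k, hk, h1, h2, rfl⟩)))
    · obtain ⟨k, i, hk, hi, h1, h2⟩ := e
      exact Or.inr (Or.inr (Or.inr (Or.inr (Or.inl ⟨k, i, hk, hi, h1, h2, rfl⟩))))
    · exact Or.inr (Or.inr (Or.inr (Or.inr (Or.inr rfl))))
  · have := Nat.two_pow_pos N
    rw [if_neg (by omega), if_pos rfl]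
  · have := mono i hi
    have := Nat.two_pow_pos i
    rw [if_neg (by omega), if_neg (by rw [pow_succ] at *; omega), if_pos ⟨i, hi, rfl⟩,
      Nat.log_pow (by norm_num)]
  · have := two_lt (k1 k hs) hk
    have := Nat.two_pow_pos N
    have := Nat.two_pow_pos (N - k)
    rw [if_neg (by omega), if_neg (by omega),
      if_neg (by rintro ⟨j, -, h⟩; exact two_ne (k1 k hs) hk h), if_pos ⟨k, hk, hs, rfl⟩]
  · have := two_lt (k1 k hs) hk
    have := Nat.two_pow_pos i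
    have := Nat.two_pow_pos (i - k)
    have := mono i hi.le
    have : 2 ^ (i + 1) ≤ 2 ^ N := Nat.pow_le_pow_right (by norm_num) hi
    rw [if_neg (by omega), if_neg (by omega),
      if_neg (by rintro ⟨j, -, h⟩; exact two_ne (k1 k hs) hk h),
      if_neg (by rintro ⟨j, -, -, h⟩; have := Nat.two_pow_pos (N - j); omega),
      if_pos ⟨k, i, hk, hi, hs, rfl⟩]

variable {S : Sy} {N lam : ℕ} {g t : ℕ → ℕ}

theorem Lab.e2 (h : Lab S N g lam t) {p : ℕ} (e : t p = 2) : p = 0 := by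
  rcases h.all p with a | a | ⟨_, _, _, a⟩ | ⟨_, _, _, _, a⟩ | ⟨_, _, _, _, _, _, a⟩ | a <;> omega

theorem Lab.e1 (h : Lab S N g lam t) {p : ℕ} (e : t p = 1) : p = lam := by
  rcases h.all p with a | a | ⟨_, _, _, a⟩ | ⟨_, _, _, _, a⟩ | ⟨_, _, _, _, _, _, a⟩ | a <;> omega

theorem Lab.e5 (h : Lab S N g lam t) {p j : ℕ} (e : t p = j + 3 + 2) :
    ∃ i ≤ N, p = 2 ^ i ∧ g i = j := by
  rcases h.all p with a | a | ⟨i, b, c, a⟩ | ⟨_, _, _, _, a⟩ | ⟨_, _, _, _, _, _, a⟩ | a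
  · omega
  · omega
  · exact ⟨i, b, c, by omega⟩
  all_goals omega

theorem Lab.e4 (h : Lab S N g lam t) {p : ℕ} (e : t p = 4) :
    ∃ k ≤ N, S.st (g k) ∧ p = 2 ^ N + 2 ^ (N - k) := by
  rcases h.all p with a | a | ⟨i, b, c, a⟩ | ⟨k, b, c, d, a⟩ | ⟨_, _, _, _, _, _, a⟩ | a
  · omega
  · omega
  · omega
  · exact ⟨k, b, c, d⟩
  all_goals omega

theorem Lab.e3 (h : Lab S N g lam t) {p : ℕ} (e : t p = 3) :
    ∃ k i, k ≤ i ∧ i < N ∧ S.st (g k) ∧ p = 2 ^ i + 2 ^ (i - k) := by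
  rcases h.all p with a | a | ⟨i, b, c, a⟩ | ⟨k, b, c, d, a⟩ | ⟨k, i, b, c, d, f, a⟩ | a
  · omega
  · omega
  · omega
  · omega
  · exact ⟨k, i, b, c, d, f⟩
  · omega

theorem uniq (hn : ∀ i < N, S.nx (g i) (g (i + 1))) : ∃ K, ∀ k ≤ N, S.st (g k) → k = K := by
  have a : ∀ k, S.st (g k) → ∀ j, k + j + 1 ≤ N →
      S.seen (g (k + j + 1)) ∧ ¬S.st (g (k + j + 1)) := by
    intro k hk j
    induction j with
    | zero => exact fun h => S.h5 _ _ (hn k h) (S.h4 _ hk)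
    | succ j ih => exact fun h => S.h5 _ _ (hn (k + j + 1) h) (ih (by omega)).1
  by_cases h : ∃ k ≤ N, S.st (g k)
  · obtain ⟨K, hK, sK⟩ := h
    refine ⟨K, fun k hk sk => ?_⟩
    rcases lt_trichotomy k K with l | l | l
    · obtain ⟨j, rfl⟩ := Nat.exists_eq_add_of_lt l
      exact absurd sK (a k sk j hK).2
    · exact l
    · obtain ⟨j, rfl⟩ := Nat.exists_eq_add_of_lt l
      exact absurd sk (a K sK j hk).2
  · exact ⟨0, fun k hk sk => absurd ⟨k, hk, sk⟩ h⟩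

theorem near {n m i : ℕ} (h1 : 2 ^ i ≤ m) (h2 : m < 2 ^ (i + 1)) (h3 : m ≤ n) (h4 : n ≤ 2 * m) :
    i = Nat.log 2 n ∨ i = Nat.log 2 n - 1 := by
  have p := Nat.two_pow_pos i
  have a : i ≤ Nat.log 2 n := Nat.le_log_of_pow_le (by norm_num) (by omega)
  have b : Nat.log 2 n < i + 2 :=
    Nat.log_lt_of_lt_pow (by omega) (by rw [pow_succ]; omega)
  omega

theorem Lab.card (h : Lab S N g lam t) (h0 : g 0 = S.fst) (hn : ∀ i < N, S.nx (g i) (g (i + 1)))
    (n : ℕ) : ((range (n + 1)).filter fun a => t a ≠ 0 ∧ t (n - a) ≠ 0).card ≤ 15 := by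
  obtain ⟨K, hK⟩ := uniq hn
  have k1 : ∀ k, S.st (g k) → 1 ≤ k := fun k hk => by
    rcases k with _ | k
    · exact absurd (h0 ▸ hk) S.h3
    · omega
  set e := Nat.log 2 n with he
  let A : Finset ℕ :=
    {0, lam, 2 ^ e, 2 ^ (e - 1), 2 ^ e + 2 ^ (e - K), 2 ^ (e - 1) + 2 ^ (e - 1 - K)}
  have hA : A.card ≤ 6 := card_le_six
  have key : ∀ m, t m ≠ 0 → m ≤ n → n ≤ 2 * m → m ∈ A := by
    intro m hm h1 h2
    simp only [A, mem_insert, mem_singleton]
    rcases h.all m with a | a | ⟨i, b, c, a⟩ | ⟨k, b, c, d, a⟩ | ⟨k, i, b, c, d, f, a⟩ | a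
    · exact Or.inl a.1
    · exact Or.inr (Or.inl a.1)
    · rcases near c.ge (c ▸ Nat.pow_lt_pow_right (by norm_num) (by omega)) h1 h2 with r | r
      · rw [c, r]; simp [he]
      · rw [c, r]; simp [he]
    · have l := two_lt (k1 k c) b
      obtain rfl := hK k b c
      rcases near (i := N) (by rw [d]; exact Nat.le_add_right _ _) (d ▸ l) h1 h2 with r | r
      · rw [d, r]; simp [he]
      · rw [d, r]; simp [he]
    · have l := two_lt (k1 k d) b
      obtain rfl := hK k (by omega) d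
      rcases near (i := i) (by rw [f]; exact Nat.le_add_right _ _) (f ▸ l) h1 h2 with r | r
      · rw [f, r]; simp [he]
      · rw [f, r]; simp [he]
    · exact absurd a hm
  have sub : ((range (n + 1)).filter fun a => t a ≠ 0 ∧ t (n - a) ≠ 0) ⊆
      A ∪ A.image fun m => n - m := by
    intro a ha
    obtain ⟨h1, h2, h3⟩ := mem_filter.1 ha
    have h1 := mem_range.1 h1
    by_cases c : n ≤ 2 * a
    · exact mem_union_left _ (key a h2 (by omega) c)
    · exact mem_union_right _ (mem_image.2 ⟨n - a, key _ h3 (by omega) (by omega), by omega⟩)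
  have := (card_le_card sub).trans (card_union_le _ _)
  have := card_image_le (s := A) (f := fun m => n - m)
  omega

theorem Lab.rul (h : Lab S N g lam t) (h0 : g 0 = S.fst) (hR : ∀ i ≤ N, g i < S.R)
    (hn : ∀ i < N, S.nx (g i) (g (i + 1)) ∧ ¬S.fin (g i)) (hf : S.fin (g N))
    (hc : ∀ k i, k ≤ i → i ≤ N → S.st (g k) → S.ck (g i) (g (i - k))) {n c c' : ℕ} (h1 : 1 ≤ n)
    (ev : ∀ i j, Ev c i j ↔ ∃ a ≤ n, t a = i + 2 ∧ t (n - a) = j + 2)
    (di : ∀ i, Di c i ↔ ∃ a, n = 2 * a ∧ t a = i + 2)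
    (h6 : Ev c' 0 0 → ∃ i ≤ N, n = 2 ^ i ∧ S.mark (g i)) : S.Rul c c' := by
  have ev0 : ∀ j, Ev c 0 j ↔ t n = j + 2 := fun j => by
    rw [ev]
    constructor
    · rintro ⟨a, _, b, d⟩
      obtain rfl := h.e2 b
      exact d
    · exact fun d => ⟨0, Nat.zero_le _, h.t0, d⟩
  have ptr : ∀ k i, k ≤ i → i ≤ N → S.st (g k) → n = 2 ^ i + 2 ^ (i - k) →
      Ev c 0 1 ∨ Ev c 0 2 := by
    intro k i hk hi hs e
    rw [ev0, ev0, e]
    rcases hi.eq_or_lt with rfl | hi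
    · exact Or.inr (h.t4 k hk hs)
    · exact Or.inl (h.t3 k i hk hi hs)
  have r4 : ∀ k i, k ≤ i → i ≤ N → S.st (g k) → n = 2 ^ i + 2 ^ (i - k) →
      (Di c 1 ∨ ∃ a < S.R, S.st a ∧ Ev c (S.fst + 3) (a + 3)) ∧
        Ev c (g i + 3) (g (i - k) + 3) := by
    intro k i hk hi hs e
    refine ⟨?_, (ev _ _).2 ⟨2 ^ i, by rw [e]; exact Nat.le_add_right _ _, h.t5 i hi, ?_⟩⟩
    · rcases hk.eq_or_lt with rfl | hk
      · refine Or.inr ⟨g k, hR k hi, hs, (ev _ _).2 ⟨1, h1, ?_, ?_⟩⟩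
        · rw [← h0]; exact h.t5 0 (Nat.zero_le _)
        · rw [e, Nat.sub_self, pow_zero, Nat.add_sub_cancel]; exact h.t5 k hi
      · obtain ⟨j, rfl⟩ := Nat.exists_eq_add_of_lt hk
        refine Or.inl ((di _).2 ⟨2 ^ (k + j) + 2 ^ (k + j - k), ?_,
          h.t3 k _ (by omega) (by omega) hs⟩)
        rw [e, show k + j + 1 - k = k + j - k + 1 by omega, pow_succ, pow_succ]; ring
    · rw [e, Nat.add_sub_cancel_left]; exact h.t5 _ (by omega)
  refine ⟨fun a => ?_, fun a _ b => ?_, fun b _ d nf => ?_, fun a _ b s => ?_, fun a => ?_,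
    fun a => ?_, fun a => ?_⟩
  · have := h.e2 ((ev0 0).1 a)
    omega
  · obtain ⟨i, hi, e, rfl⟩ := h.e5 ((ev0 _).1 b)
    rcases i with _ | i
    · exact Or.inl h0
    · exact Or.inr ⟨g i, hR i (by omega), (di _).2 ⟨2 ^ i, by rw [e, pow_succ, mul_comm],
        h.t5 i (by omega)⟩, (hn i hi).1, (hn i hi).2⟩
  · obtain ⟨u, e, d⟩ := (di _).1 d
    obtain ⟨i, hi, rfl, rfl⟩ := h.e5 d
    have : i < N := hi.lt_of_ne fun e => nf (e ▸ hf)
    refine ⟨g (i + 1), hR _ this, (ev0 _).2 ?_⟩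
    rw [e, mul_comm, ← pow_succ]; exact h.t5 _ this
  · obtain ⟨u, hu, d1, d2⟩ := (ev _ _).1 b
    obtain ⟨i, hi, rfl, e1⟩ := h.e5 d1
    obtain ⟨k, hk, e2, rfl⟩ := h.e5 d2
    have : i = 0 := by
      rcases i with _ | i
      · rfl
      · exact absurd e1 (S.h2 _ _ (hn i hi).1)
    subst this
    exact ptr k k le_rfl hk s (by rw [Nat.sub_self, ← e2]; omega)
  · by_cases b : Ev c 0 2
    · obtain ⟨k, hk, s, e⟩ := h.e4 ((ev0 _).1 b)
      have := r4 k N hk le_rfl s e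
      exact ⟨this.1, g N, hR N le_rfl, g (N - k), hR _ (by omega), this.2, hc k N hk le_rfl s,
        fun _ => Or.inl hf⟩
    · obtain ⟨k, i, hk, hi, s, e⟩ := h.e3 ((ev0 _).1 (a.resolve_right b))
      have := r4 k i hk hi.le s e
      exact ⟨this.1, g i, hR i hi.le, g (i - k), hR _ (by omega), this.2, hc k i hk hi.le s,
        fun d => absurd d b⟩
  · obtain ⟨u, e, d⟩ := (di _).1 a
    obtain ⟨k, i, hk, hi, s, rfl⟩ := h.e3 d
    refine ptr k (i + 1) (by omega) hi s ?_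
    rw [e, show i + 1 - k = i - k + 1 by omega, pow_succ, pow_succ]; ring
  · obtain ⟨i, hi, e, m⟩ := h6 a
    exact ⟨g i, hR i hi, m, (ev0 _).2 (e ▸ h.t5 i hi)⟩

theorem val_dv (j : ℕ) : val (j + 2) = dv j := by simp [val]

theorem even_dv (j : ℕ) : Even (dv j) :=
  (Nat.even_pow' (pow_pos (by norm_num) j).ne').2 (by decide)

theorem val_lt {R s : ℕ} (h : s < R + 5) : 2 * val s < (16 ^ (2 * 3 ^ (R + 3))) ^ 2 := by
  have p : 3 ^ (R + 2) < 2 * 3 ^ (R + 3) := by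
    have := pow_pos (by norm_num : 0 < 3) (R + 2)
    rw [pow_succ 3 (R + 2)]; omega
  have q : 16 ^ 3 ^ (R + 2) < 16 ^ (2 * 3 ^ (R + 3)) := Nat.pow_lt_pow_right (by norm_num) p
  have r : 1 < 16 ^ 3 ^ (R + 2) := Nat.one_lt_pow (pow_pos (by norm_num) _).ne' (by norm_num)
  have v : val s ≤ 16 ^ 3 ^ (R + 2) := by
    unfold val
    split_ifs
    · omega
    · omega
    · exact Nat.pow_le_pow_right (by norm_num) (Nat.pow_le_pow_right (by norm_num) (by omega))
  nlinarith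

end GCx

open GCx

theorem sGC : SCV → SDS → SGC := by
  intro hCV hDS S B a M hB hO ⟨N, g, h0, hR, hn, hf, ha, hm, hc⟩
  have pN := Nat.two_pow_pos N
  obtain ⟨lam, hlam⟩ : ∃ lam, lam = 2 ^ (N + 1) + M + 2 := ⟨_, rfl⟩
  obtain ⟨t, h⟩ := exists_lab S N g lam h0 (by omega)
  have k1 : ∀ k, S.st (g k) → 1 ≤ k := fun k hk => by
    rcases k with _ | k
    · exact absurd (h0 ▸ hk) S.h3
    · omega
  have tR : ∀ p, t p < S.R + 5 := fun p => by
    rcases h.all p with a | a | ⟨i, b, _, a⟩ | ⟨_, _, _, _, a⟩ | ⟨_, _, _, _, _, _, a⟩ | a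
    · omega
    · omega
    · have := hR i b; omega
    all_goals omega
  have big : ∀ p, lam < p → t p = 0 := fun p hp => by
    rcases h.all p with a | a | ⟨i, b, c, a⟩ | ⟨k, b, c, d, a⟩ | ⟨k, i, b, c, d, e, a⟩ | a
    · omega
    · omega
    · have : 2 ^ i ≤ 2 ^ (N + 1) := Nat.pow_le_pow_right (by norm_num) (by omega)
      omega
    · have := two_lt (k1 k c) b
      omega
    · have := two_lt (k1 k d) b
      have : 2 ^ (i + 1) ≤ 2 ^ (N + 1) := Nat.pow_le_pow_right (by norm_num) (by omega)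
      omega
    · exact a
  have v2 : ∀ p, 2 * val (t p) < B := fun p => (val_lt (tR p)).trans_le hB
  have v0 : val 0 = 0 := rfl
  have v1 : val 1 = 1 := rfl
  have B2 : 2 < B := by have := v2 lam; rwa [h.t1, v1] at this
  set x := ∑ i ∈ range (lam + 1), val (t i) * B ^ i with hx
  have d1 : ∀ p, dig B x p = val (t p) := fun p => by
    rw [hx, dig_sum (by omega) _ _ (fun p => by have := v2 p; omega)]
    split_ifs with c
    · rfl
    · rw [big p (by omega), v0]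
  have d2 : ∀ p, dig B (2 * x) p = 2 * val (t p) := fun p => by
    rw [hx, mul_sum, sum_congr rfl fun i _ => (mul_assoc _ _ _).symm,
      dig_sum (by omega) _ (fun i => 2 * val (t i)) v2]
    split_ifs with c
    · rfl
    · rw [big p (by omega), v0]
  have xe : x = ∑ i ∈ range lam, val (t i) * B ^ i + B ^ lam := by
    rw [hx, sum_range_succ, h.t1, v1, one_mul]
  have cvs := fun n => hCV t n S.R (fun a _ => tR a) (h.card h0 (fun i hi => (hn i hi).1) n)
  have ll2 : 2 ≤ S.ll := Nat.one_lt_pow (by positivity) (by norm_num)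
  have lle : Even S.ll := (Nat.even_pow' (by positivity)).2 (by decide)
  have dp : 0 < 2 ^ (a + 1) := Nat.two_pow_pos _
  set d := 2 ^ (a + 1) with hd
  have d3 : ∀ n, dig B ((S.ll + B ^ d) * x ^ 2) n =
      S.ll * cv t n + if d ≤ n then cv t (n - d) else 0 := fun n =>
    hDS B S.ll d x n t hB ll2 dp d1 fun k _ => (cvs k).1
  have c0 : ∀ n, 2 * lam < n → cv t n = 0 := fun n hn => sum_eq_zero fun i hi => by
    by_cases c : lam < i
    · rw [big i c, v0, zero_mul]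
    · rw [big (n - i) (by omega), v0, mul_zero]
  have c1 : cv t (2 * lam) = 1 := by
    rw [cv, sum_eq_single lam]
    · rw [show 2 * lam - lam = lam by omega, h.t1, v1]
    · intro i _ hi
      by_cases c : lam < i
      · rw [big i c, v0, zero_mul]
      · rw [big (2 * lam - i) (by omega), v0, mul_zero]
    · intro c; exact absurd (mem_range.2 (by omega)) c
  refine ⟨x, ?_, ?_, ⟨0, ⟨0, ⟨lam - 2, fun i => ?_, ?_, fun i hi => ?_⟩, ?_, by simp⟩, ?_, by simp⟩,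
    ⟨0, ⟨2 * lam + d - 1, fun i => ?_, ?_, fun i hi => ?_⟩, ?_, by simp⟩⟩
  · have : lam < B ^ lam := Nat.lt_pow_self (by omega)
    omega
  · rw [xe]
    refine Even.add_odd (even_sum _ fun i hi => Even.mul_right ?_ _) hO.pow
    have hi := mem_range.1 hi
    unfold val
    split_ifs with c1 c2
    · exact Even.zero
    · have := h.e1 c2; omega
    · exact even_dv _
  · show dig B _ i = 0
    rw [dig_div, dig_div, dig_div, d2, big _ (by omega), v0]
  · show dig B _ _ = 2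
    rw [dig_div, dig_div, d2, show 0 + 1 + (0 + 1 + (lam - 2)) = lam by omega, h.t1, v1]
  · rw [dig_div, dig_div, d2]
    generalize hp : 0 + 1 + (0 + 1 + i) = p
    rcases h.all p with a | a | ⟨j, b, c, a⟩ | ⟨_, _, _, _, a⟩ | ⟨_, _, _, _, _, _, a⟩ | a
    · omega
    · omega
    · refine Or.inr (Or.inr (Or.inr ⟨g j, hR j b, ?_, by rw [a]; exact congrArg _ (val_dv _)⟩))
      rcases j with _ | j
      · omega
      · exact S.h2 _ _ (hn j b).1
    · exact Or.inr (Or.inr (Or.inl (by rw [a]; exact congrArg _ (val_dv 2))))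
    · exact Or.inr (Or.inl (by rw [a]; exact congrArg _ (val_dv 1)))
    · exact Or.inl (by rw [a, v0])
  · show dig B _ _ = _
    have := h.t5 0 (Nat.zero_le _)
    rw [pow_zero, h0] at this
    rw [dig_div, d2, show 0 + 1 + 0 = 1 from rfl, this]
    exact congrArg _ (val_dv _)
  · show dig B _ _ = _
    rw [d2, h.t0]
    exact congrArg _ (val_dv 0)
  · show dig B _ i = 0
    rw [dig_div, dig_div, d3, c0 _ (by omega), if_pos (by omega), c0 _ (by omega)]
    simp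
  · show dig B _ _ = 1
    rw [dig_div, d3, c0 _ (by omega), if_pos (by omega),
      show 0 + 1 + (2 * lam + d - 1) - d = 2 * lam by omega, c1]
    simp
  · rw [dig_div, d3]
    generalize hp : 0 + 1 + i = n
    have hc' : (if d ≤ n then cv t (n - d) else 0) < S.ll := by
      split_ifs
      · exact (cvs _).1
      · omega
    have hcn : cv t n < S.ll := (cvs n).1
    refine ⟨lle.mul_right _ |>.add ?_, by nlinarith, ?_⟩
    · split_ifs with c
      · rw [← Nat.not_odd_iff_even]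
        intro o
        obtain ⟨u, hu, e1, e2⟩ := (cvs _).2.2.2 o
        have := h.e1 e1
        have := h.e1 e2
        omega
      · exact Even.zero
    · rw [Nat.mul_add_div (by omega), Nat.div_eq_of_lt hc', add_zero, Nat.mul_add_mod,
        Nat.mod_eq_of_lt hc']
      refine h.rul h0 hR hn hf hc (by omega) (cvs n).2.1 (cvs n).2.2.1 fun e => ⟨a + 1, ha, ?_, hm⟩
      split_ifs at e with c
      · obtain ⟨u, hu, e1, e2⟩ := ((cvs _).2.1 0 0).1 e
        have := h.e2 e1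
        have := h.e2 e2
        omega
      · exact absurd (by simp [dig]) e
  · show dig B _ _ = _
    rw [d3, if_neg (by omega), add_zero, cv]
    simp [h.t0, val, sq]

end Pool.Agent.MP_fed7c7_lc.S6
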