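import Pool.Agent.MP_fed7c7_lc.S6.Spec

set_option autoImplicit false

/-!
Six unknowns: the two blocks describe a chain of labels.
-/

namespace Pool.Agent.MP_fed7c7_lc.S6

open Finset Pool.Agent.MP_fed7c7_lc.H93

namespace GSx

theorem v1 {B e1 e2 Y : ℕ} {L : ℕ → Prop} (h : V1 B e1 e2 L Y) : ∃ m, 2 ≤ m ∧ dig B Y 0 = e1 ∧
    dig B Y 1 = e2 ∧ dig B Y m = 2 ∧ (∀ i, 2 ≤ i → i < m → L (dig B Y i)) ∧
      ∀ i, m < i → dig B Y i = 0 := by
  obtain ⟨p, ⟨q, ⟨r, a1, a2, a3⟩, a4, a5⟩, a6, a7⟩ := h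
  obtain rfl : p = 0 := by
    by_contra k
    exact a7 0 (by omega)
  obtain rfl : q = 0 := by
    by_contra k
    exact a5 0 (by omega)
  simp only [Z0, dig_div] at a1 a2 a3 a4
  refine ⟨r + 2, by omega, a6, a4, ?_, fun i h1 h2 => ?_, fun i h1 => ?_⟩
  · rwa [show r + 2 = 0 + 1 + (0 + 1 + r) by omega]
  · have := a3 (i - 2) (by omega)
    rwa [show 0 + 1 + (0 + 1 + (i - 2)) = i by omega] at this
  · have := a1 (i - (r + 3))
    rwa [show 0 + 1 + (0 + 1 + (r + 1 + (i - (r + 3)))) = i by omega] at this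

theorem v2 {B e Y : ℕ} {L : ℕ → Prop} (h : V2 B e L Y) :
    ∃ m, dig B Y m = 1 ∧ ∀ i, 1 ≤ i → i < m → L (dig B Y i) := by
  obtain ⟨p, ⟨r, -, a2, a3⟩, -, a7⟩ := h
  obtain rfl : p = 0 := by
    by_contra k
    exact a7 0 (by omega)
  simp only [dig_div] at a2 a3
  refine ⟨_, a2, fun i h1 h2 => ?_⟩
  have := a3 (i - 1) (by omega)
  rwa [show 0 + 1 + (i - 1) = i by omega] at this

theorem half {B : ℕ} (hB : Odd B) (p : ℕ) : ∀ x, (∀ i, Even (dig B (2 * x) i)) →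
    dig B (2 * x) p = 2 * dig B x p := by
  have key : ∀ x, Even (2 * x % B) → 2 * x % B = 2 * (x % B) ∧ 2 * x / B = 2 * (x / B) := by
    intro x ⟨e, he⟩
    have a1 := Nat.div_add_mod (2 * x) B
    have a2 : Even (B * (2 * x / B)) := ⟨x - e, by omega⟩
    obtain ⟨q, hq⟩ := (Nat.even_mul.1 a2).resolve_left (Nat.not_even_iff_odd.2 hB)
    have a3 := Nat.mod_lt (2 * x) hB.pos
    rw [hq, mul_add] at a1
    have := (Nat.div_mod_unique hB.pos).2 ⟨show e + B * q = x by omega, show e < B by omega⟩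
    omega
  induction p with
  | zero => exact fun x h => by simpa only [dig_zero] using (key x (dig_zero B _ ▸ h 0)).1
  | succ p ih =>
    intro x h
    have e := (key x (dig_zero B _ ▸ h 0)).2
    rw [dig_succ, dig_succ, e]
    exact ih _ fun i => by rw [← e, ← dig_succ]; exact h _

/-- the shape of the labels. -/
structure Tp (S : Sy) (t : ℕ → ℕ) (m : ℕ) : Prop where
  lt : ∀ p, t p < S.R + 5
  t0 : t 0 = 2
  t1 : t 1 = S.fst + 5
  top : ∀ p, t p = 1 → p = m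
  org : ∀ p, t p = 2 → p = 0
  fs : ∀ p, t p = S.fst + 5 → p = 1
  hi : ∀ p, 3 ≤ t p → p < m

theorem labels (S : Sy) {B x : ℕ} (hB : Odd B)
    (h : V1 B (2 * dv 0) (2 * dv (S.fst + 3)) S.L1 (2 * x)) :
    ∃ t m, (∀ p, dig B x p = val (t p)) ∧ Tp S t m := by
  obtain ⟨m, a1, a2, a3, a4, a5, a6⟩ := v1 h
  have f := S.h1
  have key : ∀ p, ∃ τ, dig B (2 * x) p = 2 * val τ ∧ τ < S.R + 5 ∧ (p = 0 → τ = 2) ∧
      (p = 1 → τ = S.fst + 5) ∧ (τ = 1 → p = m) ∧ (τ = 2 → p = 0) ∧ (τ = S.fst + 5 → p = 1) ∧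
      (3 ≤ τ → p < m) := by
    intro p
    rcases (show p = 0 ∨ p = 1 ∨ p = m ∨ m < p ∨ 2 ≤ p ∧ p < m by omega) with
      rfl | rfl | rfl | k | ⟨k, k'⟩
    · exact ⟨2, a2, by omega⟩
    · exact ⟨S.fst + 5, a3, by omega⟩
    · exact ⟨1, a4, by omega⟩
    · exact ⟨0, a6 p k, by omega⟩
    · rcases a5 p k k' with e | e | e | ⟨j, j1, j2, e⟩
      · exact ⟨0, e, by omega⟩
      · exact ⟨3, e, by omega⟩
      · exact ⟨4, e, by omega⟩
      · exact ⟨j + 5, e, by omega⟩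
  choose t b1 b2 b3 b4 b5 b6 b7 b8 using key
  refine ⟨t, m, fun p => ?_, b2, b3 0 rfl, b4 1 rfl, b5, b6, b7, b8⟩
  have := half hB p x fun i => b1 i ▸ even_two_mul _
  have := b1 p
  omega

/-- where clocks and pointers come from. -/
structure Inv (S : Sy) (t : ℕ → ℕ) (n : ℕ) : Prop where
  r1 : ∀ a, t n = a + 5 → n = 1 ∨ ∃ q b, n = 2 * q ∧ t q = b + 5 ∧ S.nx b a ∧ ¬S.fin b
  r4 : t n = 3 ∨ t n = 4 →
    (∃ q, n = 2 * q ∧ t q = 3) ∨ ∃ q a, n = q + 1 ∧ t q = a + 5 ∧ S.st a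

/-- what clocks and pointers force. -/
structure Loc (S : Sy) (t : ℕ → ℕ) (n : ℕ) : Prop where
  r2 : ∀ q b, n = 2 * q → t q = b + 5 → ¬S.fin b → ∃ a, t n = a + 5
  r3 : ∀ q a, n = q + 1 → t q = a + 5 → S.st a → t n = 3 ∨ t n = 4
  r4 : t n = 3 ∨ t n = 4 → ∃ p q a b, n = p + q ∧ t p = a + 5 ∧ t q = b + 5 ∧ S.ck a b ∧
    (t n = 4 → S.fin a ∨ S.fin b)
  r5 : ∀ q, n = 2 * q → t q = 3 → t n = 3 ∨ t n = 4

variable {S : Sy} {t : ℕ → ℕ} {m n : ℕ}

theorem clock (T : Tp S t m) (I : ∀ p < n, Inv S t p) (p : ℕ) :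
    p < n → 5 ≤ t p → ∃ i, p = 2 ^ i * 1 := by
  induction p using Nat.strong_induction_on with
  | _ p ih =>
    intro h1 h2
    rcases (I p h1).r1 (t p - 5) (by omega) with rfl | ⟨q, b, rfl, e, -⟩
    · exact ⟨0, rfl⟩
    · have : q ≠ 0 := by
        rintro rfl
        have := T.t0
        omega
      obtain ⟨i, hi⟩ := ih q (by omega) (by omega) (by omega)
      exact ⟨i + 1, by rw [pow_succ]; omega⟩

theorem prev (I : ∀ p < n, Inv S t p) {i a : ℕ} (h : 2 ^ (i + 1) < n)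
    (e : t (2 ^ (i + 1)) = a + 5) : ∃ b, t (2 ^ i) = b + 5 ∧ S.nx b a ∧ ¬S.fin b := by
  have := Nat.two_pow_pos i
  rcases (I _ h).r1 a e with k | ⟨q, b, k, r⟩
  · omega
  · obtain rfl : q = 2 ^ i := by omega
    exact ⟨b, r⟩

theorem once (I : ∀ p < n, Inv S t p) {k a : ℕ} (e : t (2 ^ k) = a + 5) (s : S.st a) (j : ℕ) :
    ∀ b, 2 ^ (k + j + 1) < n → t (2 ^ (k + j + 1)) = b + 5 → S.seen b ∧ ¬S.st b := by
  induction j with
  | zero =>
    intro b h1 h2
    obtain ⟨c, c1, c2, -⟩ := prev I h1 h2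
    obtain rfl : c = a := by omega
    exact S.h5 _ _ c2 (S.h4 _ s)
  | succ j ih =>
    intro b h1 h2
    obtain ⟨c, c1, c2, -⟩ := prev I h1 h2
    exact S.h5 _ _ c2 (ih c (lt_trans (Nat.pow_lt_pow_right one_lt_two (by omega)) h1) c1).1

theorem pointer (T : Tp S t m) (I : ∀ p < n, Inv S t p) (p : ℕ) : p < n → t p = 3 ∨ t p = 4 →
    ∃ j k a, p = 2 ^ j * (2 ^ k + 1) ∧ 2 ^ k < n ∧ t (2 ^ k) = a + 5 ∧ S.st a := by
  induction p using Nat.strong_induction_on with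
  | _ p ih =>
    intro h1 h2
    rcases (I p h1).r4 h2 with ⟨q, rfl, e⟩ | ⟨q, a, rfl, e, s⟩
    · have : q ≠ 0 := by
        rintro rfl
        have := T.t0
        omega
      obtain ⟨j, k, a, r1, r⟩ := ih q (by omega) (by omega) (Or.inl e)
      exact ⟨j + 1, k, a, by rw [r1]; ring, r⟩
    · obtain ⟨i, rfl⟩ := clock T I q (by omega) (by omega)
      rw [mul_one] at h1 e ⊢
      exact ⟨0, i, a, by ring, by omega, e, s⟩

theorem uniq (n u : ℕ) : ∃ c, ∀ b, n ≤ 2 * b → b < n → (∃ j, b = 2 ^ j * u) → b = c := by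
  by_cases h : ∃ c, n ≤ 2 * c ∧ c < n ∧ ∃ j, c = 2 ^ j * u
  · obtain ⟨_, c1, c2, i, rfl⟩ := h
    refine ⟨2 ^ i * u, ?_⟩
    rintro _ b1 b2 ⟨j, rfl⟩
    have key : ∀ i j, i < j → 2 * (2 ^ i * u) ≤ 2 ^ j * u := fun i j k => by
      rw [← mul_assoc, ← pow_succ']
      exact Nat.mul_le_mul_right _ (Nat.pow_le_pow_right two_pos k)
    rcases lt_trichotomy i j with k | rfl | k
    · have := key i j k
      omega
    · rfl
    · have := key j i k
      omega
  · exact ⟨0, fun b b1 b2 b3 => absurd ⟨b, b1, b2, b3⟩ h⟩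

theorem count (T : Tp S t m) (I : ∀ p < n, Inv S t p) :
    ((range (n + 1)).filter fun a => t a ≠ 0 ∧ t (n - a) ≠ 0).card ≤ 15 := by
  obtain ⟨u, hu⟩ : ∃ u, ∀ p < n, t p = 3 ∨ t p = 4 → ∃ j, p = 2 ^ j * u := by
    by_cases h : ∃ k a, 2 ^ k < n ∧ t (2 ^ k) = a + 5 ∧ S.st a
    · obtain ⟨k, a, k1, k2, k3⟩ := h
      refine ⟨2 ^ k + 1, fun p h1 h2 => ?_⟩
      obtain ⟨j, k', a', r1, r2, r3, r4⟩ := pointer T I p h1 h2
      rcases lt_trichotomy k k' with l | rfl | l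
      · obtain ⟨i, rfl⟩ := Nat.exists_eq_add_of_lt l
        exact absurd r4 (once I k2 k3 i a' r2 r3).2
      · exact ⟨j, r1⟩
      · obtain ⟨i, rfl⟩ := Nat.exists_eq_add_of_lt l
        exact absurd k3 (once I r3 r4 i a k1 k2).2
    · refine ⟨0, fun p h1 h2 => ?_⟩
      obtain ⟨j, k, a, -, r⟩ := pointer T I p h1 h2
      exact absurd ⟨k, a, r⟩ h
  obtain ⟨c1, h1⟩ := uniq n 1
  obtain ⟨c2, h2⟩ := uniq n u
  have key : ∀ b, n ≤ 2 * b → b ≤ n → t b ≠ 0 → b = n ∨ b = m ∨ b = c1 ∨ b = c2 := by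
    intro b b1 b2 b3
    by_contra k
    have a1 := T.top b
    have a2 := T.org b
    have a3 := fun e => h1 b b1 (by omega) (clock T I b (by omega) e)
    have a4 := fun e => h2 b b1 (by omega) (hu b (by omega) e)
    omega
  refine (card_le_card (t := [n, m, c1, c2, 0, n - m, n - c1, n - c2].toFinset)
    fun a ha => ?_).trans ((List.toFinset_card_le _).trans (by simp))
  simp only [mem_filter, mem_range] at ha
  simp only [List.mem_toFinset, List.mem_cons, List.not_mem_nil, or_false]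
  have a1 := fun e e' => key a e e' ha.2.1
  have a2 := fun e e' => key (n - a) e e' ha.2.2
  omega

theorem rules (cvr : SCV) (T : Tp S t m) (I : ∀ p < n, Inv S t p) {c' : ℕ}
    (r : S.Rul (cv t n) c') : Inv S t n ∧ Loc S t n ∧
      (Ev c' 0 0 → ∃ a, S.mark a ∧ t n = a + 5) := by
  obtain ⟨-, hE, hD, -⟩ := cvr t n S.R (fun a _ => T.lt a) (count T I)
  have e0 : ∀ j, Ev (cv t n) 0 j ↔ t n = j + 2 := fun j => by
    rw [hE]
    refine ⟨fun ⟨a, _, a1, a2⟩ => ?_, fun e => ⟨0, n.zero_le, T.t0, e⟩⟩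
    obtain rfl := T.org a a1
    exact a2
  have lt : ∀ {p a}, t p = a + 5 → a < S.R := fun {p a} e => by
    have := T.lt p
    omega
  obtain ⟨-, r1, r2, r3, r4, r5, r6⟩ := r
  simp only [e0, hD] at r1 r2 r3 r4 r5 r6
  simp only [hE] at r3 r4
  refine ⟨⟨fun a e => ?_, fun e => ?_⟩, ⟨fun q b e1 e2 e3 => ?_, fun q a e1 e2 e3 => ?_,
    fun e => ?_, fun q e1 e2 => r5 ⟨q, e1, e2⟩⟩, fun e => ?_⟩
  · rcases r1 a (lt e) e with rfl | ⟨b, -, ⟨q, q1, q2⟩, r⟩
    · exact Or.inl (T.fs n e)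
    · exact Or.inr ⟨q, b, q1, q2, r⟩
  · rcases (r4 e).1 with k | ⟨a, -, s, p, p1, p2, p3⟩
    · exact Or.inl k
    · obtain rfl := T.fs p p2
      exact Or.inr ⟨n - 1, a, by omega, p3, s⟩
  · obtain ⟨a, -, k⟩ := r2 b (lt e2) ⟨q, e1, e2⟩ e3
    exact ⟨a, k⟩
  · exact r3 a (lt e2) ⟨1, by omega, T.t1, by rw [e1]; exact e2⟩ e3
  · obtain ⟨a, -, b, -, ⟨p, p1, p2, p3⟩, r⟩ := (r4 e).2
    exact ⟨p, n - p, a, b, by omega, p2, p3, r⟩
  · obtain ⟨a, -, k⟩ := r6 e
    exact ⟨a, k⟩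

theorem two_sum {u v x y : ℕ} (h : 2 ^ u + 2 ^ v = 2 ^ x + 2 ^ y) (k : y ≤ x) (l : v ≤ u) :
    u = x ∧ v = y := by
  have a1 := Nat.pow_le_pow_right two_pos k
  have a2 := Nat.pow_le_pow_right two_pos l
  have a3 := Nat.two_pow_pos v
  have a4 := Nat.two_pow_pos y
  obtain rfl : u = x := by
    rcases lt_trichotomy u x with e | e | e
    · have := Nat.pow_le_pow_right two_pos (Nat.succ_le_of_lt e)
      rw [pow_succ] at this
      omega
    · exact e
    · have := Nat.pow_le_pow_right two_pos (Nat.succ_le_of_lt e)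
      rw [pow_succ] at this
      omega
  exact ⟨rfl, Nat.pow_right_injective le_rfl (Nat.add_left_cancel h)⟩

theorem run (T : Tp S t m) (I : ∀ p, Inv S t p) (L : ∀ p, 1 ≤ p → p < 2 * m → Loc S t p) {a : ℕ}
    (M : ∃ b, S.mark b ∧ t (2 ^ (a + 1)) = b + 5) : S.Run a := by
  classical
  have ex : ∃ i, ¬(5 ≤ t (2 ^ i) ∧ ¬S.fin (t (2 ^ i) - 5)) := ⟨m, fun k => by
    have := T.hi _ (show 3 ≤ t (2 ^ m) by omega)
    have := @Nat.lt_two_pow_self m
    omega⟩
  obtain ⟨N, n1, n2⟩ : ∃ N, ¬(5 ≤ t (2 ^ N) ∧ ¬S.fin (t (2 ^ N) - 5)) ∧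
      ∀ i < N, 5 ≤ t (2 ^ i) ∧ ¬S.fin (t (2 ^ i) - 5) :=
    ⟨Nat.find ex, Nat.find_spec ex, fun i k => not_not.1 (Nat.find_min ex k)⟩
  have pv : ∀ i, 5 ≤ t (2 ^ (i + 1)) → 5 ≤ t (2 ^ i) ∧
      S.nx (t (2 ^ i) - 5) (t (2 ^ (i + 1)) - 5) ∧ ¬S.fin (t (2 ^ i) - 5) := fun i k => by
    obtain ⟨b, b1, b2⟩ := prev (n := 2 ^ (i + 1) + 1) (a := t (2 ^ (i + 1)) - 5)
      (fun p _ => I p) (Nat.lt_succ_self _) (by omega)
    rw [b1, Nat.add_sub_cancel]
    exact ⟨by omega, b2⟩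
  have cl : ∀ i ≤ N, 5 ≤ t (2 ^ i) := by
    rintro (_ | i) k
    · have := T.t1
      rw [pow_zero]
      omega
    · obtain ⟨a1, a2⟩ := n2 i k
      have a3 := T.hi _ (show 3 ≤ t (2 ^ i) by omega)
      obtain ⟨b, hb⟩ := (L (2 ^ (i + 1)) (Nat.two_pow_pos _) (by omega)).r2 (2 ^ i) _ (by omega)
        (by omega) a2
      omega
  have no : ∀ j, ¬5 ≤ t (2 ^ (N + j + 1)) := by
    intro j
    induction j with
    | zero => exact fun k => n1 ⟨(pv _ k).1, (pv _ k).2.2⟩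
    | succ j ih => exact fun k => ih (pv _ k).1
  obtain ⟨b, b1, b2⟩ := M
  refine ⟨N, fun i => t (2 ^ i) - 5, by simp [T.t1], fun i k => ?_,
    fun i k => (pv i (cl _ k)).2, not_not.1 fun k => n1 ⟨cl N le_rfl, k⟩, ?_, ?_,
    fun k i k1 k2 s => ?_⟩
  · have := T.lt (2 ^ i)
    have := cl i k
    change t (2 ^ i) - 5 < S.R
    omega
  · by_contra k
    obtain ⟨j, e⟩ := Nat.exists_eq_add_of_lt (not_le.1 k)
    exact no j (by rw [← e]; omega)
  · simp only [b2, Nat.add_sub_cancel, b1]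
  · have rg : ∀ j, j + k ≤ N → Loc S t (2 ^ (j + k) + 2 ^ j) := fun j h => by
      have a1 := T.hi _ (show 3 ≤ t (2 ^ (j + k)) by have := cl _ h; omega)
      have a2 : 2 ^ j ≤ 2 ^ (j + k) := Nat.pow_le_pow_right two_pos (by omega)
      have a3 := Nat.two_pow_pos j
      exact L _ (by omega) (by omega)
    have ck : ∀ j, j + k ≤ N → t (2 ^ (j + k) + 2 ^ j) = 3 ∨ t (2 ^ (j + k) + 2 ^ j) = 4 →
        S.ck (t (2 ^ (j + k)) - 5) (t (2 ^ j) - 5) ∧
          (j + k < N → t (2 ^ (j + k) + 2 ^ j) = 3) := fun j h e => by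
      obtain ⟨p, q, c, d, e1, e2, e3, e4, e5⟩ := (rg j h).r4 e
      obtain ⟨u, rfl⟩ := clock (n := p + 1) T (fun p _ => I p) p (by omega) (by omega)
      obtain ⟨v, rfl⟩ := clock (n := q + 1) T (fun p _ => I p) q (by omega) (by omega)
      rw [mul_one] at e2 e3
      rw [mul_one, mul_one] at e1
      have f := fun i (h : i < N) => (n2 i h).2
      rcases le_total v u with l | l
      · obtain ⟨rfl, rfl⟩ := two_sum e1.symm (by omega) l
        have f1 := f (v + k)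
        have f2 := f v
        rw [e2, Nat.add_sub_cancel] at f1 ⊢
        rw [e3, Nat.add_sub_cancel] at f2 ⊢
        exact ⟨e4, fun w => e.resolve_right fun z => (e5 z).elim (f1 w) (f2 (by omega))⟩
      · obtain ⟨rfl, rfl⟩ := two_sum ((add_comm _ _).trans e1.symm) (by omega) l
        have f1 := f (u + k)
        have f2 := f u
        rw [e3, Nat.add_sub_cancel] at f1 ⊢
        rw [e2, Nat.add_sub_cancel] at f2 ⊢
        exact ⟨S.h6 _ _ e4,
          fun w => e.resolve_right fun z => (e5 z).elim (f2 (by omega)) (f1 w)⟩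
    have pt : ∀ j, j + k ≤ N → t (2 ^ (j + k) + 2 ^ j) = 3 ∨ t (2 ^ (j + k) + 2 ^ j) = 4 := by
      intro j
      induction j with
      | zero =>
        intro h
        have := cl _ h
        refine (rg 0 h).r3 (2 ^ (0 + k)) (t (2 ^ (0 + k)) - 5) rfl (by omega) ?_
        rwa [zero_add]
      | succ j ih =>
        intro h
        exact (rg _ h).r5 (2 ^ (j + k) + 2 ^ j) (by ring)
          ((ck j (by omega) (ih (by omega))).2 (by omega))
    have := (ck (i - k) (by omega) (pt _ (by omega))).1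
    rwa [Nat.sub_add_cancel k1] at this

end GSx

open GSx

theorem sGS : SCV → SDS → SGS := by
  intro cvr dsr S B a x hB ho h1 h2
  obtain ⟨t, m, ht, T⟩ := labels S ho h1
  obtain ⟨μ, m1, m2⟩ := v2 h2
  have l2 : 2 ≤ S.ll := le_trans (by norm_num) (Nat.le_self_pow (by positivity) 16)
  have d1 : 1 ≤ 2 ^ (a + 1) := Nat.two_pow_pos _
  generalize hd : 2 ^ (a + 1) = d at m1 m2 d1
  have key : ∀ n, (∀ p < n, Inv S t p) → 1 ≤ n → n < d + 2 * m →
      S.Rul (cv t n) (if d ≤ n then cv t (n - d) else 0) := by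
    intro n I n1 n2
    have c := fun k (h : k ≤ n) => cvr t k S.R (fun a _ => T.lt a)
      (count T fun p hp => I p (by omega))
    have e := fun k (h : k ≤ n) => dsr B S.ll d x k t hB l2 d1 ht fun j hj => (c j (hj.trans h)).1
    have lt : n < μ := by
      by_contra k
      have e1 := e μ (by omega)
      rw [m1] at e1
      have z : cv t μ = 0 := by
        by_contra z
        have := Nat.mul_le_mul l2 (Nat.pos_of_ne_zero z)
        omega
      rw [z] at e1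
      split_ifs at e1 with w
      · obtain ⟨p, p1, p2, p3⟩ := (c (μ - d) (by omega)).2.2.2 ⟨0, by omega⟩
        have := T.top _ p2
        have := T.top _ p3
        omega
      · omega
    have r := (m2 n n1 lt).2.2
    have s : (if d ≤ n then cv t (n - d) else 0) < S.ll := by
      split_ifs
      · exact (c _ (by omega)).1
      · omega
    rwa [e n le_rfl, Nat.mul_add_div (by omega), Nat.mul_add_mod, Nat.div_eq_of_lt s,
      Nat.mod_eq_of_lt s, add_zero] at r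
  have I : ∀ n, Inv S t n := fun n => by
    induction n using Nat.strong_induction_on with
    | _ n ih =>
      by_cases k : 3 ≤ t n
      · have := T.hi n k
        have : n ≠ 0 := by
          rintro rfl
          have := T.t0
          omega
        exact (rules cvr T ih (key n ih (by omega) (by omega))).1
      · exact ⟨fun a e => by omega, fun e => by omega⟩
  have m0 := T.hi 1 (by have := T.t1; omega)
  refine run T I (fun p p1 p2 => (rules cvr T (fun q _ => I q)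
    (key p (fun q _ => I q) p1 (by omega))).2.1) ?_
  rw [hd]
  refine (rules cvr T (fun q _ => I q) (key d (fun q _ => I q) d1 (by omega))).2.2 ?_
  rw [if_pos le_rfl, Nat.sub_self]
  exact ((cvr t 0 S.R (fun a _ => T.lt a) (count T fun p _ => I p)).2.1 0 0).2
    ⟨0, le_rfl, T.t0, T.t0⟩

end Pool.Agent.MP_fed7c7_lc.S6
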