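import Pool.Agent.MP_fed7c7_lc.S6.Spec

set_option autoImplicit false

/-!
The test and the valuation in one coefficient.
-/

namespace Pool.Agent.MP_fed7c7_lc.S6

open PowerSeries Pool.Agent.MP_fed7c7_lc.H93

namespace KEYx

theorem aux (v k : ℕ) (β w : ℤ) (h : (3 : ℤ) ^ (v + 1) ∣ 3 ^ v * β + 3 ^ (v + 1 + k) * w) :
    3 ∣ β := by
  have h1 : (3 : ℤ) ^ (v + 1) ∣ 3 ^ (v + 1 + k) * w :=
    (pow_dvd_pow 3 (Nat.le_add_right _ _)).mul_right w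
  have h2 := (dvd_add_left h1).1 h
  rw [pow_succ] at h2
  exact (mul_dvd_mul_iff_left (by positivity)).1 h2

theorem div_iff (v V : ℕ) (β w : ℤ) (hβ : ¬3 ∣ β) (hw : ¬3 ∣ w) :
    (3 : ℤ) ^ (V + 1) ∣ 3 ^ v * β + 3 ^ V * w ↔ v = V ∧ 3 ∣ β + w := by
  rcases lt_trichotomy v V with h | h | h
  · obtain ⟨k, rfl⟩ : ∃ k, V = v + 1 + k := ⟨V - v - 1, by omega⟩
    refine ⟨fun h' => (hβ (aux v k β w ((pow_dvd_pow 3 (by omega)).trans h'))).elim,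
      fun h' => by omega⟩
  · subst h
    rw [← mul_add, pow_succ, mul_dvd_mul_iff_left (by positivity)]
    simp
  · obtain ⟨k, rfl⟩ : ∃ k, v = V + 1 + k := ⟨v - V - 1, by omega⟩
    rw [add_comm (3 ^ _ * β)]
    exact ⟨fun h' => (hw (aux V k w β h')).elim, fun h' => by omega⟩

theorem split (a : ℕ) : ∃ δ : ℕ, a = 3 ^ padicValNat 3 a * δ ∧ (δ : ZMod 3) = un a :=
  ⟨a / 3 ^ padicValNat 3 a, (Nat.mul_div_cancel' pow_padicValNat_dvd).symm, rfl⟩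

theorem nneg {f : ℤ⟦X⟧} (h : Nice f) : Nice (-f) := ⟨h.1.neg, h.2.neg⟩

theorem shift (hD : SND) {g : ℤ⟦X⟧} (h : Nice g) :
    ∃ g', Nice g' ∧ ∀ m : ℕ, coeff m g' = ((m : ℤ) - 1) * coeff m g := by
  refine ⟨(mk fun i => (i : ℤ) * coeff i g) + -g, (hD g h).add (nneg h), fun m => ?_⟩
  rw [map_add, map_neg, coeff_mk]
  ring

theorem triple {g : ℤ⟦X⟧} (h : Nice g) (f : ℕ) :
    ∃ g', Nice g' ∧ ∀ m : ℕ, coeff m g' = 3 ^ f * coeff m g := by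
  induction f with
  | zero => exact ⟨g, h, fun m => by simp⟩
  | succ f ih =>
    obtain ⟨g', h1, h2⟩ := ih
    refine ⟨g' + g' + g', (h1.add h1).add h1, fun m => ?_⟩
    rw [map_add, map_add, h2]
    ring

theorem zm1 : ∀ s u : ZMod 3, s * s = 1 → u * u = 1 →
    s ≠ 0 ∧ u ^ 3 * (s * u + 0 + 0) ≠ 0 ∧ s + u ^ 3 * (s * u + 0 + 0) ≠ 0 := by decide

theorem zm2 : ∀ s : ZMod 3, s * s = 1 →
    (2 : ZMod 3) ^ 3 * (s * 2 + s + s) ≠ 0 ∧ s + 2 ^ 3 * (s * 2 + s + s) = 0 := by decide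

end KEYx

open KEYx in
theorem sKEY : SUN → SWU → SNB → SND → SKEY := by
  rintro ⟨-, hsq, -, -, -, -, hcb⟩ ⟨g1, n1, c1⟩ ⟨b, nb, cb⟩ hD T f ⟨g2, n2, c2, -⟩ hT
  obtain ⟨t1, m1, e1⟩ := shift hD ((n1.add n2).add n2)
  obtain ⟨t2, m2, e2⟩ := shift hD m1
  obtain ⟨t3, m3, e3⟩ := shift hD m2
  obtain ⟨t4, m4, e4⟩ := triple m3 f
  refine ⟨b + t4 * X, nb.add (m4.mul Nice.var), fun n hn h9 => ?_⟩
  obtain ⟨δ, hδ, uδ⟩ := split (2 * n - 1)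
  obtain ⟨β, hβ, uβ⟩ := split n.centralBinom
  have hs : sg (2 * n) * sg (2 * n) = 1 := hsq _ (Nat.factorial_ne_zero _)
  have hu : un (2 * n - 1) * un (2 * n - 1) = 1 := hsq _ (by omega)
  set τ := padicValNat 3 (2 * n - 1) with hτ
  set t : ℤ := coeff (2 * n) (g1 + g2 + g2) with ht
  have hm : ((2 * n : ℕ) : ℤ) - 1 = 3 ^ τ * δ := by
    have : ((2 * n - 1 : ℕ) : ℤ) = ((2 * n : ℕ) : ℤ) - 1 := by
      rw [Nat.cast_sub (by omega)]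
      rfl
    rw [← this, hδ]
    push_cast
    rfl
  have hb : ((n.centralBinom : ℕ) : ℤ) = 3 ^ vb n * β := by
    rw [hβ]
    push_cast
    rfl
  have key : coeff (2 * n + 1) (b + t4 * X) = 3 ^ vb n * β + 3 ^ (f + 3 * τ) * (δ ^ 3 * t) := by
    rw [map_add, coeff_succ_mul_X, cb, e4, e3, e2, e1, hm, hb]
    ring
  have hdv : ∀ z : ℤ, 3 ∣ z ↔ (z : ZMod 3) = 0 := fun z =>
    (ZMod.intCast_zmod_eq_zero_iff_dvd z 3).symm
  have zβ : ((β : ℤ) : ZMod 3) = sg (2 * n) := by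
    rw [Int.cast_natCast, uβ, hcb]
  have c1' := c1 (2 * n) (by omega) h9
  have c2' := c2 (2 * n)
  rw [key]
  by_cases hT2 : T (2 * n)
  · rw [if_pos hT2] at c2'
    have u2 := hT _ hT2
    have zw : (((δ : ℤ) ^ 3 * t : ℤ) : ZMod 3) =
        2 ^ 3 * (sg (2 * n) * 2 + sg (2 * n) + sg (2 * n)) := by
      rw [ht, map_add, map_add]
      push_cast
      rw [uδ, c1', c2', u2]
    rw [div_iff _ _ _ _ (by rw [hdv, zβ]; exact (zm1 _ _ hs hu).1)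
      (by rw [hdv, zw]; exact (zm2 _ hs).1), hdv, Int.cast_add, zβ, zw]
    exact ⟨fun h => ⟨hT2, h.1⟩, fun h => ⟨h.2, (zm2 _ hs).2⟩⟩
  · rw [if_neg hT2] at c2'
    have zw : (((δ : ℤ) ^ 3 * t : ℤ) : ZMod 3) =
        un (2 * n - 1) ^ 3 * (sg (2 * n) * un (2 * n - 1) + 0 + 0) := by
      rw [ht, map_add, map_add]
      push_cast
      rw [uδ, c1', c2']
    rw [div_iff _ _ _ _ (by rw [hdv, zβ]; exact (zm1 _ _ hs hu).1)
      (by rw [hdv, zw]; exact (zm1 _ _ hs hu).2.1), hdv, Int.cast_add, zβ, zw]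
    exact ⟨fun h => ((zm1 _ _ hs hu).2.2 h.2).elim, fun h => (hT2 h.1).elim⟩

end Pool.Agent.MP_fed7c7_lc.S6
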