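import Pool.Agent.MP_fed7c7_lc.S6.Spec

set_option autoImplicit false

/-!
Six unknowns: nice series are closed under `X * d/dX`.
-/

namespace Pool.Agent.MP_fed7c7_lc.S6

open PowerSeries Finset Pool.Agent.MP_fed7c7_lc.H93

namespace NDx

theorem alg_mem {r : ℤ⟦X⟧} (h : r ∈ RS) : IsAlgebraic RS r :=
  isAlgebraic_algebraMap (⟨r, h⟩ : RS)

theorem alg_int (c : ℤ) : IsAlgebraic RS (c : ℤ⟦X⟧) := alg_mem (intCast_mem RS c)

theorem alg_dss : IsAlgebraic RS (d⁄dX ℤ ss) := by
  have h := congrArg (d⁄dX ℤ) ss_mul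
  rw [Derivation.leibniz, map_add, Derivation.map_one_eq_zero, Derivation.leibniz_pow,
    derivative_X] at h
  simp only [smul_eq_mul, nsmul_eq_mul] at h
  have hX : IsAlgebraic RS (X : ℤ⟦X⟧) := Nice.var.2
  have hs : IsAlgebraic RS ss := alg_mem (Algebra.self_mem_adjoin_singleton ℤ ss)
  have h1 : IsAlgebraic RS (1 + X ^ 2 : ℤ⟦X⟧) := isAlgebraic_one.add (hX.pow 2)
  have h0 : (1 + X ^ 2 : ℤ⟦X⟧) ≠ 0 := fun z => by
    have := congrArg (coeff 0) z
    simp at this
  refine IsAlgebraic.of_mul (mem_nonZeroDivisors_of_ne_zero h0) h1 ?_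
  have e : (1 + X ^ 2) * d⁄dX ℤ ss = 1 - ss * (X + X) := by
    push_cast at h
    linear_combination h
  rw [e]
  exact isAlgebraic_one.sub (hs.mul (hX.add hX))

theorem alg_d {r : ℤ⟦X⟧} (h : r ∈ RS) : IsAlgebraic RS (d⁄dX ℤ r) := by
  induction h using Algebra.adjoin_induction with
  | mem x hx => rw [Set.mem_singleton_iff.1 hx]; exact alg_dss
  | algebraMap c => rw [Derivation.map_algebraMap]; exact isAlgebraic_zero
  | add x y _ _ hx hy => rw [map_add]; exact hx.add hy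
  | mul x y h1 h2 hx hy =>
    rw [Derivation.leibniz, smul_eq_mul, smul_eq_mul]
    exact ((alg_mem h1).mul hy).add ((alg_mem h2).mul hx)

theorem phi_mem (a : Polynomial ℤ) :
    Polynomial.eval₂RingHom (Int.castRingHom ℤ⟦X⟧) ss a ∈ RS := by
  induction a using Polynomial.induction_on' with
  | add p q h1 h2 => rw [map_add]; exact add_mem h1 h2
  | monomial n a =>
    simp only [Polynomial.coe_eval₂RingHom, Polynomial.eval₂_monomial]
    exact mul_mem (intCast_mem RS a) (pow_mem (Algebra.self_mem_adjoin_singleton ℤ ss) n)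

theorem chain {g : ℤ⟦X⟧} (hg : IsAlgebraic RS g) (P : Polynomial (Polynomial ℤ)) :
    ∃ A, IsAlgebraic RS A ∧
      d⁄dX ℤ (e2 P ss g) = A + e2 (Polynomial.derivative P) ss g * d⁄dX ℤ g := by
  unfold e2
  induction P using Polynomial.induction_on' with
  | add p q h1 h2 =>
    obtain ⟨A, a1, a2⟩ := h1
    obtain ⟨B, b1, b2⟩ := h2
    refine ⟨A + B, a1.add b1, ?_⟩
    rw [Polynomial.eval₂_add, map_add, a2, b2, Polynomial.derivative_add, Polynomial.eval₂_add]
    ring
  | monomial n a =>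
    refine ⟨g ^ n * d⁄dX ℤ (Polynomial.eval₂RingHom (Int.castRingHom ℤ⟦X⟧) ss a),
      (hg.pow n).mul (alg_d (phi_mem a)), ?_⟩
    rw [Polynomial.derivative_monomial, Polynomial.eval₂_monomial, Polynomial.eval₂_monomial,
      Derivation.leibniz, Derivation.leibniz_pow, map_mul, map_natCast]
    simp only [smul_eq_mul, nsmul_eq_mul]
    ring

theorem alg_e2 {g : ℤ⟦X⟧} (hg : IsAlgebraic RS g) (P : Polynomial (Polynomial ℤ)) :
    IsAlgebraic RS (e2 P ss g) :=
  e2_ind (fun f (_ : ℤ) => IsAlgebraic RS f) (fun _ _ _ _ h1 h2 => h1.add h2)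
    (fun _ _ _ _ h1 h2 => h1.mul h2) alg_int (s' := 0) (x' := 0)
    (alg_mem (Algebra.self_mem_adjoin_singleton ℤ ss)) hg P

theorem alg_dg {g : ℤ⟦X⟧} (hg : IsAlgebraic RS g) : IsAlgebraic RS (d⁄dX ℤ g) := by
  obtain ⟨P, h1, h2⟩ := sep hg
  obtain ⟨A, a1, a2⟩ := chain hg P
  rw [h1, map_zero] at a2
  refine IsAlgebraic.of_mul (mem_nonZeroDivisors_of_ne_zero h2) (alg_e2 hg _) ?_
  rw [show e2 (Polynomial.derivative P) ss g * d⁄dX ℤ g = -A by linear_combination -a2]
  exact a1.neg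

end NDx

theorem sND : SND := by
  intro g hg
  refine ⟨?_, ?_⟩
  · obtain ⟨a, a1, ha⟩ := hg.1
    refine ⟨2 * a, by linarith, fun m => ?_⟩
    rw [coeff_mk, Int.cast_mul, abs_mul, mul_pow, Int.cast_natCast, Nat.abs_cast]
    refine mul_le_mul ?_ (ha m) (abs_nonneg _) (by positivity)
    have h : m ≤ 2 ^ (m + 1) :=
      (Nat.lt_two_pow_self).le.trans (Nat.pow_le_pow_right (by norm_num) (Nat.le_succ m))
    exact_mod_cast h
  · have e : (mk fun i => (i : ℤ) * coeff i g) = X * d⁄dX ℤ g := by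
      ext m
      rcases m with _ | m
      · simp
      · rw [coeff_mk, coeff_succ_X_mul, coeff_derivative]
        push_cast
        ring
    rw [e]
    exact Nice.var.2.mul (NDx.alg_dg hg.2)

end Pool.Agent.MP_fed7c7_lc.S6
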