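import Pool.Agent.MP_fed7c7_lc.S6.Spec

set_option autoImplicit false

/-!
Six unknowns: the two blocks are joined at the right distance.
-/

namespace Pool.Agent.MP_fed7c7_lc.S6

open Finset Pool.Agent.MP_fed7c7_lc.H93 Pool.Agent.MP_fed7c7_lc.H90

namespace PCx

theorem nx_false {B e Y : ℕ} {U : ℕ → Prop} (he : e < B) :
    Nx B U (· = e) (fun _ => False) Y ↔ ∃ u : ℕ, U u ∧ Y = e + u * B := by
  rw [nx_iff he fun d (hd : False) => hd.elim]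
  constructor
  · rintro ⟨p, u, D, h1, h2, rfl⟩
    rcases p with _ | p
    · exact ⟨u, h1, by simp⟩
    · exact (h2 0 (by omega)).elim
  · rintro ⟨u, h1, rfl⟩
    exact ⟨0, u, fun _ => 0, h1, fun i hi => by omega, by simp⟩

/-- Top digit `1` at position `P`, the other digits in `S`. -/
def Gd (B : ℕ) (S : ℕ → Prop) (Y : ℕ) : Prop := ∃ P, Y / B ^ P = 1 ∧ ∀ k < P, S (dig B Y k)

theorem gd_base {B Y : ℕ} {S L : ℕ → Prop} (hB : 2 ≤ B) (hL : ∀ d, L d → S d)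
    (h : Nx B (Z0 B (· = 0)) (· = 1) L Y) : Gd B S Y := by
  obtain ⟨p, h1, h2, h3⟩ := h
  refine ⟨p, ?_, fun k hk => hL _ (h3 k hk)⟩
  have h4 : Y / B ^ (p + 1) = 0 := (z0_iff hB).1 h1
  have h5 := Nat.mod_add_div (Y / B ^ p) B
  rw [Nat.div_div_eq_div_mul, ← pow_succ, h4, show Y / B ^ p % B = 1 from h2] at h5
  omega

theorem gd_nx {B Y : ℕ} {S U E L : ℕ → Prop} (hU : ∀ u, U u → Gd B S u) (hE : ∀ d, E d → S d)
    (hL : ∀ d, L d → S d) (h : Nx B U E L Y) : Gd B S Y := by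
  obtain ⟨p, h1, h2, h3⟩ := h
  obtain ⟨P, g1, g2⟩ := hU _ h1
  refine ⟨p + 1 + P, by rw [pow_add, ← Nat.div_div_eq_div_mul, g1], fun k hk => ?_⟩
  rcases lt_trichotomy k p with h | rfl | h
  · exact hL _ (h3 k h)
  · exact hE _ h2
  · have := g2 (k - (p + 1)) (by omega)
    rwa [dig_div, show p + 1 + (k - (p + 1)) = k by omega] at this

variable {w s e1 e2 e3 : ℕ} {L1 L2 : ℕ → Prop}

theorem small (h : Dg w s e1 e2 e3 L1 L2) {d : ℕ} (hd : d < 3 ^ (s - 1)) : d < 9 ^ w := by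
  have h1 := h.s1
  have h2 := h.sw
  calc d < 3 ^ (s - 1) := hd
    _ ≤ 3 ^ w := Nat.pow_le_pow_right (by omega) (by omega)
    _ ≤ 9 ^ w := Nat.pow_le_pow_left (by omega) _

theorem big (h : Dg w s e1 e2 e3 L1 L2) : 9 ≤ 9 ^ w := by
  have h1 := h.s1
  have h2 := h.sw
  calc 9 = 9 ^ 1 := rfl
    _ ≤ 9 ^ w := Nat.pow_le_pow_right (by omega) (by omega)

theorem three_dvd (h : Dg w s e1 e2 e3 L1 L2) : 3 ∣ 9 ^ w := by
  have h1 := h.s1
  have h2 := h.sw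
  exact dvd_trans (by norm_num) (dvd_pow_self 9 (by omega : w ≠ 0))

theorem nine_pow (w p : ℕ) : (9 ^ w) ^ p = 3 ^ (2 * w * p) := by
  rw [pow_mul, pow_mul]
  norm_num

theorem part1 (hun : SUN) (h : Dg w s e1 e2 e3 L1 L2) (m : ℕ)
    (hm : TT (9 ^ w) e1 e2 e3 L1 L2 m) : un (m - 1) = 2 := by
  have hB := big h
  obtain ⟨u, h1, rfl⟩ := (nx_false (by omega)).1 hm
  obtain ⟨p, v, -, rfl⟩ := (nx_zero (small h h.a1.2)).1 h1
  obtain ⟨c, hc⟩ := three_dvd h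
  have a1 := h.a1.1
  have e : 1 + (e1 + v * 9 ^ w) * (9 ^ w) ^ p * 9 ^ w - 1 =
      (e1 + v * 9 ^ w) * 3 ^ (2 * w * (p + 1)) := by
    rw [← nine_pow, Nat.add_sub_cancel_left]
    ring
  have e' : e1 + v * 9 ^ w = 2 + 3 * (e1 / 3 + v * c) := by
    rw [hc, mul_left_comm]
    omega
  have hn : ¬3 ∣ e1 + v * 9 ^ w := by
    rw [e']
    omega
  have h0 : e1 + v * 9 ^ w ≠ 0 := by omega
  rw [e, hun.1 _ _ h0 (by positivity), hun.2.2.1 _ hn, hun.2.2.2.1, mul_one, e']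
  push_cast
  rw [show (3 : ZMod 3) = 0 from rfl, zero_mul, add_zero]

theorem start (hvl : SVL) (h : Dg w s e1 e2 e3 L1 L2) {n a : ℕ}
    (hm : TT (9 ^ w) e1 e2 e3 L1 L2 (2 * n)) (ha : (9 ^ w) ^ a ≤ 2 * n) :
    2 * w * a ≤ vb n + 2 * s * a := by
  have hB := big h
  have h1 := h.s1
  have h2 := h.sw
  have h3 : 3 ≤ 3 ^ (s - 1) := by
    calc 3 = 3 ^ 1 := rfl
      _ ≤ 3 ^ (s - 1) := Nat.pow_le_pow_right (by omega) (by omega)
  have z : ∀ d, d = 0 → Even d ∧ d < 3 ^ (s - 1) := by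
    rintro d rfl
    exact ⟨by simp, by omega⟩
  obtain ⟨p, g1, g2, g3⟩ := hm
  obtain rfl : p = 0 := by
    by_contra hp
    exact g3 0 (by omega)
  have g : Gd (9 ^ w) (fun d => Even d ∧ d < 3 ^ (s - 1)) (2 * n / (9 ^ w) ^ (0 + 1)) := by
    refine gd_nx (fun u hu => gd_nx (fun u hu => gd_nx (fun u hu => gd_nx
      (fun u hu => gd_base (by omega) h.b2 hu) ?_ z hu) ?_ h.b1 hu) ?_ (fun _ f => f.elim) hu)
      ?_ z g1
    · rintro d rfl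
      exact h.a3
    · rintro d rfl
      exact ⟨by simp, by omega⟩
    · rintro d rfl
      exact h.a2
    · rintro d rfl
      exact ⟨Nat.even_iff.2 (by have := h.a1.1; omega), h.a1.2⟩
  obtain ⟨P, k1, k2⟩ := g
  rw [Nat.div_div_eq_div_mul, ← pow_add] at k1
  have hv := hvl w s n (0 + 1 + P) (by omega) (by omega) (by omega) g2 k1 fun k hk hk' => by
    have := k2 (k - 1) (by omega)
    rwa [dig_div, show 0 + 1 + (k - 1) = k by omega] at this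
  have hlt : 2 * n < (9 ^ w) ^ (0 + 1 + P + 1) := by
    have := Nat.lt_mul_div_succ (2 * n) (show 0 < (9 ^ w) ^ (0 + 1 + P) by positivity)
    rw [k1] at this
    rw [pow_succ]
    exact lt_of_lt_of_le this (Nat.mul_le_mul_left _ (by omega))
  have hP : a < 0 + 1 + P + 1 :=
    (Nat.pow_lt_pow_iff_right (by omega : 1 < 9 ^ w)).1 (lt_of_le_of_lt ha hlt)
  obtain ⟨j, hj⟩ : ∃ j, 0 + 1 + P = a + j := ⟨0 + 1 + P - a, by omega⟩
  rw [hj, mul_add, mul_add] at hv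
  have : 2 * s * j ≤ 2 * w * j := Nat.mul_le_mul_right _ (by omega)
  omega

/-- The joined number. -/
def mm (B X Y τ : ℕ) : ℕ := 1 + B ^ τ * (X + B ^ τ * Y)

theorem mm_even {B X Y : ℕ} (hB : Odd B) (hX : Even X) (hY : Odd Y) (τ : ℕ) :
    2 * (mm B X Y τ / 2) = mm B X Y τ :=
  Nat.two_mul_div_two_of_even
    (odd_one.add_odd (hB.pow.mul (hX.add_odd (hB.pow.mul hY))))

theorem vb_step (hvs : SVS) {w X Y τ : ℕ} (hw : 2 ≤ 9 ^ w) (hX : Even X) (hY : Odd Y)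
    (hτ : 1 ≤ τ) (hlt : X < (9 ^ w) ^ τ) :
    vb (mm (9 ^ w) X Y (τ + 1) / 2) = vb (mm (9 ^ w) X Y τ / 2) + 4 * w := by
  have hB : Odd (9 ^ w) := Odd.pow (by decide)
  have hZ : Odd (X + (9 ^ w) ^ τ * Y) := hX.add_odd (hB.pow.mul hY)
  have e1 : 2 * ((1 + (9 ^ w) ^ (τ + 1) * (X + (9 ^ w) ^ τ * Y)) / 2) =
      1 + (9 ^ w) ^ (τ + 1) * (X + (9 ^ w) ^ τ * Y) :=
    Nat.two_mul_div_two_of_even (odd_one.add_odd (hB.pow.mul hZ))
  have s1 := hvs w 1 _ τ _ _ odd_one hZ (Nat.one_lt_pow (by omega) (by omega))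
    (mm_even hB hX hY τ) e1
  have hl : 1 + (9 ^ w) ^ (τ + 1) * X < (9 ^ w) ^ (2 * τ + 1) := by
    have h1 : 1 < (9 ^ w) ^ (τ + 1) := Nat.one_lt_pow (by omega) (by omega)
    have h2 : (9 ^ w) ^ (τ + 1) * (X + 1) ≤ (9 ^ w) ^ (τ + 1) * (9 ^ w) ^ τ :=
      Nat.mul_le_mul_left _ hlt
    rw [← pow_add, show τ + 1 + τ = 2 * τ + 1 by omega, mul_add, mul_one] at h2
    omega
  have s2 := hvs w (1 + (9 ^ w) ^ (τ + 1) * X) Y (2 * τ + 1)
    ((1 + (9 ^ w) ^ (τ + 1) * (X + (9 ^ w) ^ τ * Y)) / 2) (mm (9 ^ w) X Y (τ + 1) / 2)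
    (odd_one.add_even (hX.mul_left _)) hY hl (by rw [e1]; ring)
    (by rw [mm_even hB hX hY, mm]; ring)
  omega

theorem vb_steps (hvs : SVS) {w X Y τ : ℕ} (hw : 2 ≤ 9 ^ w) (hX : Even X) (hY : Odd Y)
    (hτ : 1 ≤ τ) (hlt : X < (9 ^ w) ^ τ) (j : ℕ) :
    vb (mm (9 ^ w) X Y (τ + j) / 2) = vb (mm (9 ^ w) X Y τ / 2) + 4 * w * j := by
  induction j with
  | zero => rfl
  | succ j ih =>
    rw [← add_assoc, vb_step hvs hw hX hY (by omega)
      (lt_of_lt_of_le hlt (Nat.pow_le_pow_right (by omega) (by omega))), ih]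
    ring

theorem val_mm {w X Y τ : ℕ} (h3 : 3 ∣ 9 ^ w) (hX : ¬3 ∣ X) (hτ : 1 ≤ τ) :
    padicValNat 3 (mm (9 ^ w) X Y τ - 1) = 2 * w * τ := by
  have hn : ¬3 ∣ X + (9 ^ w) ^ τ * Y := fun h => hX
    ((Nat.dvd_add_iff_left ((dvd_pow h3 (by omega)).mul_right Y)).2 h)
  have : Fact (Nat.Prime 3) := ⟨Nat.prime_three⟩
  have h0 : X + (9 ^ w) ^ τ * Y ≠ 0 := fun h0 => hn (h0 ▸ dvd_zero 3)
  rw [mm, Nat.add_sub_cancel_left, padicValNat.mul (by positivity) h0,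
    padicValNat.eq_zero_of_not_dvd hn, nine_pow, padicValNat.prime_pow, add_zero]

end PCx

open PCx in
theorem sPC : SUN → SVL → SVS → SPC := by
  intro hun hvl hvs w s e1 e2 e3 L1 L2 h
  refine ⟨part1 hun h, fun β x hβ hx hbig h1 h2 => ?_⟩
  have hB := big h
  have hs1 := h.s1
  have hsw := h.sw
  have hodd : Odd (9 ^ w) := Odd.pow (by decide)
  have l1 : ∀ d, L1 d → d < 9 ^ w := fun d hd => small h (h.b1 d hd).2
  obtain ⟨u1, g1, eX⟩ := (nx_false (small h h.a1.2)).1 h1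
  obtain ⟨u2, g2, rfl⟩ := (nx_false (small h h.a2.2)).1 g1
  obtain ⟨p, u3, D, g3, hD, rfl⟩ := (nx_iff (by omega) l1).1 g2
  obtain rfl : u3 = 0 := (z0_iff (by omega)).1 g3
  obtain ⟨y1, k1, eY⟩ := (nx_false (small h h.a3.2)).1 h2
  have hS := sum_lt fun i (hi : i < p) => l1 _ (hD i hi)
  have hT : ∀ j, TT (9 ^ w) e1 e2 e3 L1 L2 (mm (9 ^ w) (2 * x) (β * x ^ 2) (p + 3 + j)) := by
    intro j
    refine (nx_false (by omega)).2 ⟨_, (nx_zero (small h h.a1.2)).2 ⟨p + 2 + j, _,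
      (nx_false (small h h.a2.2)).2 ⟨_, (nx_iff (by omega) l1).2 ⟨p, _, D,
        (nx_zero (small h h.a3.2)).2 ⟨j, y1, k1, rfl⟩, hD, rfl⟩, rfl⟩, rfl⟩, ?_⟩
    rw [mm, eX, eY]
    ring
  have he1 := small h h.a1.2
  have he2 := small h h.a2.2
  generalize ∑ i ∈ range p, D i * (9 ^ w) ^ i = S at hS eX
  have hlt : 2 * x < (9 ^ w) ^ (p + 3) := by
    have a1 : S + (2 + 0 * 9 ^ w) * (9 ^ w) ^ p + 1 ≤ (9 ^ w) ^ p * 9 ^ w := by
      have : (9 ^ w) ^ p * 9 ≤ (9 ^ w) ^ p * 9 ^ w := Nat.mul_le_mul_left _ hB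
      rw [zero_mul]
      omega
    have a2 := Nat.mul_le_mul_right (9 ^ w) a1
    rw [add_mul _ 1, one_mul] at a2
    have a3 : e2 + (S + (2 + 0 * 9 ^ w) * (9 ^ w) ^ p) * 9 ^ w + 1 ≤
      (9 ^ w) ^ p * 9 ^ w * 9 ^ w := by omega
    have a4 := Nat.mul_le_mul_right (9 ^ w) a3
    rw [add_mul _ 1, one_mul] at a4
    rw [pow_succ, pow_succ, pow_succ]
    omega
  have hge : (9 ^ w) ^ (p + 2) ≤ x := by
    have a1 : 2 * x = 2 * (9 ^ w) ^ (p + 2) + (e1 + (e2 + S * 9 ^ w) * 9 ^ w) := by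
      rw [eX]
      ring
    omega
  have hp : 40 < p + 3 :=
    (Nat.pow_lt_pow_iff_right (by omega : 1 < 9 ^ w)).1 (lt_of_le_of_lt (by omega) hlt)
  have hX : Even (2 * x) := even_two_mul x
  have hY : Odd (β * x ^ 2) := hβ.mul hx.pow
  have h3 : ¬3 ∣ 2 * x := by
    rw [eX]
    intro hd
    have := (Nat.dvd_add_iff_left ((three_dvd h).mul_left _)).2 hd
    have := h.a1.1
    omega
  have hst : 2 * w * (4 * p + 10) ≤
      vb (mm (9 ^ w) (2 * x) (β * x ^ 2) (p + 3) / 2) + 2 * s * (4 * p + 10) := by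
    refine start hvl h (by rw [mm_even hodd hX hY]; exact hT 0) ?_
    have a1 : ((9 ^ w) ^ (p + 2)) ^ 2 ≤ β * x ^ 2 :=
      le_trans (Nat.pow_le_pow_left hge 2) (Nat.le_mul_of_pos_left _ hβ.pos)
    have a2 := Nat.mul_le_mul_left ((9 ^ w) ^ (p + 3) * (9 ^ w) ^ (p + 3)) a1
    have a3 : (9 ^ w) ^ (p + 3) * (9 ^ w) ^ (p + 3) * ((9 ^ w) ^ (p + 2)) ^ 2 =
      (9 ^ w) ^ (4 * p + 10) := by ring
    rw [mm_even hodd hX hY, mm, mul_add ((9 ^ w) ^ (p + 3)), ← mul_assoc _ _ (β * x ^ 2), ← a3]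
    exact le_trans a2 (le_trans (Nat.le_add_left _ _) (Nat.le_add_left _ _))
  have hv := vb_steps hvs (by omega) hX hY (by omega : 1 ≤ p + 3) hlt
  generalize vb (mm (9 ^ w) (2 * x) (β * x ^ 2) (p + 3) / 2) = g at hst hv
  have hg : 6 * w * (p + 3) ≤ g := by
    have a1 : 10 * s * (4 * p + 10) ≤ w * (4 * p + 10) := Nat.mul_le_mul_right _ hsw
    have a2 : w * 38 ≤ w * p := Nat.mul_le_mul_left _ (by omega)
    nlinarith
  obtain ⟨c, rfl⟩ := Nat.exists_eq_add_of_le hg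
  have hw : 0 < 2 * w := by omega
  obtain ⟨r, hr⟩ : ∃ r, p + 3 + c / (2 * w) = 20 + r :=
    Nat.exists_eq_add_of_le (le_trans (by omega) (Nat.le_add_right _ _))
  obtain ⟨μ, hμ⟩ : Odd ((9 ^ w) ^ r * x) := hodd.pow.mul hx
  have ev := mm_even hodd hX hY (p + 3 + c / (2 * w))
  refine ⟨μ, mm (9 ^ w) (2 * x) (β * x ^ 2) (p + 3 + c / (2 * w)) / 2, c % (2 * w), ?_,
    Nat.mod_lt _ hw, ?_, by rw [ev]; exact hT _, ?_⟩
  · have a1 : 2 * x ≤ mm (9 ^ w) (2 * x) (β * x ^ 2) (p + 3 + c / (2 * w)) := by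
      rw [mm]
      exact le_trans (le_trans (Nat.le_add_right _ _) (Nat.le_mul_of_pos_left _ (by positivity)))
        (Nat.le_add_left _ _)
    omega
  · have a1 : (3 : ℕ) ^ (40 * w) * (2 * μ + 1) = (9 ^ w) ^ (20 + r) * x := by
      rw [← hμ, pow_add, nine_pow w 20, show 2 * w * 20 = 40 * w by ring, mul_assoc]
    have a2 : 2 * (mm (9 ^ w) (2 * x) (β * x ^ 2) (p + 3 + c / (2 * w)) / 2) =
        1 + 2 * (3 ^ (40 * w) * (2 * μ + 1)) + β * (3 ^ (40 * w) * (2 * μ + 1)) ^ 2 := by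
      rw [ev, hr, a1, mm]
      ring
    rw [qm]
    exact_mod_cast a2
  · rw [ev, val_mm (three_dvd h) h3 (by omega), hv]
    have a1 := Nat.mod_add_div c (2 * w)
    generalize c / (2 * w) = j at a1 ⊢
    generalize c % (2 * w) = f at a1 ⊢
    rw [← a1]
    ring

end Pool.Agent.MP_fed7c7_lc.S6
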