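import Pool.Agent.MP_fed7c7_lc.S6.Spec

set_option autoImplicit false

/-!
Six unknowns: a short accepted number splits into the two blocks.
-/

namespace Pool.Agent.MP_fed7c7_lc.S6

open Pool.Agent.MP_fed7c7_lc.H93

namespace PSx

theorem nx_abs {B Y j : ℕ} {U E L : ℕ → Prop} :
    Nx B U E L (Y / B ^ j) ↔ ∃ p, j ≤ p ∧ U (Y / B ^ (p + 1)) ∧ E (dig B Y p) ∧
      ∀ i, j ≤ i → i < p → L (dig B Y i) := by
  constructor
  · rintro ⟨p, h1, h2, h3⟩
    refine ⟨j + p, by omega, ?_, by rwa [dig_div] at h2, fun i hi hi' => ?_⟩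
    · rwa [Nat.div_div_eq_div_mul, ← pow_add, ← add_assoc] at h1
    · obtain ⟨k, rfl⟩ := Nat.exists_eq_add_of_le hi
      have := h3 k (by omega)
      rwa [dig_div] at this
  · rintro ⟨p, hp, h1, h2, h3⟩
    obtain ⟨k, rfl⟩ := Nat.exists_eq_add_of_le hp
    refine ⟨k, ?_, by rwa [dig_div], fun i hi => ?_⟩
    · rwa [Nat.div_div_eq_div_mul, ← pow_add, ← add_assoc]
    · rw [dig_div]
      exact h3 _ (by omega) (by omega)

theorem z0_zero {B : ℕ} (hB : 2 ≤ B) : ∀ Y : ℕ, Z0 B (· = 0) Y → Y = 0 := by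
  intro Y
  induction Y using Nat.strong_induction_on with
  | _ Y ih =>
    intro h
    by_contra h0
    have h1 : Y % B = 0 := by
      have := h 0
      rwa [dig_zero] at this
    have h2 : Y / B = 0 := ih _ (Nat.div_lt_self (by omega) (by omega)) fun i => by
      have := h (i + 1)
      rwa [dig_succ] at this
    have := Nat.mod_add_div Y B
    rw [h1, h2] at this
    omega

theorem dig_big {B Y j i : ℕ} (h : Y / B ^ j = 0) (hi : j ≤ i) : dig B Y i = 0 := by
  obtain ⟨k, rfl⟩ := Nat.exists_eq_add_of_le hi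
  rw [← dig_div, h]
  simp [dig]

theorem dig_low {B x y a i : ℕ} (hB : 0 < B) (hi : i < a) :
    dig B (x + B ^ a * y) i = dig B x i := by
  obtain ⟨k, rfl⟩ := Nat.exists_eq_add_of_lt hi
  have e : B ^ (i + k + 1) * y = B ^ i * (B * (B ^ k * y)) := by ring
  rw [dig, dig, e, Nat.add_mul_div_left _ _ (pow_pos hB i), Nat.add_mul_mod_self_left]

theorem low_zero {B Y : ℕ} : ∀ a : ℕ, (∀ i, 1 ≤ i → i < a + 1 → dig B Y i = 0) →
    Y = Y % B + B ^ (a + 1) * (Y / B ^ (a + 1)) := by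
  intro a
  induction a with
  | zero => intro _; simpa using (Nat.mod_add_div Y B).symm
  | succ a ih =>
    intro h
    have h1 := ih fun i hi hi' => h i hi (by omega)
    have h2 : Y / B ^ (a + 1) % B = 0 := h (a + 1) (by omega) (by omega)
    have h3 := Nat.mod_add_div (Y / B ^ (a + 1)) B
    rw [h2, zero_add, Nat.div_div_eq_div_mul, ← pow_succ] at h3
    rw [pow_succ B (a + 1), mul_assoc, ← pow_succ B (a + 1), h3]
    exact h1

/-- the size of the root. -/
theorem small {B a β x Y : ℕ} (hB : 9 ≤ B) (ha : 3 ≤ a) (hβ : 1 ≤ β) (hx : 1 ≤ x)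
    (hY : Y < B ^ (3 * a - 3)) (h : B ^ a * (β * x ^ 2) ≤ Y + 2 * x) : 2 * x < B ^ (a - 1) := by
  obtain ⟨c, rfl⟩ : ∃ c, a = c + 3 := ⟨a - 3, by omega⟩
  rw [show 3 * (c + 3) - 3 = 3 * c + 6 by omega] at hY
  rw [show c + 3 - 1 = c + 2 by omega]
  by_contra hc
  push Not at hc
  have hT : 1 ≤ B ^ c := Nat.one_le_pow _ _ (by omega)
  generalize hTe : B ^ c = T at hT
  have e1 : B ^ (c + 2) = T * B ^ 2 := by rw [pow_add, hTe]
  have e2 : B ^ (c + 3) = T * B ^ 3 := by rw [pow_add, hTe]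
  have e3 : B ^ (3 * c + 6) = T ^ 3 * B ^ 6 := by rw [pow_add, mul_comm 3 c, pow_mul, hTe]
  rw [e1] at hc
  rw [e2] at h
  rw [e3] at hY
  have b3 : 729 ≤ B ^ 3 := by
    calc 729 = 9 ^ 3 := by norm_num
      _ ≤ B ^ 3 := Nat.pow_le_pow_left hB 3
  have s1 : x ^ 2 ≤ β * x ^ 2 := Nat.le_mul_of_pos_left _ hβ
  have s2 : T * B ^ 3 * x ^ 2 ≤ Y + 2 * x := le_trans (Nat.mul_le_mul_left _ s1) h
  have s3 : 4 * x ≤ T * B ^ 3 * x ^ 2 := by
    have : x ≤ x ^ 2 := by nlinarith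
    have h4 : 4 ≤ T * B ^ 3 := by nlinarith
    exact Nat.mul_le_mul h4 this
  have s4 : T * B ^ 3 * x ^ 2 ≤ 2 * Y := by omega
  have s5 : (T * B ^ 2) ^ 2 ≤ (2 * x) ^ 2 := Nat.pow_le_pow_left hc 2
  have s6 : T * B ^ 3 * (T * B ^ 2) ^ 2 ≤ T * B ^ 3 * (2 * x) ^ 2 := Nat.mul_le_mul_left _ s5
  have s7 : T * B ^ 3 * (T * B ^ 2) ^ 2 = T ^ 3 * B ^ 6 * B := by ring
  have s8 : T * B ^ 3 * (2 * x) ^ 2 = 4 * (T * B ^ 3 * x ^ 2) := by ring
  have s9 : T ^ 3 * B ^ 6 * 9 ≤ T ^ 3 * B ^ 6 * B := Nat.mul_le_mul_left _ hB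
  omega

theorem len {w s p a f v : ℕ} (sw : 10 * s ≤ w) (hf : f < 2 * w) (hv : v = f + 3 * (2 * w * a))
    (hl : 2 * w * p ≤ v + 2 * s * p) (ha : 20 ≤ a) : p + 4 ≤ 4 * a := by
  have h1 : 10 * s * p ≤ w * p := Nat.mul_le_mul_right _ sw
  have h2 : w * (9 * p) < w * (10 + 30 * a) := by
    have e1 : w * (9 * p) = 9 * (w * p) := by ring
    have e2 : w * (10 + 30 * a) = 10 * w + 30 * (w * a) := by ring
    have e3 : 10 * s * p = 10 * (s * p) := by ring
    have e4 : 2 * w * a = 2 * (w * a) := by ring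
    have e5 : 2 * w * p = 2 * (w * p) := by ring
    have e6 : 2 * s * p = 2 * (s * p) := by ring
    omega
  have h3 := lt_of_mul_lt_mul_left h2 (Nat.zero_le w)
  omega

end PSx

open PSx in
theorem sPS : SVL → SPS := by
  intro hVL w s e1 e2 e3 β n f L1 L2 μ hD hβ he hf hq hT hv
  obtain ⟨s1, sw, a1, a2, a3, b1, b2, c1, c2⟩ := hD
  have hw : 20 ≤ w := by omega
  have hB3 : 9 ^ w = 3 ^ (2 * w) := by rw [pow_mul]; norm_num
  have hB9 : 9 ≤ 9 ^ w := by
    calc 9 = 9 ^ 1 := by norm_num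
      _ ≤ 9 ^ w := Nat.pow_le_pow_right (by norm_num) (by omega)
  have h3s : 3 ≤ 3 ^ (s - 1) := by
    calc 3 = 3 ^ 1 := by norm_num
      _ ≤ 3 ^ (s - 1) := Nat.pow_le_pow_right (by norm_num) (by omega)
  have hBs : 3 * 3 ^ (s - 1) ≤ 9 ^ w := by
    rw [hB3, ← pow_succ']
    exact Nat.pow_le_pow_right (by norm_num) (by omega)
  have hB3d : 3 ∣ 9 ^ w := by rw [hB3]; exact dvd_pow_self 3 (by omega)
  have hVL' := hVL w s n
  generalize hBe : 9 ^ w = B at *
  generalize hYe : 2 * n = Y at *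
  have hB0 : 0 < B := by omega
  obtain ⟨p0, t1, d0, t0⟩ := hT
  obtain rfl : p0 = 0 := by
    by_contra h
    exact t0 0 (by omega)
  obtain ⟨a, ha1, t2, da, za⟩ := nx_abs.1 t1
  obtain ⟨a', ha', t3, da', za'⟩ := nx_abs.1 t2
  obtain rfl : a' = a + 1 := by
    by_contra h
    exact za' (a + 1) le_rfl (by omega)
  obtain ⟨b, hb, t4, db, zb⟩ := nx_abs.1 t3
  obtain ⟨c, hc, t5, dc, zc⟩ := nx_abs.1 t4
  obtain ⟨p, hp, t6, dp, zp⟩ := nx_abs.1 t5
  have top := z0_zero (by omega) _ t6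
  have d0 : dig B Y 0 = 1 := d0
  have da : dig B Y a = e1 := da
  have da' : dig B Y (a + 1) = e2 := da'
  have db : dig B Y b = 2 := db
  have dc : dig B Y c = e3 := dc
  have dp : dig B Y p = 1 := dp
  have za : ∀ i, 1 ≤ i → i < a → dig B Y i = 0 := za
  have zc : ∀ i, b + 1 ≤ i → i < c → dig B Y i = 0 := zc
  have hall : ∀ k, 0 < k → k < p → Even (dig B Y k) ∧ dig B Y k < 3 ^ (s - 1) := by
    intro k h0 hk
    rcases lt_trichotomy k a with h | h | h
    · rw [za k h0 h]; exact ⟨Even.zero, by omega⟩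
    · rw [h, da]; exact ⟨Nat.even_iff.2 (by omega), a1.2⟩
    rcases eq_or_lt_of_le (show a + 1 ≤ k from h) with h | h
    · rw [← h, da']; exact a2
    rcases lt_trichotomy k b with h | h | h
    · exact b1 _ (zb k (by omega) h)
    · rw [h, db]; exact ⟨even_two, by omega⟩
    rcases lt_trichotomy k c with h | h | h
    · rw [zc k (by omega) h]; exact ⟨Even.zero, by omega⟩
    · rw [h, dc]; exact a3
    · exact b2 _ (zp k (by omega) hk)
  have hsm : ∀ k, 0 < k → dig B Y k < 3 ^ (s - 1) := by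
    intro k h0
    rcases lt_trichotomy k p with h | h | h
    · exact (hall k h0 h).2
    · rw [h, dp]; omega
    · rw [dig_big top (by omega)]; omega
  have hp1 : Y / B ^ p = 1 := by
    have h3 := Nat.mod_add_div (Y / B ^ p) B
    rw [Nat.div_div_eq_div_mul, ← pow_succ, top] at h3
    have : Y / B ^ p % B = 1 := dp
    omega
  have hlen := hVL' p (by omega) (by omega) (by omega) d0 hp1 hall
  -- the valuation
  obtain ⟨a0, rfl⟩ : ∃ a0, a = a0 + 1 := ⟨a - 1, by omega⟩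
  have hY := low_zero (B := B) (Y := Y) a0 za
  rw [← dig_zero, d0] at hY
  generalize hae : a0 + 1 = a at *
  generalize hZe : Y / B ^ a = Z at hY
  have dZ : ∀ i, dig B Z i = dig B Y (a + i) := fun i => by rw [← hZe, dig_div]
  have hZ1 : Z % B = e1 := by rw [← dig_zero, dZ, add_zero, da]
  have hZ3 : ¬3 ∣ Z := by
    intro h
    have := (Nat.dvd_mod_iff hB3d).2 h
    omega
  have hZ0 : Z ≠ 0 := by rintro rfl; exact hZ3 (dvd_zero 3)
  have hval : padicValNat 3 (Y - 1) = 2 * w * a := by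
    have : Fact (Nat.Prime 3) := ⟨Nat.prime_three⟩
    rw [show Y - 1 = 3 ^ (2 * w * a) * Z by rw [pow_mul, ← hB3]; omega,
      padicValNat.mul (by positivity) hZ0, padicValNat.prime_pow,
      padicValNat.eq_zero_of_not_dvd hZ3, add_zero]
  rw [hval] at hv
  -- the root
  have hz : ((B : ℤ)) ^ a * Z = (3 ^ (40 * w) * (2 * μ + 1)) *
      (2 + β * (3 ^ (40 * w) * (2 * μ + 1))) := by
    have h1 : (Y : ℤ) = 1 + (B : ℤ) ^ a * Z := by exact_mod_cast hY
    have h2 : (Y : ℤ) = 2 * n := by rw [← hYe]; push_cast; ring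
    rw [qm] at hq
    linear_combination hq - h1 + h2
  have hBz : (B : ℤ) = 3 ^ (2 * w) := by exact_mod_cast hB3
  have ha20 : 20 ≤ a := by
    have h1 : (3 : ℤ) ^ (40 * w) ∣ 3 ^ (2 * w * a) * Z := by
      rw [pow_mul 3 (2 * w) a, ← hBz, hz]
      exact Dvd.dvd.mul_right (Dvd.intro _ rfl) _
    have h2 : 3 ^ (40 * w) ∣ 3 ^ (2 * w * a) * Z := by exact_mod_cast h1
    have h3 : 3 ^ (40 * w) ∣ 3 ^ (2 * w * a) :=
      Nat.Coprime.dvd_of_dvd_mul_right
        (Nat.Coprime.pow_left _ ((Nat.Prime.coprime_iff_not_dvd Nat.prime_three).2 hZ3)) h2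
    have h4 := (Nat.pow_dvd_pow_iff_le_right (by norm_num)).1 h3
    by_contra h
    have : 2 * w * a ≤ 2 * w * 19 := Nat.mul_le_mul_left _ (by omega)
    omega
  generalize hze : (3 : ℤ) ^ (40 * w) * (2 * μ + 1) = z at hz
  have hz3 : (3 : ℤ) ∣ z := by
    rw [← hze]
    exact Dvd.dvd.mul_right (dvd_pow_self 3 (by omega)) _
  have hcop : IsCoprime ((B : ℤ) ^ a) (2 + β * z) := by
    rw [hBz, ← pow_mul]
    refine IsCoprime.pow_left ?_
    obtain ⟨k, rfl⟩ := hz3
    exact ⟨1 + β * k, -1, by ring⟩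
  obtain ⟨x', hx'⟩ : (B : ℤ) ^ a ∣ z := hcop.dvd_of_dvd_mul_right (hz ▸ Dvd.intro _ rfl)
  have hBa : (0 : ℤ) < (B : ℤ) ^ a := by positivity
  have hZx : (Z : ℤ) = 2 * x' + (B : ℤ) ^ a * (β * x' ^ 2) := by
    refine mul_left_cancel₀ hBa.ne' ?_
    rw [hz, hx']; ring
  -- the length
  have hpa : p + 4 ≤ 4 * a := len sw hf hv hlen ha20
  have hZlt : Z < B ^ (3 * a - 3) := by
    have h1 : Y < B ^ (p + 1) := by
      rcases (Nat.div_eq_zero_iff).1 top with h | h
      · exact absurd h (pow_pos hB0 _).ne'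
      · exact h
    have h2 : B ^ (p + 1) ≤ B ^ a * B ^ (3 * a - 3) := by
      rw [← pow_add]
      exact Nat.pow_le_pow_right hB0 (by omega)
    have h3 : B ^ a * Z < B ^ a * B ^ (3 * a - 3) := by omega
    exact lt_of_mul_lt_mul_left h3 (Nat.zero_le _)
  have hpow : B ^ a = B ^ (a - 1) * B := by rw [← pow_succ]; congr 1; omega
  have hpos : 0 < B ^ (a - 1) := pow_pos hB0 _
  obtain ⟨x, rfl | rfl⟩ := Int.eq_nat_or_neg x'
  · have hZn : Z = 2 * x + B ^ a * (β * x ^ 2) := by exact_mod_cast hZx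
    have hx1 : 1 ≤ x := by
      by_contra h
      have : x = 0 := by omega
      rw [this] at hZn
      exact hZ0 (by simpa using hZn)
    have hx := small hB9 (by omega) hβ hx1 hZlt (by omega)
    have hxa : 2 * x < B ^ a := by
      rw [hpow]
      exact lt_of_lt_of_le hx (Nat.le_mul_of_pos_right _ hB0)
    have dx : ∀ i, i < a → dig B (2 * x) i = dig B Y (a + i) := fun i hi => by
      rw [← dZ, hZn, dig_low hB0 hi]
    have hsq : Y / B ^ (a + a) = β * x ^ 2 := by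
      rw [pow_add, ← Nat.div_div_eq_div_mul, hZe, hZn,
        Nat.add_mul_div_left _ _ (pow_pos hB0 a), Nat.div_eq_of_lt hxa, zero_add]
    have h1 : 2 * x % B = e1 := by rw [← dig_zero, dx 0 (by omega), add_zero, da]
    have h2 : dig B Y (a + a) = e3 := by
      rw [← he x h1, ← dig_zero, ← hsq, dig_div, add_zero]
    have hca : c = a + a := by
      by_contra hne
      rcases lt_trichotomy (a + a) b with h | h | h
      · exact c2.1 (h2 ▸ zb _ (by omega) h)
      · exact c2.2.2.2.1 (by rw [← h2, h, db])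
      rcases lt_trichotomy (a + a) c with h' | h' | h'
      · exact c2.2.2.1 (by rw [← h2, zc _ (by omega) h'])
      · exact hne h'.symm
      rcases lt_trichotomy (a + a) p with h'' | h'' | h''
      · exact c2.2.1 (h2 ▸ zp _ (by omega) h'')
      · rw [h'', dp] at h2
        have := Nat.even_iff.1 a3.1
        omega
      · exact c2.2.2.1 (by rw [← h2, dig_big top (by omega)])
    refine ⟨x, ⟨0, nx_abs.2 ⟨1, le_rfl, nx_abs.2 ⟨b - a, by omega, fun i => ?_, ?_,
      fun i hi hi' => ?_⟩, ?_, fun i hi hi' => by omega⟩, ?_, fun i hi => by omega⟩, ?_⟩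
    · rw [dig_div]
      by_cases h : b - a + 1 + i < a
      · rw [dx _ h]
        exact zc _ (by omega) (by omega)
      · exact dig_big (Nat.div_eq_of_lt hxa) (by omega)
    · show dig B (2 * x) (b - a) = 2
      rw [dx _ (by omega), show a + (b - a) = b by omega, db]
    · rw [dx _ (by omega)]
      exact zb _ (by omega) (by omega)
    · show dig B (2 * x) 1 = e2
      rw [dx _ (by omega), da']
    · show dig B (2 * x) 0 = e1
      rw [dig_zero, h1]
    · rw [← hsq, ← hca]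
      exact nx_abs.2 ⟨c, le_rfl, t5, dc, fun i hi hi' => by omega⟩
  · exfalso
    have hZn : Z + 2 * x = B ^ a * (β * x ^ 2) := by
      have : (Z : ℤ) + 2 * x = (B : ℤ) ^ a * (β * x ^ 2) := by rw [hZx]; ring
      exact_mod_cast this
    have hx1 : 1 ≤ x := by
      by_contra h
      have : x = 0 := by omega
      rw [this] at hZn
      exact hZ0 (by simpa using hZn)
    have hx := small hB9 (by omega) hβ hx1 hZlt (by omega)
    obtain ⟨y, hy⟩ : ∃ y, β * x ^ 2 = y + 1 :=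
      ⟨β * x ^ 2 - 1, by have : 0 < β * x ^ 2 := by positivity
                         omega⟩
    obtain ⟨B', hB'⟩ : ∃ B', B = B' + 1 := ⟨B - 1, by omega⟩
    have e1' : B ^ a = B ^ (a - 1) * B' + B ^ (a - 1) := by rw [hpow, hB']; ring
    have hZ2 : Z = (B ^ (a - 1) - 2 * x + B ^ (a - 1) * B') + B ^ a * y := by
      rw [hy, mul_add, mul_one] at hZn
      omega
    have h1 : dig B Z (a - 1) = B' := by
      rw [hZ2, dig_low hB0 (by omega), dig, Nat.add_mul_div_left _ _ hpos,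
        Nat.div_eq_of_lt (by omega), zero_add, Nat.mod_eq_of_lt (by omega)]
    have h2 := hsm (a + (a - 1)) (by omega)
    rw [← dZ, h1] at h2
    omega

end Pool.Agent.MP_fed7c7_lc.S6
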