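import Mathlib
import Pool.Agent.MP_fed7c7_lc.S6.Spec

set_option autoImplicit false

/-!
Reading one coefficient with a window.
-/

namespace Pool.Agent.MP_fed7c7_lc.S6

open PowerSeries Finset Pool.Agent.MP_fed7c7_lc.H56 Pool.Agent.MP_fed7c7_lc.H7
  Pool.Agent.MP_fed7c7_lc.H93

namespace RDx

theorem digit2 {A : ℤ} {t g S : ℝ} (ht : 2 * A * t = 1 + t ^ 2) (t0 : 0 < t) (t1 : t ≤ 1 / 8)
    (g2 : 2 ≤ g) {n : ℕ} (hn : 1 ≤ n) (c : ℕ → ℤ) (hc : ∀ j, |(c j : ℝ)| ≤ g ^ (j + 1))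
    (hS : |S - ∑ j ∈ range (n + 1), c j * t ^ j| ≤ 2 * g ^ (n + 2) * t ^ (n + 1)) :
    ∃ M : ℤ, |(2 * A) * (ps A n : ℝ) * S - (c n + (2 * A) * M : ℤ)| ≤
      9 * g ^ (n + 2) * t := by
  refine ⟨∑ j ∈ range n, c j * ps A (n - j : ℕ), ?_⟩
  have b : ∀ j : ℕ, 0 ≤ (2 * A) * (ps A j * t ^ j) ∧ (2 * A) * (ps A j * t ^ j) ≤ 1 + t ∧
      (1 ≤ j → 1 - 3 * t ≤ (2 * A) * (ps A j * t ^ j)) := fun j => by
    obtain ⟨a0, a1, a2⟩ := ps_near ht t0 t1 j
    rw [mul_assoc] at a0 a1 a2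
    exact ⟨a0, a1, fun h => by linarith [a2 h]⟩
  have e1 : ∀ j ∈ range n, (2 * A) * (ps A n : ℝ) * (c j * t ^ j) -
      (2 * A) * (c j * ps A (n - j : ℕ)) =
        c j * (t ^ (n - j) * ((2 * A) * (ps A j * t ^ j))) := fun j hj => by
    have := ps_shift ht t0 t1 j (n - j)
    rw [Nat.add_sub_cancel' (mem_range.1 hj).le] at this
    linear_combination (2 * A) * c j * this
  have e2 : ∀ j ∈ range n, |c j * (t ^ (n - j) * ((2 * A) * ((ps A j : ℝ) * t ^ j)))| ≤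
      g ^ j * (g * (t * 2)) := fun j hj => by
    obtain ⟨b0, b1, -⟩ := b j
    have p2 : t ^ (n - j) ≤ t :=
      pow_le_of_le_one t0.le (by linarith) (by have := mem_range.1 hj; omega)
    rw [abs_mul, abs_of_nonneg (mul_nonneg (by positivity) b0), ← mul_assoc (g ^ j), ← pow_succ]
    exact mul_le_mul (hc j) (mul_le_mul p2 (by linarith) b0 t0.le) (by positivity) (by positivity)
  have e3 : ∑ j ∈ range n, g ^ j ≤ g ^ n := by
    have := geom_sum_mul g n
    have h : 0 ≤ ∑ j ∈ range n, g ^ j := by positivity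
    nlinarith
  have s1 := (abs_sum_le_sum_abs _ _).trans (sum_le_sum e2)
  rw [← sum_congr rfl e1, sum_sub_distrib, ← mul_sum, ← mul_sum, ← sum_mul] at s1
  rw [sum_range_succ] at hS
  push_cast at s1 ⊢
  generalize ∑ j ∈ range n, (c j : ℝ) * ps A (n - j : ℕ) = M at *
  generalize ∑ j ∈ range n, (c j : ℝ) * t ^ j = P at *
  obtain ⟨a0, a1, a2⟩ := b n
  have a3 := a2 hn
  rw [← mul_assoc] at a0 a1 a3
  have p0 : 0 < t ^ n := by positivity
  have c0 : 0 ≤ (2 * A) * (ps A n : ℝ) := nonneg_of_mul_nonneg_left a0 p0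
  generalize (2 * A) * (ps A n : ℝ) = y at *
  have q0 : 0 < g ^ (n + 2) * t := by positivity
  have q1 : g ^ (n + 1) * t ≤ g ^ (n + 2) * t :=
    mul_le_mul_of_nonneg_right (pow_le_pow_right₀ (by linarith) (by omega)) t0.le
  have f1 : |y * (S - (P + c n * t ^ n))| ≤ 4 * (g ^ (n + 2) * t) := by
    rw [abs_mul, abs_of_nonneg c0]
    calc _ ≤ y * (2 * g ^ (n + 2) * t ^ (n + 1)) := mul_le_mul_of_nonneg_left hS c0
      _ = y * t ^ n * (2 * (g ^ (n + 2) * t)) := by ring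
      _ ≤ 2 * (2 * (g ^ (n + 2) * t)) := mul_le_mul_of_nonneg_right (by linarith) (by positivity)
      _ = _ := by ring
  have f2 : |c n * (y * t ^ n - 1)| ≤ 3 * (g ^ (n + 1) * t) := by
    rw [abs_mul]
    refine (mul_le_mul (hc n) (show _ ≤ 3 * t from abs_le.2 ⟨by linarith, by linarith⟩)
      (abs_nonneg _) (by positivity)).trans (le_of_eq (by ring))
  have f4 := mul_le_mul_of_nonneg_right e3 (show 0 ≤ g * (t * 2) by positivity)
  rw [show g ^ n * (g * (t * 2)) = 2 * (g ^ (n + 1) * t) by ring] at f4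
  rw [abs_le] at f1 f2 s1 ⊢
  constructor <;> linarith [f1.1, f1.2, f2.1, f2.2, s1.1, s1.2]

theorem round4 {g : ℤ⟦X⟧} (hg : Nice g) : ∃ (p q : MvPolynomial (Fin 3) ℤ) (N : ℕ) (K : ℝ),
    1 ≤ K ∧ ∀ (a c l w : ℤ) (t r : ℝ), 0 < t → K * t ≤ 1 → a * t = 1 + t ^ 2 → c ≠ 0 →
      r ^ 2 = w →
      (0 < MvPolynomial.eval ![a, c, l] p - w * MvPolynomial.eval ![a, c, l] q →
        |(l / c - evs g t) * r| < 1 / 2) ∧
      (|(l / c - evs g t) * r| * K ≤ 1 → a ^ N ≤ |r| →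
        0 < MvPolynomial.eval ![a, c, l] p - w * MvPolynomial.eval ![a, c, l] q) := by
  obtain ⟨P, P0, P1⟩ := sep hg.2
  set f := e2 (Polynomial.derivative P) ss g with hf
  set e := f.order.toNat with he
  set u := coeff e f with hu
  have u0 : u ≠ 0 := coeff_order P1
  have d1 : X ^ (e + 1) ∣ f + monomial e (-u) := X_pow_dvd_iff.2 fun m hm => by
    rw [map_add, coeff_monomial]
    split_ifs with h
    · rw [h, ← hu, add_neg_cancel]
    · rw [coeff_of_lt_order_toNat m (by omega), add_zero]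
  obtain ⟨T, d2⟩ := approx g (e + 2)
  set Q : Polynomial (Polynomial ℤ) := Polynomial.X - Polynomial.C T with hQ
  obtain ⟨K0, k0, b0⟩ := hg.1.small (k := 0) (by simp)
  have m1 : EB (monomial e (-u)) := by
    rw [← one_mul (-u), ← add_zero e, ← monomial_mul_monomial, ← X_pow_eq,
      monomial_zero_eq_C_apply]
    exact (EB.var.pow e).mul (EB.const _)
  obtain ⟨K1, k1, b1⟩ := ((EB.ss.e2 hg.1 (Polynomial.derivative P)).add m1).small d1
  obtain ⟨K2, k2, b2⟩ := (EB.ss.e2 hg.1 Q).small d2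
  obtain ⟨K3, k3, b3⟩ := EB.ss.small (k := 0) (by simp)
  obtain ⟨K4, k4, b4⟩ := taylor P K0
  obtain ⟨d, p, hp⟩ := (RF.int 1).add ((RF.int (-1)).mul (((RF.e2 Q).mul
    ((RF.a.pow e).mul RF.a)).pow 2))
  obtain ⟨d', q, hq'⟩ := (((RF.int 4).mul (RF.e2 P)).mul (RF.a.pow e)).pow 2
  set K := K0 + K1 + K2 + K3 + K4 with hK
  have β1 : (1 : ℝ) ≤ 2 ^ e := one_le_pow₀ (by norm_num)
  have U1 : (1 : ℝ) ≤ |(u : ℝ)| := by exact_mod_cast Int.one_le_abs u0
  have K5 : 1 ≤ K := by linarith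
  have K6 : 8 * K ≤ 8 * (|(u : ℝ)| + 1) * 2 ^ e * K := by
    nlinarith [mul_le_mul_of_nonneg_right (one_le_mul_of_one_le_of_one_le
      (by linarith : 1 ≤ |(u : ℝ)| + 1) β1) (by linarith : 0 ≤ K)]
  refine ⟨p * (.X 0 * .X 1) ^ (d + 2 * d'), q * (.X 0 * .X 1) ^ (2 * d + d'), e + 1,
    8 * (|(u : ℝ)| + 1) * 2 ^ e * K, by linarith, fun a c l w t r t0 t1 ht c0 hr => ?_⟩
  have t2 : K * 2 ^ e * t ≤ 1 / 8 := by
    nlinarith [mul_pos (mul_pos (by linarith : 0 < K) (by linarith : (0 : ℝ) < 2 ^ e)) t0]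
  have t3 : K * t ≤ 1 / 8 := by nlinarith [mul_pos (by linarith : 0 < K) t0]
  have t4 : t ≤ 1 / 8 := by nlinarith
  have tk : ∀ k, k ≤ K → k * t ≤ 1 := fun k hk => by nlinarith
  have a0 : (0 : ℝ) < a := by by_contra h; nlinarith
  have c1 : (c : ℝ) ≠ 0 := by exact_mod_cast c0
  obtain ⟨v0, w0⟩ := b0 t t0.le (tk _ (by linarith))
  obtain ⟨v1, w1⟩ := b1 t t0.le (tk _ (by linarith))
  obtain ⟨v2, w2⟩ := b2 t t0.le (tk _ (by linarith))
  obtain ⟨v3, -⟩ := b3 t t0.le (tk _ (by linarith))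
  have s1 : evs ss t = 1 / a := by
    have := (v3.mul ((Ev.int t 1).add ((Ev.var t).pow 2))).2
    rw [Int.cast_one, ss_mul, (Ev.var t).2, Int.cast_one, ← ht] at this
    field_simp
    exact mul_right_cancel₀ t0.ne' (by linarith)
  rw [s1] at v3
  set x := evs g t with hx
  rw [((v3.e2 v0 (Polynomial.derivative P)).add (Ev.mono t e (-u))).2] at w1
  rw [(v3.e2 v0 Q).2] at w2
  have z : e2 P (1 / a : ℝ) x = 0 := by
    rw [← (v3.e2 v0 P).2, P0]
    simpa using (Ev.int t 0).2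
  have h1 : 1 ≤ a * t := by nlinarith
  have h3 : a * t ≤ 2 := by nlinarith
  have ta := b4 (1 / a) x (l / c - x) (by
    rw [abs_of_pos (by positivity), div_le_iff₀ a0]; nlinarith) (by simpa using w0)
  rw [add_sub_cancel, z, sub_zero] at ta
  have τ0 : 0 < t ^ e := by positivity
  have τ1 : t ^ e ≤ 1 := pow_le_one₀ t0.le (by linarith)
  have h2 : 1 ≤ (a : ℝ) ^ e * t ^ e := by rw [← mul_pow]; exact one_le_pow₀ h1
  have h4 : (a : ℝ) ^ e * t ^ e ≤ 2 ^ e := by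
    rw [← mul_pow]; exact pow_le_pow_left₀ (by linarith) h3 e
  have hq : |e2 Q (1 / a : ℝ) x| ≤ K * (t ^ e * t ^ 2) := by
    rw [← pow_add]
    exact w2.trans (mul_le_mul_of_nonneg_right (by linarith) (by positivity))
  have hp' : |e2 (Polynomial.derivative P) (1 / a : ℝ) x - u * t ^ e| ≤ K * (t ^ e * t) := by
    rw [← pow_succ]
    refine le_trans (le_of_eq ?_)
      (w1.trans (mul_le_mul_of_nonneg_right (by linarith) (by positivity)))
    congr 1
    push_cast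
    ring
  have hy : |l / c - x| ≤ 1 → |e2 P (1 / a : ℝ) (l / c) -
      e2 (Polynomial.derivative P) (1 / a : ℝ) x * (l / c - x)| ≤ K * (l / c - x) ^ 2 := fun h =>
    (ta (h.trans k0)).trans (mul_le_mul_of_nonneg_right (by linarith) (sq_nonneg _))
  have eq : e2 Q (1 / a : ℝ) (l / c) = e2 Q (1 / a : ℝ) x + (l / c - x) := by
    simp only [hQ, e2, Polynomial.eval₂_sub, Polynomial.eval₂_X, Polynomial.eval₂_C]
    ring
  have W0 : (0 : ℝ) < (a * c) ^ (2 * (d + d')) := by rw [pow_mul]; positivity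
  have ev : ((MvPolynomial.eval ![a, c, l] (p * (.X 0 * .X 1) ^ (d + 2 * d')) -
      w * MvPolynomial.eval ![a, c, l] (q * (.X 0 * .X 1) ^ (2 * d + d')) : ℤ) : ℝ) =
      (a * c) ^ (2 * (d + d')) * (1 - ((e2 Q (1 / a : ℝ) x + (l / c - x)) * (a ^ e * a)) ^ 2 -
        (4 * e2 P (1 / a : ℝ) (l / c) * r * a ^ e) ^ 2) := by
    rw [map_mul, map_mul, Int.cast_sub, Int.cast_mul, Int.cast_mul, Int.cast_mul,
      hp a c l (by exact_mod_cast a0.ne') c0, hq' a c l (by exact_mod_cast a0.ne') c0, ← eq, ← hr]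
    simp
    ring
  refine ⟨fun h => ?_, fun h hc => ?_⟩
  · rw [← Int.cast_lt (R := ℝ), ev, Int.cast_zero] at h
    exact core_sound t0 τ0 τ1 K5 t3 h1 h2 U1 hq hp' hy ((mul_pos_iff_of_pos_left W0).1 h)
  · rw [← Int.cast_lt (R := ℝ), ev, Int.cast_zero]
    have := core_complete (c := r) t0 τ0 τ1 K5 β1 t2 h1 h2 h3 h4 hq hp' hy (by
      refine le_trans (mul_le_mul_of_nonneg_left ?_ (abs_nonneg _)) h
      exact le_mul_of_one_le_right (by positivity) K5) (by rw [← pow_succ]; exact hc)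
    exact mul_pos W0 (by linarith)

theorem eval_aeval (v : Fin 4 → ℤ) (f : Fin 3 → MvPolynomial (Fin 4) ℤ)
    (q : MvPolynomial (Fin 3) ℤ) : MvPolynomial.eval v (MvPolynomial.aeval f q) =
      MvPolynomial.eval (fun i => MvPolynomial.eval v (f i)) q := by
  induction q using MvPolynomial.induction_on with
  | C a => simp
  | add p q hp hq => simp only [map_add, hp, hq]
  | mul_X p i hp => simp only [map_mul, hp, MvPolynomial.aeval_X, MvPolynomial.eval_X]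

theorem win {A κ W l θ s : ℝ} (hA : 1 < A) (hκ : 0 < κ) (hW : W ≠ 0) (s0 : 0 < s)
    (hs : s ^ 2 * κ = A - 1) : |(l / ((A - 1) * W) - θ) * (κ * s * W)| * s =
      |l - (A - 1) * (W * θ)| := by
  have h : A - 1 ≠ 0 := by linarith
  rw [← abs_of_pos s0, ← abs_mul, abs_of_pos s0]
  refine congrArg _ ?_
  have e : κ * s * W * s = (A - 1) * W := by rw [← hs]; ring
  rw [mul_assoc, e]
  field_simp

end RDx

open RDx in
theorem sRD : SRD := by
  intro f f1
  obtain ⟨p, q, N, K, K1, h⟩ := round4 f1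
  obtain ⟨g0, g1, hg⟩ := f1.1
  obtain ⟨g, g2, hg⟩ : ∃ g : ℝ, 2 ≤ g ∧ ∀ m, |((coeff m f : ℤ) : ℝ)| ≤ g ^ (m + 1) :=
    ⟨2 * g0, by linarith, fun m =>
      (hg m).trans (pow_le_pow_left₀ (by linarith) (by linarith) _)⟩
  obtain ⟨k, hk⟩ := exists_nat_ge (400 * K ^ 2 * g ^ 6)
  have g6 : g ^ 2 ≤ g ^ 6 := pow_le_pow_right₀ (by linarith) (by omega)
  have K2 : K ≤ K ^ 2 := by nlinarith
  have gg : 2 * g ≤ g ^ 2 := by nlinarith
  have k0 : 400 * g ^ 6 ≤ k := by nlinarith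
  have k1 : g ^ 2 ≤ k := by nlinarith
  have k2 : 400 * K ≤ k := by nlinarith
  have k3 : (1 : ℤ) ≤ k := by
    have : (1 : ℝ) ≤ k := by linarith
    exact_mod_cast this
  let F : Fin 3 → MvPolynomial (Fin 4) ℤ :=
    ![2 * .X 0, (.X 0 - 1) * (2 * .X 0 * .X 1), .X 2]
  refine ⟨MvPolynomial.aeval F p - .X 3 * (.X 0 - 1) * (2 * .X 0 * .X 1) ^ 2 *
    MvPolynomial.aeval F q, 2 * N + 1, k, k3, fun A κ i κ1 i0 hA => ?_⟩
  have ev : ∀ D l : ℤ, MvPolynomial.eval ![A, D, l, κ] (MvPolynomial.aeval F p -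
      .X 3 * (.X 0 - 1) * (2 * .X 0 * .X 1) ^ 2 * MvPolynomial.aeval F q) =
      MvPolynomial.eval ![2 * A, (A - 1) * (2 * A * D), l] p - κ * (A - 1) * (2 * A * D) ^ 2 *
        MvPolynomial.eval ![2 * A, (A - 1) * (2 * A * D), l] q := fun D l => by
    have e : (fun i => MvPolynomial.eval ![A, D, l, κ] (F i)) =
        ![2 * A, (A - 1) * (2 * A * D), l] := by
      funext i
      fin_cases i <;> simp [F]
    rw [map_sub, map_mul, eval_aeval, eval_aeval, e]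
    simp
  simp only [ev]
  obtain ⟨j, hj⟩ : ∃ j, i.natAbs = j + 1 := ⟨i.natAbs - 1, by omega⟩
  rw [hj] at hA
  have κ2 : (1 : ℝ) ≤ κ := by exact_mod_cast κ1
  have A2 : ((k : ℝ) * κ) ^ (j + 1) ≤ A := by exact_mod_cast hA
  have kk : (1 : ℝ) ≤ k := by linarith
  have A3 : 400 * K ^ 2 * (g ^ (j + 1 + 2)) ^ 2 * κ ≤ A := by
    refine le_trans ?_ A2
    rw [mul_pow, pow_succ' (k : ℝ)]
    refine mul_le_mul ?_ (le_self_pow₀ κ2 (by omega)) (by linarith) (by positivity)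
    calc _ = 400 * K ^ 2 * g ^ 6 * (g ^ 2) ^ j := by ring
      _ ≤ _ := mul_le_mul hk (pow_le_pow_left₀ (by positivity) k1 j) (by positivity) (by linarith)
  have A1 : (k : ℝ) ≤ A :=
    ((le_mul_of_one_le_right (by linarith) κ2).trans
      (le_self_pow₀ (one_le_mul_of_one_le_of_one_le kk κ2) (by omega))).trans A2
  have A4 : 2 ≤ A := by
    have : (2 : ℝ) ≤ A := by linarith
    exact_mod_cast this
  obtain ⟨t, t0, t1, ht⟩ := exists_t (A := A) (by omega)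
  have t2 : t ≤ 1 / 8 := by nlinarith
  obtain ⟨-, tl⟩ := H93.tail (by linarith) t0.le (by nlinarith) hg
  obtain ⟨M, h1⟩ := digit2 ht t0 t2 g2 (n := j + 1) (by omega) (fun j => coeff j f) hg (tl (j + 1 + 1))
  have G1 : ((j + 1 : ℕ) : ℝ) ≤ g ^ (j + 1 + 2) := by
    have a1 : ((j + 1 : ℕ) : ℝ) ≤ 2 ^ (j + 1) := by exact_mod_cast (j + 1).lt_two_pow_self.le
    exact (a1.trans (pow_le_pow_left₀ (by norm_num) g2 _)).trans
      (pow_le_pow_right₀ (by linarith) (by omega))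
  have G0 : (1 : ℝ) ≤ g ^ (j + 1 + 2) := one_le_pow₀ (by linarith)
  generalize g ^ (j + 1 + 2) = G at *
  have a1 : (1 : ℝ) < A := by linarith
  have κ0 : (0 : ℝ) < κ := by linarith
  obtain ⟨s, s0, hs⟩ : ∃ s : ℝ, 0 < s ∧ s ^ 2 * κ = A - 1 :=
    ⟨√((A - 1) / κ), Real.sqrt_pos.2 (div_pos (by linarith) κ0), by
      rw [Real.sq_sqrt (div_pos (by linarith) κ0).le, div_mul_cancel₀ _ κ0.ne']⟩
  have KG : 1 ≤ K * G := one_le_mul_of_one_le_of_one_le K1 G0
  have s1 : 18 * (K * G) ≤ s := by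
    refine (pow_le_pow_iff_left₀ (by linarith) s0.le two_ne_zero).1 ?_
    refine le_of_mul_le_mul_right ?_ κ0
    have : 1 ≤ (K * G) ^ 2 * κ := one_le_mul_of_one_le_of_one_le (one_le_pow₀ KG) κ2
    nlinarith
  have GK : G ≤ K * G := le_mul_of_one_le_left (by linarith) K1
  obtain ⟨e, he, hi⟩ : ∃ e : ℤ, (e = 1 ∨ e = -1) ∧ i = e * (j + 1 : ℕ) := by
    rcases Int.natAbs_eq i with g | g
    · exact ⟨1, .inl rfl, by rw [one_mul, ← hj]; exact g⟩
    · exact ⟨-1, .inr rfl, by rw [neg_one_mul, ← hj]; exact g⟩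
  have hD : ps A i = e * ps A (j + 1 : ℕ) := by
    rcases he with rfl | rfl
    · rw [hi, one_mul, one_mul]
    · rw [hi, neg_one_mul, neg_one_mul, ps_neg]
  have D0 : ps A i ≠ 0 := fun z => i0 (ps_eq_zero (by omega) z)
  set L := e * (coeff (j + 1) f + 2 * A * M) with hL
  have W0 : (2 * A * ps A i : ℝ) ≠ 0 := by
    have : (ps A i : ℝ) ≠ 0 := by exact_mod_cast D0
    positivity
  have h3 : |(A - 1) * (2 * A * ps A i * evs f t) - (A - 1) * L| ≤ 9 * G := by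
    have b1 : |2 * A * (ps A i : ℝ) * evs f t - L| ≤ 9 * G * t := by
      rw [abs_le] at h1 ⊢
      rw [hL, hD]
      push_cast at h1 ⊢
      rcases he with rfl | rfl <;> push_cast <;> constructor <;> linarith [h1.1, h1.2]
    rw [← mul_sub, abs_mul, abs_of_pos (show (0 : ℝ) < A - 1 by linarith)]
    refine (mul_le_mul_of_nonneg_left b1 (by linarith)).trans ?_
    nlinarith [mul_le_mul_of_nonneg_left (show (A - 1) * t ≤ 1 by nlinarith)
      (show 0 ≤ 9 * G by linarith)]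
  have h4 := fun l => h (2 * A) ((A - 1) * (2 * A * ps A i)) l
    (κ * (A - 1) * (2 * A * ps A i) ^ 2) t (κ * s * (2 * A * ps A i)) t0 (by nlinarith)
    (by push_cast; exact ht)
    (mul_ne_zero (by omega) (mul_ne_zero (by omega) D0)) (by push_cast; rw [← hs]; ring)
  have h5 := fun l : ℝ => win (l := l) (θ := evs f t) a1 κ0 W0 s0 hs
  refine ⟨L, fun ip => ?_, fun l hl => ?_, fun hN μ hμ => (h4 _).2 ?_ ?_⟩
  · obtain rfl : e = 1 := he.resolve_right (by rintro rfl; omega)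
    rw [show i.toNat = j + 1 by omega, hL]
    exact ⟨M, by ring⟩
  · have b1 := (h4 l).1 hl
    push_cast at b1
    have b2 := mul_lt_mul_of_pos_right b1 s0
    rw [h5] at b2
    have b3 : |(l : ℝ) - (A - 1) * L| ≤ s := by
      rw [abs_lt] at b2
      rw [abs_le] at h3 ⊢
      constructor <;> linarith [b2.1, b2.2, h3.1, h3.2]
    have b4 := mul_le_mul_of_nonneg_right (pow_le_pow_left₀ (abs_nonneg _) b3 2) κ0.le
    rw [sq_abs, hs, mul_comm] at b4
    exact_mod_cast b4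
  · obtain rfl : e = 1 := he.resolve_right (by rintro rfl; omega)
    have b1 : |(μ : ℝ)| ≤ G := by
      refine le_trans ?_ G1
      rw [hi, one_mul] at hμ
      exact_mod_cast hμ
    refine le_of_mul_le_mul_right ?_ s0
    push_cast
    rw [mul_right_comm, h5, one_mul]
    have b2 : |(A - 1) * (L : ℝ) + μ - (A - 1) * (2 * A * ps A i * evs f t)| ≤ 10 * G := by
      rw [abs_le] at h3 b1 ⊢
      constructor <;> linarith [b1.1, b1.2, h3.1, h3.2]
    nlinarith [mul_le_mul_of_nonneg_right b2 (by linarith : 0 ≤ K)]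
  · obtain rfl : e = 1 := he.resolve_right (by rintro rfl; omega)
    have b1 := (ps_bounds (A := A) (by omega) j).1
    have b3 : (2 * A) ^ N ≤ (2 * A - 1) ^ j :=
      calc _ ≤ ((2 * A - 1) ^ 2) ^ N := pow_le_pow_left₀ (by omega) (by nlinarith) N
        _ ≤ _ := by rw [← pow_mul]; exact pow_le_pow_right₀ (by omega) (by omega)
    have b4 : (2 * A) ^ N ≤ ps A i := by
      rw [hD, one_mul]
      exact b3.trans b1
    have b5 : ((2 * A : ℤ) : ℝ) ^ N ≤ ps A i := by exact_mod_cast b4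
    have b6 : (0 : ℝ) ≤ ((2 * A : ℤ) : ℝ) ^ N := by
      push_cast
      positivity
    refine b5.trans (le_trans ?_ (le_abs_self _))
    rw [← mul_assoc]
    refine le_mul_of_one_le_left (b6.trans b5) ?_
    exact one_le_mul_of_one_le_of_one_le (one_le_mul_of_one_le_of_one_le κ2 (by linarith))
      (by linarith)

end Pool.Agent.MP_fed7c7_lc.S6
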