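import Pool.Agent.MP_fed7c7_lc.S6.Spec

set_option autoImplicit false

/-!
Soundness of the merged equation.
-/

namespace Pool.Agent.MP_fed7c7_lc.S6

open Pool.Agent.MP_fed7c7_lc.H56 Pool.Agent.MP_fed7c7_lc.H21 Pool.Agent.MP_fed7c7_lc.H93
  Pool.Agent.MP_fed7c7_lc.H34

namespace SSx

theorem de {a b c : ℤ} (h : a ∣ b) (e : c = b) : a ∣ c := e ▸ h

theorem split3 {a b c x y z t : ℤ} (ab : IsCoprime a b) (ac : IsCoprime a c) (bc : IsCoprime b c)
    (h : a * b * c ∣ a * b * c * t - (x * b * c + a * y * c + a * b * z)) :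
    a ∣ x ∧ b ∣ y ∧ c ∣ z := by
  obtain ⟨q, hq⟩ := h
  refine ⟨(ab.mul_right ac).dvd_of_dvd_mul_right ⟨b * c * (t - q) - y * c - b * z, ?_⟩,
    (ab.symm.mul_right bc).dvd_of_dvd_mul_right ⟨a * c * (t - q) - x * c - a * z, ?_⟩,
    (ac.symm.mul_right bc.symm).dvd_of_dvd_mul_right ⟨a * b * (t - q) - x * b - a * y, ?_⟩⟩ <;>
  linear_combination -hq

end SSx

open SSx in
theorem sSS : SSS := by
  intro P₁ P D R G₀ S T s z ev oD oP cD cG h
  unfold E2 E3 E4 E5 at h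
  obtain ⟨eG, oF, m4, dG, -, hm, h8, G2⟩ :=
    facts (P := 4 * P) (R := R) ev oD rfl rfl rfl rfl rfl
  have em : mM G₀ (4 * P) D R = 1 + 16 * (G₀ + 1) * (4 * P) * D ^ 2 * (R - 1) := rfl
  generalize mM G₀ (4 * P) D R = m at *
  generalize (G₀ + 1) * (2 * m - 1) = c at *
  obtain ⟨G, hG⟩ : ∃ G, G = c * m - 1 := ⟨_, rfl⟩
  rw [← hG] at h eG oF dG hm h8 G2
  obtain ⟨F, eF⟩ : ∃ F, F = c * (G - 1) * D := ⟨_, rfl⟩
  rw [← eF] at h oF hm h8
  obtain ⟨y, hy⟩ : ∃ y, y = 4 + F * P * (160 * D * (R - 1) + m * (F * P)) +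
    8 * (F * P) * m * s := ⟨_, rfl⟩
  rw [← hy] at h
  have ex : y = x0 F (4 * P) D R m + m * (F ^ 2 * (P ^ 2 - 1)) + 8 * (F * P) * m * s := by
    rw [hy, x0]; ring
  have yF : F * P ∣ y - 4 :=
    ⟨160 * D * (R - 1) + m * (F * P) + 8 * m * s, by rw [hy]; ring⟩
  generalize x0 F (4 * P) D R m = x at *
  have ym : m ∣ y + 1 := de (hm.add (dvd_mul_right m (F ^ 2 * (P ^ 2 - 1) + 8 * (F * P) * s)))
    (by rw [ex]; ring)
  have y8 : y % 8 = 5 := by
    obtain ⟨f, hf⟩ := oP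
    obtain ⟨j, hj⟩ := Int.even_mul_succ_self f
    have : y = x + 8 * (m * F ^ 2 * j + F * P * m * s) := by
      rw [ex, hf]; linear_combination 4 * m * F ^ 2 * hj
    omega
  have G0 : G ^ 2 - 1 ≠ 0 := fun z => by
    rcases sq_eq_one_iff.1 (sub_eq_zero.1 z) with e | e <;> exact absurd (e ▸ eG) (by decide)
  have D0 : D ≠ 0 := by rintro rfl; exact absurd oD (by decide)
  have P0' : P ≠ 0 := by rintro rfl; exact absurd oP (by decide)
  have c5 : IsCoprime y (F * P) := by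
    obtain ⟨f, hf⟩ := oF.mul oP
    obtain ⟨e, he⟩ := yF
    have c4 : IsCoprime (2 ^ 2 : ℤ) (F * P) := IsCoprime.pow_left ⟨-f, 1, by linarith⟩
    rw [show y = 2 ^ 2 + F * P * e by linarith]
    exact c4.add_mul_left_left _
  have co : IsCoprime y ((G ^ 2 - 1) * D ^ 2) := by
    obtain ⟨j, hj⟩ := ym
    have c6 : IsCoprime y m := ⟨-1, j, by linarith⟩
    have c7 := c5.of_mul_right_left
    exact ((c7.mul_right c6).mul_right c7).of_isCoprime_of_dvd_right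
      ⟨c * (G - 1), by rw [eF]; linear_combination (G - 1) ^ 2 * c * D ^ 2 * -hG⟩
  have cq : IsCoprime ((G ^ 2 - 1) * D ^ 2) (P ^ 15) := by
    obtain ⟨e, he⟩ := dG
    refine IsCoprime.pow_right (IsCoprime.mul_left ?_ cD.symm.pow_left)
    rw [show G ^ 2 - 1 = G₀ ^ 2 - 1 + P * (4 * D ^ 2 * e * (G + G₀)) by
      linear_combination (G + G₀) * he]
    exact cG.symm.add_mul_left_left _
  obtain ⟨h1, h2⟩ := cmb_sound h
  obtain ⟨s1, s2⟩ := h2 (mul_ne_zero (mul_ne_zero (mul_ne_zero G0 (pow_ne_zero 2 D0))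
    (by omega)) (pow_ne_zero _ P0'))
  obtain ⟨⟨w, hw⟩, d1, d3⟩ := split3 co.symm cq c5.of_mul_right_right.pow_right h1
  refine ⟨s1, fun g2 P0 cP => ?_⟩
  have P4 : 0 < 4 * P := by omega
  generalize 4 * P = Q at *
  obtain ⟨e, he⟩ := s2
  have s3 : IsSquare (Q * w) := isSquare_of_mul (b := (G ^ 2 - 1) * D) (c := e)
    (mul_ne_zero G0 D0) (by rw [sq e, ← he, hw]; ring)
  obtain ⟨b, hb⟩ := sq_or (cP.of_isCoprime_of_dvd_right (hw ▸ dvd_mul_left _ _)) s3 P4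
  obtain ⟨t, ht⟩ := s3
  obtain ⟨u, rfl⟩ : IsSquare w := isSquare_of_mul (b := b) (c := t)
    (by rintro rfl; simp at hb; omega) (by rw [hb, ht, sq])
  obtain ⟨k, hk, hS⟩ := exists_both (A := G) (x := S) (y := D * u) (G2 g2)
    (by linear_combination hw)
  have m0 : 0 < m := sign_of_dvd (k := k) (G2 g2) eG (by rw [hG]; ring) y8
    (Dvd.dvd.trans ⟨(G - 1) * D * P, by rw [eF]; ring⟩ yF) ym m4 (by
      rcases hS with e | e
      · exact e ▸ d1
      · exact dvd_neg.1 (e ▸ d1))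
  have dP : Q ∣ ch G k - ch G₀ k := ((dvd_mul_right _ _).trans dG).trans (ch_dvd_sub G₀ G k)
  obtain ⟨w, hw⟩ : D ∣ ps G₀ k := de ((dvd_mul_right D u).sub
    ((Dvd.dvd.trans ⟨Q * D, by ring⟩ dG).trans (ps_dvd_sub G₀ G k))) (by rw [hk]; ring)
  have p1 := pell G₀ k
  rw [hw] at p1
  refine ⟨?_, ⟨b, by rw [← hb, sq]⟩, ?_, d3⟩
  · by_contra z
    have : 0 < (G₀ + 1) * Q * D ^ 2 := by positivity
    nlinarith
  · rcases hS with e | e
    · exact ⟨ch G₀ k, w, de dP.neg_right (by rw [e]; ring), by linear_combination p1⟩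
    · exact ⟨-ch G₀ k, w, de dP (by rw [e]; ring), by linear_combination p1⟩

end Pool.Agent.MP_fed7c7_lc.S6
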