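import Mathlib
import Pool.Agent.MP_fed7c7_lc.S6.Spec

set_option autoImplicit false

/-!
Row UN: unit parts modulo `3`.
-/

namespace Pool.Agent.MP_fed7c7_lc.S6

namespace UNx

theorem un_eq (k m : ℕ) (hm : ¬3 ∣ m) : un (3 ^ k * m) = m := by
  have h0 : m ≠ 0 := by
    rintro rfl
    exact hm (dvd_zero _)
  have : Fact (Nat.Prime 3) := ⟨Nat.prime_three⟩
  rw [un, padicValNat.mul (by positivity) h0, padicValNat.prime_pow,
    padicValNat.eq_zero_of_not_dvd hm, add_zero, Nat.mul_div_cancel_left _ (by positivity)]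

theorem ex {a : ℕ} (ha : a ≠ 0) : ∃ k m, ¬3 ∣ m ∧ a = 3 ^ k * m :=
  Nat.exists_eq_pow_mul_and_not_dvd ha 3 (by norm_num)

theorem un_mul (a b : ℕ) (ha : a ≠ 0) (hb : b ≠ 0) : un (a * b) = un a * un b := by
  obtain ⟨k, m, h1, rfl⟩ := ex ha
  obtain ⟨l, n, h2, rfl⟩ := ex hb
  have h3 : ¬3 ∣ m * n := fun h => ((Nat.Prime.dvd_mul Nat.prime_three).1 h).elim h1 h2
  rw [show 3 ^ k * m * (3 ^ l * n) = 3 ^ (k + l) * (m * n) by ring, un_eq _ _ h3, un_eq _ _ h1,
    un_eq _ _ h2, Nat.cast_mul]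

theorem un_sq (a : ℕ) (ha : a ≠ 0) : un a * un a = 1 := by
  obtain ⟨k, m, h1, rfl⟩ := ex ha
  rw [un_eq _ _ h1]
  have h : (m : ZMod 3) ≠ 0 := fun h => h1 ((ZMod.natCast_eq_zero_iff m 3).1 h)
  revert h
  generalize (m : ZMod 3) = x
  revert x
  decide

theorem un_nd (a : ℕ) (ha : ¬3 ∣ a) : un a = a := by
  have := un_eq 0 a ha
  rwa [pow_zero, one_mul] at this

theorem un_pow (k : ℕ) : un (3 ^ k) = 1 := by
  have := un_eq k 1 (by norm_num)
  rwa [mul_one, Nat.cast_one] at this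

theorem sg_zero : sg 0 = 1 := by
  have := un_pow 0
  rwa [pow_zero] at this

theorem sg_succ (m : ℕ) : sg (m + 1) = un (m + 1) * sg m := by
  rw [sg, sg, Nat.factorial_succ, un_mul _ _ (by omega) (Nat.factorial_ne_zero m)]

theorem three : (3 : ZMod 3) = 0 := rfl

theorem un_one (q : ℕ) : un (3 * q + 1) = 1 := by
  rw [un_nd _ (by omega)]
  push_cast
  rw [three]
  ring

theorem un_two (q : ℕ) : un (3 * q + 1 + 1) = -1 := by
  rw [un_nd _ (by omega)]
  push_cast
  rw [three, zero_mul, zero_add]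
  rfl

theorem un_three (q : ℕ) : un (3 * q + 1 + 1 + 1) = un (q + 1) := by
  have := un_pow 1
  rw [pow_one] at this
  rw [show 3 * q + 1 + 1 + 1 = 3 * (q + 1) by ring, un_mul _ _ (by omega) (by omega), this,
    one_mul]

theorem sg_three (q : ℕ) : sg (3 * q) = (-1) ^ q * sg q := by
  induction q with
  | zero => simp
  | succ q ih =>
    rw [show 3 * (q + 1) = 3 * q + 1 + 1 + 1 by ring, sg_succ, sg_succ, sg_succ, ih, un_three,
      un_two, un_one, sg_succ]
    ring

theorem sg_step (q r : ℕ) (hr : r < 3) : sg (3 * q + r) = (-1) ^ q * sg q * sg r := by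
  have a1 := un_one 0
  have a2 := un_two 0
  have b1 : sg 1 = 1 := by
    have := sg_succ 0
    rw [sg_zero, mul_one] at this
    exact this.trans a1
  have b2 : sg 2 = -1 := by
    have := sg_succ 1
    rw [b1, mul_one] at this
    exact this.trans a2
  interval_cases r
  · rw [add_zero, sg_three, sg_zero, mul_one]
  · rw [sg_succ, un_one, sg_three, b1]
    ring
  · rw [show 3 * q + 2 = 3 * q + 1 + 1 by ring, sg_succ, sg_succ, un_two, un_one, sg_three, b2]
    ring

theorem sg_nine (q d : ℕ) (hd : d < 9) : sg (9 * q + d) = sg q * sg d := by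
  have e1 : 9 * q + d = 3 * (3 * q + d / 3) + d % 3 := by omega
  have e2 : d = 3 * (d / 3) + d % 3 := by omega
  have h1 := sg_step (d / 3) (d % 3) (by omega)
  rw [← e2] at h1
  have h2 : ((-1 : ZMod 3) ^ q) ^ 4 = 1 := by
    rw [← pow_mul, mul_comm, pow_mul]
    norm_num
  rw [e1, sg_step _ _ (by omega), sg_step _ _ (by omega), h1]
  linear_combination ((-1) ^ (d / 3) * sg q * sg (d / 3) * sg (d % 3)) * h2

theorem sg_pow (w : ℕ) : ∀ q r, r < 9 ^ w → sg (9 ^ w * q + r) = sg q * sg r := by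
  induction w with
  | zero =>
    intro q r hr
    obtain rfl : r = 0 := by omega
    rw [pow_zero, one_mul, add_zero, sg_zero, mul_one]
  | succ w ih =>
    intro q r hr
    rw [pow_succ] at hr
    have e1 : 9 ^ (w + 1) * q + r = 9 * (9 ^ w * q + r / 9) + r % 9 := by
      rw [pow_succ, mul_comm (9 ^ w) 9, mul_assoc]
      omega
    have e2 : r = 9 * (r / 9) + r % 9 := by omega
    have h1 := sg_nine (r / 9) (r % 9) (by omega)
    rw [← e2] at h1
    rw [e1, sg_nine _ _ (by omega), ih _ _ (by omega), h1, mul_assoc]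

theorem un_central (n : ℕ) : un n.centralBinom = sg (2 * n) := by
  have h := Nat.choose_mul_factorial_mul_factorial (show n ≤ 2 * n by omega)
  rw [show 2 * n - n = n by omega, ← Nat.centralBinom_eq_two_mul_choose] at h
  have h0 := Nat.factorial_ne_zero n
  have h1 := Nat.centralBinom_ne_zero n
  rw [sg, ← h, un_mul _ _ (mul_ne_zero h1 h0) h0, un_mul _ _ h1 h0, mul_assoc, un_sq _ h0,
    mul_one]

end UNx

theorem sUN : SUN :=
  ⟨UNx.un_mul, UNx.un_sq, UNx.un_nd, UNx.un_pow, UNx.sg_pow, UNx.sg_zero, UNx.un_central⟩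

end Pool.Agent.MP_fed7c7_lc.S6
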