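import Pool.Agent.MP_fed7c7_lc.S6.Spec

set_option autoImplicit false

namespace Pool.Agent.MP_fed7c7_lc.S6

open Finset Pool.Agent.MP_fed7c7_lc.H56 Pool.Agent.MP_fed7c7_lc.H21
  Pool.Agent.MP_fed7c7_lc.H93

namespace VLx

theorem carry {n q : ℕ} (h : Odd (2 * n % q)) : q ≤ n % q + n % q := by
  by_contra hc
  have h1 : 2 * n % q = 2 * (n % q) := by
    rw [← Nat.mul_mod_mod, Nat.mod_eq_of_lt (by omega)]
  rw [h1] at h
  exact (Nat.not_odd_iff_even.2 (even_two_mul _)) h

theorem odd_mod {B m p : ℕ} (h0 : m / B ^ 0 % B = 1)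
    (h : ∀ k, 0 < k → k < p → Even (m / B ^ k % B)) : ∀ k, k < p → Odd (m % B ^ (k + 1)) := by
  intro k
  induction k with
  | zero =>
    intro _
    simp only [pow_zero, Nat.div_one] at h0
    rw [zero_add, pow_one, h0]
    exact odd_one
  | succ k ih =>
    intro hk
    rw [Nat.mod_pow_succ]
    exact (ih (by omega)).add_even ((h (k + 1) (by omega) hk).mul_left _)

theorem mod_eq {w m k j : ℕ} (hj : j ≤ 2 * w) (hd : m / (9 ^ w) ^ k % 9 ^ w < 3 ^ j) :
    m % 3 ^ (2 * w * k + j) = m % (9 ^ w) ^ (k + 1) := by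
  have e : (9 : ℕ) ^ w = 3 ^ (2 * w) := by rw [pow_mul]; norm_num
  have hdv : 3 ^ j ∣ 9 ^ w := by rw [e]; exact pow_dvd_pow _ hj
  rw [Nat.mod_pow_succ, pow_add, pow_mul, ← e, Nat.mod_mul, ← Nat.mod_mod_of_dvd _ hdv,
    Nat.mod_eq_of_lt hd]

end VLx

open VLx in
theorem sVL : SVL := by
  intro w s n p hs hsw hp h0 _ hd
  have h0' : 2 * n / (9 ^ w) ^ 0 % 9 ^ w = 1 := h0
  have hd' : ∀ k, 0 < k → k < p → Even (2 * n / (9 ^ w) ^ k % 9 ^ w) ∧
      2 * n / (9 ^ w) ^ k % 9 ^ w < 3 ^ (s - 1) := hd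
  haveI : Fact (Nat.Prime 3) := ⟨Nat.prime_three⟩
  have hv : vb n = #{i ∈ Ico 1 (Nat.log 3 (2 * n) + 2 * w * p + 1) |
      3 ^ i ≤ n % 3 ^ i + (2 * n - n) % 3 ^ i} := by
    rw [vb, Nat.centralBinom_eq_two_mul_choose]
    exact padicValNat_choose (by omega) (by omega)
  have hn : 2 * n - n = n := by omega
  rw [hn] at hv
  have hc : #(range p ×ˢ Icc s (2 * w)) ≤ vb n := by
    rw [hv]
    refine card_le_card_of_injOn (fun x => 2 * w * x.1 + x.2) ?_ ?_
    · rintro ⟨k, j⟩ hx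
      simp only [coe_product, coe_range, coe_Icc, Set.mem_prod, Set.mem_Iio, Set.mem_Icc] at hx
      obtain ⟨hk, hj1, hj2⟩ := hx
      have h1 : 2 * w * (k + 1) ≤ 2 * w * p := Nat.mul_le_mul_left _ hk
      rw [mul_add] at h1
      simp only [coe_filter, mem_Ico, Set.mem_setOf_eq]
      refine ⟨⟨by omega, by omega⟩, carry ?_⟩
      rw [mod_eq hj2 ?_]
      · exact odd_mod h0' (fun k h h' => (hd' k h h').1) k hk
      · rcases Nat.eq_zero_or_pos k with rfl | hk0
        · rw [h0']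
          exact Nat.one_lt_pow (by omega) (by norm_num)
        · exact (hd' k hk0 hk).2.trans_le (Nat.pow_le_pow_right (by norm_num) (by omega))
    · rintro ⟨k, j⟩ hx ⟨k', j'⟩ hx' he
      simp only [coe_product, coe_range, coe_Icc, Set.mem_prod, Set.mem_Iio,
        Set.mem_Icc] at hx hx'
      simp only at he
      have hk : k = k' := by
        rcases lt_trichotomy k k' with h | h | h
        · have h1 : 2 * w * (k + 1) ≤ 2 * w * k' := Nat.mul_le_mul_left _ h
          rw [mul_add] at h1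
          omega
        · exact h
        · have h1 : 2 * w * (k' + 1) ≤ 2 * w * k := Nat.mul_le_mul_left _ h
          rw [mul_add] at h1
          omega
      subst hk
      have : j = j' := by omega
      rw [this]
  rw [card_product, card_range, Nat.card_Icc] at hc
  obtain ⟨t, ht⟩ := Nat.exists_eq_add_of_le hsw
  have h2 : 2 * w + 1 - s = t + 1 := by omega
  rw [h2] at hc
  rw [ht]
  nlinarith

end Pool.Agent.MP_fed7c7_lc.S6
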