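import Pool.Agent.MP_fed7c7_lc.S6.Spec

set_option autoImplicit false

/-!
Row VS: inserting one zero digit.
-/

namespace Pool.Agent.MP_fed7c7_lc.S6

namespace VSx

/-- The sum of the ternary digits. -/
def s3 (x : ℕ) : ℕ := (Nat.digits 3 x).sum

theorem s3_zero : s3 0 = 0 := by simp [s3]

theorem s3_rec (x : ℕ) : s3 x = x % 3 + s3 (x / 3) := by
  rcases Nat.eq_zero_or_pos x with rfl | h
  · simp [s3]
  · rw [s3, Nat.digits_def' (by norm_num) h, List.sum_cons, s3]

theorem s3_split (k : ℕ) : ∀ y z : ℕ, y < 3 ^ k → s3 (y + 3 ^ k * z) = s3 y + s3 z := by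
  induction k with
  | zero =>
    intro y z h
    obtain rfl : y = 0 := by simpa using h
    simp [s3_zero]
  | succ k ih =>
    intro y z h
    have e : 3 ^ (k + 1) * z = 3 * (3 ^ k * z) := by ring
    rw [pow_succ] at h
    rw [s3_rec, s3_rec y, e, Nat.add_mul_mod_self_left, Nat.add_mul_div_left _ _ (by norm_num),
      ih _ _ (by omega), add_assoc]

theorem s3_half (m : ℕ) : ∀ h : ℕ, 2 * h + 1 = 3 ^ m → s3 h = m := by
  induction m with
  | zero =>
    intro h e
    obtain rfl : h = 0 := by simpa using e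
    exact s3_zero
  | succ m ih =>
    intro h e
    rw [pow_succ] at e
    rw [s3_rec, ih (h / 3) (by omega)]
    omega

theorem vb_eq (n : ℕ) : 2 * vb n + s3 (2 * n) = 2 * s3 n := by
  have : Fact (Nat.Prime 3) := ⟨Nat.prime_three⟩
  have h1 := sub_one_mul_padicValNat_factorial (p := 3) n
  have h2 := sub_one_mul_padicValNat_factorial (p := 3) (2 * n)
  have h3 := Nat.digit_sum_le 3 n
  have h4 := Nat.digit_sum_le 3 (2 * n)
  have h5 : (2 * n).factorial = n.centralBinom * (n.factorial * n.factorial) := by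
    have := Nat.choose_mul_factorial_mul_factorial (show n ≤ 2 * n by omega)
    rw [show 2 * n - n = n by omega] at this
    rw [← this, Nat.centralBinom, mul_assoc]
  have hn := n.factorial_ne_zero
  rw [h5, padicValNat.mul n.centralBinom_ne_zero (mul_ne_zero hn hn), padicValNat.mul hn hn] at h2
  unfold vb s3
  omega

end VSx

open VSx in
theorem sVS : SVS := by
  intro w Y Z p n n' hY hZ h h1 h2
  have e9 : 9 ^ w = 3 ^ (2 * w) := by rw [pow_mul]; norm_num
  rw [pow_succ] at h2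
  rw [e9, ← pow_mul] at h h1 h2
  obtain ⟨a, rfl⟩ := hY
  obtain ⟨b, rfl⟩ := hZ
  obtain ⟨c, hc⟩ : Odd (3 ^ (2 * w * p)) := Odd.pow (by decide)
  obtain ⟨e, he⟩ : Odd (3 ^ (2 * w)) := Odd.pow (by decide)
  have k1 : n = a + c + 1 + 3 ^ (2 * w * p) * b := by
    rw [hc] at h1 ⊢
    linarith
  have k2 : n' = a + c + 1 + 3 ^ (2 * w * p) * (e + 3 ^ (2 * w) * b) := by
    rw [hc, he] at h2 ⊢
    linarith
  have k3 : 2 * n' = 2 * a + 1 + 3 ^ (2 * w * p) * (0 + 3 ^ (2 * w) * (2 * b + 1)) := by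
    rw [h2, zero_add, mul_assoc]
  have v1 := vb_eq n
  have v2 := vb_eq n'
  rw [h1, s3_split _ _ _ h] at v1
  rw [k3, s3_split _ _ _ h, s3_split _ _ _ (by positivity), s3_zero] at v2
  have a1 := s3_split (2 * w * p) (a + c + 1) b (by omega)
  have a2 := s3_split (2 * w * p) (a + c + 1) (e + 3 ^ (2 * w) * b) (by omega)
  rw [← k1] at a1
  rw [← k2, s3_split _ _ _ (by omega), s3_half _ e he.symm] at a2
  omega

end Pool.Agent.MP_fed7c7_lc.S6
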