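import Mathlib
import Pool.Agent.MP_fed7c7_lc.S6.Spec

set_option autoImplicit false

/-!
Row WS: the weighted step.
-/

namespace Pool.Agent.MP_fed7c7_lc.S6

open PowerSeries Finset Pool.Agent.MP_fed7c7_lc.H56 Pool.Agent.MP_fed7c7_lc.H21
  Pool.Agent.MP_fed7c7_lc.H93

namespace WSx

/-- The weighted polynomial of a digit set. -/
noncomputable def dw (R : Type) [CommRing R] (B : ℕ) (E : ℕ → Prop) : R⟦X⟧ :=
  dg R B (fun d => E d ∧ sg d = 1) +
    (dg R B (fun d => E d ∧ sg d = 2) + dg R B fun d => E d ∧ sg d = 2)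

theorem nice_dw (B : ℕ) (E : ℕ → Prop) : Nice (dw ℤ B E) :=
  (Nice.dg _ _).add ((Nice.dg _ _).add (Nice.dg _ _))

theorem map_dw (B : ℕ) (E : ℕ → Prop) :
    map (Int.castRingHom (ZMod 3)) (dw ℤ B E) = dw (ZMod 3) B E := by
  rw [dw, dw, map_add, map_add, map_dg, map_dg]

theorem dvd_dg (B : ℕ) {E : ℕ → Prop} (h : ¬E 0) : X ∣ dg ℤ B E := by
  classical
  refine dvd_sum fun d hd => dvd_pow_self _ ?_
  rintro rfl
  exact h (mem_filter.1 hd).2

theorem dvd_dw (B : ℕ) {E : ℕ → Prop} (h : ¬E 0) : X ∣ dw ℤ B E :=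
  (dvd_dg B fun g => h g.1).add ((dvd_dg B fun g => h g.1).add (dvd_dg B fun g => h g.1))

theorem three (x : ZMod 3) : x = 0 ∨ x = 1 ∨ x = 2 := by revert x; decide

open Classical in
theorem coeff_dw (w : ℕ) (E : ℕ → Prop) (F : (ZMod 3)⟦X⟧) (m : ℕ) :
    coeff m (dw (ZMod 3) (3 ^ w) E * F ^ 3 ^ w) =
      if E (m % 3 ^ w) then sg (m % 3 ^ w) * coeff (m / 3 ^ w) F else 0 := by
  rw [dw, add_mul, add_mul, map_add, map_add, coeff_dg, coeff_dg]
  have n1 : (0 : ZMod 3) ≠ 1 := by decide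
  have n2 : (0 : ZMod 3) ≠ 2 := by decide
  have n3 : (1 : ZMod 3) ≠ 2 := by decide
  by_cases c : E (m % 3 ^ w)
  · rw [if_pos c]
    rcases three (sg (m % 3 ^ w)) with e | e | e
    · rw [if_neg fun g => n1 (e.symm.trans g.2), if_neg fun g => n2 (e.symm.trans g.2), e]
      ring
    · rw [if_pos ⟨c, e⟩, if_neg fun g => n3 (e.symm.trans g.2), e]
      ring
    · rw [if_neg fun g => n3 (g.2.symm.trans e), if_pos ⟨c, e⟩, e]
      ring
  · rw [if_neg c, if_neg fun g => c g.1, if_neg fun g => c g.1]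
    ring

open Classical in
/-- The weighted indicator series. -/
noncomputable def iw (T : ℕ → Prop) : (ZMod 3)⟦X⟧ := mk fun m => if T m then sg m else 0

open Classical in
theorem map_iff (g : ℤ⟦X⟧) (T : ℕ → Prop) :
    (∀ m, ((coeff m g : ℤ) : ZMod 3) = if T m then sg m else 0) ↔
      map (Int.castRingHom (ZMod 3)) g = iw T := by
  rw [PowerSeries.ext_iff]
  refine forall_congr' fun m => ?_
  rw [coeff_map, iw, coeff_mk, eq_intCast]

theorem step (hs : ∀ w q r, r < 9 ^ w → sg (9 ^ w * q + r) = sg q * sg r)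
    (w : ℕ) (U T E L : ℕ → Prop) (hw : 1 ≤ w) (hU : WG U) (h0 : ¬T 0)
    (hT : ∀ m, T m ↔ L (m % 9 ^ w) ∧ T (m / 9 ^ w) ∨ E (m % 9 ^ w) ∧ U (m / 9 ^ w))
    (hd : ∀ m, ¬((L (m % 9 ^ w) ∧ T (m / 9 ^ w)) ∧ E (m % 9 ^ w) ∧ U (m / 9 ^ w))) : WG T := by
  classical
  obtain ⟨f, f1, f2, f3⟩ := hU
  rw [map_iff] at f2
  have hq : ∀ m, sg m = sg (m % 9 ^ w) * sg (m / 9 ^ w) := fun m => by
    rw [mul_comm, ← hs w _ _ (Nat.mod_lt _ (by positivity)), Nat.div_add_mod]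
  have e9 : 9 ^ w = 3 ^ (2 * w) := by rw [pow_mul]; norm_num
  rw [e9] at hT hd hq
  obtain ⟨n, hn⟩ : ∃ n, 3 ^ (2 * w) = n + 2 :=
    Nat.exists_eq_add_of_le' ((by norm_num : 2 ≤ 3 ^ 1).trans
      (Nat.pow_le_pow_right (by omega) (by omega)))
  generalize 2 * w = v at *
  have hh : X ∣ dw ℤ (3 ^ v) E * f ^ 3 ^ v := by
    by_cases h : U 0
    · refine (dvd_dw _ fun g => ?_).mul_right _
      exact h0 ((hT 0).2 (.inr (by simpa using ⟨g, h⟩)))
    · exact ((f3 h).trans (dvd_pow_self _ (by omega))).mul_left _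
  obtain ⟨g, g1, g2⟩ := fix_exists hh (dw ℤ (3 ^ v) L) n
  refine ⟨g, Nice.fix hh g1 g2 ((nice_dw _ _).mul (f1.pow _)) (nice_dw _ _), ?_, fun _ => g1⟩
  rw [map_iff]
  refine fix_unique (h := dw (ZMod 3) (3 ^ v) E * iw U ^ 3 ^ v) (D := dw (ZMod 3) (3 ^ v) L)
    (n := n) ?_ (X_dvd_iff.2 (by simp [iw, h0])) ?_ ?_
  · simpa using map_dvd (map (Int.castRingHom (ZMod 3))) g1
  · have := congrArg (map (Int.castRingHom (ZMod 3))) g2
    rwa [map_add, map_mul, map_mul, map_pow, map_pow, map_dw, map_dw, f2] at this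
  · ext m
    rw [← hn, map_add, coeff_dw, coeff_dw]
    have h1 := hT m
    have h2 := hd m
    have h3 := hq m
    simp only [iw, coeff_mk]
    generalize m % 3 ^ v = a at *
    generalize m / 3 ^ v = b at *
    rw [h3]
    clear hT hd hq h3
    by_cases c1 : L a <;> by_cases c2 : T b <;> by_cases c3 : E a <;> by_cases c4 : U b <;>
      simp only [c1, c2, c3, c4] at h1 h2 ⊢ <;> simp at h1 h2 ⊢ <;> simp [h1]

end WSx

theorem sWS : SUN → SWS := by
  rintro ⟨-, -, -, -, hs, h0, -⟩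
  refine ⟨⟨1, Nice.one, fun m => ?_, fun h => absurd rfl h⟩, ?_, WSx.step hs⟩
  · by_cases e : m = 0
    · subst e
      simp [h0]
    · simp [coeff_one, e]
  · rintro T U ⟨f, f1, f2, f3⟩ ⟨g, g1, g2, g3⟩ hd
    refine ⟨f + g, f1.add g1, fun m => ?_,
      fun h => (f3 fun e => h (.inl e)).add (g3 fun e => h (.inr e))⟩
    rw [map_add, Int.cast_add, f2, g2]
    have := hd m
    by_cases h1 : T m <;> by_cases h2 : U m <;> simp_all

end Pool.Agent.MP_fed7c7_lc.S6
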