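import Mathlib
import Pool.Agent.MP_fed7c7_lc.S6.Spec

set_option autoImplicit false

/-!
Six unknowns: the test is read with weights by a nice series.
-/

namespace Pool.Agent.MP_fed7c7_lc.S6

open Pool.Agent.MP_fed7c7_lc.H93

namespace WTx

/-- A state of a chain automaton with loop digits `L`. -/
def CW (B : ℕ) (U L : ℕ → Prop) : Prop :=
  WG U ∧ ∀ Y p, U Y → U (Y / B ^ (p + 1)) → L (dig B Y p)

theorem cw_zero (hs : SWS) {B : ℕ} (hB : 2 ≤ B) : CW B (Z0 B (· = 0)) (· = 0) := by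
  refine ⟨?_, fun Y p g _ => g p⟩
  have e : Z0 B (· = 0) = (· = 0) := by
    funext m
    refine propext ⟨fun g => ?_, fun g i => by simp [dig, g]⟩
    induction m using Nat.strong_induction_on with
    | _ m ih =>
      by_contra h
      have h1 : m / B = 0 := ih _ (Nat.div_lt_self (Nat.pos_of_ne_zero h) hB) fun i => by
        have := g (i + 1)
        rwa [dig_succ] at this
      have h2 : m % B = 0 := by
        have := g 0
        rwa [dig_zero] at this
      have := Nat.mod_add_div m B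
      rw [h1, h2] at this
      exact h (by simpa using this.symm)
  rw [e]
  exact hs.1

theorem CW.next (hs : SWS) {w : ℕ} (hw : 1 ≤ w) {U L E : ℕ → Prop} (h : CW (9 ^ w) U L)
    (hd : ∀ d, L d → ¬E d) (L' : ℕ → Prop) : CW (9 ^ w) (Nx (9 ^ w) U E L') L' := by
  obtain ⟨h1, h2⟩ := h
  have dis : ∀ m, ¬(Nx (9 ^ w) U E L' m ∧ U m) := fun m ⟨⟨p, p1, p2, _⟩, g⟩ =>
    hd _ (h2 m p g p1) p2
  refine ⟨hs.2.2 w U _ E L' hw h1 ?_ (fun m => ?_) fun m g => dis _ ⟨g.1.2, g.2.2⟩, ?_⟩
  · rintro ⟨p, p1, p2, p3⟩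
    exact dis 0 ⟨⟨p, p1, p2, p3⟩, by simpa using p1⟩
  · generalize 9 ^ w = B
    constructor
    · rintro ⟨_ | p, p1, p2, p3⟩
      · exact .inr ⟨dig_zero B m ▸ p2, by simpa using p1⟩
      · refine .inl ⟨dig_zero B m ▸ p3 0 (by omega), p, ?_, dig_succ B m p ▸ p2,
          fun i hi => dig_succ B m i ▸ p3 (i + 1) (by omega)⟩
        rwa [Nat.div_div_eq_div_mul, ← pow_succ']
    · rintro (⟨g, p, p1, p2, p3⟩ | ⟨g1, g2⟩)
      · refine ⟨p + 1, by rwa [Nat.div_div_eq_div_mul, ← pow_succ'] at p1,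
          by rwa [dig_succ], fun i hi => ?_⟩
        rcases i with _ | i
        · rwa [dig_zero]
        · rw [dig_succ]; exact p3 i (by omega)
      · exact ⟨0, by simpa using g2, by rwa [dig_zero], fun i hi => absurd hi (by omega)⟩
  · rintro Y p ⟨a, a1, a2, a3⟩ ⟨b, b1, b2, -⟩
    rw [dig_div] at b2
    rw [Nat.div_div_eq_div_mul, ← pow_add, ← add_assoc] at b1
    have key : ∀ x y, x < y → U (Y / (9 ^ w) ^ (x + 1)) → U (Y / (9 ^ w) ^ (y + 1)) →
        ¬E (dig (9 ^ w) Y y) := fun x y hxy g1 g2 => by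
      obtain ⟨c, rfl⟩ := Nat.exists_eq_add_of_lt hxy
      have := h2 _ c g1 (by rwa [Nat.div_div_eq_div_mul, ← pow_add,
        show x + 1 + (c + 1) = x + c + 1 + 1 by omega])
      rw [dig_div, show x + 1 + c = x + c + 1 by omega] at this
      exact hd _ this
    rcases lt_trichotomy a (p + 1 + b) with g | g | g
    · exact absurd b2 (key _ _ g a1 b1)
    · exact a3 p (by omega)
    · exact absurd a2 (key _ _ g b1 a1)

end WTx

theorem sWT : SWS → SWT := by
  intro hs w e1 e2 e3 L1 L2 hw h1 h2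
  have hB : 2 ≤ 9 ^ w :=
    (by norm_num : 2 ≤ 9 ^ 1).trans (Nat.pow_le_pow_right (by omega) hw)
  have c1 := (WTx.cw_zero hs hB).next hs hw (E := (· = 1)) (fun d g => by omega) L2
  have c2 := c1.next hs hw (E := (· = e3)) (fun d g e => h2 (e ▸ g)) (· = 0)
  have c3 := c2.next hs hw (E := (· = 2)) (fun d g => by omega) L1
  have c4 := c3.next hs hw (E := (· = e2)) (fun d g e => h1 (e ▸ g)) fun _ => False
  have c5 := c4.next hs hw (E := (· = e1)) (fun d g => g.elim) (· = 0)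
  exact (c5.next hs hw (E := (· = 1)) (fun d g => by omega) fun _ => False).1

end Pool.Agent.MP_fed7c7_lc.S6
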