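import Pool.Agent.MP_fed7c7_lc.S6.Spec

set_option autoImplicit false

/-!
Six unknowns: the unit part of `m - 1` is read by a nice series.
-/

namespace Pool.Agent.MP_fed7c7_lc.S6

open PowerSeries Pool.Agent.MP_fed7c7_lc.H93

namespace WUx

theorem un_mul9 (h : SUN) {q : ℕ} (hq : q ≠ 0) : un (9 * q) = un q := by
  have h9 : un 9 = 1 := h.2.2.2.1 2
  rw [h.1 9 q (by norm_num) hq, h9, one_mul]

theorem un_mul3 (h : SUN) {q : ℕ} (hq : ¬3 ∣ q) : un (3 * q) = q := by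
  have h3 : un 3 = 1 := h.2.2.2.1 1
  rw [h.1 3 q (by norm_num) (fun e => hq (e ▸ dvd_zero 3)), h3, one_mul, h.2.2.1 q hq]

theorem cast_eq {a b : ℕ} (e : a % 3 = b % 3) : (a : ZMod 3) = b :=
  (ZMod.natCast_eq_natCast_iff' a b 3).2 e

theorem un_mod (h : SUN) {m : ℕ} (hm : m % 9 ≠ 0) : un (m % 9) = un m := by
  by_cases h3 : 3 ∣ m
  · obtain ⟨e, rfl⟩ := h3
    have e1 : 3 * e % 9 = 3 * (e % 3) := by omega
    rw [e1, un_mul3 h (by omega), un_mul3 h (by omega)]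
    exact cast_eq (by omega)
  · rw [h.2.2.1 _ h3, h.2.2.1 _ (by omega)]
    exact cast_eq (by omega)

theorem all (hS : SWS) : WG fun m => m = 0 ∨ m ≠ 0 := by
  refine hS.2.1 _ _ hS.1 ?_ fun m h => h.2 h.1
  refine hS.2.2 1 (· = 0) (· ≠ 0) (· ≠ 0) (fun _ => True) le_rfl hS.1 (by simp) (fun m => ?_)
    fun m h => h.1.2 h.2.2
  simp only [pow_one, true_and]
  omega

theorem uk (h : SUN) (hS : SWS) (k : ZMod 3) : WG fun m => m ≠ 0 ∧ un m = k := by
  refine hS.2.2 1 _ _ (fun d => d ≠ 0 ∧ un d = k) (· = 0) le_rfl (all hS) (by simp) (fun m => ?_)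
    fun m h => h.2.1.1 h.1.1
  rw [pow_one]
  by_cases h0 : m % 9 = 0
  · obtain ⟨q, rfl⟩ : ∃ q, m = 9 * q := ⟨m / 9, by omega⟩
    have e : 9 * q / 9 = q := by omega
    rw [e]
    refine ⟨fun a => Or.inl ⟨h0, by omega, ?_⟩, fun a => ?_⟩
    · rw [← un_mul9 h (by omega)]
      exact a.2
    · rcases a with a | a
      · exact ⟨by omega, by rw [un_mul9 h a.2.1]; exact a.2.2⟩
      · exact absurd h0 a.1.1
  · rw [un_mod h h0]
    refine ⟨fun a => Or.inr ⟨⟨h0, a.2⟩, em _⟩, fun a => ?_⟩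
    rcases a with a | a
    · exact absurd a.1 h0
    · exact ⟨by omega, a.1.2⟩

theorem tk (h : SUN) (hS : SWS) (k : ZMod 3) :
    WG fun m => m % 9 = 1 ∧ m / 9 ≠ 0 ∧ un (m / 9) = k := by
  refine hS.2.2 1 _ _ (· = 1) (fun _ => False) le_rfl (uk h hS k) (by simp) (fun m => ?_)
    fun m h => h.1.1
  simp only [pow_one, false_and, false_or]

theorem two {a : ZMod 3} (h : a * a = 1) : a = 1 ∨ a = 2 := by
  revert a
  decide

end WUx

open WUx

theorem sWU : SUN → SWS → SWU := by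
  intro h hS
  obtain ⟨g, n1, c1, -⟩ := tk h hS 1
  obtain ⟨g', n2, c2, -⟩ := tk h hS 2
  refine ⟨g + (g' + g'), n1.add (n2.add n2), fun m hm h9 => ?_⟩
  obtain ⟨q, hq⟩ := h9
  have q0 : q ≠ 0 := by omega
  have e1 : m % 9 = 1 := by omega
  have e2 : q = m / 9 := by omega
  rw [map_add, map_add, Int.cast_add, Int.cast_add, c1, c2, hq, un_mul9 h q0]
  subst e2
  rcases two (h.2.1 _ q0) with a | a
  · rw [if_pos ⟨e1, q0, a⟩, if_neg fun b => absurd (a.symm.trans b.2.2) (by decide), a]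
    ring
  · rw [if_neg fun b => absurd (a.symm.trans b.2.2) (by decide), if_pos ⟨e1, q0, a⟩, a]
    ring

end Pool.Agent.MP_fed7c7_lc.S6
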