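import Mathlib
import Pool.Agent.MP_fed7c7_lc.S6.Final
import Pool.Agent.MP_fed7c7_lc.S6.H33Core
import Pool.Agent.MP_fed7c7_lc.S6.RSS
import Pool.Agent.MP_fed7c7_lc.S6.H89SC
import Pool.Agent.MP_fed7c7_lc.S6.RAD
import Pool.Agent.MP_fed7c7_lc.S6.RRD
import Pool.Agent.MP_fed7c7_lc.S6.RUN
import Pool.Agent.MP_fed7c7_lc.S6.RWS
import Pool.Agent.MP_fed7c7_lc.S6.RWT
import Pool.Agent.MP_fed7c7_lc.S6.RWU
import Pool.Agent.MP_fed7c7_lc.S6.RNB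
import Pool.Agent.MP_fed7c7_lc.S6.RND
import Pool.Agent.MP_fed7c7_lc.S6.RKEY
import Pool.Agent.MP_fed7c7_lc.S6.RVL
import Pool.Agent.MP_fed7c7_lc.S6.RVS
import Pool.Agent.MP_fed7c7_lc.S6.RPS
import Pool.Agent.MP_fed7c7_lc.S6.RPC
import Pool.Agent.MP_fed7c7_lc.S6.H52LAB
import Pool.Agent.MP_fed7c7_lc.S6.RCV
import Pool.Agent.MP_fed7c7_lc.S6.RDS
import Pool.Agent.MP_fed7c7_lc.S6.RGS
import Pool.Agent.MP_fed7c7_lc.S6.RGC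

set_option autoImplicit false

/-!
Six unknowns: all rows together.
-/

namespace Pool.Agent.MP_fed7c7_lc.S6

open Pool.Agent.MP_fed7c7_lc.H56

theorem sixInt : ∃ (U : ℕ → Prop) (c : ℕ → List (ℤ × (Fin 6 → ℕ))),
    ¬ComputablePred U ∧ Primrec c ∧ ∀ a, U a ↔ ∃ x : Fin 6 → ℤ, ev (c a) x = 0 :=
  red (sWT (sWS sUN)) (sKEY sUN (sWU sUN (sWS sUN)) sNB sND) (H33.sCORE sRD sAD sSS H89SC.sSC) (sPS sVL)
    (sPC sUN sVL sVS) H52LAB.sLAB (sGS sCV sDS) (sGC sCV sDS)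

end Pool.Agent.MP_fed7c7_lc.S6
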