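import Mathlib
import Pool.Agent.MP_fed7c7_lc.S6.Spec

set_option autoImplicit false

/-!
Row LAB: helical tableaux as chains of labels.
-/

namespace Pool.Agent.MP_fed7c7_lc.S6.H20LAB

open Pool.Agent.MP_fed7c7_lc.H93

/-- Labels: letter, previous letter, flag, colour, phase. -/
abbrev Lb : Type := ℕ × ℕ × ℕ × ℕ × ℕ

/-- The next colour. -/
def sc (c : ℕ) : ℕ := if c = 4 then 2 else c + 1

/-- The colour of the row number `n`. -/
def cs (n : ℕ) : ℕ := if n < 2 then n else 2 + (n - 2) % 3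

theorem cs_succ (n : ℕ) : cs (n + 1) = sc (cs n) := by
  unfold cs sc
  split_ifs <;> omega

theorem cs_le (n : ℕ) : cs n ≤ 4 := by
  unfold cs
  split_ifs <;> omega

theorem cs_zero {n : ℕ} (h : cs n = 0) : n = 0 := by
  unfold cs at h
  split_ifs at h <;> omega

theorem cs_one {n : ℕ} (h : cs n = 1) : n = 1 := by
  unfold cs at h
  split_ifs at h <;> omega

theorem sc_sc (c : ℕ) : sc (sc c) ≠ c := by
  unfold sc
  split_ifs <;> omega

theorem sc_ne (c : ℕ) : sc c ≠ 0 := by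
  unfold sc
  split_ifs <;> omega

theorem sc_one {c : ℕ} (h : c ≠ 0) : sc c ≠ 1 := by
  unfold sc
  split_ifs <;> omega

/-- The successor relation. -/
def nxL (r c e : ℕ) (W : ℕ → ℕ → ℕ → ℕ → Prop) (a b : Lb) : Prop :=
  b.2.1 = a.1 ∧ (b.1 = 1 ∨ ∃ g < r, b.1 = 2 * g + 2) ∧
  (b.2.2.1 = 1 ∧ b.2.2.2.1 = sc a.2.2.2.1 ∨ b.2.2.1 = 0 ∧ b.2.2.2.1 = a.2.2.2.1) ∧
  (b.2.2.2.1 = 0 → W b.1 0 b.2.1 0) ∧
  (a.2.2.2.2 = 0 ∧ b.2.2.2.2 = 0 ∧ b.1 = 2 * c + 2 ∨
    a.2.2.2.2 = 0 ∧ b.2.2.2.2 = 1 ∧ b.1 = 2 * e + 2 ∨ a.2.2.2.2 ≠ 0 ∧ b.2.2.2.2 = 2)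

/-- The oriented check. -/
def ck0 (W : ℕ → ℕ → ℕ → ℕ → Prop) (a b : Lb) : Prop :=
  a.2.2.1 = b.2.2.1 ∧ a.2.2.2.1 = sc b.2.2.2.1 ∧ W a.1 b.1 a.2.1 b.2.1

/-- Chains of labels before coding. -/
def RunL (r f c e : ℕ) (W : ℕ → ℕ → ℕ → ℕ → Prop) (a N : ℕ) (g : ℕ → Lb) : Prop :=
  g 0 = (2 * f + 2, 0, 1, 0, 0) ∧
  (∀ i < N, nxL r c e W (g i) (g (i + 1)) ∧ ¬(g i).1 = 1) ∧ (g N).1 = 1 ∧ a + 1 ≤ N ∧
  (g (a + 1)).2.2.2.2 = 1 ∧ ∀ k i, k ≤ i → i ≤ N → (g k).2.2.1 = 1 ∧ (g k).2.2.2.1 = 1 →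
    ck0 W (g i) (g (i - k)) ∨ ck0 W (g (i - k)) (g i)

theorem sound {r f c e : ℕ} {W : ℕ → ℕ → ℕ → ℕ → Prop} {a N : ℕ} {g : ℕ → Lb} (hf : f < r)
    (h : RunL r f c e W a N g) : Tab r f c e W a := by
  classical
  obtain ⟨h0, hn, hN, ha, hm, hc⟩ := h
  have x0 : (g 0).1 = 2 * f + 2 := by rw [h0]
  have z0 : (g 0).2.1 = 0 := by rw [h0]
  have c0 : (g 0).2.2.2.1 = 0 := by rw [h0]
  have hx : ∀ i < N, ∃ u < r, (g i).1 = 2 * u + 2 := by
    intro i hi
    rcases i with _ | i
    · exact ⟨f, hf, x0⟩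
    · rcases (hn i (by omega)).1.2.1 with h1 | h1
      · exact absurd h1 (hn (i + 1) hi).2
      · exact h1
  have hlt : ∀ i ≤ N, lt N (fun i => (g i).1 / 2 - 1) i = (g i).1 := by
    intro i hi
    unfold lt
    split_ifs with h1 h2
    · obtain ⟨u, -, hu⟩ := hx i h1
      simp only [hu]; omega
    · rw [h2, hN]
    · omega
  have hz : ∀ i ≤ N, sh 1 (lt N fun i => (g i).1 / 2 - 1) i = (g i).2.1 := by
    intro i hi
    rcases i with _ | i
    · simp [sh, z0]
    · have : sh 1 (lt N fun i => (g i).1 / 2 - 1) (i + 1) =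
          lt N (fun i => (g i).1 / 2 - 1) i := by simp [sh]
      rw [this, hlt i (by omega), (hn i (by omega)).1.1]
  have hpa : (g a).2.2.2.2 = 0 ∧ (g (a + 1)).1 = 2 * e + 2 := by
    have := (hn a (by omega)).1.2.2.2.2
    omega
  have hph : ∀ d i, i + d = a → (g i).2.2.2.2 = 0 := by
    intro d
    induction d with
    | zero => intro i hi; obtain rfl : i = a := by omega
              exact hpa.1
    | succ d ih =>
      intro i hi
      have h1 := ih (i + 1) (by omega)
      have := (hn i (by omega)).1.2.2.2.2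
      omega
  have hex : ∃ k, N < k ∨ (g k).2.2.2.1 ≠ 0 := ⟨N + 1, Or.inl (by omega)⟩
  obtain ⟨k, hk, hmin⟩ : ∃ k, (N < k ∨ (g k).2.2.2.1 ≠ 0) ∧ ∀ i < k, (g i).2.2.2.1 = 0 := by
    refine ⟨Nat.find hex, Nat.find_spec hex, fun i hi => ?_⟩
    have := Nat.find_min hex hi
    omega
  have hk1 : 1 ≤ k := by
    rcases k with _ | k
    · omega
    · omega
  have hst : k ≤ N → (g k).2.2.1 = 1 ∧ (g k).2.2.2.1 = 1 := by
    intro hkN
    obtain ⟨j, rfl⟩ : ∃ j, k = j + 1 := ⟨k - 1, by omega⟩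
    have h1 := (hn j (by omega)).1.2.2.1
    have h2 := hmin j (by omega)
    rw [h2] at h1
    have h3 : sc 0 = 1 := by decide
    omega
  have hcol : ∀ j, j + k ≤ N → (g (j + k)).2.2.2.1 = sc (g j).2.2.2.1 := by
    intro j
    induction j with
    | zero =>
      intro hj
      rw [Nat.zero_add, (hst (by omega)).2, c0]
      decide
    | succ j ih =>
      intro hj
      have h1 := ih (by omega)
      have h2 := hc k (j + 1 + k) (by omega) hj (hst (by omega))
      rw [Nat.add_sub_cancel] at h2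
      have h3 : (g (j + 1 + k)).2.2.1 = (g (j + 1)).2.2.1 := by
        rcases h2 with h2 | h2
        · exact h2.1
        · exact h2.1.symm
      have h4 := (hn (j + k) (by omega)).1.2.2.1
      have h5 := (hn j (by omega)).1.2.2.1
      rw [show j + k + 1 = j + 1 + k by omega] at h4
      rcases h4 with h4 | h4 <;> rcases h5 with h5 | h5
      · rw [h4.2, h5.2, h1]
      · omega
      · omega
      · rw [h4.2, h5.2, h1]
  refine ⟨k, N, fun i => (g i).1 / 2 - 1, hk1, ?_, ?_, ?_, ?_, ?_, ?_⟩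
  · by_contra hcon
    have : a + 1 = N := by omega
    rw [this, hN] at hpa
    omega
  · simp only [x0]; omega
  · intro i h1 h2
    obtain ⟨j, rfl⟩ : ∃ j, i = j + 1 := ⟨i - 1, by omega⟩
    have h3 := hph (a - (j + 1)) (j + 1) (by omega)
    have h4 := (hn j (by omega)).1.2.2.2.2
    have h5 : (g (j + 1)).1 = 2 * c + 2 := by omega
    simp only [h5]; omega
  · simp only [hpa.2]; omega
  · intro i hi
    obtain ⟨u, hu, hu'⟩ := hx i hi
    simp only [hu']; omega
  · intro i h1 h2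
    rw [hlt i h2, hz i h2]
    by_cases hik : k ≤ i
    · obtain ⟨j, rfl⟩ : ∃ j, i = j + k := ⟨i - k, by omega⟩
      have e1 : sh k (lt N fun i => (g i).1 / 2 - 1) (j + k) = (g j).1 := by
        rw [← hlt j (by omega)]; simp [sh]
      have e2 : sh (k + 1) (lt N fun i => (g i).1 / 2 - 1) (j + k) = (g j).2.1 := by
        rw [← hz j (by omega)]
        unfold sh
        split_ifs with p q q
        · congr 1; omega
        · omega
        · omega
        · rfl
      rw [e1, e2]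
      have h3 := hc k (j + k) (by omega) h2 (hst (by omega))
      rw [Nat.add_sub_cancel] at h3
      rcases h3 with h3 | h3
      · exact h3.2.2
      · have h4 := h3.2.1
        rw [hcol j h2] at h4
        exact absurd h4.symm (sc_sc _)
    · have e1 : sh k (lt N fun i => (g i).1 / 2 - 1) i = 0 := by simp [sh, hik]
      have e2 : sh (k + 1) (lt N fun i => (g i).1 / 2 - 1) i = 0 := by
        unfold sh
        rw [if_neg (by omega)]
      rw [e1, e2]
      obtain ⟨j, rfl⟩ : ∃ j, i = j + 1 := ⟨i - 1, by omega⟩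
      exact (hn j (by omega)).1.2.2.2.1 (hmin _ (by omega))

theorem complete {r f c e : ℕ} {W : ℕ → ℕ → ℕ → ℕ → Prop} {a : ℕ} (h : Tab r f c e W a) :
    ∃ N g, RunL r f c e W a N g ∧ ∀ i, (g i).1 ≤ 2 * r + 2 ∧ (g i).2.1 ≤ 2 * r + 2 ∧
      (g i).2.2.1 ≤ 1 ∧ (g i).2.2.2.1 ≤ 4 ∧ (g i).2.2.2.2 ≤ 2 := by
  obtain ⟨k, N, G, hk, ha, h0, hc, he, hr, hW⟩ := h
  have hb : ∀ i, lt N G i ≤ 2 * r + 2 := by
    intro i
    unfold lt
    split_ifs with h1
    · have := hr i h1
      omega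
    · omega
    · omega
  refine ⟨N, fun i => (lt N G i, sh 1 (lt N G) i, if k ∣ i then 1 else 0, cs (i / k),
    if i ≤ a then 0 else if i = a + 1 then 1 else 2), ⟨?_, ?_, ?_, by omega, ?_, ?_⟩, ?_⟩
  · have : lt N G 0 = 2 * f + 2 := by
      unfold lt
      rw [if_pos (by omega), h0]
    simp [this, sh, cs]
  · intro i hi
    refine ⟨⟨?_, ?_, ?_, ?_, ?_⟩, ?_⟩
    · simp [sh]
    · show lt N G (i + 1) = 1 ∨ ∃ u < r, lt N G (i + 1) = 2 * u + 2
      unfold lt
      split_ifs with h1 h2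
      · exact Or.inr ⟨_, hr _ h1, rfl⟩
      · exact Or.inl rfl
      · omega
    · show (if k ∣ i + 1 then 1 else 0) = 1 ∧ cs ((i + 1) / k) = sc (cs (i / k)) ∨
        (if k ∣ i + 1 then 1 else 0) = 0 ∧ cs ((i + 1) / k) = cs (i / k)
      rw [Nat.succ_div]
      split_ifs with h1
      · exact Or.inl ⟨rfl, cs_succ _⟩
      · exact Or.inr ⟨rfl, rfl⟩
    · show cs ((i + 1) / k) = 0 → W (lt N G (i + 1)) 0 (sh 1 (lt N G) (i + 1)) 0
      intro h1
      have h2 : i + 1 < k := by
        have := cs_zero h1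
        rcases (Nat.div_eq_zero_iff).1 this with h3 | h3 <;> omega
      have h3 := hW (i + 1) (by omega) (by omega)
      have e1 : sh k (lt N G) (i + 1) = 0 := by
        unfold sh
        rw [if_neg (by omega)]
      have e2 : sh (k + 1) (lt N G) (i + 1) = 0 := by
        unfold sh
        rw [if_neg (by omega)]
      rwa [e1, e2] at h3
    · show (if i ≤ a then 0 else if i = a + 1 then 1 else 2) = 0 ∧
          (if i + 1 ≤ a then 0 else if i + 1 = a + 1 then 1 else 2) = 0 ∧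
            lt N G (i + 1) = 2 * c + 2 ∨
        (if i ≤ a then 0 else if i = a + 1 then 1 else 2) = 0 ∧
          (if i + 1 ≤ a then 0 else if i + 1 = a + 1 then 1 else 2) = 1 ∧
            lt N G (i + 1) = 2 * e + 2 ∨
        (if i ≤ a then 0 else if i = a + 1 then 1 else 2) ≠ 0 ∧
          (if i + 1 ≤ a then 0 else if i + 1 = a + 1 then 1 else 2) = 2
      rcases lt_trichotomy i a with h1 | h1 | h1
      · refine Or.inl ⟨if_pos (by omega), if_pos (by omega), ?_⟩
        unfold lt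
        rw [if_pos (by omega), hc (i + 1) (by omega) (by omega)]
      · refine Or.inr (Or.inl ⟨if_pos (by omega), ?_, ?_⟩)
        · rw [if_neg (by omega), if_pos (by omega)]
        · unfold lt
          rw [if_pos (by omega), h1, he]
      · refine Or.inr (Or.inr ⟨?_, ?_⟩)
        · rw [if_neg (by omega)]
          split_ifs <;> omega
        · rw [if_neg (by omega), if_neg (by omega)]
    · show ¬lt N G i = 1
      unfold lt
      rw [if_pos hi]
      omega
  · show lt N G N = 1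
    simp [lt]
  · show (if a + 1 ≤ a then 0 else if a + 1 = a + 1 then 1 else 2) = 1
    simp
  · intro j i h1 h2 h3
    have h4 : (if k ∣ j then 1 else 0) = 1 := h3.1
    have h5 : cs (j / k) = 1 := h3.2
    have h6 : k ∣ j := by
      by_contra hcon
      rw [if_neg hcon] at h4
      omega
    have h7 : j = k := by
      have := Nat.mul_div_cancel' h6
      rw [cs_one h5] at this
      omega
    subst h7
    obtain ⟨m, rfl⟩ : ∃ m, i = m + j := ⟨i - j, by omega⟩
    rw [Nat.add_sub_cancel]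
    refine Or.inl ⟨?_, ?_, ?_⟩
    · show (if j ∣ m + j then 1 else 0) = if j ∣ m then 1 else 0
      simp
    · show cs ((m + j) / j) = sc (cs (m / j))
      rw [Nat.add_div_right _ (by omega), cs_succ]
    · show W (lt N G (m + j)) (lt N G m) (sh 1 (lt N G) (m + j)) (sh 1 (lt N G) m)
      have h8 := hW (m + j) (by omega) h2
      have e1 : sh j (lt N G) (m + j) = lt N G m := by simp [sh]
      have e2 : sh (j + 1) (lt N G) (m + j) = sh 1 (lt N G) m := by
        unfold sh
        split_ifs with p q q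
        · congr 1; omega
        · omega
        · omega
        · rfl
      rwa [e1, e2] at h8
  · intro i
    refine ⟨hb i, ?_, ?_, cs_le _, ?_⟩
    · show sh 1 (lt N G) i ≤ 2 * r + 2
      unfold sh
      split_ifs
      · exact hb _
      · omega
    · show (if k ∣ i then 1 else 0) ≤ 1
      split_ifs <;> omega
    · show (if i ≤ a then 0 else if i = a + 1 then 1 else 2) ≤ 2
      split_ifs <;> omega

theorem bound (r : ℕ) : ∃ R, ∀ x : Lb, x ≤ (2 * r + 2, 2 * r + 2, 1, 4, 2) →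
    Encodable.encode x < R := by
  obtain ⟨R, hR⟩ := ((Set.finite_Iic ((2 * r + 2, 2 * r + 2, 1, 4, 2) : Lb)).image
    (Encodable.encode : Lb → ℕ)).bddAbove
  exact ⟨R + 1, fun x hx => Nat.lt_succ_of_le (hR ⟨x, hx, rfl⟩)⟩

theorem sLAB : SLAB := by
  intro r f c e W hf _ _
  obtain ⟨R, hR⟩ := bound r
  obtain ⟨D, hD⟩ : ∃ D : ℕ → Lb, ∀ x, D (Encodable.encode x) = x :=
    ⟨Denumerable.ofNat Lb, Denumerable.ofNat_encode⟩
  refine ⟨{ R := R
            fst := Encodable.encode ((2 * f + 2, 0, 1, 0, 0) : Lb)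
            nx := fun a b => nxL r c e W (D a) (D b)
            fin := fun a => (D a).1 = 1
            st := fun a => (D a).2.2.1 = 1 ∧ (D a).2.2.2.1 = 1
            mark := fun a => (D a).2.2.2.2 = 1
            seen := fun a => (D a).2.2.2.1 ≠ 0
            ck := fun a b => ck0 W (D a) (D b) ∨ ck0 W (D b) (D a)
            h1 := hR _ ⟨by show 2 * f + 2 ≤ 2 * r + 2; omega, Nat.zero_le _, le_rfl,
              Nat.zero_le _, Nat.zero_le _⟩
            h2 := ?_, h3 := ?_, h4 := ?_, h5 := ?_, h6 := fun a b h => h.symm }, fun a => ?_⟩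
  · rintro a b h rfl
    have h1 := h.2.2.1
    rw [hD] at h1
    rcases h1 with h1 | h1
    · exact sc_ne _ h1.2.symm
    · exact absurd h1.1 (by simp)
  · rw [hD]
    exact fun h => absurd h.2 (by simp)
  · intro a h
    omega
  · intro a b h ha
    rcases h.2.2.1 with h1 | h1
    · have := sc_ne (D a).2.2.2.1
      have := sc_one ha
      omega
    · omega
  · constructor
    · intro h
      obtain ⟨N, g, ⟨h0, hn, hN, ha, hm, hc⟩, hb⟩ := complete h
      refine ⟨N, fun i => Encodable.encode (g i), ?_, fun i _ => hR _ (hb i), ?_, ?_, ha, ?_, ?_⟩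
      · simp only [h0]
      · simpa only [hD] using hn
      · simpa only [hD] using hN
      · simpa only [hD] using hm
      · simpa only [hD] using hc
    · rintro ⟨N, g, h0, -, hn, hN, ha, hm, hc⟩
      refine sound (N := N) (g := fun i => D (g i)) hf ⟨?_, hn, hN, ha, hm, hc⟩
      have h1 : g 0 = Encodable.encode ((2 * f + 2, 0, 1, 0, 0) : Lb) := h0
      simp only [h1, hD]

end Pool.Agent.MP_fed7c7_lc.S6.H20LAB
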