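import Pool.Agent.MP_fed7c7_lc.S6.Spec

set_option autoImplicit false

/-!
Six unknowns: digits of the square block from the convolution digits.
-/

namespace Pool.Agent.MP_fed7c7_lc.S6.H35

open Finset Pool.Agent.MP_fed7c7_lc.H93

theorem expand (B x N : ℕ) : x = ∑ i ∈ range N, dig B x i * B ^ i + x / B ^ N * B ^ N := by
  induction N with
  | zero => simp
  | succ N ih =>
    have h := Nat.div_add_mod (x / B ^ N) B
    rw [Nat.div_div_eq_div_mul, ← pow_succ] at h
    rw [sum_range_succ, dig]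
    generalize x / B ^ (N + 1) = q at *
    generalize x / B ^ N % B = r at *
    rw [← h] at ih
    rw [pow_succ]
    nlinarith

theorem read {B p : ℕ} {D : ℕ → ℕ} (hB : 0 < B) (hD : ∀ i ≤ p, D i < B) (v : ℕ) :
    dig B (∑ i ∈ range (p + 1), D i * B ^ i + v * B ^ (p + 1)) p = D p := by
  have low : ∀ q ≤ p, ∑ i ∈ range q, D i * B ^ i < B ^ q := by
    intro q
    induction q with
    | zero => simp
    | succ q ih =>
      intro hq
      have h1 := ih (by omega)
      have h2 : (D q + 1) * B ^ q ≤ B * B ^ q := Nat.mul_le_mul_right _ (hD q (by omega))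
      rw [sum_range_succ, pow_succ]
      nlinarith
  have e : ∑ i ∈ range (p + 1), D i * B ^ i + v * B ^ (p + 1) =
      ∑ i ∈ range p, D i * B ^ i + B ^ p * (D p + B * v) := by
    rw [sum_range_succ]
    ring
  rw [e, dig, Nat.add_mul_div_left _ _ (pow_pos hB p), Nat.div_eq_of_lt (low p le_rfl), zero_add,
    Nat.add_mul_mod_self_left, Nat.mod_eq_of_lt (hD p le_rfl)]

theorem sq (B x N : ℕ) (t : ℕ → ℕ) (h : ∀ p, dig B x p = val (t p)) :
    ∃ w, x ^ 2 = ∑ k ∈ range N, cv t k * B ^ k + w * B ^ N := by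
  have e1 : ∑ k ∈ range N, cv t k * B ^ k =
      ∑ m ∈ range N, ∑ k ∈ range (N - m), val (t m) * B ^ m * (val (t k) * B ^ k) := by
    rw [← sum_range_diag_flip N fun m k => val (t m) * B ^ m * (val (t k) * B ^ k)]
    refine sum_congr rfl fun k _ => ?_
    rw [cv, sum_mul]
    refine sum_congr rfl fun a ha => ?_
    obtain ⟨b, rfl⟩ := Nat.exists_eq_add_of_le (Nat.lt_succ_iff.1 (mem_range.1 ha))
    rw [Nat.add_sub_cancel_left]
    ring
  have e2 : ∀ M, x = ∑ i ∈ range M, val (t i) * B ^ i + x / B ^ M * B ^ M := fun M => by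
    simpa only [h] using expand B x M
  have e3 : (∑ m ∈ range N, val (t m) * B ^ m) * x = ∑ k ∈ range N, cv t k * B ^ k +
      (∑ m ∈ range N, val (t m) * (x / B ^ (N - m))) * B ^ N := by
    rw [e1, sum_mul, sum_mul, ← sum_add_distrib]
    refine sum_congr rfl fun m hm => ?_
    obtain ⟨b, rfl⟩ := Nat.exists_eq_add_of_le (mem_range.1 hm).le
    rw [Nat.add_sub_cancel_left, ← mul_sum]
    have := e2 b
    generalize x / B ^ b = q at *
    rw [this]
    ring
  refine ⟨∑ m ∈ range N, val (t m) * (x / B ^ (N - m)) + x / B ^ N * x, ?_⟩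
  have e4 := e2 N
  generalize x / B ^ N = q at *
  rw [add_mul, ← add_assoc, ← e3]
  generalize ∑ m ∈ range N, val (t m) * B ^ m = s at *
  rw [e4]
  ring

theorem shift (B x N d : ℕ) (t : ℕ → ℕ) (h : ∀ p, dig B x p = val (t p)) :
    ∃ w, B ^ d * x ^ 2 =
      ∑ k ∈ range N, (if d ≤ k then cv t (k - d) else 0) * B ^ k + w * B ^ N := by
  rcases le_total d N with hd | hd
  · obtain ⟨b, rfl⟩ := Nat.exists_eq_add_of_le hd
    obtain ⟨w, hw⟩ := sq B x b t h
    refine ⟨w, ?_⟩
    rw [sum_range_add, sum_eq_zero fun k hk => by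
      rw [if_neg (not_le.2 (mem_range.1 hk)), zero_mul], zero_add, hw, mul_add, mul_sum]
    congr 1
    · refine sum_congr rfl fun k _ => ?_
      rw [if_pos (Nat.le_add_right _ _), Nat.add_sub_cancel_left]
      ring
    · ring
  · obtain ⟨b, rfl⟩ := Nat.exists_eq_add_of_le hd
    refine ⟨B ^ b * x ^ 2, ?_⟩
    rw [sum_eq_zero fun k hk => by
      rw [if_neg (by have := mem_range.1 hk; omega), zero_mul]]
    ring

theorem sDS : SDS := by
  intro B l d x n t hB hl hd h hc
  obtain ⟨w, hw⟩ := sq B x (n + 1) t h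
  obtain ⟨w', hw'⟩ := shift B x (n + 1) d t h
  have e : (l + B ^ d) * x ^ 2 = ∑ k ∈ range (n + 1),
      (l * cv t k + if d ≤ k then cv t (k - d) else 0) * B ^ k + (l * w + w') * B ^ (n + 1) := by
    rw [add_mul, hw']
    simp only [add_mul, sum_add_distrib, mul_assoc, ← mul_sum]
    rw [hw]
    ring
  rw [e]
  refine read (D := fun k => l * cv t k + if d ≤ k then cv t (k - d) else 0) (by nlinarith)
    (fun i hi => ?_) _
  have h1 := hc i hi
  have h2 : (if d ≤ i then cv t (i - d) else 0) < l := by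
    split_ifs
    · exact hc _ (by omega)
    · omega
  have h3 : l * (cv t i + 1) ≤ l * l := Nat.mul_le_mul_left _ h1
  nlinarith

end Pool.Agent.MP_fed7c7_lc.S6.H35
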