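import Mathlib
import Pool.Agent.MP_fed7c7_lc.S6.Spec
import Pool.Agent.MP_fed7c7_lc.H90.One

set_option autoImplicit false

/-!
Row GC: a run gives an accepted number.
-/

namespace Pool.Agent.MP_fed7c7_lc.S6.H38GC

open Finset Pool.Agent.MP_fed7c7_lc.H93

theorem pw_ne {K : ℕ} (hK : 1 ≤ K) (i j : ℕ) : 2 ^ i ≠ 2 ^ j * (2 ^ K + 1) := by
  intro h
  have h1 : Odd (2 ^ K + 1) := (Nat.even_pow.2 ⟨even_two, by omega⟩).add_one
  have h2 : Nat.Coprime (2 ^ K + 1) (2 ^ i) := (Nat.coprime_two_right.2 h1).pow_right _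
  have h3 := h2.eq_one_of_dvd ⟨2 ^ j, by rw [h, mul_comm]⟩
  have : 0 < 2 ^ K := by positivity
  omega

theorem pt_inj {c i j : ℕ} (hc : 0 < c) (h : 2 ^ i * c = 2 ^ j * c) : i = j :=
  Nat.pow_right_injective le_rfl (Nat.eq_of_mul_eq_mul_right hc h)

theorem pt_le {N K j : ℕ} (h : j + K ≤ N) : 2 ^ j * (2 ^ K + 1) ≤ 2 ^ (N + 1) := by
  have h1 : 2 ^ (j + K) ≤ 2 ^ N := Nat.pow_le_pow_right (by omega) h
  have h2 : 2 ^ j ≤ 2 ^ N := Nat.pow_le_pow_right (by omega) (by omega)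
  rw [mul_add, ← pow_add, mul_one, pow_succ]
  omega

/-- The honest labelling. -/
structure Lab (N K P : ℕ) (g t : ℕ → ℕ) : Prop where
  a0 : t 0 = 2
  aP : t P = 1
  ac : ∀ i ≤ N, t (2 ^ i) = g i + 5
  a4 : ∀ j, j + K = N → t (2 ^ j * (2 ^ K + 1)) = 4
  a3 : ∀ j, j + K < N → t (2 ^ j * (2 ^ K + 1)) = 3
  al : ∀ p, t p = 0 ∨ p = 0 ∨ p = P ∨ (∃ i ≤ N, p = 2 ^ i) ∨
    ∃ j, j + K ≤ N ∧ p = 2 ^ j * (2 ^ K + 1)

theorem ex_lab (N K P : ℕ) (g : ℕ → ℕ) (hK : 1 ≤ K) (hP : 2 ^ (N + 1) < P) :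
    ∃ t, Lab N K P g t := by
  classical
  have c0 : 0 < 2 ^ K + 1 := by positivity
  have n1 : ∀ j, ¬∃ i ≤ N, 2 ^ j * (2 ^ K + 1) = 2 ^ i := fun j ⟨i, _, h⟩ =>
    pw_ne hK i j h.symm
  have n0 : ∀ j, 2 ^ j * (2 ^ K + 1) ≠ 0 := fun j => by positivity
  have nP : ∀ j, j + K ≤ N → 2 ^ j * (2 ^ K + 1) ≠ P := fun j h => by
    have := pt_le h
    omega
  refine ⟨fun p => if p = 0 then 2 else if p = P then 1 else
    if ∃ i ≤ N, p = 2 ^ i then g (Nat.log 2 p) + 5 else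
    if ∃ j, j + K = N ∧ p = 2 ^ j * (2 ^ K + 1) then 4 else
    if ∃ j, j + K < N ∧ p = 2 ^ j * (2 ^ K + 1) then 3 else 0, if_pos rfl, ?_, fun i hi => ?_,
    fun j hj => ?_, fun j hj => ?_, fun p => ?_⟩
  · have : P ≠ 0 := (Nat.zero_lt_of_lt hP).ne'
    simp only [if_neg this, if_true]
  · have h1 : 2 ^ i ≤ 2 ^ (N + 1) := Nat.pow_le_pow_right (by omega) (by omega)
    have h2 : 2 ^ i ≠ 0 := by positivity
    have h3 : 2 ^ i ≠ P := by omega
    have h4 : ∃ i' ≤ N, 2 ^ i = 2 ^ i' := ⟨i, hi, rfl⟩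
    simp only [if_neg h2, if_neg h3, if_pos h4, Nat.log_pow (show 1 < 2 by omega)]
  · have h4 : ∃ j', j' + K = N ∧ 2 ^ j * (2 ^ K + 1) = 2 ^ j' * (2 ^ K + 1) := ⟨j, hj, rfl⟩
    simp only [if_neg (n0 j), if_neg (nP j hj.le), if_neg (n1 j), if_pos h4]
  · have h4 : ¬∃ j', j' + K = N ∧ 2 ^ j * (2 ^ K + 1) = 2 ^ j' * (2 ^ K + 1) := by
      rintro ⟨j', h1, h2⟩
      have := pt_inj c0 h2
      omega
    have h5 : ∃ j', j' + K < N ∧ 2 ^ j * (2 ^ K + 1) = 2 ^ j' * (2 ^ K + 1) := ⟨j, hj, rfl⟩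
    simp only [if_neg (n0 j), if_neg (nP j hj.le), if_neg (n1 j), if_neg h4, if_pos h5]
  · by_cases h1 : p = 0
    · exact .inr (.inl h1)
    by_cases h2 : p = P
    · exact .inr (.inr (.inl h2))
    by_cases h3 : ∃ i ≤ N, p = 2 ^ i
    · exact .inr (.inr (.inr (.inl h3)))
    by_cases h4 : ∃ j, j + K = N ∧ p = 2 ^ j * (2 ^ K + 1)
    · obtain ⟨j, a, b⟩ := h4
      exact .inr (.inr (.inr (.inr ⟨j, a.le, b⟩)))
    by_cases h5 : ∃ j, j + K < N ∧ p = 2 ^ j * (2 ^ K + 1)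
    · obtain ⟨j, a, b⟩ := h5
      exact .inr (.inr (.inr (.inr ⟨j, a.le, b⟩)))
    exact .inl (by simp only [if_neg h1, if_neg h2, if_neg h3, if_neg h4, if_neg h5])

variable {N K P : ℕ} {g t : ℕ → ℕ}

theorem Lab.inv (h : Lab N K P g t) (p : ℕ) : t p = 0 ∨ (p = 0 ∧ t p = 2) ∨ (p = P ∧ t p = 1) ∨
    (∃ i ≤ N, p = 2 ^ i ∧ t p = g i + 5) ∨
    (∃ j, j + K = N ∧ p = 2 ^ j * (2 ^ K + 1) ∧ t p = 4) ∨
    ∃ j, j + K < N ∧ p = 2 ^ j * (2 ^ K + 1) ∧ t p = 3 := by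
  rcases h.al p with a | rfl | rfl | ⟨i, a, rfl⟩ | ⟨j, a, rfl⟩
  · exact .inl a
  · exact .inr (.inl ⟨rfl, h.a0⟩)
  · exact .inr (.inr (.inl ⟨rfl, h.aP⟩))
  · exact .inr (.inr (.inr (.inl ⟨i, a, rfl, h.ac i a⟩)))
  · rcases a.eq_or_lt with a | a
    · exact .inr (.inr (.inr (.inr (.inl ⟨j, a, rfl, h.a4 j a⟩))))
    · exact .inr (.inr (.inr (.inr (.inr ⟨j, a, rfl, h.a3 j a⟩))))

theorem Lab.i1 (h : Lab N K P g t) {p : ℕ} (e : t p = 1) : p = P := by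
  rcases h.inv p with a | a | a | ⟨i, -, -, a⟩ | ⟨i, -, -, a⟩ | ⟨i, -, -, a⟩ <;> omega

theorem Lab.i2 (h : Lab N K P g t) {p : ℕ} (e : t p = 2) : p = 0 := by
  rcases h.inv p with a | a | a | ⟨i, -, -, a⟩ | ⟨i, -, -, a⟩ | ⟨i, -, -, a⟩ <;> omega

theorem Lab.i3 (h : Lab N K P g t) {p : ℕ} (e : t p = 3) :
    ∃ j, j + K < N ∧ p = 2 ^ j * (2 ^ K + 1) := by
  rcases h.inv p with a | a | a | ⟨i, -, -, a⟩ | ⟨i, -, -, a⟩ | ⟨i, b, c, a⟩
  all_goals first | omega | exact ⟨i, b, c⟩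

theorem Lab.i4 (h : Lab N K P g t) {p : ℕ} (e : t p = 4) :
    ∃ j, j + K = N ∧ p = 2 ^ j * (2 ^ K + 1) := by
  rcases h.inv p with a | a | a | ⟨i, -, -, a⟩ | ⟨i, b, c, a⟩ | ⟨i, -, -, a⟩
  all_goals first | omega | exact ⟨i, b, c⟩

theorem Lab.i5 (h : Lab N K P g t) {p a : ℕ} (e : t p = a + 3 + 2) :
    ∃ i ≤ N, p = 2 ^ i ∧ g i = a := by
  rcases h.inv p with a | a | a | ⟨i, b, c, a⟩ | ⟨i, -, -, a⟩ | ⟨i, -, -, a⟩
  all_goals first | omega | exact ⟨i, b, c, by omega⟩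

theorem Lab.hi (h : Lab N K P g t) (hP : 2 ^ (N + 1) < P) {p : ℕ} (hp : P < p) : t p = 0 := by
  rcases h.al p with a | a | a | ⟨i, a, b⟩ | ⟨j, a, b⟩
  · exact a
  · omega
  · omega
  · have : 2 ^ i ≤ 2 ^ (N + 1) := Nat.pow_le_pow_right (by omega) (by omega)
    omega
  · have := pt_le a
    omega

theorem Lab.pt (h : Lab N K P g t) {j : ℕ} (hj : j + K ≤ N) :
    t (2 ^ j * (2 ^ K + 1)) = 1 + 2 ∨ t (2 ^ j * (2 ^ K + 1)) = 2 + 2 := by
  rcases hj.eq_or_lt with a | a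
  · exact .inr (h.a4 j a)
  · exact .inl (h.a3 j a)

theorem win {c n j : ℕ} (hc : 0 < c) (h1 : 2 ^ j * c ≤ n) (h2 : n ≤ 2 * (2 ^ j * c)) :
    j = Nat.log 2 (n / c) ∨ j = Nat.log 2 (n / c) - 1 := by
  have a1 : 2 ^ j ≤ n / c := (Nat.le_div_iff_mul_le hc).2 h1
  have a2 : n / c ≤ 2 ^ (j + 1) :=
    Nat.div_le_of_le_mul (by rw [pow_succ]; nlinarith)
  have a3 : j ≤ Nat.log 2 (n / c) := Nat.le_log_of_pow_le (by omega) a1
  have a4 : Nat.log 2 (n / c) ≤ j + 1 := by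
    have := Nat.log_mono_right (b := 2) a2
    rwa [Nat.log_pow (by omega)] at this
  omega

theorem Lab.card (h : Lab N K P g t) (n : ℕ) :
    ((range (n + 1)).filter fun a => t a ≠ 0 ∧ t (n - a) ≠ 0).card ≤ 15 := by
  classical
  set c := 2 ^ K + 1 with hc
  have c0 : 0 < c := by positivity
  set W : Finset ℕ := {0, P, 2 ^ Nat.log 2 (n / 1) * 1, 2 ^ (Nat.log 2 (n / 1) - 1) * 1,
    2 ^ Nat.log 2 (n / c) * c, 2 ^ (Nat.log 2 (n / c) - 1) * c} with hW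
  have w1 : W.card ≤ 6 := card_le_six
  have w2 : ∀ p, t p ≠ 0 → p ≤ n → n ≤ 2 * p → p ∈ W := fun p a b d => by
    simp only [hW, mem_insert, mem_singleton]
    rcases h.al p with e | e | e | ⟨i, -, e⟩ | ⟨j, -, e⟩
    · exact absurd e a
    · exact .inl e
    · exact .inr (.inl e)
    · rcases win (c := 1) (n := n) (j := i) one_pos (by omega) (by omega) with f | f
      · exact .inr (.inr (.inl (by rw [← f, mul_one, e])))
      · exact .inr (.inr (.inr (.inl (by rw [← f, mul_one, e]))))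
    · rcases win (c := c) (n := n) (j := j) c0 (e ▸ b) (e ▸ d) with f | f
      · exact .inr (.inr (.inr (.inr (.inl (by rw [← f, e])))))
      · exact .inr (.inr (.inr (.inr (.inr (by rw [← f, e])))))
  have w3 : ((range (n + 1)).filter fun a => t a ≠ 0 ∧ t (n - a) ≠ 0) ⊆
      W ∪ W.image fun p => n - p := fun a ha => by
    obtain ⟨a1, a2, a3⟩ := mem_filter.1 ha
    have a1 := mem_range.1 a1
    by_cases b : n ≤ 2 * a
    · exact mem_union_left _ (w2 a a2 (by omega) b)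
    · exact mem_union_right _ (mem_image.2 ⟨n - a, w2 _ a3 (by omega) (by omega), by omega⟩)
  have w4 := (card_le_card w3).trans (card_union_le _ _)
  have w5 := card_image_le (s := W) (f := fun p => n - p)
  omega

theorem val0 : val 0 = 0 := rfl

theorem val1 : val 1 = 1 := rfl

theorem val2 (j : ℕ) : val (j + 2) = dv j := by
  rw [val, if_neg (by omega), if_neg (by omega), Nat.add_sub_cancel]

theorem Lab.cv_hi (h : Lab N K P g t) (hP : 2 ^ (N + 1) < P) {m : ℕ} (hm : 2 * P < m) :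
    cv t m = 0 := by
  refine sum_eq_zero fun a _ => ?_
  by_cases b : P < a
  · rw [h.hi hP b, val0, zero_mul]
  · rw [h.hi hP (p := m - a) (by omega), val0, mul_zero]

theorem Lab.cv_top (h : Lab N K P g t) (hP : 2 ^ (N + 1) < P) : cv t (2 * P) = 1 := by
  rw [cv, sum_eq_single P, show 2 * P - P = P by omega, h.aP, val1]
  · intro a _ ha
    by_cases b : P < a
    · rw [h.hi hP b, val0, zero_mul]
    · rw [h.hi hP (p := 2 * P - a) (by omega), val0, mul_zero]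
  · intro a
    exact absurd (mem_range.2 (by omega)) a

theorem dig_num {B Q : ℕ} {D : ℕ → ℕ} (hB : 0 < B) (hD : ∀ i, D i < B)
    (h0 : ∀ i, Q ≤ i → D i = 0) (p : ℕ) : dig B (∑ i ∈ range Q, D i * B ^ i) p = D p := by
  have e : ∑ i ∈ range Q, D i * B ^ i =
      ∑ i ∈ range (Q + (p + 1)), D i * B ^ i + 0 * B ^ (Q + (p + 1)) := by
    rw [zero_mul, add_zero, sum_range_add, sum_eq_zero (s := range (p + 1)), add_zero]
    intro i _
    rw [h0 _ (by omega), zero_mul]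
  rw [e]
  exact H90.dig_sum hB (fun i _ => hD i) 0 p (by omega)

theorem v1_of {B e1 e2 Y Q : ℕ} {L : ℕ → Prop} (h0 : dig B Y 0 = e1) (h1 : dig B Y 1 = e2)
    (h2 : dig B Y (Q + 2) = 2) (h3 : ∀ p, Q + 2 < p → dig B Y p = 0)
    (h4 : ∀ p, 2 ≤ p → p < Q + 2 → L (dig B Y p)) : V1 B e1 e2 L Y := by
  refine ⟨0, ⟨0, ⟨Q, fun i => ?_, ?_, fun i hi => ?_⟩, ?_, fun i hi => absurd hi (by omega)⟩, h0,
    fun i hi => absurd hi (by omega)⟩
  · rw [dig_div, dig_div, dig_div]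
    exact h3 _ (by omega)
  · rw [dig_div, dig_div, ← h2]
    congr 1
    omega
  · rw [dig_div, dig_div]
    exact h4 _ (by omega) (by omega)
  · rw [dig_div, ← h1]

theorem v2_of {B e3 Y Q : ℕ} {L : ℕ → Prop} (h0 : dig B Y 0 = e3)
    (h2 : dig B Y (Q + 1) = 1) (h3 : ∀ p, Q + 1 < p → dig B Y p = 0)
    (h4 : ∀ p, 1 ≤ p → p < Q + 1 → L (dig B Y p)) : V2 B e3 L Y := by
  refine ⟨0, ⟨Q, fun i => ?_, ?_, fun i hi => ?_⟩, h0, fun i hi => absurd hi (by omega)⟩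
  · rw [dig_div, dig_div]
    exact h3 _ (by omega)
  · rw [dig_div, ← h2]
    congr 1
    omega
  · rw [dig_div]
    exact h4 _ (by omega) (by omega)

theorem rul (S : Sy) {a n c c' : ℕ} (h : Lab N K P g t) (hn : 1 ≤ n) (g0 : g 0 = S.fst)
    (gR : ∀ i ≤ N, g i < S.R) (gx : ∀ i < N, S.nx (g i) (g (i + 1)) ∧ ¬S.fin (g i))
    (gf : S.fin (g N)) (ga : a + 1 ≤ N) (gm : S.mark (g (a + 1)))
    (gk : ∀ k i, k ≤ i → i ≤ N → S.st (g k) → S.ck (g i) (g (i - k)))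
    (hk : ∀ k ≤ N, S.st (g k) ↔ k = K)
    (hE : ∀ i j, Ev c i j ↔ ∃ p ≤ n, t p = i + 2 ∧ t (n - p) = j + 2)
    (hD : ∀ i, Di c i ↔ ∃ p, n = 2 * p ∧ t p = i + 2)
    (hc : Ev c' 0 0 → n = 2 ^ (a + 1)) : S.Rul c c' := by
  have E0 : ∀ j, Ev c 0 j ↔ t n = j + 2 := fun j => by
    rw [hE]
    constructor
    · rintro ⟨p, -, b1, b2⟩
      rwa [h.i2 b1] at b2
    · exact fun b => ⟨0, by omega, h.a0, b⟩
  have e1 : t 1 = S.fst + 3 + 2 := by
    have := h.ac 0 (by omega)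
    rwa [pow_zero, g0] at this
  refine ⟨fun b => ?_, fun x _ b => ?_, fun x _ b f => ?_, fun x _ b f => ?_, fun b => ?_,
    fun b => ?_, fun b => ?_⟩
  · have := h.i2 ((E0 0).1 b)
    omega
  · obtain ⟨i, b1, b2, b3⟩ := h.i5 ((E0 _).1 b)
    rcases i with _ | i
    · exact .inl (b3.symm.trans g0)
    · exact .inr ⟨g i, gR i (by omega), (hD _).2 ⟨2 ^ i, by rw [b2, pow_succ'],
        h.ac i (by omega)⟩, b3 ▸ (gx i (by omega)).1, (gx i (by omega)).2⟩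
  · obtain ⟨p, b1, b2⟩ := (hD _).1 b
    obtain ⟨i, c1, c2, c3⟩ := h.i5 b2
    have : i ≠ N := fun e => f (by rw [← c3, e]; exact gf)
    exact ⟨g (i + 1), gR _ (by omega), (E0 _).2 (by
      rw [b1, c2, ← pow_succ']; exact h.ac _ (by omega))⟩
  · obtain ⟨p, b0, b1, b2⟩ := (hE _ _).1 b
    obtain ⟨i, c1, c2, c3⟩ := h.i5 b1
    obtain ⟨k, d1, d2, d3⟩ := h.i5 b2
    obtain rfl : i = 0 := by
      rcases i with _ | i
      · rfl
      · exact absurd c3 (S.h2 _ _ (gx i (by omega)).1)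
    obtain rfl : k = K := (hk k d1).1 (d3 ▸ f)
    have e : n = 2 ^ 0 * (2 ^ k + 1) := by omega
    rw [E0, E0, e]
    exact h.pt (by omega)
  · rw [E0, E0] at b
    obtain ⟨j, b1, b2⟩ : ∃ j, j + K ≤ N ∧ n = 2 ^ j * (2 ^ K + 1) := by
      rcases b with b | b
      · obtain ⟨j, b1, b2⟩ := h.i3 b
        exact ⟨j, b1.le, b2⟩
      · obtain ⟨j, b1, b2⟩ := h.i4 b
        exact ⟨j, b1.le, b2⟩
    have s1 : S.st (g K) := (hk K (by omega)).2 rfl
    refine ⟨?_, g (j + K), gR _ b1, g j, gR _ (by omega), (hE _ _).2 ⟨2 ^ (j + K), ?_,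
      h.ac _ b1, ?_⟩, ?_, fun f => .inl ?_⟩
    · rcases j with _ | j
      · refine .inr ⟨g K, gR _ (by omega), s1, (hE _ _).2 ⟨1, hn, e1, ?_⟩⟩
        rw [show n - 1 = 2 ^ K by omega]
        exact h.ac _ (by omega)
      · exact .inl ((hD _).2 ⟨2 ^ j * (2 ^ K + 1), by rw [b2]; ring, h.a3 _ (by omega)⟩)
    · rw [b2, mul_add, ← pow_add]
      omega
    · rw [b2, mul_add, ← pow_add, mul_one, Nat.add_sub_cancel_left]
      exact h.ac _ (by omega)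
    · have := gk K (j + K) (by omega) b1 s1
      rwa [Nat.add_sub_cancel] at this
    · obtain ⟨j', c1, c2⟩ := h.i4 ((E0 _).1 f)
      rw [pt_inj (by positivity) (b2.symm.trans c2), c1]
      exact gf
  · obtain ⟨p, b1, b2⟩ := (hD _).1 b
    obtain ⟨j, c1, c2⟩ := h.i3 b2
    rw [E0, E0, show n = 2 ^ (j + 1) * (2 ^ K + 1) by rw [b1, c2]; ring]
    exact h.pt (by omega)
  · exact ⟨g (a + 1), gR _ ga, gm, (E0 _).2 (by rw [hc b]; exact h.ac _ ga)⟩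

theorem ex_k (S : Sy) (g0 : g 0 = S.fst)
    (gx : ∀ i < N, S.nx (g i) (g (i + 1)) ∧ ¬S.fin (g i)) :
    ∃ K, 1 ≤ K ∧ ∀ k ≤ N, S.st (g k) ↔ k = K := by
  have key : ∀ k, S.st (g k) → ∀ m, k + m ≤ N → S.seen (g (k + m)) := fun k s m => by
    induction m with
    | zero => exact fun _ => S.h4 _ s
    | succ m ih => exact fun b => (S.h5 _ _ (gx (k + m) (by omega)).1 (ih (by omega))).1
  have uq : ∀ k k', k < k' → k' ≤ N → S.st (g k) → ¬S.st (g k') := fun k k' a b s => by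
    obtain ⟨m, rfl⟩ := Nat.exists_eq_add_of_lt a
    exact (S.h5 _ _ (gx (k + m) (by omega)).1 (key k s m (by omega))).2
  by_cases h : ∃ K ≤ N, S.st (g K)
  · obtain ⟨K, a, s⟩ := h
    refine ⟨K, Nat.pos_of_ne_zero fun e => S.h3 (by rw [← g0, ← e]; exact s), fun k b =>
      ⟨fun s' => ?_, fun e => e ▸ s⟩⟩
    rcases lt_trichotomy k K with c | c | c
    · exact absurd s (uq _ _ c a s')
    · exact c
    · exact absurd s' (uq _ _ c b s)
  · exact ⟨N + 1, by omega, fun k b => ⟨fun s => absurd ⟨k, b, s⟩ h, fun e => by omega⟩⟩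

theorem val_even {u : ℕ} (hu : u ≠ 1) : Even (val u) := by
  rw [val]
  split_ifs
  · exact Even.zero
  · exact Nat.even_pow.2 ⟨by decide, by positivity⟩

theorem val_lt {u R : ℕ} (hu : u < R + 5) : 2 * val u < 16 ^ (2 * 3 ^ (R + 3)) := by
  have h1 : 3 ^ (u - 2) ≤ 3 ^ (R + 3) := Nat.pow_le_pow_right (by omega) (by omega)
  have h0 : 0 < 3 ^ (u - 2) := by positivity
  have h2 : 16 ^ (3 ^ (u - 2) + 1) ≤ 16 ^ (2 * 3 ^ (R + 3)) :=
    Nat.pow_le_pow_right (by omega) (by omega)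
  have h3 : 0 < 16 ^ 3 ^ (u - 2) := by positivity
  rw [pow_succ] at h2
  rw [val, dv]
  split_ifs <;> omega

theorem sGC : SCV → SDS → SGC := by
  intro hCV hDS S B a M hB _ ⟨N, g, g0, gR, gx, gf, ga, gm, gk⟩
  obtain ⟨K, hK, hk⟩ := ex_k S g0 gx
  obtain ⟨Q, hQ, hM⟩ : ∃ Q, 2 ^ (N + 1) < Q + 2 ∧ M ≤ Q :=
    ⟨2 ^ (N + 1) + M, by omega, Nat.le_add_left _ _⟩
  obtain ⟨t, h⟩ := ex_lab N K (Q + 2) g hK hQ
  have tR : ∀ p, t p < S.R + 5 := fun p => by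
    rcases h.inv p with a | a | a | ⟨i, b, -, a⟩ | ⟨i, -, -, a⟩ | ⟨i, -, -, a⟩
    all_goals first | omega | (have := gR i b; omega)
  have l1 : ∀ p, 2 * val (t p) < S.ll := fun p => val_lt (tR p)
  have l2 : 2 ≤ S.ll := by
    have := l1 (Q + 2)
    rw [h.aP, val1] at this
    omega
  have l3 : S.ll ≤ B := (Nat.le_self_pow (by omega) _).trans hB
  have B0 : 0 < B := by omega
  have le : Even S.ll := Nat.even_pow.2 ⟨by decide, by positivity⟩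
  set x := ∑ i ∈ range (Q + 3), val (t i) * B ^ i with hx
  have z : ∀ i, Q + 3 ≤ i → val (t i) = 0 := fun i hi => by rw [h.hi hQ (by omega), val0]
  have d1 : ∀ p, dig B x p = val (t p) :=
    dig_num B0 (fun i => by have := l1 i; omega) z
  have d2 : ∀ p, dig B (2 * x) p = 2 * val (t p) := by
    rw [hx, mul_sum, sum_congr rfl fun i _ => (mul_assoc _ _ _).symm]
    exact dig_num (D := fun i => 2 * val (t i)) B0 (fun i => (l1 i).trans_le l3)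
      fun i hi => by rw [z i hi]
  have c1 := fun n => hCV t n S.R (fun p _ => tR p) (h.card n)
  have d0 : 1 ≤ 2 ^ (a + 1) := Nat.one_le_two_pow
  have d3 := fun n => hDS B S.ll (2 ^ (a + 1)) x n t hB l2 d0 d1 fun k _ => (c1 k).1
  have ex : x = ∑ i ∈ range (Q + 2), val (t i) * B ^ i + B ^ (Q + 2) := by
    rw [hx, sum_range_succ, h.aP, val1, one_mul]
  refine ⟨x, ?_, ?_, v1_of (Q := Q) ?_ ?_ ?_ (fun p hp => ?_) fun p p1 p2 => ?_,
    v2_of (Q := 2 * (Q + 2) + 2 ^ (a + 1) - 1) ?_ ?_ (fun p hp => ?_) fun p p1 p2 => ?_⟩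
  · have : Q + 2 < B ^ (Q + 2) := Nat.lt_pow_self (by omega)
    omega
  · rw [ex]
    refine Even.add_odd (even_sum _ fun i hi => (val_even fun e => ?_).mul_right _) (Odd.pow ‹_›)
    have := h.i1 e
    have := mem_range.1 hi
    omega
  · rw [d2, h.a0, val2 0]
  · have := h.ac 0 (by omega)
    rw [pow_zero, g0] at this
    rw [d2, this, val2 (S.fst + 3)]
  · rw [d2, h.aP, val1]
  · rw [d2, z p (by omega)]
  · rw [d2]
    rcases h.inv p with a | a | a | ⟨i, b, c, a⟩ | ⟨i, -, -, a⟩ | ⟨i, -, -, a⟩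
    · exact .inl (by rw [a, val0])
    · omega
    · omega
    · refine .inr (.inr (.inr ⟨g i, gR i b, ?_, by rw [a, val2 (g i + 3)]⟩))
      rcases i with _ | i
      · omega
      · exact S.h2 _ _ (gx i (by omega)).1
    · exact .inr (.inr (.inl (by rw [a, val2 2])))
    · exact .inr (.inl (by rw [a, val2 1]))
  · rw [d3, if_neg (by omega), add_zero, cv, sum_range_one, h.a0, val2 0, sq]
  · rw [d3, if_pos (by omega), h.cv_hi hQ (by omega),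
      show 2 * (Q + 2) + 2 ^ (a + 1) - 1 + 1 - 2 ^ (a + 1) = 2 * (Q + 2) by omega, h.cv_top hQ]
    rfl
  · rw [d3, if_pos (by omega), h.cv_hi hQ (by omega), h.cv_hi hQ (by omega)]
    rfl
  · rw [d3]
    obtain ⟨c', e, f1, f2, f3⟩ : ∃ c', (if 2 ^ (a + 1) ≤ p then cv t (p - 2 ^ (a + 1)) else 0) =
        c' ∧ c' < S.ll ∧ Even c' ∧ (Ev c' 0 0 → p = 2 ^ (a + 1)) := by
      refine ⟨_, rfl, ?_⟩
      split_ifs with b
      · refine ⟨(c1 _).1, Nat.not_odd_iff_even.1 fun o => ?_, fun o => ?_⟩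
        · obtain ⟨u, u0, u1, u2⟩ := (c1 _).2.2.2 o
          have := h.i1 u1
          have := h.i1 u2
          omega
        · obtain ⟨u, u0, u1, u2⟩ := ((c1 _).2.1 0 0).1 o
          have := h.i2 u1
          have := h.i2 u2
          omega
      · exact ⟨by omega, Even.zero, fun o => absurd (by simp [dig]) o⟩
    rw [e]
    have f4 : cv t p < S.ll := (c1 p).1
    refine ⟨(le.mul_right _).add f2, by nlinarith, ?_⟩
    rw [Nat.mul_add_div (by omega), Nat.div_eq_of_lt f1, add_zero, Nat.mul_add_mod,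
      Nat.mod_eq_of_lt f1]
    exact rul S h p1 g0 gR gx gf ga gm gk hk (c1 p).2.1 (c1 p).2.2.1 f3

end Pool.Agent.MP_fed7c7_lc.S6.H38GC
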