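import Mathlib
import Pool.Agent.MP_fed7c7_lc.S6.Spec

set_option autoImplicit false

/-!
Row WS: the weighted step.
-/

namespace Pool.Agent.MP_fed7c7_lc.S6.H89WS

open PowerSeries Finset Pool.Agent.MP_fed7c7_lc.H93

open Classical in
/-- The weighted indicator series. -/
noncomputable def iw (T : ℕ → Prop) : (ZMod 3)⟦X⟧ := mk fun m => if T m then sg m else 0

open Classical in
/-- The weighted polynomial of a digit set. -/
noncomputable def dw (R : Type) [CommRing R] (B : ℕ) (E : ℕ → Prop) : R⟦X⟧ :=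
  ∑ d ∈ (range B).filter E, (((sg d).val : ℕ) : R⟦X⟧) * X ^ d

theorem nice_nat (k : ℕ) : Nice (k : ℤ⟦X⟧) := by
  induction k with
  | zero => simpa using Nice.zero
  | succ k ih => rw [Nat.cast_succ]; exact ih.add Nice.one

theorem nice_dw (B : ℕ) (E : ℕ → Prop) : Nice (dw ℤ B E) :=
  sum_induction _ Nice (fun _ _ => Nice.add) Nice.zero fun d _ =>
    (nice_nat _).mul (Nice.var.pow d)

theorem map_dw (B : ℕ) (E : ℕ → Prop) :
    map (Int.castRingHom (ZMod 3)) (dw ℤ B E) = dw (ZMod 3) B E := by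
  simp only [dw, map_sum, map_mul, map_natCast, map_pow, map_X]

theorem coeff_nat_mul (k m : ℕ) (G : (ZMod 3)⟦X⟧) :
    coeff m ((k : (ZMod 3)⟦X⟧) * G) = (k : ZMod 3) * coeff m G := by
  rw [← map_natCast (C : ZMod 3 →+* (ZMod 3)⟦X⟧) k, coeff_C_mul]

open Classical in
theorem coeff_dw (w : ℕ) (E : ℕ → Prop) (F : (ZMod 3)⟦X⟧) (m : ℕ) :
    coeff m (dw (ZMod 3) (3 ^ w) E * F ^ 3 ^ w) =
      if E (m % 3 ^ w) then sg (m % 3 ^ w) * coeff (m / 3 ^ w) F else 0 := by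
  have B0 : 0 < 3 ^ w := by positivity
  have e : F ^ 3 ^ w = expand (3 ^ w) B0.ne' F := by
    have : ExpChar (ZMod 3) 3 := ExpChar.prime Nat.prime_three
    have h := MvPowerSeries.map_iterateFrobenius_expand 3 (by omega) F w
    rw [show iterateFrobenius (ZMod 3) 3 w = RingHom.id _ from Subsingleton.elim _ _,
      MvPowerSeries.map_id] at h
    exact h.symm
  generalize 3 ^ w = B at *
  rw [e, dw, sum_mul, map_sum, sum_filter, sum_eq_single (m % B)]
  · split_ifs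
    · rw [mul_assoc, coeff_nat_mul, ZMod.natCast_zmod_val, coeff_X_pow_mul',
        if_pos (Nat.mod_le _ _), coeff_expand,
        show m - m % B = B * (m / B) by have := Nat.mod_add_div m B; omega,
        if_pos (dvd_mul_right _ _), Nat.mul_div_cancel_left _ B0]
    · rfl
  · intro d hd hne
    split_ifs
    · rw [mul_assoc, coeff_nat_mul, coeff_X_pow_mul']
      split_ifs with h
      · rw [coeff_expand_of_not_dvd _ _ _ fun g => hne ?_, mul_zero]
        have := (Nat.modEq_iff_dvd' h).2 g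
        rw [Nat.ModEq, Nat.mod_eq_of_lt (mem_range.1 hd)] at this
        exact this
      · rw [mul_zero]
    · rfl
  · intro h
    exact absurd (mem_range.2 (Nat.mod_lt _ B0)) h

theorem wg_iff (T : ℕ → Prop) : WG T ↔
    ∃ g, Nice g ∧ map (Int.castRingHom (ZMod 3)) g = iw T ∧ (¬T 0 → X ∣ g) := by
  constructor
  · rintro ⟨g, g1, g2, g3⟩
    refine ⟨g, g1, ?_, g3⟩
    ext m
    rw [coeff_map, iw, coeff_mk, ← g2 m]
    rfl
  · rintro ⟨g, g1, g2, g3⟩
    refine ⟨g, g1, fun m => ?_, g3⟩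
    have := congrArg (coeff m) g2
    rw [coeff_map, iw, coeff_mk] at this
    exact this

theorem wg_zero (h0 : sg 0 = 1) : WG (· = 0) := by
  refine (wg_iff _).2 ⟨1, Nice.one, ?_, fun h => absurd rfl h⟩
  ext m
  rw [map_one, iw, coeff_mk, coeff_one]
  by_cases e : m = 0
  · rw [if_pos e, if_pos e, e, h0]
  · rw [if_neg e, if_neg e]

theorem wg_or {T U : ℕ → Prop} (hT : WG T) (hU : WG U) (hd : ∀ m, ¬(T m ∧ U m)) :
    WG fun m => T m ∨ U m := by
  obtain ⟨f, f1, f2, f3⟩ := (wg_iff _).1 hT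
  obtain ⟨g, g1, g2, g3⟩ := (wg_iff _).1 hU
  refine (wg_iff _).2
    ⟨f + g, f1.add g1, ?_, fun h => (f3 fun e => h (.inl e)).add (g3 fun e => h (.inr e))⟩
  rw [map_add, f2, g2]
  ext m
  have := hd m
  by_cases h1 : T m <;> by_cases h2 : U m <;> simp_all [iw]

theorem wg_step {w : ℕ} (hw : 1 ≤ w) (hs : ∀ m, sg m = sg (m % 3 ^ w) * sg (m / 3 ^ w))
    {U T E L : ℕ → Prop} (hU : WG U) (h0 : ¬T 0)
    (hT : ∀ m, T m ↔ L (m % 3 ^ w) ∧ T (m / 3 ^ w) ∨ E (m % 3 ^ w) ∧ U (m / 3 ^ w))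
    (hd : ∀ m, ¬((L (m % 3 ^ w) ∧ T (m / 3 ^ w)) ∧ E (m % 3 ^ w) ∧ U (m / 3 ^ w))) : WG T := by
  classical
  obtain ⟨f, f1, f2, f3⟩ := (wg_iff _).1 hU
  obtain ⟨n, hn⟩ : ∃ n, 3 ^ w = n + 2 :=
    Nat.exists_eq_add_of_le' ((by norm_num : 2 ≤ 3 ^ 1).trans (Nat.pow_le_pow_right (by omega) hw))
  have hh : X ∣ dw ℤ (3 ^ w) E * f ^ 3 ^ w := by
    by_cases h : U 0
    · refine Dvd.dvd.mul_right (dvd_sum fun d hd => Dvd.dvd.mul_left (dvd_pow_self _ ?_) _) _
      rintro rfl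
      exact h0 ((hT 0).2 (.inr (by simpa using ⟨(mem_filter.1 hd).2, h⟩)))
    · exact ((f3 h).trans (dvd_pow_self _ (by omega))).mul_left _
  obtain ⟨g, g1, g2⟩ := fix_exists hh (dw ℤ (3 ^ w) L) n
  refine (wg_iff _).2
    ⟨g, Nice.fix hh g1 g2 ((nice_dw _ _).mul (f1.pow _)) (nice_dw _ _), ?_, fun _ => g1⟩
  refine fix_unique (h := dw (ZMod 3) (3 ^ w) E * iw U ^ 3 ^ w) (D := dw (ZMod 3) (3 ^ w) L)
    (n := n) ?_ (X_dvd_iff.2 (by simp [iw, h0])) ?_ ?_
  · simpa using map_dvd (map (Int.castRingHom (ZMod 3))) g1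
  · have := congrArg (map (Int.castRingHom (ZMod 3))) g2
    rwa [map_add, map_mul, map_mul, map_pow, map_pow, map_dw, map_dw, f2] at this
  · ext m
    rw [← hn, map_add, coeff_dw, coeff_dw]
    have h1 := hT m
    have h2 := hd m
    have h3 := hs m
    simp only [iw, coeff_mk]
    rw [h3]
    generalize m % 3 ^ w = a at *
    generalize m / 3 ^ w = b at *
    clear hT hd
    by_cases c1 : L a <;> by_cases c2 : T b <;> by_cases c3 : E a <;> by_cases c4 : U b <;>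
      simp only [c1, c2, c3, c4] at h1 h2 ⊢ <;> simp at h1 h2 ⊢ <;> simp [h1]

theorem sWS (h : SUN) : SWS := by
  obtain ⟨-, -, -, -, h5, h6, -⟩ := h
  refine ⟨wg_zero h6, fun T U hT hU hd => wg_or hT hU hd, fun w U T E L hw hU h0 hT hd => ?_⟩
  have e : 9 ^ w = 3 ^ (2 * w) := by rw [pow_mul]; norm_num
  have hs : ∀ m, sg m = sg (m % 9 ^ w) * sg (m / 9 ^ w) := fun m => by
    have := h5 w (m / 9 ^ w) (m % 9 ^ w) (Nat.mod_lt _ (by positivity))
    rw [Nat.div_add_mod] at this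
    rw [this, mul_comm]
  rw [e] at hT hd hs
  exact wg_step (by omega) hs hU h0 hT hd

end Pool.Agent.MP_fed7c7_lc.S6.H89WS
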