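import Mathlib
import Pool.Agent.MP_fed7c7_lc.S6.Spec

set_option autoImplicit false

/-!
Soundness of the lacunary code.
-/

namespace Pool.Agent.MP_fed7c7_lc.S6.H93GS

open Finset Pool.Agent.MP_fed7c7_lc.H93

theorem half {B : ℕ} (hB : Odd B) (p : ℕ) : ∀ x : ℕ, (∀ i, Even (dig B (2 * x) i)) →
    dig B (2 * x) p = 2 * dig B x p := by
  have B0 : 0 < B := hB.pos
  have key : ∀ x : ℕ, Even (2 * x % B) → 2 * x / B = 2 * (x / B) ∧ 2 * x % B = 2 * (x % B) := by
    intro x ⟨r, hr⟩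
    have e := Nat.div_add_mod (2 * x) B
    have lt := Nat.mod_lt (2 * x) B0
    have ev : Even (B * (2 * x / B)) := ⟨x - r, by omega⟩
    obtain ⟨q, hq⟩ : Even (2 * x / B) :=
      (Nat.even_mul.1 ev).resolve_left (Nat.not_even_iff_odd.2 hB)
    have e2 : x = r + B * q := by rw [hq, hr, mul_add] at e; omega
    have h1 : x / B = q := by
      rw [e2, Nat.add_mul_div_left _ _ B0, Nat.div_eq_of_lt (by omega), zero_add]
    have h2 : x % B = r := by rw [e2, Nat.add_mul_mod_self_left, Nat.mod_eq_of_lt (by omega)]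
    omega
  induction p with
  | zero =>
    intro x h
    have := h 0
    rw [dig_zero] at this
    rw [dig_zero, dig_zero, (key x this).2]
  | succ p ih =>
    intro x h
    have h0 := h 0
    rw [dig_zero] at h0
    rw [dig_succ, dig_succ, (key x h0).1]
    refine ih _ fun i => ?_
    rw [← (key x h0).1, ← dig_succ]
    exact h _

theorem zero_of_dig {B : ℕ} (hB : 2 ≤ B) (Y : ℕ) (h : ∀ i, dig B Y i = 0) : Y = 0 := by
  induction Y using Nat.strong_induction_on with
  | _ Y ih =>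
    by_contra h0
    have h1 := ih (Y / B) (Nat.div_lt_self (by omega) (by omega)) fun i => by
      rw [← dig_succ]; exact h _
    have h2 := h 0
    rw [dig_zero] at h2
    have := Nat.div_add_mod Y B
    rw [h1, h2] at this
    omega

theorem two_pow_sum {a b i j : ℕ} (hj : j < i) (hb : b ≤ a) (h : 2 ^ a + 2 ^ b = 2 ^ i + 2 ^ j) :
    a = i ∧ b = j := by
  have p1 : 2 ^ b ≤ 2 ^ a := Nat.pow_le_pow_right (by omega) hb
  have p2 : 2 ^ j < 2 ^ i := Nat.pow_lt_pow_right (by omega) hj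
  have p3 : 0 < 2 ^ j := by positivity
  have p4 : 0 < 2 ^ b := by positivity
  have e : a = i := by
    rcases lt_trichotomy a i with g | g | g
    · have : 2 ^ (a + 1) ≤ 2 ^ i := Nat.pow_le_pow_right (by omega) g
      rw [pow_succ] at this
      omega
    · exact g
    · have : 2 ^ (i + 1) ≤ 2 ^ a := Nat.pow_le_pow_right (by omega) g
      rw [pow_succ] at this
      omega
  subst e
  exact ⟨rfl, Nat.pow_right_injective (le_refl 2) (by simpa using h)⟩

theorem dbl {c i j : ℕ} (h : 2 ^ i * c < 2 ^ j * c) : 2 * (2 ^ i * c) ≤ 2 ^ j * c := by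
  have h1 : i < j := by
    by_contra g
    exact absurd h (not_lt.2 (Nat.mul_le_mul_right c (Nat.pow_le_pow_right (by omega) (not_lt.1 g))))
  have : 2 ^ (i + 1) ≤ 2 ^ j := Nat.pow_le_pow_right (by omega) h1
  rw [← mul_assoc, ← pow_succ']
  exact Nat.mul_le_mul_right c this

/-- The shape of the word. -/
structure Wd (S : Sy) (t : ℕ → ℕ) (lam : ℕ) : Prop where
  l2 : 2 ≤ lam
  bd : ∀ p, t p < S.R + 5
  o : ∀ p, t p = 2 ↔ p = 0
  f : ∀ p, t p = S.fst + 5 ↔ p = 1
  tp : ∀ p, t p = 1 → p = lam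
  hi : ∀ p, lam ≤ p → t p ≤ 1

/-- The local shape at a position. -/
def Loc (S : Sy) (t : ℕ → ℕ) (p : ℕ) : Prop :=
  (5 ≤ t p → p = 1 ∨ ∃ q, p = 2 * q ∧ 5 ≤ t q ∧ S.nx (t q - 5) (t p - 5) ∧ ¬S.fin (t q - 5)) ∧
  (t p = 3 ∨ t p = 4 → (∃ q, p = 2 * q ∧ t q = 3) ∨ (1 ≤ p ∧ 5 ≤ t (p - 1) ∧ S.st (t (p - 1) - 5)))

/-- The number of terms of the convolution. -/
def cnt (t : ℕ → ℕ) (n : ℕ) : ℕ := ((range (n + 1)).filter fun a => t a ≠ 0 ∧ t (n - a) ≠ 0).card

section
variable {S : Sy} {t : ℕ → ℕ} {lam n : ℕ}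

theorem clock (W : Wd S t lam) (h : ∀ p < n, Loc S t p) (p : ℕ) : p < n → 5 ≤ t p →
    ∃ i, p = 2 ^ i ∧ ∀ j < i, 5 ≤ t (2 ^ j) ∧ S.nx (t (2 ^ j) - 5) (t (2 ^ (j + 1)) - 5) ∧
      ¬S.fin (t (2 ^ j) - 5) := by
  induction p using Nat.strong_induction_on with
  | _ p ih =>
    intro hp h5
    rcases (h p hp).1 h5 with e | ⟨q, e, q1, q2, q3⟩
    · exact ⟨0, by simpa using e, fun j hj => absurd hj (by omega)⟩
    · have q0 : q ≠ 0 := by
        rintro rfl
        have := (W.o 0).2 rfl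
        omega
      obtain ⟨i, rfl, hi⟩ := ih q (by omega) (by omega) q1
      refine ⟨i + 1, by rw [e, pow_succ'], fun j hj => ?_⟩
      rcases Nat.lt_succ_iff_lt_or_eq.1 hj with g | rfl
      · exact hi j g
      · rw [pow_succ', ← e]
        exact ⟨q1, q2, q3⟩

theorem st_uniq (W : Wd S t lam) (h : ∀ p < n, Loc S t p) {k k' : ℕ} (hk : k < k') (hn : 2 ^ k' < n)
    (h5 : 5 ≤ t (2 ^ k')) (s1 : S.st (t (2 ^ k) - 5)) : ¬S.st (t (2 ^ k') - 5) := by
  obtain ⟨i, e, hi⟩ := clock W h _ hn h5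
  have := Nat.pow_right_injective (le_refl 2) e
  subst this
  have key : ∀ j, k + 1 + j ≤ k' →
      S.seen (t (2 ^ (k + 1 + j)) - 5) ∧ ¬S.st (t (2 ^ (k + 1 + j)) - 5) := by
    intro j
    induction j with
    | zero => exact fun _ => S.h5 _ _ (hi k hk).2.1 (S.h4 _ s1)
    | succ j ih => exact fun g => S.h5 _ _ (hi (k + 1 + j) (by omega)).2.1 (ih (by omega)).1
  have := (key (k' - (k + 1)) (by omega)).2
  rwa [show k + 1 + (k' - (k + 1)) = k' by omega] at this

theorem ptr (W : Wd S t lam) (h : ∀ p < n, Loc S t p) (p : ℕ) : p < n → t p = 3 ∨ t p = 4 →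
    ∃ j k, p = 2 ^ j * (2 ^ k + 1) ∧ 2 ^ k < n ∧ 5 ≤ t (2 ^ k) ∧ S.st (t (2 ^ k) - 5) := by
  induction p using Nat.strong_induction_on with
  | _ p ih =>
    intro hp h3
    rcases (h p hp).2 h3 with ⟨q, e, q1⟩ | ⟨p1, p2, p3⟩
    · have q0 : q ≠ 0 := by
        rintro rfl
        have := (W.o 0).2 rfl
        omega
      obtain ⟨j, k, rfl, hk⟩ := ih q (by omega) (by omega) (Or.inl q1)
      exact ⟨j + 1, k, by rw [e, pow_succ', mul_assoc], hk⟩
    · obtain ⟨k, e, -⟩ := clock W h (p - 1) (by omega) p2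
      refine ⟨0, k, by omega, by omega, ?_⟩
      rw [← e]
      exact ⟨p2, p3⟩

theorem cnt_le (W : Wd S t lam) (h : ∀ p < n, Loc S t p) : cnt t n ≤ 15 := by
  classical
  set M1 := (range n).filter fun m => n ≤ 2 * m ∧ 5 ≤ t m with hM1
  set M2 := (range n).filter fun m => n ≤ 2 * m ∧ (t m = 3 ∨ t m = 4) with hM2
  have c1 : M1.card ≤ 1 := by
    have key : ∀ a ∈ M1, ∀ b ∈ M1, ¬a < b := fun a ha b hb hab => by
      simp only [hM1, mem_filter, mem_range] at ha hb
      obtain ⟨i, e1, -⟩ := clock W h a ha.1 ha.2.2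
      obtain ⟨j, e2, -⟩ := clock W h b hb.1 hb.2.2
      have := dbl (c := 1) (i := i) (j := j) (by omega)
      omega
    exact card_le_one.2 fun a ha b hb =>
      le_antisymm (not_lt.1 (key b hb a ha)) (not_lt.1 (key a ha b hb))
  have c2 : M2.card ≤ 1 := by
    have key : ∀ a ∈ M2, ∀ b ∈ M2, ¬a < b := fun a ha b hb hab => by
      simp only [hM2, mem_filter, mem_range] at ha hb
      obtain ⟨i, k, e1, a1, a2, a3⟩ := ptr W h a ha.1 ha.2.2
      obtain ⟨j, k', e2, b1, b2, b3⟩ := ptr W h b hb.1 hb.2.2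
      have e : k = k' := by
        rcases lt_trichotomy k k' with g | g | g
        · exact absurd b3 (st_uniq W h g b1 b2 a3)
        · exact g
        · exact absurd a3 (st_uniq W h g a1 a2 b3)
      subst e
      have := dbl (c := 2 ^ k + 1) (i := i) (j := j) (by omega)
      omega
    exact card_le_one.2 fun a ha b hb =>
      le_antisymm (not_lt.1 (key b hb a ha)) (not_lt.1 (key a ha b hb))
  set M : Finset ℕ := insert n (insert lam (M1 ∪ M2)) with hM
  have c3 : M.card ≤ 4 := by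
    have a1 := card_insert_le n (insert lam (M1 ∪ M2))
    have a2 := card_insert_le lam (M1 ∪ M2)
    have a3 := card_union_le M1 M2
    rw [hM]
    omega
  have mem : ∀ m, m ≤ n → n ≤ 2 * m → t m ≠ 0 → m ∈ M := fun m m1 m2 m3 => by
    simp only [hM, hM1, hM2, mem_insert, mem_union, mem_filter, mem_range]
    have a1 := W.tp m
    have a2 := (W.o m).1
    omega
  have sub : ((range (n + 1)).filter fun a => t a ≠ 0 ∧ t (n - a) ≠ 0) ⊆
      M ∪ M.image fun m => n - m := by
    intro a ha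
    simp only [mem_filter, mem_range] at ha
    rcases le_total n (2 * a) with g | g
    · exact mem_union_left _ (mem a (by omega) g ha.2.1)
    · exact mem_union_right _ (mem_image.2 ⟨n - a, mem _ (by omega) (by omega) ha.2.2, by omega⟩)
  have a1 := card_le_card sub
  have a2 := card_union_le M (M.image fun m => n - m)
  have a3 := card_image_le (s := M) (f := fun m => n - m)
  unfold cnt
  omega

end

theorem core (hCV : SCV) (S : Sy) (t : ℕ → ℕ) (lam a : ℕ) (W : Wd S t lam)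
    (hR : ∀ n, 1 ≤ n → n < 2 * lam + 2 ^ (a + 1) → (∀ k ≤ n, cnt t k ≤ 15) →
      S.Rul (cv t n) (if 2 ^ (a + 1) ≤ n then cv t (n - 2 ^ (a + 1)) else 0)) : S.Run a := by
  classical
  have t0 : t 0 = 2 := (W.o 0).2 rfl
  have t1 : t 1 = S.fst + 5 := (W.f 1).2 rfl
  have ev : ∀ n, cnt t n ≤ 15 → ∀ i j,
      Ev (cv t n) i j ↔ ∃ u ≤ n, t u = i + 2 ∧ t (n - u) = j + 2 :=
    fun n hn => (hCV t n S.R (fun p _ => W.bd p) hn).2.1
  have di : ∀ n, cnt t n ≤ 15 → ∀ i, Di (cv t n) i ↔ ∃ u, n = 2 * u ∧ t u = i + 2 :=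
    fun n hn => (hCV t n S.R (fun p _ => W.bd p) hn).2.2.1
  have e0 : ∀ n, cnt t n ≤ 15 → ∀ j, Ev (cv t n) 0 j ↔ t n = j + 2 := fun n hn j => by
    rw [ev n hn]
    constructor
    · rintro ⟨u, -, u1, u2⟩
      rwa [(W.o u).1 u1, Nat.sub_zero] at u2
    · exact fun g => ⟨0, by omega, t0, g⟩
  have e1 : ∀ n, cnt t n ≤ 15 → ∀ j, Ev (cv t n) (S.fst + 3) j ↔ 1 ≤ n ∧ t (n - 1) = j + 2 :=
    fun n hn j => by
      rw [ev n hn]
      constructor
      · rintro ⟨u, u0, u1, u2⟩
        have := (W.f u).1 u1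
        subst this
        exact ⟨u0, u2⟩
      · exact fun g => ⟨1, g.1, t1, g.2⟩
  have d0 : 0 < 2 ^ (a + 1) := by positivity
  have hL : ∀ n, ∀ p < n, Loc S t p := by
    intro n
    induction n with
    | zero => exact fun p hp => absurd hp (by omega)
    | succ n ih =>
      intro p hp
      rcases Nat.lt_succ_iff_lt_or_eq.1 hp with g | rfl
      · exact ih p g
      have hc : ∀ k ≤ p, cnt t k ≤ 15 := fun k hk => cnt_le W fun q hq => ih q (by omega)
      have c := hc p le_rfl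
      by_cases hl : lam ≤ p
      · have := W.hi p hl
        exact ⟨fun g => by omega, fun g => by omega⟩
      by_cases h0 : p = 0
      · subst h0
        exact ⟨fun g => by omega, fun g => by omega⟩
      have r := hR p (by omega) (by omega) hc
      have bd := W.bd p
      refine ⟨fun g => ?_, fun g => ?_⟩
      · rcases r.r1 (t p - 5) (by omega) ((e0 p c _).2 (by omega)) with e | ⟨b, -, b1, b2, b3⟩
        · exact Or.inl ((W.f p).1 (by omega))
        · obtain ⟨q, q1, q2⟩ := (di p c _).1 b1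
          refine Or.inr ⟨q, q1, by omega, ?_⟩
          rw [show t q - 5 = b by omega]
          exact ⟨b2, b3⟩
      · rcases (r.r4 (by rw [e0 p c, e0 p c]; exact g)).1 with d | ⟨b, -, b1, b2⟩
        · exact Or.inl ((di p c _).1 d)
        · obtain ⟨q1, q2⟩ := (e1 p c _).1 b2
          refine Or.inr ⟨q1, by omega, ?_⟩
          rwa [show t (p - 1) - 5 = b by omega]
  have c : ∀ n, cnt t n ≤ 15 := fun n => cnt_le W (hL n)
  have r : ∀ n, 1 ≤ n → n < 2 * lam + 2 ^ (a + 1) →
      S.Rul (cv t n) (if 2 ^ (a + 1) ≤ n then cv t (n - 2 ^ (a + 1)) else 0) :=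
    fun n h1 h2 => hR n h1 h2 fun k _ => c k
  have lo : ∀ p, 2 ≤ t p → p < lam := fun p hp => by
    by_contra g
    have := W.hi p (not_lt.1 g)
    omega
  have ck : ∀ p, 5 ≤ t p → ∃ i, p = 2 ^ i ∧ ∀ j < i, 5 ≤ t (2 ^ j) ∧
      S.nx (t (2 ^ j) - 5) (t (2 ^ (j + 1)) - 5) ∧ ¬S.fin (t (2 ^ j) - 5) :=
    fun p hp => clock W (hL (p + 1)) p (by omega) hp
  have up : ∀ i, (∀ j < i, ¬S.fin (t (2 ^ j) - 5)) → 5 ≤ t (2 ^ i) := by
    intro i
    induction i with
    | zero => intro _; rw [pow_zero]; omega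
    | succ i ih =>
      intro g
      have a1 := ih fun j hj => g j (by omega)
      have a2 := lo (2 ^ i) (by omega)
      have a3 := W.bd (2 ^ i)
      have a4 : 0 < 2 ^ i := by positivity
      obtain ⟨b, -, b1⟩ := (r (2 ^ (i + 1)) (by rw [pow_succ]; omega) (by rw [pow_succ]; omega)).r2
        (t (2 ^ i) - 5) (by omega) ((di _ (c _) _).2 ⟨2 ^ i, pow_succ' 2 i, by omega⟩)
        (g i (by omega))
      have := (e0 _ (c _) _).1 b1
      omega
  have ex : ∃ i, S.fin (t (2 ^ i) - 5) := by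
    by_contra g
    have a1 := up lam fun j _ h => g ⟨j, h⟩
    have a2 := lo (2 ^ lam) (by omega)
    have := Nat.lt_two_pow_self (n := lam)
    omega
  obtain ⟨N, N1, N2⟩ : ∃ N, S.fin (t (2 ^ N) - 5) ∧ ∀ j < N, ¬S.fin (t (2 ^ j) - 5) :=
    ⟨Nat.find ex, Nat.find_spec ex, fun j hj => Nat.find_min ex hj⟩
  have cl : ∀ i ≤ N, 5 ≤ t (2 ^ i) := fun i hi => up i fun j hj => N2 j (by omega)
  have ab : ∀ i, 5 ≤ t (2 ^ i) → i ≤ N := fun i hi => by
    obtain ⟨i', e, g⟩ := ck _ hi
    have := Nat.pow_right_injective (le_refl 2) e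
    subst this
    by_contra g'
    exact (g N (by omega)).2.2 N1
  obtain ⟨b, -, b1, b2⟩ := (r (2 ^ (a + 1)) d0 (by have := W.l2; omega)).r6 (by
    rw [if_pos le_rfl, Nat.sub_self]
    exact (e0 0 (c 0) 0).2 t0)
  have b3 := (e0 _ (c _) _).1 b2
  refine ⟨N, fun i => t (2 ^ i) - 5, by simp [t1], fun i hi => ?_, fun i hi => ⟨?_, N2 i hi⟩, N1,
    ab _ (by omega), ?_, fun k i hk hi hs => ?_⟩
  · have a1 := W.bd (2 ^ i)
    have a2 := cl i hi
    show t (2 ^ i) - 5 < S.R
    omega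
  · obtain ⟨i', e, g⟩ := ck _ (cl (i + 1) hi)
    have := Nat.pow_right_injective (le_refl 2) e
    subst this
    exact (g i (by omega)).2.1
  · show S.mark (t (2 ^ (a + 1)) - 5)
    rwa [show t (2 ^ (a + 1)) - 5 = b by omega]
  · have k1 : 1 ≤ k := by
      by_contra g
      have : k = 0 := by omega
      subst this
      exact S.h3 (by simpa [t1] using hs)
    have use : ∀ j, (t (2 ^ (k + j) + 2 ^ j) = 3 ∨ t (2 ^ (k + j) + 2 ^ j) = 4) →
        S.ck (t (2 ^ (k + j)) - 5) (t (2 ^ j) - 5) ∧ (t (2 ^ (k + j) + 2 ^ j) = 4 →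
          S.fin (t (2 ^ (k + j)) - 5) ∨ S.fin (t (2 ^ j) - 5)) := by
      intro j g
      have a1 := lo (2 ^ (k + j) + 2 ^ j) (by omega)
      have a4 : 0 < 2 ^ j := by positivity
      have a5 : 0 < 2 ^ (k + j) := by positivity
      obtain ⟨u, -, v, -, u1, u2, u3⟩ := ((r (2 ^ (k + j) + 2 ^ j) (by omega) (by omega)).r4
        (by rw [e0 _ (c _), e0 _ (c _)]; exact g)).2
      rw [e0 _ (c _)] at u3
      obtain ⟨y, y0, y1, y2⟩ := (ev _ (c _) _ _).1 u1
      obtain ⟨α, ea, -⟩ := ck y (by omega)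
      obtain ⟨γ, eg, -⟩ := ck (2 ^ (k + j) + 2 ^ j - y) (by omega)
      rw [eg] at y2
      rw [ea] at y1
      rcases le_total γ α with o | o
      · obtain ⟨rfl, rfl⟩ := two_pow_sum (i := k + j) (j := j) (by omega) o (by omega)
        rw [show t (2 ^ (k + γ)) - 5 = u by omega, show t (2 ^ γ) - 5 = v by omega]
        exact ⟨u2, u3⟩
      · obtain ⟨rfl, rfl⟩ := two_pow_sum (i := k + j) (j := j) (by omega) o (by omega)
        rw [show t (2 ^ (k + α)) - 5 = v by omega, show t (2 ^ α) - 5 = u by omega]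
        exact ⟨S.h6 _ _ u2, fun g => (u3 g).symm⟩
    have pt : ∀ j, k + j ≤ N → t (2 ^ (k + j) + 2 ^ j) = 3 ∨ t (2 ^ (k + j) + 2 ^ j) = 4 := by
      intro j
      induction j with
      | zero =>
        intro g
        have a1 := cl k (by omega)
        have a2 := lo (2 ^ k) (by omega)
        have a3 := W.bd (2 ^ k)
        have a4 : 0 < 2 ^ k := by positivity
        have := (r (2 ^ k + 1) (by omega) (by omega)).r3 (t (2 ^ k) - 5) (by omega)
          ((e1 _ (c _) _).2 ⟨by omega, by rw [Nat.add_sub_cancel]; omega⟩) hs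
        rwa [e0 _ (c _), e0 _ (c _)] at this
      | succ j ih =>
        intro g
        have a1 := ih (by omega)
        have a2 : t (2 ^ (k + j) + 2 ^ j) = 3 := by
          refine a1.resolve_right fun h4 => ?_
          rcases (use j a1).2 h4 with f | f
          · exact N2 _ (by omega) f
          · exact N2 _ (by omega) f
        have a3 := lo (2 ^ (k + j) + 2 ^ j) (by omega)
        have a4 : 0 < 2 ^ j := by positivity
        have a5 : 0 < 2 ^ (k + j) := by positivity
        have e : 2 ^ (k + (j + 1)) + 2 ^ (j + 1) = 2 * (2 ^ (k + j) + 2 ^ j) := by ring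
        have := (r (2 ^ (k + (j + 1)) + 2 ^ (j + 1)) (by omega) (by omega)).r5
          ((di _ (c _) _).2 ⟨_, e, a2⟩)
        rwa [e0 _ (c _), e0 _ (c _)] at this
    have := (use (i - k) (pt (i - k) (by omega))).1
    rwa [show k + (i - k) = i by omega] at this

theorem sGS (hCV : SCV) (hDS : SDS) : SGS := by
  classical
  intro S B a x hB ho h1 h2
  have l2 : 2 ≤ S.ll := by
    unfold Sy.ll
    exact Nat.one_lt_pow (by positivity) (by norm_num)
  have B2 : 2 ≤ B := by nlinarith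
  obtain ⟨p0, ⟨p1, ⟨q, z1, z2, z3⟩, y2, y3⟩, x2, x3⟩ := h1
  have : p0 = 0 := by by_contra g; exact x3 0 (by omega)
  subst this
  have : p1 = 0 := by by_contra g; exact y3 0 (by omega)
  subst this
  simp only [Z0, dig_div] at z1 z2 z3 y2
  have ex : ∀ p, ∃ v, dig B (2 * x) p = 2 * val v ∧ v < S.R + 5 ∧ (v = 2 ↔ p = 0) ∧
      (v = S.fst + 5 ↔ p = 1) ∧ (v = 1 ↔ p = q + 2) ∧ (q + 2 ≤ p → v ≤ 1) := by
    intro p
    have f1 := S.h1
    by_cases g0 : p = 0
    · subst g0
      exact ⟨2, by simpa [val] using x2, by omega, by omega, by omega, by omega, by omega⟩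
    by_cases g1 : p = 1
    · subst g1
      exact ⟨S.fst + 5, by simpa [val] using y2, by omega, by omega, by omega, by omega, by omega⟩
    rcases lt_trichotomy p (q + 2) with g | g | g
    · have := z3 (p - 2) (by omega)
      rw [show 0 + 1 + (0 + 1 + (p - 2)) = p by omega] at this
      rcases this with e | e | e | ⟨j, j1, j2, e⟩
      · exact ⟨0, by simpa [val] using e, by omega, by omega, by omega, by omega, by omega⟩
      · exact ⟨3, by simpa [val] using e, by omega, by omega, by omega, by omega, by omega⟩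
      · exact ⟨4, by simpa [val] using e, by omega, by omega, by omega, by omega, by omega⟩
      · exact ⟨j + 5, by simpa [val] using e, by omega, by omega, by omega, by omega, by omega⟩
    · rw [show 0 + 1 + (0 + 1 + q) = p by omega] at z2
      exact ⟨1, by simpa [val] using z2, by omega, by omega, by omega, by omega, by omega⟩
    · have := z1 (p - (q + 3))
      rw [show 0 + 1 + (0 + 1 + (q + 1 + (p - (q + 3)))) = p by omega] at this
      exact ⟨0, by simpa [val] using this, by omega, by omega, by omega, by omega, by omega⟩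
  choose t t1 t2 t3 t4 t5 t6 using ex
  have hx : ∀ p, dig B x p = val (t p) := fun p => by
    have := half ho p x fun i => by rw [t1]; exact even_two_mul _
    rw [t1] at this
    omega
  have W : Wd S t (q + 2) := ⟨by omega, t2, t3, t4, fun p => (t5 p).1, t6⟩
  obtain ⟨p0, ⟨s, w1, -, w3⟩, -, v3⟩ := h2
  have : p0 = 0 := by by_contra g; exact v3 0 (by omega)
  subst this
  have xl : B ^ (q + 2) ≤ x := by
    by_contra g
    have := hx (q + 2)
    rw [dig, Nat.div_eq_of_lt (not_le.1 g), (t5 _).2 rfl] at this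
    simp [val] at this
  have w2 := zero_of_dig B2 _ w1
  rw [Nat.div_div_eq_div_mul, ← pow_add, Nat.div_eq_zero_iff_lt (by positivity)] at w2
  have sl : 2 * (q + 2) + 2 ^ (a + 1) < 0 + 1 + (s + 1) := by
    refine (Nat.pow_lt_pow_iff_right (show 1 < B by omega)).1 (lt_of_le_of_lt ?_ w2)
    rw [pow_add, mul_comm 2, pow_mul, mul_comm]
    exact Nat.mul_le_mul (Nat.le_add_left _ _) (Nat.pow_le_pow_left xl 2)
  refine core hCV S t (q + 2) a W fun n n1 n2 hc => ?_
  have cb : ∀ k ≤ n, cv t k < S.ll := fun k hk => (hCV t k S.R (fun p _ => t2 p) (hc k hk)).1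
  have e := hDS B S.ll (2 ^ (a + 1)) x n t hB l2 (Nat.one_le_two_pow) hx cb
  have g := (w3 (n - 1) (by omega)).2.2
  rw [dig_div, show 0 + 1 + (n - 1) = n by omega, e] at g
  have lt : (if 2 ^ (a + 1) ≤ n then cv t (n - 2 ^ (a + 1)) else 0) < S.ll := by
    split_ifs
    · exact cb _ (Nat.sub_le _ _)
    · omega
  rwa [Nat.mul_add_div (by omega), Nat.div_eq_of_lt lt, add_zero, Nat.mul_add_mod,
    Nat.mod_eq_of_lt lt] at g

end Pool.Agent.MP_fed7c7_lc.S6.H93GS
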