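import Mathlib
import Pool.Agent.MP_fed7c7_lc.S6.RAD

set_option autoImplicit false

/-!
The equation in six unknowns.
-/

namespace Pool.Agent.MP_fed7c7_lc.S6

open PowerSeries Pool.Agent.MP_fed7c7_lc.H56 Pool.Agent.MP_fed7c7_lc.H21
  Pool.Agent.MP_fed7c7_lc.H93

namespace H98

noncomputable def C3 (p : MvPolynomial (Fin 4) ℤ) (φ a q A A3 Q κ D P l y s z : ℤ) : ℤ :=
  E2 q P D (MvPolynomial.eval ![A, D, l, κ] p) (gL a A D) (sL A D y) (T0 A A3 Q (4 * P) φ) s z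

noncomputable def C2 (p : MvPolynomial (Fin 4) ℤ) (φ a q A1 A3 Q κ D1 l y s z : ℤ) : ℤ :=
  C3 p φ a q (2 * A1) A3 Q κ (2 * D1 + 1) (A1 ^ 2 * (2 * D1 + 1) ^ 2 - D1 ^ 2 - D1) l y s z

noncomputable def C1 (p : MvPolynomial (Fin 4) ℤ) (φ b t q Q κ g l y s z : ℤ) : ℤ :=
  C2 p φ (6 * b) q (3 * b * t) (2 * b * t) Q κ
    (3 * b * t * (Q - 1) + (2 * (3 * b * t) - 1) * g) l y s z

noncomputable def C0 (p : MvPolynomial (Fin 4) ℤ) (φ b Q κ v g l y s z : ℤ) : ℤ :=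
  C1 p φ b (1 + ((6 * b) ^ 2 - 1) * (2 * v)) (qQ (6 * b) (2 * v)) Q κ g l y s z

section
variable {σ : Type}

theorem pf_eval4 (p : MvPolynomial (Fin 4) ℤ) {P Q S T : (σ → ℤ) → ℤ} (hP : PF P) (hQ : PF Q)
    (hS : PF S) (hT : PF T) : PF fun w => MvPolynomial.eval ![P w, Q w, S w, T w] p := by
  induction p using MvPolynomial.induction_on with
  | C c => simpa using PF.const c
  | add p q h1 h2 => simpa using h1.add h2
  | mul_X p i h =>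
    simp only [map_mul, MvPolynomial.eval_X]
    refine h.mul ?_
    fin_cases i
    exacts [hP, hQ, hS, hT]

theorem pf_E2 {P₁ P D R G S T s z : (σ → ℤ) → ℤ} (h1 : PF P₁) (hP : PF P) (hD : PF D) (hR : PF R)
    (hG : PF G) (hS : PF S) (hT : PF T) (hs : PF s) (hz : PF z) :
    PF fun x => E2 (P₁ x) (P x) (D x) (R x) (G x) (S x) (T x) (s x) (z x) := by
  have h5 : ∀ {P G t M T : (σ → ℤ) → ℤ}, PF P → PF G → PF t → PF M → PF T →
      PF fun x => E5 (P₁ x) (P x) (D x) (G x) (S x) (t x) (M x) (T x) (z x) := fun _ _ _ _ _ =>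
    pf_cmb (by fun_prop) (by fun_prop) (by fun_prop) (by fun_prop)
  have h4 : ∀ {m G F : (σ → ℤ) → ℤ}, PF m → PF G → PF F → PF fun x =>
      E4 (P₁ x) (P x) (D x) (R x) (m x) (G x) (F x) (S x) (T x) (s x) (z x) := fun _ b _ =>
    h5 (by fun_prop) b (by fun_prop) (by fun_prop) (by fun_prop)
  have h3 : ∀ {m c : (σ → ℤ) → ℤ}, PF m → PF c → PF fun x =>
      E3 (P₁ x) (P x) (D x) (R x) (m x) (c x) (S x) (T x) (s x) (z x) := fun a _ =>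
    h4 a (by fun_prop) (by fun_prop)
  exact h3 (by unfold H34.mM; fun_prop) (by unfold H34.mM; fun_prop)

theorem pf_C0 (p : MvPolynomial (Fin 4) ℤ) (φ : ℤ) {b Q κ v g l y s z : (σ → ℤ) → ℤ} (hb : PF b)
    (hQ : PF Q) (hκ : PF κ) (hv : PF v) (hg : PF g) (hl : PF l) (hy : PF y) (hs : PF s)
    (hz : PF z) :
    PF fun x => C0 p φ (b x) (Q x) (κ x) (v x) (g x) (l x) (y x) (s x) (z x) := by
  have h3 : ∀ {a q A A3 D P : (σ → ℤ) → ℤ}, PF a → PF q → PF A → PF A3 → PF D → PF P → PF fun x =>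
      C3 p φ (a x) (q x) (A x) (A3 x) (Q x) (κ x) (D x) (P x) (l x) (y x) (s x) (z x) :=
    fun _ a b _ c d => pf_E2 a d c (pf_eval4 p b c hl hκ) (by unfold gL; fun_prop)
      (by unfold sL; fun_prop) (by unfold T0; fun_prop) hs hz
  have h2 : ∀ {a q A1 A3 D1 : (σ → ℤ) → ℤ}, PF a → PF q → PF A1 → PF A3 → PF D1 → PF fun x =>
      C2 p φ (a x) (q x) (A1 x) (A3 x) (Q x) (κ x) (D1 x) (l x) (y x) (s x) (z x) :=
    fun a b _ c _ => h3 a b (by fun_prop) c (by fun_prop) (by fun_prop)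
  have h1 : ∀ {t q : (σ → ℤ) → ℤ}, PF t → PF q → PF fun x =>
      C1 p φ (b x) (t x) (q x) (Q x) (κ x) (g x) (l x) (y x) (s x) (z x) :=
    fun _ a => h2 (by fun_prop) a (by fun_prop) (by fun_prop) (by fun_prop)
  exact h1 (by fun_prop) (by unfold qQ; fun_prop)

end

theorem qm_sub (β ν l μ : ℤ) :
    qm β ν l - qm β ν μ = ν * (l - μ) * (4 + 4 * β * ν * (l + μ + 1)) := by
  unfold qm; ring

theorem qm_three (β μ : ℤ) {ν : ℕ} (h : 1 ≤ ν) : 3 ∣ qm β (3 ^ ν) μ - 1 := by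
  obtain ⟨r, rfl⟩ := Nat.exists_eq_add_of_le' h
  exact ⟨2 * (3 ^ r * (2 * μ + 1)) + 3 * β * (3 ^ r * (2 * μ + 1)) ^ 2, by unfold qm; ring⟩

/-- The gadget at a tested index. -/
theorem gad (hAD : SAD) {A A3 α β μ l L c : ℤ} {V ν f n : ℕ} (h3 : A = 3 * A3) (hA : A = 3 ^ V * α)
    (hα : ¬3 ∣ α) (hν : 1 ≤ ν) (hn : (2 * n : ℤ) = qm β (3 ^ ν) μ) (hl : l = (A - 1) * L + μ)
    (hL : 2 * A ∣ L - c) :
    (3 : ℤ) ^ (30 * V) ∣ T0 A A3 (qm β (3 ^ ν) l + 1) (pl A (ps A (2 * n + 1))) (3 ^ (f + ν + 1)) ↔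
      f + 3 * padicValNat 3 (2 * n - 1) + ν + 1 = V ∧
        (3 : ℤ) ^ (f + 3 * padicValNat 3 (2 * n - 1) + 1) ∣ c := by
  have t1 := qm_three β μ hν
  have t2 := qm_three β l hν
  have n1 : 1 ≤ n := by omega
  obtain ⟨δ, hδ⟩ : 3 ^ padicValNat 3 (2 * n - 1) ∣ 2 * n - 1 := pow_padicValNat_dvd
  have hδ' : ¬3 ∣ δ := fun ⟨r, hr⟩ =>
    pow_succ_padicValNat_not_dvd (p := 3) (show 2 * n - 1 ≠ 0 by omega)
      ⟨r, by rw [pow_succ, mul_assoc, ← hr]; exact hδ⟩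
  generalize padicValNat 3 (2 * n - 1) = τ at *
  have e1 : (2 * n - 1 : ℤ) = 3 ^ τ * δ := by
    have : ((2 * n - 1 : ℕ) : ℤ) = 2 * n - 1 := by omega
    rw [← this, hδ]; push_cast; ring
  obtain ⟨M, hM⟩ := hL
  obtain ⟨r, hr⟩ : (3 : ℤ) ∣ 3 ^ ν := dvd_pow_self 3 (by omega)
  refine hAD.2 A A3 _ _ (2 * n + 1) c (-((4 + 4 * β * 3 ^ ν * (l + μ + 1)) *
    (qm β (3 ^ ν) l + 1 + (2 * n + 1)))) (δ * (2 * n + 3)) α V ν f τ h3 hA hα
    (hAD.1 A _ ⟨n, rfl⟩) ?_ ?_ (by linear_combination (2 * n + 3) * e1) ?_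
  · rw [dvd_neg]
    intro h
    rcases ADx.p3.dvd_or_dvd h with g | g
    · rw [show 4 + 4 * β * 3 ^ ν * (l + μ + 1) = 4 + 3 * (4 * β * r * (l + μ + 1)) by
        rw [hr]; ring] at g
      omega
    · omega
  · have e2 := qm_sub β (3 ^ ν) l μ
    refine ⟨3 ^ ν * (L - 2 * M) * ((4 + 4 * β * 3 ^ ν * (l + μ + 1)) *
      (qm β (3 ^ ν) l + 1 + (2 * n + 1))), ?_⟩
    have e3 : l - μ = A * (L - 2 * M) - c := by linear_combination hl - hM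
    rw [e3, ← hn] at e2
    linear_combination (qm β (3 ^ ν) l + 1 + (2 * n + 1)) * e2
  · intro h
    rcases ADx.p3.dvd_or_dvd h with g | g
    · exact hδ' (by exact_mod_cast g)
    · omega

theorem lte {b : ℤ} (hb : ¬3 ∣ b) {n : ℕ} (hn : ¬(3 : ℤ) ∣ 2 * n + 1) (e : ℕ) :
    ∃ α, ch (6 * b) ((2 * n + 1) * 3 ^ e) = 3 ^ (e + 1) * α ∧ ¬3 ∣ α := by
  induction e with
  | zero =>
    obtain ⟨ε, u, w, h1, h2, -⟩ := ADx.odd_form (6 * b) n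
    refine ⟨2 * b * (ε * (2 * n + 1) + 3 * (12 * b ^ 2 * u)), by
      rw [pow_zero, mul_one, h2]; ring, fun h => ?_⟩
    rcases ADx.p3.dvd_or_dvd h with g | g
    · omega
    · rcases sq_eq_one_iff.1 h1 with rfl | rfl <;> omega
  | succ e ih =>
    obtain ⟨α, h1, h2⟩ := ih
    refine ⟨α * (3 * (4 * (3 ^ e * α) ^ 2) - 1), ?_, fun h => ?_⟩
    · obtain ⟨x, hx⟩ : ∃ x, x = ch (6 * b) ((2 * n + 1) * 3 ^ e) := ⟨_, rfl⟩
      have c3 : ch x 3 = 4 * x ^ 3 - 3 * x := by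
        rw [show (3 : ℤ) = 0 + 1 + 1 + 1 by norm_num, ch_succ x (0 + 1 + 1), ch_succ x (0 + 1),
          ps_succ x (0 + 1), ch_succ x 0, ps_succ x 0, H56.ch_zero, ps_zero]
        ring
      rw [show (2 * n + 1 : ℤ) * 3 ^ (e + 1) = 3 * ((2 * n + 1) * 3 ^ e) by ring, ← ch_comp, ← hx,
        c3, hx, h1]
      ring
    · rcases ADx.p3.dvd_or_dvd h with g | g
      · exact h2 g
      · omega

theorem size {A a κ β ν μ i : ℤ} {j : ℕ} (β1 : 1 ≤ β) (ν1 : 1 ≤ ν) (hκ : κ = 100 * β * ν ^ 2)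
    (ha : 12 * κ ≤ a) (h1 : a * (j : ℤ) ^ 2 ≤ A) (j1 : 1 ≤ j) (hi : |i| ≤ j)
    (hμ : κ * μ ^ 2 ≤ A - 1) (d : A - 1 ∣ i - (qm β ν μ + 1)) : i = qm β ν μ + 1 := by
  have j2 : (1 : ℤ) ≤ j := by omega
  have k1 : 100 ≤ κ := by rw [hκ]; nlinarith [mul_le_mul β1 (one_le_pow₀ ν1 (n := 2)) zero_le_one]
  have e1 : a * j ≤ A := le_trans (mul_le_mul_of_nonneg_left (by nlinarith) (by omega)) h1
  have e2 : 1200 * (j : ℤ) ≤ A := by nlinarith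
  have e3 : a ≤ A := by nlinarith
  obtain ⟨z, hz⟩ : ∃ z, z = ν * (2 * μ + 1) := ⟨_, rfl⟩
  have e4 : 100 * (β * z ^ 2) ≤ 8 * (κ * μ ^ 2) + 2 * κ := by
    have : 100 * (β * z ^ 2) = κ * (2 * μ + 1) ^ 2 := by rw [hz, hκ]; ring
    nlinarith [mul_nonneg (show 0 ≤ κ by omega) (sq_nonneg (2 * μ - 1))]
  have e5 : z ^ 2 ≤ β * z ^ 2 := le_mul_of_one_le_left (sq_nonneg z) β1
  have e6 : qm β ν μ = 1 + 2 * z + β * z ^ 2 := by rw [hz, qm]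
  have e7 : z ≤ z ^ 2 := Int.le_self_sq z
  have e8 : 0 ≤ 1 + 2 * z + z ^ 2 := by nlinarith [sq_nonneg (z + 1)]
  rw [abs_le] at hi
  have : |i - (qm β ν μ + 1)| < A - 1 := by
    rw [abs_lt, e6]
    constructor <;> omega
  linarith [Int.eq_zero_of_abs_lt_dvd d this]

end H98

open H98 in
theorem H98.sCORE : SRD → SAD → SSS → SSC → SCORE := by
  intro hRD hAD hSS hSC c ν f hc hν
  obtain ⟨p, N, K, K1, hp⟩ := hRD c hc
  refine ⟨fun β x => C0 p (3 ^ (f + ν + 1)) (2 * K * (100 * β * (3 ^ ν) ^ 2) + 1)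
    (qm β (3 ^ ν) (x 2) + 1) (100 * β * (3 ^ ν) ^ 2) (x 0) (x 1) (x 2) (x 3) (x 4) (x 5), N,
    pf_C0 p _ (by fun_prop) (by unfold qm; fun_prop) (by fun_prop) (PF.proj _) (PF.proj _)
      (PF.proj _) (PF.proj _) (PF.proj _) (PF.proj _), fun β hβ => ?_⟩
  have β1 : (1 : ℤ) ≤ β := by have := hβ.pos; omega
  have ν1 : (1 : ℤ) ≤ 3 ^ ν := one_le_pow₀ (by norm_num)
  obtain ⟨κ, hκ⟩ : ∃ κ : ℤ, κ = 100 * β * (3 ^ ν) ^ 2 := ⟨_, rfl⟩
  have κ1 : 1 ≤ κ := by rw [hκ]; nlinarith [mul_le_mul β1 (one_le_pow₀ ν1 (n := 2)) zero_le_one]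
  have κ3 : 3 ∣ κ := hκ ▸ (((dvd_pow_self 3 (by omega)).pow two_ne_zero).mul_left _)
  obtain ⟨b, hb⟩ : ∃ b : ℤ, b = 2 * K * κ + 1 := ⟨_, rfl⟩
  have Kκ : κ ≤ K * κ := le_mul_of_one_le_left (by omega) K1
  have b1 : 2 * (K * κ) + 1 = b := by rw [hb]; ring
  have b3 : ¬3 ∣ b := by
    have := κ3.mul_left K
    omega
  simp only [← hκ, ← hb, C0, C1, C2, C3]
  have common : ∀ A1 D1 : ℤ, Odd A1 → Even (gL (6 * b) (2 * A1) (2 * D1 + 1)) ∧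
      Odd (A1 ^ 2 * (2 * D1 + 1) ^ 2 - D1 ^ 2 - D1) ∧
      4 * (A1 ^ 2 * (2 * D1 + 1) ^ 2 - D1 ^ 2 - D1) = pl (2 * A1) (2 * D1 + 1) := fun A1 D1 o => by
    refine ⟨⟨3 * b + (A1 - 3 * b) * pl (2 * A1) (2 * D1 + 1), by rw [gL]; ring⟩, ?_,
      by rw [pl]; ring⟩
    rw [sub_sub, show D1 ^ 2 + D1 = D1 * (D1 + 1) by ring]
    exact (o.pow.mul (Odd.pow ⟨D1, rfl⟩)).sub_even (Int.even_mul_succ_self D1)
  have oA : ∀ v : ℤ, Odd (3 * b * (1 + ((6 * b) ^ 2 - 1) * (2 * v))) := fun v =>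
    (Odd.mul (by decide) ⟨K * κ, b1.symm⟩).mul ⟨((6 * b) ^ 2 - 1) * v, by ring⟩
  have eA : ∀ v : ℤ, 2 * (3 * b * (1 + ((6 * b) ^ 2 - 1) * (2 * v))) = aA (6 * b) (2 * v) :=
    fun v => by rw [aA]; ring
  have G3 : ∀ A D, 6 * b ≤ A → 2 ≤ gL (6 * b) A D := fun A D g => by
    have := mul_nonneg (sub_nonneg.2 g) (pl_pos (A := A) (by omega) D).le
    unfold gL; omega
  refine ⟨fun x e => ?_, fun μ n hN hn hd => ?_⟩
  · generalize x 0 = v, x 1 = g, x 2 = l, x 3 = y, x 4 = s, x 5 = z at e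
    have o1 := oA v
    have e1 := eA v
    have e3 : aA (6 * b) (2 * v) = 3 * (2 * b * (1 + ((6 * b) ^ 2 - 1) * (2 * v))) := by
      rw [aA]; ring
    generalize 2 * b * (1 + ((6 * b) ^ 2 - 1) * (2 * v)) = A3 at e e3
    generalize 3 * b * (1 + ((6 * b) ^ 2 - 1) * (2 * v)) = A1 at e o1 e1
    obtain ⟨D1, hD1⟩ : ∃ D1, D1 = A1 * (qm β (3 ^ ν) l + 1 - 1) + (2 * A1 - 1) * g := ⟨_, rfl⟩
    rw [← hD1] at e
    obtain ⟨c1, c2, c3⟩ := common A1 D1 o1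
    have dD : 2 * A1 - 1 ∣ 2 * D1 + 1 - (qm β (3 ^ ν) l + 1) :=
      ⟨qm β (3 ^ ν) l + 2 * g, by rw [hD1]; ring⟩
    generalize A1 ^ 2 * (2 * D1 + 1) ^ 2 - D1 ^ 2 - D1 = P at e c2 c3
    have oD : Odd (2 * D1 + 1) := ⟨D1, rfl⟩
    generalize 2 * D1 + 1 = D at e c1 c3 dD oD
    rw [e1] at e c1 c3 dD
    have hq := aA_sq (6 * b) (2 * v)
    obtain ⟨s1, s2⟩ := hSS _ _ _ _ _ _ _ _ _ c1 oD c2
      ⟨4, -((aA (6 * b) (2 * v) ^ 2 - 1) * D), by rw [c3, pl]; ring⟩ (by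
        have c4 : IsCoprime P ((6 * b) ^ 2 - 1) :=
          ⟨4, -(qQ (6 * b) (2 * v) * D ^ 2), by rw [c3, pl, hq]; ring⟩
        rw [show gL (6 * b) (aA (6 * b) (2 * v)) D ^ 2 - 1 = (6 * b) ^ 2 - 1 +
          P * (4 * (aA (6 * b) (2 * v) - 6 * b) * (6 * b + gL (6 * b) (aA (6 * b) (2 * v)) D)) by
            rw [gL, ← c3]; ring]
        exact c4.add_mul_left_right _) e
    obtain ⟨j, j1, hj⟩ := aA_index (by omega) s1
    generalize aA (6 * b) (2 * v) = A at *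
    have A1' : (6 * b) ^ j ≤ A := hj ▸ pow_le_ch (by omega) j
    have A2 : 6 * b ≤ A := (le_self_pow₀ (by omega) (by omega)).trans A1'
    have P0 := pl_pos (A := A) (by omega) D
    obtain ⟨R0, sP, ⟨S, w, ⟨y', hy⟩, hS⟩, dT⟩ := s2 (G3 _ _ A2) (by omega) (by
      rw [c3, show sL A D y ^ 2 - 1 = A ^ 2 - 1 + pl A D * (y * (A + sL A D y)) by rw [sL]; ring]
      exact (cop (a := A ^ 2 - 1) (b := pl A D) ⟨D ^ 2, by rw [pl]; ring⟩).symm.add_mul_left_right _)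
    have D0 : D ≠ 0 := by rintro rfl; exact absurd oD (by decide)
    have eS : sL A D (y + y') = S := by rw [c3, sL] at hy; rw [sL]; linarith
    obtain ⟨i, hi, ij⟩ := link (a := 6 * b) (C := D) (y := y + y') (by omega) j1 D0
      (by rw [← hj, ← c3]; exact sP) (by rw [← hj, eS, hS]; exact dvd_mul_right _ _)
      (by rw [← hj, eS, hS]; exact ⟨(gL (6 * b) A D ^ 2 - 1) * D * w, by ring⟩)
    rw [← hj] at hi
    have i0 : i ≠ 0 := by rintro rfl; exact D0 (hi.trans (ps_zero A))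
    have ij' : i.natAbs ≤ j := by
      rw [Int.abs_eq_natAbs] at ij
      exact_mod_cast ij
    obtain ⟨L, l1, l2, -⟩ := hp A κ i κ1 i0 (((pow_le_pow_left₀ (by omega)
      (show K * κ ≤ 6 * b by omega) _).trans (pow_le_pow_right₀ (by omega) ij')).trans A1')
    have l3 := l2 l (hi ▸ R0)
    obtain ⟨μ, hμ⟩ : ∃ μ, μ = l - (A - 1) * L := ⟨_, rfl⟩
    rw [← hμ] at l3
    have ei : i = qm β (3 ^ ν) μ + 1 := by
      obtain ⟨j, rfl⟩ := Nat.exists_eq_add_of_le' j1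
      refine size (j := j + 1) β1 ν1 hκ (show 12 * κ ≤ 6 * b by omega)
        (by push_cast; exact (sq_le_pow (by omega) j).trans A1') (by omega) ij l3 ?_
      have q1 := qm_sub β (3 ^ ν) l μ
      rw [show l - μ = (A - 1) * L by rw [hμ]; ring] at q1
      refine H56.dv ((dD.sub (ps_index A i)).add (dvd_mul_right (A - 1)
        (3 ^ ν * L * (4 + 4 * β * 3 ^ ν * (l + μ + 1))))) ?_
      rw [← hi]
      linear_combination q1
    obtain ⟨n, hn⟩ : ∃ n : ℕ, (2 * n : ℤ) = qm β (3 ^ ν) μ := by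
      obtain ⟨z, hz⟩ : ∃ z : ℤ, z = 3 ^ ν * (2 * μ + 1) := ⟨_, rfl⟩
      have e6 : qm β (3 ^ ν) μ = 1 + 2 * z + β * z ^ 2 := by rw [hz, qm]
      have e5 : z ^ 2 ≤ β * z ^ 2 := le_mul_of_one_le_left (sq_nonneg z) β1
      have e8 : 0 ≤ 1 + 2 * z + z ^ 2 := by nlinarith [sq_nonneg (z + 1)]
      have oz : Odd z := hz ▸ (Odd.pow (by decide)).mul ⟨μ, rfl⟩
      obtain ⟨r, hr⟩ : Odd ((β : ℤ) * z ^ 2) := (Int.odd_coe_nat β |>.2 hβ).mul oz.pow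
      exact ⟨(1 + z + r).toNat, by omega⟩
    refine ⟨μ, n, hn, ?_⟩
    have ei' : i = 2 * n + 1 := by omega
    obtain ⟨V, α, hA, hα⟩ : ∃ (V : ℕ) (α : ℤ), A = 3 ^ V * α ∧ ¬3 ∣ α :=
      ⟨_, (FiniteMultiplicity.of_prime_left ADx.p3
        (show A ≠ 0 by omega)).exists_eq_pow_mul_and_not_dvd⟩
    have l4 := l1 (by omega)
    rw [show i.toNat = 2 * n + 1 by omega] at l4
    refine ((gad hAD (f := f) e3 hA hα (by omega) hn (l := l) (L := L) (by rw [hμ]; ring) l4).1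
      ?_).2
    rw [← ei', ← hi, ← c3]
    obtain ⟨k, hk⟩ := hAD.1 A i (ei' ▸ ⟨n, rfl⟩)
    rw [← hi, ← c3] at hk
    have d1 : (3 : ℤ) ^ (2 * V) ∣ P :=
      (IsCoprime.pow_left (show IsCoprime (3 : ℤ) 4 from ⟨-1, 1, by norm_num⟩)).dvd_of_dvd_mul_left
        ⟨α ^ 2 * (i ^ 2 + A ^ 2 * k), by
          rw [show 4 * P = A ^ 2 * (i ^ 2 + A ^ 2 * k) by linear_combination hk]
          generalize i ^ 2 + A ^ 2 * k = t
          rw [hA]; ring⟩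
    have d2 : (3 : ℤ) ^ (30 * V) ∣ P ^ 15 := by
      rw [show 30 * V = 2 * V * 15 by ring, pow_mul]
      exact pow_dvd_pow_of_dvd d1 15
    exact (IsCoprime.pow (show IsCoprime (3 : ℤ) (3 * s + 1) from
      ⟨-s, 1, by ring⟩)).dvd_of_dvd_mul_right (d2.trans dT)
  · have t1 := qm_three β μ (ν := ν) (by omega)
    obtain ⟨e, he⟩ : ∃ e, e = f + 3 * padicValNat 3 (2 * n - 1) + ν := ⟨_, rfl⟩
    obtain ⟨α, hA, hα⟩ := lte b3 (n := n) (by omega) e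
    obtain ⟨k, hk⟩ : Odd ((2 * n + 1) * 3 ^ e) := Odd.mul ⟨n, rfl⟩ (Odd.pow (by decide))
    have hk' : (2 * n + 1 : ℤ) * 3 ^ e = 2 * k + 1 := by exact_mod_cast hk
    obtain ⟨v, hv⟩ : ∃ v, aA (6 * b) (2 * v) = ch (6 * b) (2 * k + 1) := by
      obtain ⟨v, hv⟩ := aA_complete (6 * b) k
      obtain ⟨ε, u, w, h1, h2, -⟩ := ADx.odd_form (6 * b) k
      have h3 : 1 + ((6 * b) ^ 2 - 1) * v = ε * (2 * k + 1) + (6 * b) ^ 2 * u :=
        mul_left_cancel₀ (show 6 * b ≠ 0 by omega) (by rw [aA] at hv; rw [hv, h2]; ring)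
      have h4 : v = 2 * (18 * b ^ 2 * (v - u) - ε * k) + (1 - ε) := by linear_combination -h3
      refine ⟨v / 2, ?_⟩
      rw [← hv]
      congr 1
      rcases sq_eq_one_iff.1 h1 with rfl | rfl <;> omega
    have o1 := oA v
    have e1 := eA v
    have e3 : aA (6 * b) (2 * v) = 3 * (2 * b * (1 + ((6 * b) ^ 2 - 1) * (2 * v))) := by
      rw [aA]; ring
    have hQ : qQ (6 * b) (2 * v) = ps (6 * b) (2 * k + 1) ^ 2 := by
      have h1 := aA_sq (6 * b) (2 * v)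
      rw [hv, pell, add_sub_cancel_right] at h1
      exact (mul_left_cancel₀ (by nlinarith) h1).symm
    rw [hk', ← hv] at hA
    obtain ⟨A, eA'⟩ : ∃ A, A = aA (6 * b) (2 * v) := ⟨_, rfl⟩
    rw [← eA'] at hv hA e1 e3
    have nk : 2 * n + 1 ≤ 2 * k + 1 := hk ▸ Nat.le_mul_of_pos_right _ (by positivity)
    have A1' : (6 * b) ^ (2 * k + 1) ≤ A := by
      have := pow_le_ch (a := 6 * b) (by omega) (2 * k + 1)
      push_cast at this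
      rwa [hv]
    have A2 : 6 * b ≤ A := (le_self_pow₀ (by omega) (by omega)).trans A1'
    obtain ⟨L, l1, -, l3⟩ := hp A κ (2 * n + 1) κ1 (by omega) (((pow_le_pow_left₀ (by omega)
      (show K * κ ≤ 6 * b by omega) _).trans (pow_le_pow_right₀ (by omega) (by omega))).trans A1')
    have l4 := l1 (by omega)
    rw [show (2 * n + 1 : ℤ).toNat = 2 * n + 1 by omega] at l4
    have l5 := l3 (by omega) μ (by
      have q1 : (μ : ℤ) ≤ 3 ^ ν * (2 * μ + 1) := by nlinarith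
      have q2 : (0 : ℤ) ≤ β * (3 ^ ν * (2 * μ + 1)) ^ 2 := by positivity
      rw [qm] at hn
      rw [abs_of_nonneg (by omega)]
      omega)
    obtain ⟨l, hl⟩ : ∃ l, l = (A - 1) * L + μ := ⟨_, rfl⟩
    rw [← hl] at l5
    have dT := (gad hAD (f := f) e3 hA hα (by omega) hn hl l4).2 ⟨by omega, hd⟩
    obtain ⟨D1, hD1⟩ := H34.ps_odd A (X := 2 * n + 1) ⟨n, rfl⟩
    obtain ⟨A1, hA1⟩ : ∃ A1, A1 = 3 * b * (1 + ((6 * b) ^ 2 - 1) * (2 * v)) := ⟨_, rfl⟩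
    rw [← hA1] at o1 e1
    obtain ⟨g, hg⟩ : 2 * A1 - 1 ∣ D1 - A1 * (qm β (3 ^ ν) l + 1 - 1) := by
      refine (show IsCoprime (2 * A1 - 1) 2 from ⟨-1, A1, by ring⟩).dvd_of_dvd_mul_left ?_
      have q1 := qm_sub β (3 ^ ν) l μ
      rw [show l - μ = (A - 1) * L by rw [hl]; ring, ← hn] at q1
      rw [e1]
      refine H56.dv (((ps_index A (2 * n + 1)).sub (dvd_mul_right (A - 1)
        (3 ^ ν * L * (4 + 4 * β * 3 ^ ν * (l + μ + 1))))).sub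
        (dvd_mul_right (A - 1) (qm β (3 ^ ν) l))) ?_
      rw [hD1]
      linear_combination -q1 - qm β (3 ^ ν) l * e1
    obtain ⟨c1, c2, c3⟩ := common A1 D1 o1
    obtain ⟨P, hP⟩ : ∃ P, P = A1 ^ 2 * (2 * D1 + 1) ^ 2 - D1 ^ 2 - D1 := ⟨_, rfl⟩
    rw [← hP] at c2 c3
    rw [e1, ← hD1] at c1 c3
    have P0 := pl_pos (A := A) (by omega) (ps A (2 * n + 1))
    obtain ⟨r, hr⟩ := hAD.1 A (2 * n + 1) ⟨n, rfl⟩
    rw [← c3] at hr dT
    rw [show 30 * (e + 1) = 15 * (2 * (e + 1)) by ring] at dT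
    have q2 : 4 * P = 3 ^ (2 * (e + 1)) * (α ^ 2 * ((2 * n + 1) ^ 2 + A ^ 2 * r)) := by
      rw [show 4 * P = A ^ 2 * ((2 * n + 1) ^ 2 + A ^ 2 * r) by linear_combination hr]
      generalize (2 * n + 1 : ℤ) ^ 2 + A ^ 2 * r = t
      rw [hA]; ring
    obtain ⟨u, hu⟩ : (3 : ℤ) ^ (2 * (e + 1)) ∣ P :=
      (IsCoprime.pow_left (show IsCoprime (3 : ℤ) 4 from ⟨-1, 1, by norm_num⟩)).dvd_of_dvd_mul_left
        ⟨_, q2⟩
    have u3 : ¬3 ∣ u := fun h => by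
      have q3 : 4 * u = α ^ 2 * ((2 * n + 1) ^ 2 + A ^ 2 * r) :=
        mul_left_cancel₀ (show (3 : ℤ) ^ (2 * (e + 1)) ≠ 0 by positivity)
          (by rw [← q2, hu]; ring)
      rcases ADx.p3.dvd_or_dvd (q3 ▸ h.mul_left 4) with g | g
      · exact ADx.unit_pow hα 2 g
      · have q4 : 3 ∣ A ^ 2 * r := (Dvd.dvd.pow ⟨_, e3⟩ two_ne_zero).mul_right r
        have := ADx.p3.dvd_of_dvd_pow ((dvd_add_left q4).1 g)
        omega
    have dA : ps A (2 * n + 1) ∣ gL (6 * b) A (ps A (2 * n + 1)) - A :=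
      ⟨(A - 6 * b) * (A ^ 2 - 1) * ps A (2 * n + 1), by rw [gL, pl]; ring⟩
    obtain ⟨S, s, z, d1, e4⟩ := hSC (qQ (6 * b) (2 * v)) P _ _ _ _ (2 * k + 1) u (2 * (e + 1)) c1
      ⟨D1, hD1⟩ c2 (G3 _ _ A2) (by omega) l5 (by omega) hu u3 dT ⟨k, rfl⟩
      (hk' ▸ (dvd_pow_self 3 (by omega)).mul_left _) ⟨_, by rw [hQ, sq]⟩
      ⟨ch A (2 * n + 1), by rw [c3, pl, ← pell, sq]⟩
      (H56.dv ((dA.trans (ps_dvd_sub _ _ (2 * k + 1))).add
        (hk' ▸ ps_dvd_mul A (2 * n + 1) (3 ^ e))) (by ring))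
    obtain ⟨y, hy⟩ : pl A (ps A (2 * n + 1)) ∣ S - A :=
      H56.dv ((c3 ▸ d1).add (Dvd.dvd.trans ⟨A - 6 * b, by rw [gL]; ring⟩
        (ch_dvd_sub (6 * b) (gL (6 * b) A (ps A (2 * n + 1))) (2 * k + 1)))) (by rw [← hv]; ring)
    refine ⟨![v, g, l, y, s, z], ?_⟩
    rw [show S = sL A (ps A (2 * n + 1)) y by rw [sL]; linarith] at e4
    simp only [Matrix.cons_val]
    rw [← hA1, show A1 * (qm β (3 ^ ν) l + 1 - 1) + (2 * A1 - 1) * g = D1 by linarith, ← hP, e1,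
      ← hD1]
    exact e4

end Pool.Agent.MP_fed7c7_lc.S6
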