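import Pool.Agent.MP_fed7c7_lc.S6.Spec

set_option autoImplicit false

/-!
Tableaux as chains of labels.
-/

namespace Pool.Agent.MP_fed7c7_lc.S6

open Pool.Agent.MP_fed7c7_lc.H93

namespace LABx

/-- Labels: letter, previous letter, flag, colour, phase. -/
abbrev T : Type := ℕ × ℕ × ℕ × ℕ × ℕ

/-- The next colour. -/
def sc (c : ℕ) : ℕ := if c = 4 then 2 else c + 1

/-- The colour of a row. -/
def col : ℕ → ℕ
  | 0 => 0
  | n + 1 => sc (col n)

theorem sc_ne (c : ℕ) : sc c ≠ 0 := by unfold sc; split_ifs <;> omega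

theorem sc_one {c : ℕ} (h : sc c = 1) : c = 0 := by unfold sc at h; split_ifs at h <;> omega

theorem sc_sc (c : ℕ) : c ≠ sc (sc c) := by unfold sc; split_ifs <;> omega

theorem col_lt (n : ℕ) : col n < 5 := by
  induction n with
  | zero => simp [col]
  | succ n ih => unfold col sc; split_ifs <;> omega

theorem col_zero {n : ℕ} (h : col n = 0) : n = 0 := by
  cases n with
  | zero => rfl
  | succ n => exact absurd h (sc_ne _)

theorem col_one {n : ℕ} (h : col n = 1) : n = 1 := by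
  cases n with
  | zero => simp [col] at h
  | succ n => rw [col_zero (sc_one h)]

/-- The code of a label. -/
def enc (t : T) : ℕ := Encodable.encode t

/-- The label of a code. -/
def dec (n : ℕ) : T := (Encodable.decode n).getD (0, 0, 0, 0, 0)

theorem dec_enc (t : T) : dec (enc t) = t := by
  rw [dec, enc, Encodable.encodek]
  rfl

/-- The bound. -/
def bd (r : ℕ) : ℕ :=
  (Finset.range (2 * r + 2) ×ˢ Finset.range (2 * r + 2) ×ˢ Finset.range 2 ×ˢ Finset.range 5 ×ˢ
    Finset.range 3).sup enc + 1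

theorem enc_lt {r : ℕ} {t : T} (h1 : t.1 < 2 * r + 2) (h2 : t.2.1 < 2 * r + 2)
    (h3 : t.2.2.1 < 2) (h4 : t.2.2.2.1 < 5) (h5 : t.2.2.2.2 < 3) : enc t < bd r :=
  Nat.lt_succ_of_le (Finset.le_sup (f := enc) (by
    simp only [Finset.mem_product, Finset.mem_range]
    exact ⟨h1, h2, h3, h4, h5⟩))

variable (r f c e : ℕ) (W : ℕ → ℕ → ℕ → ℕ → Prop)

/-- Consecutive labels. -/
structure NX (a b : T) : Prop where
  z : b.2.1 = a.1
  z0 : b.2.1 ≠ 0
  x : b.1 = 1 ∨ ∃ g < r, b.1 = 2 * g + 2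
  co : b.2.2.2.1 = if b.2.2.1 = 1 then sc a.2.2.2.1 else a.2.2.2.1
  w : b.2.2.2.1 = 0 → W b.1 0 b.2.1 0
  ph : (a.2.2.2.2 = 0 ∧ b.2.2.2.2 = 0 ∧ b.1 = 2 * c + 2) ∨
    (a.2.2.2.2 = 0 ∧ b.2.2.2.2 = 1 ∧ b.1 = 2 * e + 2) ∨ (a.2.2.2.2 ≠ 0 ∧ b.2.2.2.2 = 2)

/-- Labels one row apart. -/
def CK (a b : T) : Prop := a.2.2.1 = b.2.2.1 ∧
  ((a.2.2.2.1 = sc b.2.2.2.1 ∧ W a.1 b.1 a.2.1 b.2.1) ∨
    (b.2.2.2.1 = sc a.2.2.2.1 ∧ W b.1 a.1 b.2.1 a.2.1))

/-- The system. -/
def sy (hf : f < r) : Sy where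
  R := bd r
  fst := enc (2 * f + 2, 0, 1, 0, 0)
  nx a b := NX r c e W (dec a) (dec b)
  fin a := (dec a).1 = 1
  st a := (dec a).2.2.1 = 1 ∧ (dec a).2.2.2.1 = 1
  mark a := (dec a).2.2.2.2 = 1
  seen a := (dec a).2.2.2.1 ≠ 0
  ck a b := CK W (dec a) (dec b)
  h1 := enc_lt (by simp only; omega) (by simp) (by simp) (by simp) (by simp)
  h2 a b h hb := h.z0 (by rw [hb, dec_enc])
  h3 h := by rw [dec_enc] at h; simp at h
  h4 a h := by omega
  h5 a b h ha := by
    have := h.co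
    split_ifs at this with h1
    · exact ⟨by rw [this]; exact sc_ne _, fun h2 => ha (sc_one (this ▸ h2.2))⟩
    · exact ⟨by rw [this]; exact ha, fun h2 => h1 h2.1⟩
  h6 a b h := ⟨h.1.symm, h.2.symm⟩

theorem sound (hf : f < r) (a N : ℕ) (t : ℕ → T) (h0 : t 0 = (2 * f + 2, 0, 1, 0, 0))
    (hn : ∀ i < N, NX r c e W (t i) (t (i + 1)) ∧ (t i).1 ≠ 1) (hN : (t N).1 = 1)
    (ha : a + 1 ≤ N) (hm : (t (a + 1)).2.2.2.2 = 1)
    (hk : ∀ k i, k ≤ i → i ≤ N → (t k).2.2.1 = 1 ∧ (t k).2.2.2.1 = 1 → CK W (t i) (t (i - k))) :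
    Tab r f c e W a := by
  have hx : ∀ i < N, ∃ g < r, (t i).1 = 2 * g + 2 := fun i hi => by
    cases i with
    | zero => exact ⟨f, hf, by rw [h0]⟩
    | succ i => exact (hn i (by omega)).1.x.resolve_left (hn _ hi).2
  have hl : ∀ i ≤ N, lt N (fun i => (t i).1 / 2 - 1) i = (t i).1 := fun i hi => by
    unfold lt
    split_ifs with h1 h2
    · obtain ⟨g, -, hg⟩ := hx i h1
      simp only [hg]
      omega
    · rw [h2, hN]
    · omega
  have hz : ∀ i ≤ N, sh 1 (lt N fun i => (t i).1 / 2 - 1) i = (t i).2.1 := fun i hi => by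
    cases i with
    | zero => rw [h0]; rfl
    | succ i =>
      rw [(hn i (by omega)).1.z, sh, if_pos (by omega), Nat.add_sub_cancel, hl i (by omega)]
  have hp : ∀ i j, i + j + 1 ≤ N → (t i).2.2.2.2 ≠ 0 → (t (i + j + 1)).2.2.2.2 = 2 := by
    intro i j
    induction j with
    | zero =>
      intro h1 h2
      have := (hn i (by omega)).1.ph
      simp only [Nat.add_zero]
      omega
    | succ j ih =>
      intro h1 h2
      have h3 := ih (by omega) h2
      have := (hn (i + j + 1) (by omega)).1.ph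
      rw [← Nat.add_assoc]
      omega
  have hp0 : ∀ i ≤ a, (t i).2.2.2.2 = 0 := fun i hi => by
    by_contra h
    have := hp i (a - i) (by omega) h
    rw [show i + (a - i) + 1 = a + 1 by omega] at this
    omega
  have he : (t (a + 1)).1 = 2 * e + 2 := by
    have := (hn a (by omega)).1.ph
    omega
  have hex : ∃ k, N < k ∨ (t k).2.2.2.1 ≠ 0 := ⟨N + 1, Or.inl (by omega)⟩
  classical
  obtain ⟨k, hk1, hk2⟩ : ∃ k, (N < k ∨ (t k).2.2.2.1 ≠ 0) ∧
      ∀ i < k, ¬(N < i ∨ (t i).2.2.2.1 ≠ 0) :=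
    ⟨Nat.find hex, Nat.find_spec hex, fun i hi => Nat.find_min hex hi⟩
  have hk0 : 1 ≤ k := by
    by_contra h
    obtain rfl : k = 0 := by omega
    rw [h0] at hk1
    simp at hk1
  have hst : k ≤ N → (t k).2.2.1 = 1 ∧ (t k).2.2.2.1 = 1 := fun h => by
    obtain ⟨j, rfl⟩ : ∃ j, k = j + 1 := ⟨k - 1, by omega⟩
    have h1 := (hn j (by omega)).1.co
    have h2 : (t j).2.2.2.1 = 0 := by have := hk2 j (by omega); omega
    rw [h2] at h1
    split_ifs at h1 with h3
    · exact ⟨h3, h1⟩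
    · omega
  have hor : ∀ j, k + j ≤ N → (t (k + j)).2.2.2.1 = sc (t j).2.2.2.1 := by
    intro j
    induction j with
    | zero => intro h; rw [h0]; exact (hst h).2
    | succ j ih =>
      intro h
      have h1 := (hk k (k + (j + 1)) (by omega) h (hst (by omega))).1
      rw [Nat.add_sub_cancel_left] at h1
      have h2 := (hn (k + j) (by omega)).1.co
      have h3 := (hn j (by omega)).1.co
      rw [← Nat.add_assoc] at h1 ⊢
      rw [h2, h3, h1, ih (by omega)]
      split_ifs <;> rfl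
  refine ⟨k, N, fun i => (t i).1 / 2 - 1, hk0, ?_, ?_, fun i h1 h2 => ?_, ?_, fun i hi => ?_,
    fun i h1 h2 => ?_⟩
  · by_contra h
    rw [show a + 1 = N by omega] at he
    omega
  · simp only [h0]
    omega
  · obtain ⟨j, rfl⟩ : ∃ j, i = j + 1 := ⟨i - 1, by omega⟩
    have h3 := (hn j (by omega)).1.ph
    have h4 := hp0 (j + 1) h2
    simp only
    omega
  · simp only [he]
    omega
  · obtain ⟨g, hg, h⟩ := hx i hi
    simp only [h]
    omega
  · rw [hl i h2, hz i h2]
    by_cases h : i < k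
    · obtain ⟨j, rfl⟩ : ∃ j, i = j + 1 := ⟨i - 1, by omega⟩
      rw [sh, sh, if_neg (by omega), if_neg (by omega)]
      exact (hn j (by omega)).1.w (by have := hk2 _ h; omega)
    · obtain ⟨j, rfl⟩ : ∃ j, i = k + j := ⟨i - k, by omega⟩
      have h3 := (hk k (k + j) (by omega) h2 (hst (by omega))).2
      rw [Nat.add_sub_cancel_left] at h3
      have h4 : sh (k + 1) (lt N fun i => (t i).1 / 2 - 1) (k + j) = (t j).2.1 := by
        rw [← hz j (by omega), sh, sh]
        split_ifs with h5 h6 h6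
        · rw [show k + j - (k + 1) = j - 1 by omega]
        · omega
        · omega
        · rfl
      rw [h4, sh, if_pos (by omega), Nat.add_sub_cancel_left, hl j (by omega)]
      rcases h3 with h3 | h3
      · exact h3.2
      · exact absurd (h3.1.trans (by rw [hor j h2])) (sc_sc _)

/-- The labels of a tableau. -/
def lab (k N a : ℕ) (G : ℕ → ℕ) (i : ℕ) : T :=
  (lt N G i, sh 1 (lt N G) i, if k ∣ i then 1 else 0, col (i / k),
    if i ≤ a then 0 else if i = a + 1 then 1 else 2)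

theorem complete (a : ℕ) (h : Tab r f c e W a) : ∃ (N : ℕ) (t : ℕ → T),
    t 0 = (2 * f + 2, 0, 1, 0, 0) ∧ (∀ i, enc (t i) < bd r) ∧
    (∀ i < N, NX r c e W (t i) (t (i + 1)) ∧ (t i).1 ≠ 1) ∧ (t N).1 = 1 ∧ a + 1 ≤ N ∧
    (t (a + 1)).2.2.2.2 = 1 ∧
    ∀ k i, k ≤ i → i ≤ N → (t k).2.2.1 = 1 ∧ (t k).2.2.2.1 = 1 → CK W (t i) (t (i - k)) := by
  obtain ⟨k, N, G, hk, ha, h0, hc, he, hG, hW⟩ := h
  have hl : ∀ i, lt N G i < 2 * r + 2 := fun i => by
    unfold lt
    split_ifs with h1 h2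
    · have := hG i h1
      omega
    · omega
    · omega
  refine ⟨N, lab k N a G, ?_, fun i => ?_, fun i hi => ⟨?_, ?_⟩, ?_,
    by omega, ?_, fun k' i h1 h2 h4 => ?_⟩
  · simp [lab, lt, sh, col, h0, show 0 < N by omega]
  · refine enc_lt (hl i) ?_ ?_ (col_lt _) ?_
    · show sh 1 (lt N G) i < _
      unfold sh
      split_ifs
      · exact hl _
      · omega
    · show (if k ∣ i then 1 else 0) < 2
      split_ifs <;> omega
    · show (if i ≤ a then 0 else if i = a + 1 then 1 else 2) < 3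
      split_ifs <;> omega
  · have hz : sh 1 (lt N G) (i + 1) = lt N G i := by simp [sh]
    refine ⟨hz, ?_, ?_, ?_, fun h => ?_, ?_⟩
    · show sh 1 (lt N G) (i + 1) ≠ 0
      rw [hz, lt, if_pos hi]
      omega
    · show lt N G (i + 1) = 1 ∨ ∃ g < r, lt N G (i + 1) = 2 * g + 2
      unfold lt
      split_ifs with h1 h2
      · exact Or.inr ⟨_, hG _ h1, rfl⟩
      · exact Or.inl rfl
      · omega
    · show col ((i + 1) / k) = if (if k ∣ i + 1 then 1 else 0) = 1 then sc (col (i / k))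
        else col (i / k)
      rw [Nat.succ_div]
      by_cases h : k ∣ i + 1 <;> simp [h, col]
    · have h1 : i + 1 < k := by
        have := col_zero (show col ((i + 1) / k) = 0 from h)
        rwa [Nat.div_eq_zero_iff_lt hk] at this
      have := hW (i + 1) (by omega) hi
      rwa [sh, sh.eq_1 (k + 1), if_neg (by omega), if_neg (by omega)] at this
    · simp only [lab, lt]
      rcases lt_trichotomy i a with h | rfl | h
      · have := hc (i + 1) (by omega) h
        refine Or.inl ⟨if_pos h.le, if_pos h, ?_⟩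
        rw [if_pos (by omega), this]
      · refine Or.inr (Or.inl ⟨if_pos le_rfl, by simp, ?_⟩)
        rw [if_pos (by omega), he]
      · refine Or.inr (Or.inr ⟨?_, ?_⟩)
        · split_ifs <;> omega
        · rw [if_neg (by omega), if_neg (by omega)]
  · show lt N G i ≠ 1
    rw [lt, if_pos hi]
    omega
  · simp [lab, lt]
  · simp [lab]
  · have h5 : k ∣ k' := by
      by_contra h
      simp [lab, h] at h4
    obtain rfl : k' = k := by
      have := Nat.mul_div_cancel' h5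
      rw [col_one (show col (k' / k) = 1 from h4.2)] at this
      omega
    obtain ⟨j, rfl⟩ : ∃ j, i = k' + j := ⟨i - k', by omega⟩
    rw [Nat.add_sub_cancel_left]
    refine ⟨?_, Or.inl ⟨?_, ?_⟩⟩
    · show (if k' ∣ k' + j then 1 else 0) = if k' ∣ j then 1 else 0
      simp only [Nat.dvd_add_self_left]
    · show col ((k' + j) / k') = sc (col (j / k'))
      rw [Nat.add_div_left _ hk]
      rfl
    · have h6 := hW (k' + j) (by omega) h2
      have h7 : sh (k' + 1) (lt N G) (k' + j) = sh 1 (lt N G) j := by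
        rw [sh, sh]
        split_ifs with h5 h6 h6
        · rw [show k' + j - (k' + 1) = j - 1 by omega]
        · omega
        · omega
        · rfl
      rwa [h7, sh.eq_1 k', if_pos (by omega), Nat.add_sub_cancel_left] at h6

end LABx

open LABx in
theorem sLAB : SLAB := by
  intro r f c e W hf _ _
  refine ⟨sy r f c e W hf, fun a => ⟨fun h => ?_, ?_⟩⟩
  · obtain ⟨N, t, h0, hb, hn, hN, ha, hm, hk⟩ := complete r f c e W a h
    obtain ⟨g, hg, hd⟩ : ∃ g : ℕ → ℕ, (∀ i, g i = enc (t i)) ∧ ∀ i, t i = dec (g i) :=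
      ⟨fun i => enc (t i), fun _ => rfl, fun i => (dec_enc _).symm⟩
    have h1 : g 0 = enc (2 * f + 2, 0, 1, 0, 0) := by rw [hg, h0]
    have h2 : ∀ i, g i < bd r := fun i => by rw [hg]; exact hb i
    obtain rfl : t = fun i => dec (g i) := funext hd
    exact ⟨N, g, h1, fun i _ => h2 i, hn, hN, ha, hm, hk⟩
  · rintro ⟨N, g, h0, -, hn, hN, ha, hm, hk⟩
    exact sound r f c e W hf a N (fun i => dec (g i)) (by rw [h0]; exact dec_enc _) hn hN ha hm hk

end Pool.Agent.MP_fed7c7_lc.S6
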