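import Pool.Agent.MP_fed7c7_lc.S6.Spec

set_option autoImplicit false

/-!
The central binomial coefficients are coefficients of a nice series.
-/

namespace Pool.Agent.MP_fed7c7_lc.S6

open PowerSeries Finset Pool.Agent.MP_fed7c7_lc.H93

namespace NBx

/-- The series of the central binomial coefficients. -/
noncomputable def G : ℤ⟦X⟧ := mk fun n => (n.centralBinom : ℤ)

theorem G_der : (1 - 4 * X) * d⁄dX ℤ G = 2 * G := by
  ext n
  have h : ((n + 1 : ℕ) : ℤ) * ((n + 1).centralBinom : ℤ) =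
      2 * (2 * n + 1) * (n.centralBinom : ℤ) := by
    exact_mod_cast Nat.succ_mul_centralBinom_succ n
  have e4 : (4 : ℤ⟦X⟧) = C 4 := rfl
  have e2 : (2 : ℤ⟦X⟧) = C 2 := rfl
  rw [sub_mul, one_mul, map_sub, mul_assoc, e4, e2, coeff_C_mul, coeff_C_mul, coeff_derivative]
  rcases n with _ | n
  · simp only [G, coeff_mk, coeff_zero_X_mul]
    rfl
  · rw [coeff_succ_X_mul, coeff_derivative]
    simp only [G, coeff_mk]
    push_cast at h ⊢
    linear_combination h

theorem G_sq : G ^ 2 * (1 - 4 * X) = 1 := by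
  refine derivative.ext ?_ ?_
  · have e4 : (4 : ℤ⟦X⟧) = C 4 := rfl
    have d4 : d⁄dX ℤ (4 : ℤ⟦X⟧) = 0 := by rw [e4, derivative_C]
    have d1 : d⁄dX ℤ (1 : ℤ⟦X⟧) = 0 := Derivation.map_one_eq_zero _
    rw [Derivation.leibniz, sq, Derivation.leibniz, map_sub, Derivation.leibniz, d4, d1,
      derivative_X]
    simp only [smul_eq_mul]
    linear_combination 2 * G * G_der
  · have : constantCoeff G = 1 := by
      rw [← coeff_zero_eq_constantCoeff_apply, G, coeff_mk]
      rfl
    simp [this]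

/-- The same series in the variable `X ^ 2`. -/
noncomputable def H : ℤ⟦X⟧ := expand 2 two_ne_zero G

theorem H_sq : H ^ 2 * (1 - 4 * X ^ 2) = 1 := by
  have := congrArg (expand 2 two_ne_zero) G_sq
  simpa [H, map_ofNat] using this

theorem H_eb : EB H := by
  refine ⟨4, by norm_num, fun m => ?_⟩
  rw [H, coeff_expand]
  split_ifs
  · simp only [G, coeff_mk, Int.cast_natCast, Nat.abs_cast]
    have : ((m / 2).centralBinom : ℝ) ≤ 4 ^ (m / 2) := by
      exact_mod_cast ((Nat.choose_le_two_pow _ _).trans_eq (by rw [pow_mul]; rfl) :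
        (m / 2).centralBinom ≤ 4 ^ (m / 2))
    exact this.trans (pow_le_pow_right₀ (by norm_num) (by omega))
  · simp

theorem alg_two {R : Subalgebra ℤ ℤ⟦X⟧} (D : R) {g : ℤ⟦X⟧} (e : g ^ 2 * D = 1) :
    IsAlgebraic R g := by
  refine ⟨Polynomial.C D * Polynomial.X ^ 2 - Polynomial.C 1, fun z => ?_, ?_⟩
  · have := congrArg (fun p => Polynomial.coeff p 0) z
    simp at this
  · simp only [map_sub, map_mul, map_pow, Polynomial.aeval_C, Polynomial.aeval_X, map_one]
    exact sub_eq_zero.2 ((mul_comm _ _).trans e)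

theorem H_alg : IsAlgebraic RS H := by
  let R := Subalgebra.algebraicClosure RS ℤ⟦X⟧
  have h : IsAlgebraic RS (1 - 4 * X ^ 2 : ℤ⟦X⟧) :=
    isAlgebraic_one.sub ((isAlgebraic_natCast 4).mul (Nice.var.2.pow 2))
  have : IsAlgebraic R H := alg_two (R := R.restrictScalars ℤ) ⟨_, h⟩ H_sq
  exact this.restrictScalars RS

end NBx

theorem sNB : SNB := by
  refine ⟨X * NBx.H, Nice.var.mul ⟨NBx.H_eb, NBx.H_alg⟩, fun n => ?_⟩
  rw [coeff_succ_X_mul, NBx.H, coeff_expand, if_pos (dvd_mul_right _ _),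
    Nat.mul_div_cancel_left _ two_pos]
  simp [NBx.G]

end Pool.Agent.MP_fed7c7_lc.S6
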